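import Mathlib

/-!
# Definitions for the property tau theorem (MP_972ac7_al)

Part I: VH data, their finite representations, spectral gap predicates.
Part II: quaternion objects.
-/

open scoped Quaternion BigOperators

namespace TauQ

/-! ## Part I -/

/-- A VH datum: the combinatorics of two finite symmetric sets `A`, `B` of a group with
`a b = b' a'` for a bijection `(a,b) -> (b',a')`. -/
structure VH (A B : Type) where
  invA : A → A
  invB : B → B
  vh : A × B ≃ B × A
  invA_invA : ∀ a, invA (invA a) = a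
  invB_invB : ∀ b, invB (invB b) = b
  h1 : ∀ a b, vh (invA a, (vh (a, b)).1) = (b, invA (vh (a, b)).2)
  h2 : ∀ a b, vh ((vh (a, b)).2, invB b) = (invB (vh (a, b)).1, a)

namespace VH

variable {A B : Type}

/-- exchange the two sets -/
def swap (h : VH A B) : VH B A where
  invA := h.invB
  invB := h.invA
  vh := h.vh.symm
  invA_invA := h.invB_invB
  invB_invB := h.invA_invA
  h1 := by
    intro b a
    have e : h.vh ((h.vh.symm (b, a)).1, (h.vh.symm (b, a)).2) = (b, a) := by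
      rw [Prod.mk.eta, Equiv.apply_symm_apply]
    have := h.h2 (h.vh.symm (b, a)).1 (h.vh.symm (b, a)).2
    rw [e] at this
    rw [Equiv.symm_apply_eq]
    exact this.symm
  h2 := by
    intro b a
    have e : h.vh ((h.vh.symm (b, a)).1, (h.vh.symm (b, a)).2) = (b, a) := by
      rw [Prod.mk.eta, Equiv.apply_symm_apply]
    have := h.h1 (h.vh.symm (b, a)).1 (h.vh.symm (b, a)).2
    rw [e] at this
    rw [Equiv.symm_apply_eq]
    exact this.symm

/-- the local permutation of `A` attached to `b`: `sigma b a' = a` iff `b a' = a b''`. -/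
def sigma (h : VH A B) (b : B) : Equiv.Perm A where
  toFun a := (h.vh.symm (b, a)).1
  invFun a := (h.vh.symm (h.invB b, a)).1
  left_inv := by
    intro a
    have := h.swap.h1 b a
    simp only [swap] at this
    exact congrArg Prod.fst this
  right_inv := by
    intro a
    have := h.swap.h1 (h.invB b) a
    simp only [swap] at this
    rw [h.invB_invB] at this
    exact congrArg Prod.fst this

/-- the local group -/
def SA (h : VH A B) : Subgroup (Equiv.Perm A) := Subgroup.closure (Set.range h.sigma)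

/-- `sigma b` as an element of the local group -/
def sig (h : VH A B) (b : B) : h.SA :=
  ⟨h.sigma b, Subgroup.subset_closure (Set.mem_range_self b)⟩

noncomputable instance instFintypeSA (h : VH A B) [Finite A] : Fintype h.SA := Fintype.ofFinite _

/-- the local group is perfect and transitive -/
def Good (h : VH A B) : Prop :=
  commutator h.SA = ⊤ ∧ ∀ a a' : A, ∃ s : h.SA, (s : Equiv.Perm A) a = a'

end VH

/-- A representation of a VH datum in a group `Q`, with the two parity characters. -/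
structure Rep {A B : Type} (h : VH A B) (Q : Type) [Group Q] where
  al : A → Q
  be : B → Q
  al_inv : ∀ a, al (h.invA a) = (al a)⁻¹
  be_inv : ∀ b, be (h.invB b) = (be b)⁻¹
  comm : ∀ a b, al a * be b = be (h.vh (a, b)).1 * al (h.vh (a, b)).2
  chiA : Q →* ℤˣ
  chiB : Q →* ℤˣ
  chiA_al : ∀ a, chiA (al a) = -1
  chiA_be : ∀ b, chiA (be b) = 1
  chiB_al : ∀ a, chiB (al a) = 1
  chiB_be : ∀ b, chiB (be b) = -1
  gen : Subgroup.closure (Set.range al ∪ Set.range be) = ⊤

namespace Rep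

variable {A B : Type} {h : VH A B} {Q : Type} [Group Q]

/-- exchange the two sides -/
def swap (r : Rep h Q) : Rep h.swap Q where
  al := r.be
  be := r.al
  al_inv := r.be_inv
  be_inv := r.al_inv
  comm := by
    intro b a
    have e : h.vh ((h.vh.symm (b, a)).1, (h.vh.symm (b, a)).2) = (b, a) := by
      rw [Prod.mk.eta, Equiv.apply_symm_apply]
    have := r.comm (h.vh.symm (b, a)).1 (h.vh.symm (b, a)).2
    rw [e] at this
    exact this.symm
  chiA := r.chiB
  chiB := r.chiA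
  chiA_al := r.chiB_be
  chiA_be := r.chiB_al
  chiB_al := r.chiA_be
  chiB_be := r.chiA_al
  gen := by rw [Set.union_comm]; exact r.gen

/-- the permutation `(y,x) -> (sigma_b y, b x)` of `SA × Q` -/
def tau (r : Rep h Q) (b : B) : Equiv.Perm (h.SA × Q) :=
  Equiv.prodCongr (Equiv.mulLeft (h.sig b)) (Equiv.mulLeft (r.be b))

@[simp] lemma tau_apply (r : Rep h Q) (b : B) (z : h.SA × Q) :
    r.tau b z = (h.sig b * z.1, r.be b * z.2) := rfl

/-- the `B`-variation of a function on `SA × Q` -/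
noncomputable def varB [Finite A] [Fintype B] [Fintype Q] (r : Rep h Q)
    (f : h.SA × Q → ℂ) : ℝ :=
  ∑ b, ∑ z, ‖f (r.tau b z) - f z‖ ^ 2

/-- spectral gap `g` on the right `D`-invariant functions on `SA × Q` with zero sum on each
`chiA`-class -/
def GB [Finite A] [Fintype B] [Fintype Q] (r : Rep h Q) (D : Subgroup Q) (g : ℝ) : Prop :=
  ∀ f : h.SA × Q → ℂ, (∀ z, ∀ d ∈ D, f (z.1, z.2 * d) = f z) →
    (∀ κ : ℤˣ, ∑ z, (if r.chiA z.2 = κ then f z else 0) = 0) →
    2 * g * ∑ z, ‖f z‖ ^ 2 ≤ r.varB f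

/-- iterated commutators of a subgroup -/
def dser (D : Subgroup Q) : ℕ → Subgroup Q
  | 0 => D
  | n + 1 => ⁅dser D n, dser D n⁆

end Rep

/-! ## Part II -/

/-- the quaternion with given coordinates -/
def mk4 {R : Type*} [Zero R] [One R] [Neg R] (a b c d : R) : ℍ[R] := ⟨a, b, c, d⟩

section mk4
variable {R : Type*} [Zero R] [One R] [Neg R] (a b c d : R)
@[simp] lemma mk4_re : (mk4 a b c d).re = a := rfl
@[simp] lemma mk4_imI : (mk4 a b c d).imI = b := rfl
@[simp] lemma mk4_imJ : (mk4 a b c d).imJ = c := rfl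
@[simp] lemma mk4_imK : (mk4 a b c d).imK = d := rfl
end mk4

/-- quaternions are functorial in the coefficient ring -/
def qmap {R S : Type*} [CommRing R] [CommRing S] (f : R →+* S) : ℍ[R] →+* ℍ[S] where
  toFun x := mk4 (f x.re) (f x.imI) (f x.imJ) (f x.imK)
  map_one' := by ext <;> simp
  map_zero' := by ext <;> simp
  map_mul' x y := by ext <;> simp
  map_add' x y := by ext <;> simp

@[simp] lemma qmap_re {R S : Type*} [CommRing R] [CommRing S] (f : R →+* S) (x : ℍ[R]) :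
    (qmap f x).re = f x.re := rfl
@[simp] lemma qmap_imI {R S : Type*} [CommRing R] [CommRing S] (f : R →+* S) (x : ℍ[R]) :
    (qmap f x).imI = f x.imI := rfl
@[simp] lemma qmap_imJ {R S : Type*} [CommRing R] [CommRing S] (f : R →+* S) (x : ℍ[R]) :
    (qmap f x).imJ = f x.imJ := rfl
@[simp] lemma qmap_imK {R S : Type*} [CommRing R] [CommRing S] (f : R →+* S) (x : ℍ[R]) :
    (qmap f x).imK = f x.imK := rfl

lemma qmap_star {R S : Type*} [CommRing R] [CommRing S] (f : R →+* S) (x : ℍ[R]) :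
    qmap f (star x) = star (qmap f x) := by ext <;> simp

lemma normSq_qmap {R S : Type*} [CommRing R] [CommRing S] (f : R →+* S) (x : ℍ[R]) :
    Quaternion.normSq (qmap f x) = f (Quaternion.normSq x) := by
  simp [Quaternion.normSq_def']

lemma mem_unitary_iff {R : Type*} [CommRing R] (x : ℍ[R]) :
    x ∈ unitary ℍ[R] ↔ Quaternion.normSq x = 1 := by
  rw [Unitary.mem_iff, Quaternion.star_mul_self, Quaternion.self_mul_star]
  constructor
  · rintro ⟨h, -⟩
    have := congrArg (fun y : ℍ[R] => y.re) h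
    simpa using this
  · intro h
    rw [h]
    simp

/-- quaternions with real part `1 mod 4` and even imaginary parts -/
def OO : Submonoid ℍ[ℤ] where
  carrier := {α | α.re % 4 = 1 ∧ 2 ∣ α.imI ∧ 2 ∣ α.imJ ∧ 2 ∣ α.imK}
  one_mem' := by simp
  mul_mem' := by
    rintro α β ⟨ha, ⟨a1, h1⟩, ⟨a2, h2⟩, ⟨a3, h3⟩⟩ ⟨hb, ⟨b1, k1⟩, ⟨b2, k2⟩, ⟨b3, k3⟩⟩
    refine ⟨?_, ?_, ?_, ?_⟩
    · have e : (α * β).re = α.re * β.re - 4 * (a1 * b1 + a2 * b2 + a3 * b3) := by
        simp [h1, h2, h3, k1, k2, k3]; ring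
      rw [e, Int.sub_mul_emod_self_left, Int.mul_emod, ha, hb]
      norm_num
    · refine ⟨α.re * b1 + a1 * β.re + 2 * a2 * b3 - 2 * a3 * b2, ?_⟩
      simp [h1, h2, h3, k1, k2, k3]; ring
    · refine ⟨α.re * b2 - 2 * a1 * b3 + a2 * β.re + 2 * a3 * b1, ?_⟩
      simp [h1, h2, h3, k1, k2, k3]; ring
    · refine ⟨α.re * b3 + 2 * a1 * b2 - 2 * a2 * b1 + a3 * β.re, ?_⟩
      simp [h1, h2, h3, k1, k2, k3]; ring

/-- the elements of `OO` of norm `r` -/
def SS (r : ℕ) : Type := {α : ℍ[ℤ] // α ∈ OO ∧ Quaternion.normSq α = (r : ℤ)}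

/-- underlying quaternion -/
def SS.val {r : ℕ} (a : SS r) : ℍ[ℤ] := Subtype.val a

lemma SS.mem {r : ℕ} (a : SS r) : a.val ∈ OO := a.2.1
lemma SS.norm {r : ℕ} (a : SS r) : Quaternion.normSq a.val = (r : ℤ) := a.2.2
lemma SS.ext {r : ℕ} {a b : SS r} (h : a.val = b.val) : a = b := Subtype.ext h

instance (r : ℕ) : Finite (SS r) := by
  have hb : ∀ (x : ℤ), x ^ 2 ≤ (r : ℤ) → x ∈ Set.Icc (-(r : ℤ)) r := by
    intro x hx
    constructor <;> nlinarith [sq_nonneg (x - 1), sq_nonneg (x + 1), sq_nonneg x]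
  let f : SS r → (Set.Icc (-(r : ℤ)) r) × (Set.Icc (-(r : ℤ)) r) × (Set.Icc (-(r : ℤ)) r) ×
      (Set.Icc (-(r : ℤ)) r) := fun a =>
    have h := a.2.2
    have e := Quaternion.normSq_def' a.1
    ⟨⟨a.1.re, hb _ (by rw [e] at h; nlinarith [sq_nonneg a.1.imI, sq_nonneg a.1.imJ, sq_nonneg a.1.imK])⟩,
     ⟨a.1.imI, hb _ (by rw [e] at h; nlinarith [sq_nonneg a.1.re, sq_nonneg a.1.imJ, sq_nonneg a.1.imK])⟩,
     ⟨a.1.imJ, hb _ (by rw [e] at h; nlinarith [sq_nonneg a.1.imI, sq_nonneg a.1.re, sq_nonneg a.1.imK])⟩,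
     ⟨a.1.imK, hb _ (by rw [e] at h; nlinarith [sq_nonneg a.1.imI, sq_nonneg a.1.imJ, sq_nonneg a.1.re])⟩⟩
  refine Finite.of_injective f ?_
  intro a b hab
  simp only [f, Prod.mk.injEq, Subtype.mk.injEq] at hab
  apply Subtype.ext
  exact Quaternion.ext _ _ hab.1 hab.2.1 hab.2.2.1 hab.2.2.2

noncomputable instance instFintypeSS (r : ℕ) : Fintype (SS r) := Fintype.ofFinite _

/-- `h` is the VH datum given by multiplication of quaternions of norms `p` and `q` -/
def IsQVH {p q : ℕ} (h : VH (SS p) (SS q)) : Prop :=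
  (∀ a, (h.invA a).val = star a.val) ∧ (∀ b, (h.invB b).val = star b.val) ∧
    ∀ a b, a.val * b.val = (h.vh (a, b)).1.val * (h.vh (a, b)).2.val

/-- integral quaternions modulo `M` -/
def redM (M : ℕ) : ℍ[ℤ] →+* ℍ[ZMod M] := qmap (Int.castRingHom (ZMod M))

instance (M : ℕ) [NeZero M] : Finite ℍ[ZMod M] :=
  Finite.of_equiv _ (Quaternion.equivProd (ZMod M)).symm

noncomputable instance instFintypeU (M : ℕ) [NeZero M] : Fintype (unitary ℍ[ZMod M]) :=
  Fintype.ofFinite _

/-- the norm one element `b' b / q` of `H(Z/M)` -/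
def uM {q : ℕ} (M : ℕ) (hM : Nat.Coprime q M) (b' b : SS q) : unitary ℍ[ZMod M] :=
  ⟨((q : ZMod M)⁻¹) • redM M (b'.val * b.val), by
    rw [mem_unitary_iff, Quaternion.normSq_smul, redM, normSq_qmap, map_mul, b'.norm, b.norm]
    have := ZMod.coe_mul_inv_eq_one q hM
    simp only [map_mul, map_natCast]
    calc ((q : ZMod M)⁻¹) ^ 2 * (q * q) = (q * (q : ZMod M)⁻¹) ^ 2 := by ring
      _ = 1 := by rw [this, one_pow]⟩

/-- the kernel of reduction modulo `M'` in a group of quaternions: `x = 1 + M' y` -/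
def congH {R : Type} [CommRing R] (M' : ℕ) : Set (unitary ℍ[R]) :=
  {x | ∃ y : ℍ[R], (x : ℍ[R]) = 1 + (M' : ℍ[R]) * y}

/-- the number of words of length `L` in `SS q` whose product is a scalar modulo `M` -/
noncomputable def WW (q M L : ℕ) : ℕ :=
  Nat.card {w : Fin L → SS q //
    (M : ℤ) ∣ ((List.ofFn fun i => (w i).val).prod).imI ∧
    (M : ℤ) ∣ ((List.ofFn fun i => (w i).val).prod).imJ ∧
    (M : ℤ) ∣ ((List.ofFn fun i => (w i).val).prod).imK}

/-- `Z[1/(pq)]` -/
def RR (p q : ℕ) : Type := Localization.Away (((p * q : ℕ) : ℤ))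

noncomputable instance instCommRingRR (p q : ℕ) : CommRing (RR p q) :=
  inferInstanceAs (CommRing (Localization.Away (((p * q : ℕ) : ℤ))))

instance instAwayRR (p q : ℕ) : IsLocalization.Away (((p * q : ℕ) : ℤ)) (RR p q) := by
  have h : IsLocalization.Away (((p * q : ℕ) : ℤ)) (Localization.Away (((p * q : ℕ) : ℤ))) :=
    inferInstance
  have e : (Ring.toIntAlgebra (Localization.Away (((p * q : ℕ) : ℤ)))) =
      (inferInstance : Algebra ℤ (Localization.Away (((p * q : ℕ) : ℤ)))) := Subsingleton.elim _ _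
  change @IsLocalization.Away ℤ _ _ (Localization.Away (((p * q : ℕ) : ℤ))) _
    (Ring.toIntAlgebra (Localization.Away (((p * q : ℕ) : ℤ))))
  rw [e]
  exact h

/-- integral quaternions in `H(Z[1/(pq)])` -/
noncomputable def castR (p q : ℕ) : ℍ[ℤ] →+* ℍ[RR p q] := qmap (algebraMap ℤ (RR p q))

/-- the norm one group of `H(Z[1/(pq)])` -/
abbrev GG (p q : ℕ) : Type := unitary ℍ[RR p q]

/-- the principal congruence subgroup of level `M` -/
def Cong (p q M : ℕ) : Subgroup (GG p q) where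
  carrier := {x | ∃ y : ℍ[RR p q], (x : ℍ[RR p q]) = 1 + (M : ℍ[RR p q]) * y}
  one_mem' := ⟨0, by simp⟩
  mul_mem' := by
    rintro x x' ⟨y, hy⟩ ⟨y', hy'⟩
    refine ⟨y + y' + (M : ℍ[RR p q]) * y * y', ?_⟩
    have hc : ∀ z : ℍ[RR p q], z * (M : ℍ[RR p q]) = (M : ℍ[RR p q]) * z := fun z =>
      (Nat.cast_commute M z).eq.symm
    rw [Submonoid.coe_mul, hy, hy']
    have : (M : ℍ[RR p q]) * y * ((M : ℍ[RR p q]) * y')
        = (M : ℍ[RR p q]) * ((M : ℍ[RR p q]) * y * y') := by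
      rw [mul_assoc, ← mul_assoc y, hc y]
    rw [mul_add, add_mul, add_mul, this]
    simp only [one_mul, mul_one, mul_add]
    abel
  inv_mem' := by
    rintro x ⟨y, hy⟩
    refine ⟨star y, ?_⟩
    have hx : ((x⁻¹ : GG p q) : ℍ[RR p q]) = star (x : ℍ[RR p q]) := rfl
    rw [hx, hy, star_add, star_one, star_mul, star_natCast]
    rw [(Nat.cast_commute M (star y)).eq]

lemma OO_star {α : ℍ[ℤ]} (h : α ∈ OO) : star α ∈ OO := by
  obtain ⟨h0, h1, h2, h3⟩ := h
  exact ⟨by simpa using h0, by simpa using h1, by simpa using h2, by simpa using h3⟩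

/-- the subgroup of the elements `alpha / (p^i q^j)`, `alpha` in `OO` -/
def G1 (p q : ℕ) : Subgroup (GG p q) where
  carrier := {x | ∃ (i j : ℕ) (α : ℍ[ℤ]), α ∈ OO ∧
    ((p ^ i * q ^ j : ℕ) : ℍ[RR p q]) * (x : ℍ[RR p q]) = castR p q α}
  one_mem' := ⟨0, 0, 1, OO.one_mem, by simp⟩
  mul_mem' := by
    rintro x x' ⟨i, j, α, hα, e⟩ ⟨i', j', α', hα', e'⟩
    refine ⟨i + i', j + j', α * α', OO.mul_mem hα hα', ?_⟩
    rw [map_mul, ← e, ← e', Submonoid.coe_mul]
    have hc : ∀ z : ℍ[RR p q], z * ((p ^ i' * q ^ j' : ℕ) : ℍ[RR p q]) =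
        ((p ^ i' * q ^ j' : ℕ) : ℍ[RR p q]) * z := fun z => (Nat.cast_commute _ z).eq.symm
    have hn : ((p ^ (i + i') * q ^ (j + j') : ℕ) : ℍ[RR p q]) =
        ((p ^ i * q ^ j : ℕ) : ℍ[RR p q]) * ((p ^ i' * q ^ j' : ℕ) : ℍ[RR p q]) := by
      rw [← Nat.cast_mul]
      congr 1
      ring
    rw [hn, mul_assoc, mul_assoc, ← mul_assoc (x : ℍ[RR p q]), hc, mul_assoc]
  inv_mem' := by
    rintro x ⟨i, j, α, hα, e⟩
    refine ⟨i, j, star α, OO_star hα, ?_⟩
    have hx : ((x⁻¹ : GG p q) : ℍ[RR p q]) = star (x : ℍ[RR p q]) := rfl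
    rw [hx, castR, qmap_star, ← castR, ← e, star_mul, star_natCast]
    exact (Nat.cast_commute _ _).eq

end TauQ
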