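import Mathlib
import Pool.Agent.Work.MP_972ac7_al_tau.Defs

/-!
# Block statements for the property tau theorem (MP_972ac7_al)

Every block proves `theorem X : Stmt_X` in its own file, possibly from hypotheses
`(h : Stmt_Y)` of the blocks it depends on. See BLUEPRINT.md.
-/

open scoped Quaternion BigOperators

namespace TauQ

/-! ## Part I: the abstract step -/

/-- A1: two functions on a class with small variation and the same equivariance are proportional. -/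
def Stmt_phase : Prop :=
  ∀ (n : ℕ) (g : ℝ), 0 < g → ∃ K : ℝ, 0 < K ∧
    ∀ (Z ι D : Type) [Fintype Z] [Fintype ι], Fintype.card ι = n →
    ∀ (τ : ι → Equiv.Perm Z) (act : D → Equiv.Perm Z) (S : Set Z),
      (∀ i z, τ i z ∈ S ↔ z ∈ S) → (∀ d z, act d z ∈ S ↔ z ∈ S) →
      (∀ f : Z → ℂ, (∀ z, z ∉ S → f z = 0) → (∀ d z, f (act d z) = f z) → ∑ z, f z = 0 →
        2 * g * ∑ z, ‖f z‖ ^ 2 ≤ ∑ i, ∑ z, ‖f (τ i z) - f z‖ ^ 2) →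
      ∀ (ε : ℝ) (F G : Z → ℂ) (ψ : D → ℂ), 0 ≤ ε → ε ≤ g / 2 → F ≠ 0 →
        (∀ z, z ∉ S → F z = 0) → (∀ z, z ∉ S → G z = 0) → (∀ d, ‖ψ d‖ = 1) →
        (∀ d z, F (act d z) = ψ d * F z) → (∀ d z, G (act d z) = ψ d * G z) →
        ∑ i, ∑ z, ‖F (τ i z) - F z‖ ^ 2 ≤ 2 * ε * ∑ z, ‖F z‖ ^ 2 →
        ∑ i, ∑ z, ‖G (τ i z) - G z‖ ^ 2 ≤ 2 * ε * ∑ z, ‖G z‖ ^ 2 →
        ∃ c : ℂ, ∑ z, ‖G z - c * F z‖ ^ 2 ≤ K * ε * ∑ z, ‖G z‖ ^ 2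

/-- A2: near-characters of a finite perfect group are near 1. -/
def Stmt_nearhom : Prop :=
  ∀ (S : Type) [Group S] [Finite S], commutator S = ⊤ → ∃ C : ℝ, 0 < C ∧
    ∀ (V : Type) [NormedAddCommGroup V] [InnerProductSpace ℂ V] (R : S →* (V ≃ₗᵢ[ℂ] V))
      (F : V) (δ : ℝ), 0 ≤ δ → (∀ s, ∃ ω : ℂ, ‖R s F - ω • F‖ ≤ δ * ‖F‖) →
      ∀ s, ‖R s F - F‖ ≤ C * δ * ‖F‖

/-- A3: failure of the gap gives an equivariant eigenfunction on one class. -/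
def Stmt_extract : Prop :=
  ∀ (A B : Type) [Fintype A] [Fintype B] (h : VH A B) (Q : Type) [Group Q] [Fintype Q]
    (r : Rep h Q) (D E : Subgroup Q), D.Normal → E.Normal → E ≤ D → ⁅D, D⁆ ≤ E →
    D ≤ r.chiA.ker → ∀ g' : ℝ, ¬ r.GB E g' →
    ∃ (κ : ℤˣ) (F : h.SA × Q → ℂ) (ε : ℝ) (ψ : Q → ℂ), F ≠ 0 ∧ 0 ≤ ε ∧ ε < g' ∧
      (∀ z, ∑ b, F (r.tau b z) = ((Fintype.card B : ℂ) - (ε : ℂ)) * F z) ∧
      (∀ d ∈ D, ‖ψ d‖ = 1 ∧ ∀ z : h.SA × Q, F (z.1, z.2 * d) = ψ d * F z) ∧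
      (∀ z, r.chiA z.2 ≠ κ → F z = 0) ∧ ∑ z, F z = 0

/-- A4: a near-eigenfunction on a class is near its average over `SA`. -/
def Stmt_V : Prop :=
  ∀ (A B : Type) [Fintype A] [Fintype B] (h : VH A B), commutator h.SA = ⊤ →
    ∀ g : ℝ, 0 < g → ∃ C : ℝ, 0 < C ∧ ∀ (Q : Type) [Group Q] [Fintype Q] (r : Rep h Q)
      (D : Subgroup Q), D.Normal → D ≤ r.chiA.ker → r.GB D g →
      ∀ (κ : ℤˣ) (F : h.SA × Q → ℂ) (ε : ℝ) (ψ : Q → ℂ), 0 ≤ ε → ε ≤ g / 2 →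
        (∀ d ∈ D, ‖ψ d‖ = 1 ∧ ∀ z : h.SA × Q, F (z.1, z.2 * d) = ψ d * F z) →
        (∀ z, r.chiA z.2 ≠ κ → F z = 0) → r.varB F ≤ 2 * ε * ∑ z, ‖F z‖ ^ 2 →
        ∑ z, ‖F z - (Fintype.card h.SA : ℂ)⁻¹ * ∑ y, F (y, z.2)‖ ^ 2 ≤
          C * ε * ∑ z, ‖F z‖ ^ 2

/-- A5: a joint near-top eigenfunction of `T_A`, `T_B` is `A`-invariant. -/
def Stmt_X : Prop :=
  ∀ (A B : Type) [Fintype A] [Fintype B] (h : VH A B), Nonempty A →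
    (∀ a a' : A, ∃ s : h.SA, (s : Equiv.Perm A) a = a') →
    ∀ g : ℝ, 0 < g → ∃ δ : ℝ, 0 < δ ∧ ∀ (Q : Type) [Group Q] [Fintype Q] (r : Rep h Q)
      (D : Subgroup Q), D.Normal → D ≤ r.chiA.ker → r.GB D g →
      ∀ (v ψ : Q → ℂ) (εA εB : ℝ), v ≠ 0 →
        (∀ d ∈ D, ‖ψ d‖ = 1 ∧ ∀ x, v (x * d) = ψ d * v x) →
        (∀ x, ∑ a, v (r.al a * x) = ((Fintype.card A : ℂ) - (εA : ℂ)) * v x) →
        (∀ x, ∑ b, v (r.be b * x) = ((Fintype.card B : ℂ) - (εB : ℂ)) * v x) →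
        0 ≤ εB → εB < δ → 0 ≤ εA → εA < (Fintype.card A : ℝ) / 4 → εA = 0

/-- A6: joint eigenvectors. -/
def Stmt_joint : Prop :=
  ∀ (A B : Type) [Fintype A] [Fintype B] (h : VH A B) (Q : Type) [Group Q] [Fintype Q]
    (r : Rep h Q) (D : Subgroup Q), D ≤ r.chiA.ker →
    ∀ (v ψ : Q → ℂ) (ε : ℝ), v ≠ 0 → (∀ d ∈ D, ∀ x, v (x * d) = ψ d * v x) →
      (∀ x, ∑ b, v (r.be b * x) = ((Fintype.card B : ℂ) - (ε : ℂ)) * v x) →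
      ∑ x, v x = 0 → ∑ x, (((r.chiA x : ℤˣ) : ℤ) : ℂ) * v x = 0 →
      ∃ (w : Q → ℂ) (lam : ℝ), w ≠ 0 ∧ (∀ d ∈ D, ∀ x, w (x * d) = ψ d * w x) ∧
        (∀ x, ∑ b, w (r.be b * x) = ((Fintype.card B : ℂ) - (ε : ℂ)) * w x) ∧
        ∑ x, w x = 0 ∧ ∑ x, (((r.chiA x : ℤˣ) : ℤ) : ℂ) * w x = 0 ∧
        (∀ x, ∑ a, w (r.al a * x) = (lam : ℂ) * w x)

/-- A7: the step: the gap passes from `D` to `E` if `D/E` is abelian. One side. -/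
def Stmt_step1 : Prop :=
  ∀ (A B : Type) [Fintype A] [Fintype B] (h : VH A B), Nonempty A → Nonempty B →
    h.Good → h.swap.Good → ∀ g : ℝ, 0 < g → ∃ g' : ℝ, 0 < g' ∧
    ∀ (Q : Type) [Group Q] [Fintype Q] (r : Rep h Q) (D E : Subgroup Q),
      D.Normal → E.Normal → E ≤ D → ⁅D, D⁆ ≤ E → D ≤ r.chiA.ker → D ≤ r.chiB.ker →
      r.GB D g → r.swap.GB D g → r.GB E g'

/-- A8: iteration of the step along the derived series, both sides. -/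
def Stmt_iter : Prop :=
  ∀ (A B : Type) [Fintype A] [Fintype B] (h : VH A B), Nonempty A → Nonempty B →
    h.Good → h.swap.Good → ∀ (d : ℕ) (g : ℝ), 0 < g → ∃ g' : ℝ, 0 < g' ∧
    ∀ (Q : Type) [Group Q] [Fintype Q] (r : Rep h Q) (D : Subgroup Q),
      D.Normal → D ≤ r.chiA.ker → D ≤ r.chiB.ker →
      r.GB D g → r.swap.GB D g → r.GB (Rep.dser D d) g' ∧ r.swap.GB (Rep.dser D d) g'

/-! ## Part II: quaternions -/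

/-- N1 -/
def Stmt_exists : Prop :=
  ∀ r : ℕ, r.Prime → r % 4 = 1 → ∀ α : ℍ[ℤ], (∀ γ : ℍ[ℤ], α ≠ (r : ℍ[ℤ]) * γ) →
    (r : ℤ) ∣ Quaternion.normSq α → ∃ (β : SS r) (γ : ℍ[ℤ]), α = β.val * γ

/-- N2 -/
def Stmt_unique : Prop :=
  ∀ r : ℕ, r.Prime → r % 4 = 1 →
    (∀ (β β' : SS r), (∃ δ : ℍ[ℤ], star β'.val * β.val = (r : ℍ[ℤ]) * δ) → β = β') ∧
    (∀ (β β' : SS r) (γ γ' : ℍ[ℤ]), (∀ δ : ℍ[ℤ], β.val * γ ≠ (r : ℍ[ℤ]) * δ) →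
      β.val * γ = β'.val * γ' → β = β')

/-- N3 -/
def Stmt_card : Prop := ∀ r : ℕ, r.Prime → r % 4 = 1 → Fintype.card (SS r) = r + 1

/-- N4 -/
def Stmt_vh : Prop :=
  ∀ p q : ℕ, p.Prime → q.Prime → p % 4 = 1 → q % 4 = 1 → p ≠ q →
    ∃ h : VH (SS p) (SS q), IsQVH h

/-- N5 -/
def Stmt_r2 : Prop :=
  ∀ ε : ℝ, 0 < ε → ∃ C : ℝ, 0 < C ∧ ∀ m : ℕ, 0 < m →
    (Nat.card {x : ℤ × ℤ // x.1 ^ 2 + x.2 ^ 2 = (m : ℤ)} : ℝ) ≤ C * (m : ℝ) ^ ε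

/-- N6 -/
def Stmt_div : Prop :=
  (∀ ε : ℝ, 0 < ε → ∃ C : ℝ, 0 < C ∧ ∀ m : ℕ, 0 < m →
    (m.divisors.card : ℝ) ≤ C * (m : ℝ) ^ ε) ∧
  (∀ ε : ℝ, 0 < ε → ∃ C : ℝ, 0 < C ∧ ∀ m : ℕ, 0 < m →
    (m : ℝ) ^ (1 - ε) * 2 ^ m.primeFactors.card ≤ C * (m.totient : ℝ))

/-- N7a -/
def Stmt_r3 : Prop :=
  ∀ ε : ℝ, 0 < ε → ∃ C : ℝ, 0 < C ∧ ∀ n : ℕ, 0 < n →
    (Nat.card {x : ℤ × ℤ × ℤ // x.1 ^ 2 + x.2.1 ^ 2 + x.2.2 ^ 2 = (n : ℤ)} : ℝ) ≤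
      C * (n : ℝ) ^ (1 / 2 + ε)

/-- N7b -/
def Stmt_x0 : Prop :=
  ∀ Y M : ℕ, 0 < Y → 0 < M → Nat.Coprime M (2 * Y) →
    (Nat.card {x : ℤ // x ^ 2 ≤ (Y : ℤ) ^ 2 ∧ ((M : ℤ) ^ 2) ∣ (Y : ℤ) ^ 2 - x ^ 2} : ℝ) ≤
      ((M ^ 2).divisors.card : ℝ) * (2 * (Y : ℝ) / (M : ℝ) ^ 2 + 1)

/-- N7 -/
def Stmt_count : Prop :=
  ∀ η : ℝ, 0 < η → ∃ C : ℝ, 0 < C ∧ ∀ (q M t : ℕ), 2 ≤ q → 0 < M → Nat.Coprime M (2 * q) →
    (Nat.card {α : ℍ[ℤ] // Quaternion.normSq α = (q : ℤ) ^ (2 * t) ∧ (M : ℤ) ∣ α.imI ∧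
      (M : ℤ) ∣ α.imJ ∧ (M : ℤ) ∣ α.imK} : ℝ) ≤
      2 + C * ((q : ℝ) ^ t / (M : ℝ) ^ 2 + 1) * ((q : ℝ) ^ t / M) * ((q : ℝ) ^ t) ^ η

/-- N8: a quaternion of `q`-content `q^s` is a product of `L` elements of `SS q` in at most
`2^L q^s` ways. -/
def Stmt_walk : Prop :=
  ∀ q : ℕ, q.Prime → q % 4 = 1 → ∀ (L s : ℕ) (γ : ℍ[ℤ]), (∀ δ : ℍ[ℤ], γ ≠ (q : ℍ[ℤ]) * δ) →
    Nat.card {w : Fin L → SS q //
      (List.ofFn fun i => (w i).val).prod = ((q ^ s : ℕ) : ℍ[ℤ]) * γ} ≤ 2 ^ L * q ^ s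

/-- N8b -/
def Stmt_WW : Prop :=
  ∀ η : ℝ, 0 < η → ∃ C : ℝ, 0 < C ∧ ∀ (q M k : ℕ), q.Prime → q % 4 = 1 → 0 < M →
    Nat.Coprime M (2 * q) →
    (WW q M (2 * k) : ℝ) ≤ (4 * q) ^ k *
      (4 + C * (k + 1) * ((q : ℝ) ^ k) ^ η * ((q : ℝ) ^ k / (M : ℝ) ^ 3 + 1 / M))

/-- N9 -/
def Stmt_iso : Prop :=
  ∀ M : ℕ, Odd M → ∃ φ : ℍ[ZMod M] ≃+* Matrix (Fin 2) (Fin 2) (ZMod M),
    ∀ x, (φ x).det = Quaternion.normSq x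

/-- N9b -/
def Stmt_cardU : Prop :=
  ∀ (M : ℕ) [NeZero M], Odd M → Fintype.card (unitary ℍ[ZMod M]) ≤ M ^ 3

/-- upper unipotent matrix -/
def UU {M : ℕ} (t : ZMod M) : Matrix.SpecialLinearGroup (Fin 2) (ZMod M) :=
  ⟨!![1, t; 0, 1], by simp [Matrix.det_fin_two]⟩

/-- lower unipotent matrix -/
def LL {M : ℕ} (t : ZMod M) : Matrix.SpecialLinearGroup (Fin 2) (ZMod M) :=
  ⟨!![1, 0; t, 1], by simp [Matrix.det_fin_two]⟩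

/-- the subgroup generated by the unipotents `≡ 1` away from `l` (`M = l^k e`) -/
def EE (M e : ℕ) : Subgroup (Matrix.SpecialLinearGroup (Fin 2) (ZMod M)) :=
  Subgroup.closure {g | ∃ t : ZMod M, g = UU ((e : ZMod M) * t) ∨ g = LL ((e : ZMod M) * t)}

/-- N10a: generation of the last layer at the prime `l` -/
def Stmt_DLa : Prop :=
  ∀ (M l k e : ℕ), Odd M → l.Prime → 0 < k → M = l ^ k * e → Nat.Coprime l e →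
    ∀ g : Matrix.SpecialLinearGroup (Fin 2) (ZMod M),
      (∃ y : Matrix (Fin 2) (Fin 2) (ZMod M), (g : Matrix (Fin 2) (Fin 2) (ZMod M)) =
        1 + ((M / l : ℕ) : Matrix (Fin 2) (Fin 2) (ZMod M)) * y) →
      g ∈ Subgroup.closure
        {z | ∃ x ∈ EE M e, z = x * UU (((M / l : ℕ) : ZMod M)) * x⁻¹}

/-- N10c: the number of unit squares -/
def Stmt_sq : Prop :=
  ∀ M : ℕ, Odd M → M.totient ≤
    2 ^ M.primeFactors.card * Nat.card (Set.range fun u : (ZMod M)ˣ => u ^ 2)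

/-- N10: nontrivial representations of `SL2(Z/M)` have large dimension at some level -/
def Stmt_DL : Prop :=
  ∀ M : ℕ, Odd M → ∀ (V : Type) [AddCommGroup V] [Module ℂ V] [FiniteDimensional ℂ V]
    (ρ : Matrix.SpecialLinearGroup (Fin 2) (ZMod M) →* (V →ₗ[ℂ] V)),
    (∃ g v, ρ g v ≠ v) → ∃ M' : ℕ, M' ∣ M ∧ 1 < M' ∧ ∃ W : Submodule ℂ V,
      (∀ w ∈ W, ∀ g : Matrix.SpecialLinearGroup (Fin 2) (ZMod M),
        (∃ y : Matrix (Fin 2) (Fin 2) (ZMod M),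
          (g : Matrix (Fin 2) (Fin 2) (ZMod M)) = 1 + (M' : Matrix (Fin 2) (Fin 2) (ZMod M)) * y) →
        ρ g w = w) ∧
      M'.totient ≤ 2 ^ M'.primeFactors.card * Module.finrank ℂ W

/-- N11: trace inequality -/
def Stmt_TL : Prop :=
  ∀ (Z ι : Type) [Fintype Z] [Fintype ι] (u : ι → Equiv.Perm Z) (inv : ι → ι),
    (∀ i, inv (inv i) = i) → (∀ i, u (inv i) = (u i)⁻¹) → ∀ (j : ℕ) (μ : ℝ)
    (W : Submodule ℂ (Z → ℂ)), (∀ f ∈ W, ∀ z, ∑ i, f (u i z) = (μ : ℂ) * f z) →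
    (Module.finrank ℂ W : ℝ) * μ ^ (2 * j) ≤
      ∑ z, (Nat.card {w : Fin (2 * j) → ι // (List.ofFn fun i => u (w i)).prod z = z} : ℝ)

/-- N12: an eigenvalue of `T_B^2` with an eigenfunction that is not invariant under the right
action satisfies the trace bound at some level `M' > 1`. -/
def Stmt_SC : Prop :=
  ∀ (q : ℕ), q.Prime → q % 4 = 1 → ∀ (M : ℕ) [NeZero M] (hM : Nat.Coprime q M), Odd M →
    ∀ (S : Type) [Group S] [Fintype S] (s : SS q → S),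
      (∀ b b' : SS q, b'.val = star b.val → s b' = (s b)⁻¹) →
    ∀ (μ : ℝ) (f : S × unitary ℍ[ZMod M] → ℂ),
      (∀ z, ∑ b' : SS q, ∑ b : SS q, f (s b' * s b * z.1, uM M hM b' b * z.2) =
        (μ : ℂ) * f z) →
      (∃ (y : S) (x g : unitary ℍ[ZMod M]), f (y, x * g) ≠ f (y, x)) →
      ∃ M' : ℕ, M' ∣ M ∧ 1 < M' ∧ ∀ j : ℕ,
        (M'.totient : ℝ) * μ ^ (2 * j) ≤
          2 ^ M'.primeFactors.card * (Fintype.card S * (M' : ℝ) ^ 3 * (WW q M' (4 * j) : ℝ))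

/-- N12c -/
def Stmt_gapS : Prop :=
  ∀ (S ι : Type) [Group S] [Fintype S] [Fintype ι] (s : ι → S),
    Subgroup.closure (Set.range s) = ⊤ → ∃ g : ℝ, 0 < g ∧ ∀ u : S → ℂ, ∑ y, u y = 0 →
      2 * g * ∑ y, ‖u y‖ ^ 2 ≤ ∑ i, ∑ y, ‖u (s i * y) - u y‖ ^ 2

/-- N12b: uniform gap of `T_B^2` on `S × U(Z/M)` -/
def Stmt_BT : Prop :=
  ∃ q₀ : ℕ, ∀ q : ℕ, q.Prime → q % 4 = 1 → q₀ ≤ q → ∀ (S : Type) [Group S] [Fintype S]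
    (s : SS q → S), (∀ b b' : SS q, b'.val = star b.val → s b' = (s b)⁻¹) →
    commutator S = ⊤ → Subgroup.closure (Set.range s) = ⊤ →
    ∃ (g₁ : ℝ) (L₀ : ℕ), 0 < g₁ ∧ q < L₀ ∧
    ∀ (M : ℕ) [NeZero M] (hM : Nat.Coprime q M), (∀ l : ℕ, l.Prime → l ∣ M → L₀ ≤ l) →
    ∀ f : S × unitary ℍ[ZMod M] → ℂ, ∑ z, f z = 0 →
      2 * g₁ * ∑ z, ‖f z‖ ^ 2 ≤
        ∑ b' : SS q, ∑ b : SS q, ∑ z, ‖f (s b' * s b * z.1, uM M hM b' b * z.2) - f z‖ ^ 2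

/-- N13a: generation of the norm one group modulo `p` by the even words in `SS q` -/
def Stmt_gen : Prop :=
  ∀ K : ℕ, ∃ P₀ : ℕ, ∀ p q : ℕ, p.Prime → q.Prime → p % 4 = 1 → q % 4 = 1 → P₀ ≤ p →
    P₀ ≤ q → p ≠ q → p < q ^ K → q < p ^ K → ∀ hM : Nat.Coprime q p,
    Subgroup.closure {x : unitary ℍ[ZMod p] | ∃ b' b : SS q, x = uM p hM b' b} = ⊤

/-- N13p -/
def Stmt_perf : Prop :=
  ∀ p : ℕ, p.Prime → 5 ≤ p → commutator (Matrix.SpecialLinearGroup (Fin 2) (ZMod p)) = ⊤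

/-- N13b: the local group is perfect and transitive -/
def Stmt_SA : Prop :=
  ∀ p q : ℕ, p.Prime → q.Prime → p % 4 = 1 → q % 4 = 1 → p ≠ q → IsSquare (q : ZMod p) →
    ∀ h : VH (SS p) (SS q), IsQVH h → ∀ hM : Nat.Coprime q p,
    Subgroup.closure {x : unitary ℍ[ZMod p] | ∃ b' b : SS q, x = uM p hM b' b} = ⊤ → h.Good

/-- `rM` is reduction modulo `M` on `G1 p q` -/
def IsRed (p q M : ℕ) (rM : G1 p q →* unitary ℍ[ZMod M]) : Prop :=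
  ∀ (γ : G1 p q) (i j : ℕ) (α : ℍ[ℤ]),
    ((p ^ i * q ^ j : ℕ) : ℍ[RR p q]) * ((γ : GG p q) : ℍ[RR p q]) = castR p q α →
    ((p ^ i * q ^ j : ℕ) : ℍ[ZMod M]) * (rM γ : ℍ[ZMod M]) = redM M α

/-- N14r: reduction modulo `M` -/
def Stmt_red : Prop :=
  ∀ p q : ℕ, p.Prime → q.Prime → ∀ (M : ℕ) [NeZero M], Nat.Coprime p M → Nat.Coprime q M →
    ∃ rM : G1 p q →* unitary ℍ[ZMod M], IsRed p q M rM ∧
      ∀ γ : G1 p q, rM γ = 1 ↔ (γ : GG p q) ∈ Cong p q M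

/-- N14a: the group `Γ` generated by `A` and `B` -/
def Stmt_hat : Prop :=
  ∀ p q : ℕ, p.Prime → q.Prime → p % 4 = 1 → q % 4 = 1 → p ≠ q →
    ∀ h : VH (SS p) (SS q), IsQVH h →
    ∃ (Γ : Type) (_ : Group Γ) (r : Rep h Γ) (ι : G1 p q →* Γ), Function.Injective ι ∧
      ι.range = r.chiA.ker ⊓ r.chiB.ker ∧
      (∀ b' b : SS q, ∃ γ : G1 p q,
        (q : ℍ[RR p q]) * ((γ : GG p q) : ℍ[RR p q]) = castR p q (b'.val * b.val) ∧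
        ι γ = r.be b' * r.be b) ∧
      (∀ a' a : SS p, ∃ γ : G1 p q,
        (p : ℍ[RR p q]) * ((γ : GG p q) : ℍ[RR p q]) = castR p q (a'.val * a.val) ∧
        ι γ = r.al a' * r.al a) ∧
      (∀ (g : Γ) (γ : G1 p q), ∃ (x : (ℍ[RR p q])ˣ) (γ' : G1 p q),
        ((γ' : GG p q) : ℍ[RR p q]) = x * ((γ : GG p q) : ℍ[RR p q]) * ((x⁻¹ : (ℍ[RR p q])ˣ) : ℍ[RR p q]) ∧
        ι γ' = g * ι γ * g⁻¹)

/-- N14b: the finite group attached to a normal subgroup of `GG p q` -/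
def Stmt_link : Prop :=
  ∀ p q : ℕ, p.Prime → q.Prime → p % 4 = 1 → q % 4 = 1 → p ≠ q →
    ∀ h : VH (SS p) (SS q), IsQVH h → ∀ (M : ℕ) [NeZero M] (hq : Nat.Coprime q M)
      (hp : Nat.Coprime p M) (d : ℕ) (N : Subgroup (GG p q)), N.Normal → N.FiniteIndex →
      (derivedSeries (Cong p q M) d).map (Cong p q M).subtype ≤ N →
    ∃ (Q : Type) (_ : Group Q) (_ : Fintype Q) (r : Rep h Q) (D : Subgroup Q)
      (rQ : G1 p q →* Q) (rM : G1 p q →* unitary ℍ[ZMod M]),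
      D.Normal ∧ D ≤ r.chiA.ker ∧ D ≤ r.chiB.ker ∧ Rep.dser D d = ⊥ ∧
      rQ.range = r.chiA.ker ⊓ r.chiB.ker ∧ D = rM.ker.map rQ ∧
      (∀ b' b : SS q, ∃ γ : G1 p q,
        (q : ℍ[RR p q]) * ((γ : GG p q) : ℍ[RR p q]) = castR p q (b'.val * b.val) ∧
        rQ γ = r.be b' * r.be b ∧ rM γ = uM M hq b' b) ∧
      (∀ a' a : SS p, ∃ γ : G1 p q,
        (p : ℍ[RR p q]) * ((γ : GG p q) : ℍ[RR p q]) = castR p q (a'.val * a.val) ∧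
        rQ γ = r.al a' * r.al a ∧ rM γ = uM M hp a' a) ∧
      (∀ γ : G1 p q, rQ γ = 1 → (γ : GG p q) ∈ N)

/-- N15: the base gap is transferred to the finite group -/
def Stmt_base : Prop :=
  ∀ (n : ℕ) (g₁ : ℝ), 0 < n → 0 < g₁ → ∃ g₀ : ℝ, 0 < g₀ ∧
  ∀ (A B : Type) [Fintype A] [Fintype B] (h : VH A B), Fintype.card B = n →
  ∀ (Q : Type) [Group Q] [Fintype Q] (r : Rep h Q) (D : Subgroup Q)
    (H UM : Type) [Group H] [Group UM] [Fintype UM] (rQ : H →* Q) (rM : H →* UM)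
    (u : B → B → UM), D.Normal → rQ.range = r.chiA.ker ⊓ r.chiB.ker → D = rM.ker.map rQ →
    (∀ b' b, ∃ γ : H, rQ γ = r.be b' * r.be b ∧ rM γ = u b' b) →
    (∀ f : h.SA × UM → ℂ, ∑ z, f z = 0 →
      2 * g₁ * ∑ z, ‖f z‖ ^ 2 ≤
        ∑ b', ∑ b, ∑ z, ‖f (h.sig b' * h.sig b * z.1, u b' b * z.2) - f z‖ ^ 2) →
    r.GB D g₀

/-- N16: from the finite groups back to `GG p q` -/
def Stmt_final : Prop :=
  ∀ p q : ℕ, p.Prime → q.Prime → p % 4 = 1 → q % 4 = 1 → p ≠ q →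
    ∃ QQ : Finset (GG p q), ∀ g : ℝ, 0 < g → ∃ c : ℝ, 0 < c ∧
    ∀ h : VH (SS p) (SS q), IsQVH h → ∀ (N : Subgroup (GG p q)) [N.Normal],
    ∀ (Q : Type) [Group Q] [Fintype Q] (r : Rep h Q) (rQ : G1 p q →* Q),
      rQ.range = r.chiA.ker ⊓ r.chiB.ker →
      (∀ a' a : SS p, ∃ γ : G1 p q,
        (p : ℍ[RR p q]) * ((γ : GG p q) : ℍ[RR p q]) = castR p q (a'.val * a.val) ∧
        rQ γ = r.al a' * r.al a) →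
      (∀ γ : G1 p q, rQ γ = 1 → (γ : GG p q) ∈ N) →
      r.swap.GB ⊥ g → ∀ [Fintype (GG p q ⧸ N)] (v : GG p q ⧸ N → ℂ), ∑ x, v x = 0 →
      c * ∑ x, ‖v x‖ ^ 2 ≤ ∑ s ∈ QQ, ∑ x, ‖v ((s : GG p q ⧸ N) * x) - v x‖ ^ 2

/-- N17: the theorem -/
def Stmt_main : Prop :=
  ∀ K : ℕ, ∃ P₀ : ℕ, ∀ p q : ℕ, p.Prime → q.Prime → p % 4 = 1 → q % 4 = 1 → P₀ ≤ p →
    p < q → q < p ^ K → IsSquare (q : ZMod p) →
    ∃ (L₀ : ℕ) (QQ : Finset (GG p q)), ∀ d : ℕ, ∃ ε : ℝ, 0 < ε ∧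
    ∀ M : ℕ, 0 < M → (∀ l : ℕ, l.Prime → l ∣ M → L₀ ≤ l) →
    ∀ (N : Subgroup (GG p q)) [N.Normal] [N.FiniteIndex],
      (derivedSeries (Cong p q M) d).map (Cong p q M).subtype ≤ N →
    ∀ [Fintype (GG p q ⧸ N)] (v : GG p q ⧸ N → ℂ), ∑ x, v x = 0 → ∑ x, ‖v x‖ ^ 2 = 1 →
      ∃ s ∈ QQ, ε ≤ ∑ x, ‖v ((s⁻¹ : GG p q) * x) - v x‖ ^ 2

end TauQ
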