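import Mathlib
import Pool.Agent.Work.MP_972ac7_al_tau.Interface

set_option autoImplicit false

open scoped Quaternion BigOperators InnerProductSpace
open Classical

namespace TauQ

/-- a symmetric operator has an eigenvalue above every value of the Rayleigh quotient -/
lemma BT_rayleigh {E : Type*} [NormedAddCommGroup E] [InnerProductSpace ℂ E]
    [FiniteDimensional ℂ E] (T : E →ₗ[ℂ] E) (hT : T.IsSymmetric) (f : E) (c : ℝ)
    (h : c * ‖f‖ ^ 2 < (⟪T f, f⟫_ℂ).re) :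
    ∃ (μ : ℝ) (v : E), v ≠ 0 ∧ T v = (μ : ℂ) • v ∧ c < μ := by
  by_contra hcon
  push Not at hcon
  set n := Module.finrank ℂ E with hn
  set b := hT.eigenvectorBasis hn.symm with hb
  have hle : ∀ i, hT.eigenvalues hn.symm i ≤ c := fun i =>
    hcon _ (b i) (b.orthonormal.ne_zero i) (hT.apply_eigenvectorBasis hn.symm i)
  have h1 : ⟪T f, f⟫_ℂ = ∑ i, ((hT.eigenvalues hn.symm i * ‖⟪b i, f⟫_ℂ‖ ^ 2 : ℝ) : ℂ) := by
    rw [← b.sum_inner_mul_inner (T f) f]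
    refine Finset.sum_congr rfl fun i _ => ?_
    have h2 : ⟪T f, b i⟫_ℂ = (hT.eigenvalues hn.symm i : ℂ) * ⟪f, b i⟫_ℂ := by
      rw [hT f (b i), hb, hT.apply_eigenvectorBasis hn.symm i, inner_smul_right]
      rfl
    rw [h2, mul_assoc, ← inner_conj_symm f (b i), Complex.conj_mul']
    push_cast
    rfl
  have h2 : (⟪T f, f⟫_ℂ).re = ∑ i, hT.eigenvalues hn.symm i * ‖⟪b i, f⟫_ℂ‖ ^ 2 := by
    rw [h1, ← Complex.ofReal_sum, Complex.ofReal_re]
  have h3 : ∑ i, hT.eigenvalues hn.symm i * ‖⟪b i, f⟫_ℂ‖ ^ 2 ≤ c * ‖f‖ ^ 2 := by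
    rw [← b.sum_sq_norm_inner_right f, Finset.mul_sum]
    exact Finset.sum_le_sum fun i _ => mul_le_mul_of_nonneg_right (hle i) (by positivity)
  linarith

section gen

variable {Z ι : Type} [Fintype Z] [Fintype ι]

/-- the operator `f ↦ ∑ f ∘ τ_i` -/
noncomputable def BT_T (τ : ι → Equiv.Perm Z) : EuclideanSpace ℂ Z →ₗ[ℂ] EuclideanSpace ℂ Z where
  toFun f := WithLp.toLp 2 (fun z => ∑ i, f (τ i z))
  map_add' f g := by
    ext z
    simp [Finset.sum_add_distrib]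
  map_smul' c f := by
    ext z
    simp [Finset.mul_sum]

lemma BT_T_apply (τ : ι → Equiv.Perm Z) (f : EuclideanSpace ℂ Z) (z : Z) :
    BT_T τ f z = ∑ i, f (τ i z) := rfl

lemma BT_inner (f g : EuclideanSpace ℂ Z) :
    ⟪f, g⟫_ℂ = ∑ z, (starRingEnd ℂ) (f z) * g z := by
  rw [PiLp.inner_apply]
  refine Finset.sum_congr rfl fun z _ => ?_
  rw [RCLike.inner_apply, mul_comm]

lemma BT_symm (τ : ι → Equiv.Perm Z) (inv : ι → ι) (h1 : ∀ i, inv (inv i) = i)
    (h2 : ∀ i, τ (inv i) = (τ i)⁻¹) : (BT_T τ).IsSymmetric := by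
  intro f g
  rw [BT_inner, BT_inner]
  have e1 : ∀ z, (starRingEnd ℂ) (BT_T τ f z) * g z = ∑ i, (starRingEnd ℂ) (f (τ i z)) * g z := by
    intro z
    rw [BT_T_apply, map_sum, Finset.sum_mul]
  have e2 : ∀ z, (starRingEnd ℂ) (f z) * BT_T τ g z = ∑ i, (starRingEnd ℂ) (f z) * g (τ i z) := by
    intro z
    rw [BT_T_apply, Finset.mul_sum]
  simp only [e1, e2]
  rw [Finset.sum_comm]
  rw [Finset.sum_comm (f := fun z i => (starRingEnd ℂ) (f z) * g (τ i z))]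
  let σ : Equiv.Perm ι := ⟨inv, inv, h1, h1⟩
  rw [← Equiv.sum_comp σ (fun i => ∑ z, (starRingEnd ℂ) (f z) * g (τ i z))]
  refine Finset.sum_congr rfl fun i _ => ?_
  rw [← Equiv.sum_comp (τ i) (fun z => (starRingEnd ℂ) (f z) * g (τ (σ i) z))]
  refine Finset.sum_congr rfl fun z _ => ?_
  have : τ (σ i) (τ i z) = z := by
    change τ (inv i) (τ i z) = z
    rw [h2]
    exact (τ i).symm_apply_apply z
  rw [this]

lemma BT_norm_sub (a b : ℂ) :
    ‖a - b‖ ^ 2 = ‖a‖ ^ 2 + ‖b‖ ^ 2 - 2 * ((starRingEnd ℂ) a * b).re := by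
  rw [← Complex.normSq_eq_norm_sq, ← Complex.normSq_eq_norm_sq, ← Complex.normSq_eq_norm_sq,
    Complex.normSq_sub]
  have : (a * (starRingEnd ℂ) b).re = ((starRingEnd ℂ) a * b).re := by
    simp
  rw [this]

lemma BT_var (τ : ι → Equiv.Perm Z) (f : Z → ℂ) :
    ∑ i, ∑ z, ‖f (τ i z) - f z‖ ^ 2 = 2 * (Fintype.card ι) * ∑ z, ‖f z‖ ^ 2
      - 2 * (∑ z, (starRingEnd ℂ) (∑ i, f (τ i z)) * f z).re := by
  have h : ∀ i, ∑ z, ‖f (τ i z) - f z‖ ^ 2 = 2 * ∑ z, ‖f z‖ ^ 2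
      - 2 * ∑ z, ((starRingEnd ℂ) (f (τ i z)) * f z).re := by
    intro i
    have e : ∑ z, ‖f (τ i z)‖ ^ 2 = ∑ z, ‖f z‖ ^ 2 :=
      Equiv.sum_comp (τ i) (fun z => ‖f z‖ ^ 2)
    simp only [BT_norm_sub]
    rw [Finset.sum_sub_distrib, Finset.sum_add_distrib, e, ← Finset.mul_sum]
    ring
  simp only [h]
  rw [Finset.sum_sub_distrib, Finset.sum_const, Finset.card_univ, nsmul_eq_mul, ← Finset.mul_sum,
    Finset.sum_comm]
  have e2 : (∑ z, (starRingEnd ℂ) (∑ i, f (τ i z)) * f z).re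
      = ∑ z, ∑ i, ((starRingEnd ℂ) (f (τ i z)) * f z).re := by
    rw [Complex.re_sum]
    refine Finset.sum_congr rfl fun z _ => ?_
    rw [map_sum, Finset.sum_mul, Complex.re_sum]
  rw [e2]
  ring

/-- the zero-sum functions -/
noncomputable def BT_W (Z : Type) [Fintype Z] : Submodule ℂ (EuclideanSpace ℂ Z) where
  carrier := {f | ∑ z, f z = 0}
  add_mem' := by
    intro f g hf hg
    simp only [Set.mem_ofPred_eq] at hf hg ⊢
    simp [Finset.sum_add_distrib, hf, hg]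
  zero_mem' := by simp
  smul_mem' := by
    intro c f hf
    simp only [Set.mem_ofPred_eq] at hf ⊢
    simp [← Finset.mul_sum, hf]

lemma BT_mem_W (f : EuclideanSpace ℂ Z) : f ∈ BT_W Z ↔ ∑ z, f z = 0 := Iff.rfl

lemma BT_T_mem (τ : ι → Equiv.Perm Z) : ∀ f ∈ BT_W Z, BT_T τ f ∈ BT_W Z := by
  intro f hf
  rw [BT_mem_W] at hf ⊢
  simp only [BT_T_apply]
  rw [Finset.sum_comm]
  refine Finset.sum_eq_zero fun i _ => ?_
  rw [Equiv.sum_comp (τ i) (fun z => f z), hf]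

/-- failure of the Poincare inequality gives an eigenfunction -/
theorem BT_eigen (τ : ι → Equiv.Perm Z) (inv : ι → ι) (h1 : ∀ i, inv (inv i) = i)
    (h2 : ∀ i, τ (inv i) = (τ i)⁻¹) (f : Z → ℂ) (hf : ∑ z, f z = 0) (g : ℝ)
    (h : ∑ i, ∑ z, ‖f (τ i z) - f z‖ ^ 2 < 2 * g * ∑ z, ‖f z‖ ^ 2) :
    ∃ (μ : ℝ) (F : Z → ℂ), F ≠ 0 ∧ ∑ z, F z = 0 ∧ (∀ z, ∑ i, F (τ i z) = (μ : ℂ) * F z) ∧
      (Fintype.card ι : ℝ) - g < μ := by
  let f' : BT_W Z := ⟨WithLp.toLp 2 f, hf⟩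
  have hsym := (BT_symm τ inv h1 h2).restrict_invariant (BT_T_mem τ)
  have hnorm : ‖f'‖ ^ 2 = ∑ z, ‖f z‖ ^ 2 := by
    rw [Submodule.coe_norm]
    exact EuclideanSpace.norm_sq_eq _
  have hinner : ⟪(BT_T τ).restrict (BT_T_mem τ) f', f'⟫_ℂ
      = ∑ z, (starRingEnd ℂ) (∑ i, f (τ i z)) * f z := by
    rw [Submodule.coe_inner, BT_inner]
    rfl
  obtain ⟨μ, v, hv0, hv, hμ⟩ := BT_rayleigh _ hsym f' ((Fintype.card ι : ℝ) - g) (by
    rw [hnorm, hinner]
    have := BT_var τ f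
    rw [this] at h
    linarith)
  refine ⟨μ, fun z => (v : EuclideanSpace ℂ Z) z, ?_, v.2, ?_, hμ⟩
  · intro h0
    apply hv0
    apply Subtype.ext
    ext z
    exact congrFun h0 z
  · intro z
    have := congrArg (fun w : BT_W Z => (w : EuclideanSpace ℂ Z) z) hv
    exact this

end gen



lemma BT_two_pow (i : ℕ) : 2 * i + 3 ≤ 3 * 2 ^ i := by
  induction i with
  | zero => norm_num
  | succ n ih => rw [pow_succ]; omega

lemma BT_num (q : ℕ) (hq : 4096 ≤ q) (Cd Cw cS : ℝ) (hCd : 0 < Cd) (hCw : 0 < Cw)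
    (hcS : 0 < cS) : ∃ L₀ : ℕ, q < L₀ ∧ ∀ (M : ℕ) (φ : ℝ) (ω : ℕ) (W : ℕ → ℝ), L₀ ≤ M →
      (M : ℝ) ^ ((7 : ℝ) / 8) * 2 ^ ω ≤ Cd * φ →
      (∀ j : ℕ, φ * ((q : ℝ) ^ 2) ^ (2 * j) ≤ 2 ^ ω * (cS * (M : ℝ) ^ 3 * W j)) →
      (∀ j : ℕ, W j ≤ (4 * (q : ℝ)) ^ (2 * j) * (4 + Cw * (((2 * j : ℕ) : ℝ) + 1) *
        ((q : ℝ) ^ (2 * j)) ^ ((1 : ℝ) / 24) * ((q : ℝ) ^ (2 * j) / (M : ℝ) ^ 3 + 1 / M))) →
      False := by
  set K₁ : ℝ := 4 + 3 * Cw * ((q : ℝ) ^ 2 * ((q : ℝ) ^ 2 + 1)) with hK₁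
  have hK₁0 : 0 < K₁ := by positivity
  set K : ℝ := Cd * cS * 16 * K₁ with hK
  have hK0 : 0 < K := by positivity
  refine ⟨max (q + 1) (⌈K ^ 8⌉₊ + 1), lt_of_lt_of_le (Nat.lt_succ_self q) (le_max_left _ _), ?_⟩
  intro M φ ω W hM h1 h2 h3
  have hMq : q + 1 ≤ M := le_trans (le_max_left _ _) hM
  have hMK : ⌈K ^ 8⌉₊ + 1 ≤ M := le_trans (le_max_right _ _) hM
  have hMK' : K ^ 8 < (M : ℝ) := by
    have h4 : K ^ 8 ≤ (⌈K ^ 8⌉₊ : ℝ) := Nat.le_ceil _
    have h5 : ((⌈K ^ 8⌉₊ + 1 : ℕ) : ℝ) ≤ M := by exact_mod_cast hMK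
    push_cast at h5
    linarith
  have hM1 : (1 : ℝ) ≤ M := by
    have : 1 ≤ M := by omega
    exact_mod_cast this
  have hM0 : (0 : ℝ) < M := by linarith
  have hq1 : (1 : ℝ) < q := by
    have : 1 < q := by omega
    exact_mod_cast this
  have hq0 : (0 : ℝ) < q := by linarith
  have hex : ∃ j : ℕ, M ^ 3 ≤ q ^ (2 * j) := by
    obtain ⟨n, hn⟩ := pow_unbounded_of_one_lt (M ^ 3) (show 1 < q by omega)
    refine ⟨n, le_trans hn.le (Nat.pow_le_pow_right (by omega) (by omega))⟩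
  classical
  obtain ⟨j, hj1, hj2⟩ : ∃ j : ℕ, M ^ 3 ≤ q ^ (2 * j) ∧ ∀ i < j, ¬ M ^ 3 ≤ q ^ (2 * i) :=
    ⟨Nat.find hex, Nat.find_spec hex, fun i hi => Nat.find_min hex hi⟩
  have hj0 : j ≠ 0 := by
    rintro rfl
    rw [mul_zero, pow_zero] at hj1
    have : 2 ≤ M := by omega
    have : 2 ^ 3 ≤ M ^ 3 := Nat.pow_le_pow_left this 3
    omega
  obtain ⟨i, rfl⟩ := Nat.exists_eq_succ_of_ne_zero hj0
  have hi : q ^ (2 * i) < M ^ 3 := not_le.mp (hj2 i (Nat.lt_succ_self i))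
  set A : ℝ := (q : ℝ) ^ (2 * i.succ) with hA
  have hA0 : 0 < A := by positivity
  have hA1 : (M : ℝ) ^ 3 ≤ A := by
    rw [hA]
    exact_mod_cast hj1
  have hA2 : A ≤ (q : ℝ) ^ 2 * (M : ℝ) ^ 3 := by
    have h4 : A = (q : ℝ) ^ 2 * (q : ℝ) ^ (2 * i) := by
      rw [hA, ← pow_add]
      congr 1
      simp only [Nat.succ_eq_add_one]
      ring
    rw [h4]
    refine mul_le_mul_of_nonneg_left ?_ (by positivity)
    exact_mod_cast hi.le
  set m : ℝ := (M : ℝ) ^ ((1 : ℝ) / 8) with hm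
  have hm0 : 0 < m := Real.rpow_pos_of_pos hM0 _
  have hm1 : 1 ≤ m := Real.one_le_rpow hM1 (by norm_num)
  have hm8 : m ^ 8 = M := by
    rw [hm, ← Real.rpow_mul_natCast hM0.le]
    norm_num
  have hm7 : (M : ℝ) ^ ((7 : ℝ) / 8) = m ^ 7 := by
    rw [hm, ← Real.rpow_mul_natCast hM0.le]
    norm_num
  have h16 : (16 : ℝ) ^ (2 * i) < M := by
    have h4 : ((16 : ℕ) ^ (2 * i)) ^ 3 < M ^ 3 := by
      calc ((16 : ℕ) ^ (2 * i)) ^ 3 = (4096 : ℕ) ^ (2 * i) := by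
            rw [← pow_mul, mul_comm (2 * i) 3, pow_mul]
            norm_num
        _ ≤ q ^ (2 * i) := Nat.pow_le_pow_left hq _
        _ < M ^ 3 := hi
    have h5 : (16 : ℕ) ^ (2 * i) < M := lt_of_pow_lt_pow_left₀ 3 (Nat.zero_le _) h4
    exact_mod_cast h5
  have h16i : (16 : ℝ) ^ i ≤ m ^ 4 := by
    have h4 : ((16 : ℝ) ^ i) ^ 2 < (m ^ 4) ^ 2 := by
      rw [← pow_mul, ← pow_mul, mul_comm i 2]
      calc (16 : ℝ) ^ (2 * i) < M := h16
        _ = m ^ (4 * 2) := by rw [← hm8]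
    exact (lt_of_pow_lt_pow_left₀ 2 (by positivity) h4).le
  have h2i : (2 : ℝ) ^ i ≤ m := by
    have h4 : ((2 : ℝ) ^ i) ^ 8 < m ^ 8 := by
      have : ((2 : ℝ) ^ i) ^ 8 = (16 : ℝ) ^ (2 * i) := by
        rw [← pow_mul, mul_comm i 8, pow_mul, pow_mul]
        norm_num
      rw [this, hm8]
      exact h16
    exact (lt_of_pow_lt_pow_left₀ 8 hm0.le h4).le
  have hj3 : (((2 * i.succ : ℕ) : ℝ) + 1) ≤ 3 * m := by
    have h4 : ((2 * i + 3 : ℕ) : ℝ) ≤ ((3 * 2 ^ i : ℕ) : ℝ) := by exact_mod_cast BT_two_pow i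
    push_cast at h4 ⊢
    linarith
  have hAr : A ^ ((1 : ℝ) / 24) ≤ (q : ℝ) ^ 2 * m := by
    have h4 : A ^ ((1 : ℝ) / 24) ≤ ((q : ℝ) ^ 2 * (M : ℝ) ^ 3) ^ ((1 : ℝ) / 24) :=
      Real.rpow_le_rpow hA0.le hA2 (by norm_num)
    rw [Real.mul_rpow (by positivity) (by positivity)] at h4
    have h5 : ((q : ℝ) ^ 2) ^ ((1 : ℝ) / 24) ≤ (q : ℝ) ^ 2 := by
      have h6 : ((q : ℝ) ^ 2) ^ ((1 : ℝ) / 24) ≤ ((q : ℝ) ^ 2) ^ (1 : ℝ) :=
        Real.rpow_le_rpow_of_exponent_le (by nlinarith) (by norm_num)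
      rwa [Real.rpow_one] at h6
    have h6 : ((M : ℝ) ^ 3) ^ ((1 : ℝ) / 24) = m := by
      rw [hm, ← Real.rpow_natCast_mul hM0.le]
      norm_num
    rw [h6] at h4
    exact le_trans h4 (mul_le_mul_of_nonneg_right h5 hm0.le)
  have hAM : A / (M : ℝ) ^ 3 + 1 / M ≤ (q : ℝ) ^ 2 + 1 := by
    have h4 : A / (M : ℝ) ^ 3 ≤ (q : ℝ) ^ 2 := by
      rw [div_le_iff₀ (by positivity)]
      exact hA2
    have h5 : 1 / (M : ℝ) ≤ 1 := by
      rw [div_le_one hM0]
      exact hM1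
    linarith
  have hW : W i.succ ≤ 16 * K₁ * m ^ 6 * A := by
    refine le_trans (h3 i.succ) ?_
    rw [← hA]
    have h4 : (4 * (q : ℝ)) ^ (2 * i.succ) = 16 * 16 ^ i * A := by
      rw [mul_pow, ← hA, pow_mul]
      norm_num
      left
      ring
    have h5 : (4 * (q : ℝ)) ^ (2 * i.succ) ≤ 16 * m ^ 4 * A := by
      rw [h4]
      refine mul_le_mul_of_nonneg_right ?_ hA0.le
      linarith
    have h6 : 4 + Cw * (((2 * i.succ : ℕ) : ℝ) + 1) * A ^ ((1 : ℝ) / 24) *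
        (A / (M : ℝ) ^ 3 + 1 / M) ≤ K₁ * m ^ 2 := by
      have h7 : Cw * (((2 * i.succ : ℕ) : ℝ) + 1) * A ^ ((1 : ℝ) / 24) *
          (A / (M : ℝ) ^ 3 + 1 / M) ≤ Cw * (3 * m) * ((q : ℝ) ^ 2 * m) * ((q : ℝ) ^ 2 + 1) := by
        gcongr
      have h8 : (1 : ℝ) ≤ m ^ 2 := one_le_pow₀ hm1
      have h9 : K₁ * m ^ 2 = 4 * m ^ 2
          + Cw * (3 * m) * ((q : ℝ) ^ 2 * m) * ((q : ℝ) ^ 2 + 1) := by
        rw [hK₁]; ring
      rw [h9]
      linarith
    calc (4 * (q : ℝ)) ^ (2 * i.succ) * (4 + Cw * (((2 * i.succ : ℕ) : ℝ) + 1) *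
          A ^ ((1 : ℝ) / 24) * (A / (M : ℝ) ^ 3 + 1 / M))
        ≤ (16 * m ^ 4 * A) * (K₁ * m ^ 2) := by
          refine mul_le_mul h5 h6 ?_ (by positivity)
          positivity
      _ = 16 * K₁ * m ^ 6 * A := by ring
  have hφ : φ ≤ 2 ^ ω * (cS * (16 * K₁ * m ^ 6)) := by
    have h4 := h2 i.succ
    have h5 : ((q : ℝ) ^ 2) ^ (2 * i.succ) = A * A := by
      rw [hA, ← pow_mul, ← pow_add]
      congr 1
      ring
    rw [h5] at h4
    have h6 : cS * (M : ℝ) ^ 3 * W i.succ ≤ cS * A * (16 * K₁ * m ^ 6 * A) := by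
      have h7 : cS * (M : ℝ) ^ 3 * W i.succ ≤ cS * (M : ℝ) ^ 3 * (16 * K₁ * m ^ 6 * A) :=
        mul_le_mul_of_nonneg_left hW (by positivity)
      refine le_trans h7 ?_
      refine mul_le_mul_of_nonneg_right ?_ (by positivity)
      exact mul_le_mul_of_nonneg_left hA1 hcS.le
    have h7 : φ * (A * A) ≤ 2 ^ ω * (cS * (16 * K₁ * m ^ 6)) * (A * A) := by
      calc φ * (A * A) ≤ 2 ^ ω * (cS * (M : ℝ) ^ 3 * W i.succ) := h4
        _ ≤ 2 ^ ω * (cS * A * (16 * K₁ * m ^ 6 * A)) :=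
            mul_le_mul_of_nonneg_left h6 (by positivity)
        _ = _ := by ring
    exact le_of_mul_le_mul_right h7 (by positivity)
  have hfin : m ≤ K := by
    rw [hm7] at h1
    have h4 : m ^ 7 * 2 ^ ω ≤ Cd * (2 ^ ω * (cS * (16 * K₁ * m ^ 6))) :=
      le_trans h1 (mul_le_mul_of_nonneg_left hφ hCd.le)
    have h5 : m * (m ^ 6 * 2 ^ ω) ≤ K * (m ^ 6 * 2 ^ ω) := by
      calc m * (m ^ 6 * 2 ^ ω) = m ^ 7 * 2 ^ ω := by ring
        _ ≤ _ := h4
        _ = K * (m ^ 6 * 2 ^ ω) := by rw [hK]; ring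
    exact le_of_mul_le_mul_right h5 (by positivity)
  have : (M : ℝ) ≤ K ^ 8 := by
    rw [← hm8]
    exact pow_le_pow_left₀ hm0.le hfin 8
  linarith


/-- conjugation on `SS q` -/
noncomputable def BT_star {q : ℕ} (b : SS q) : SS q :=
  ⟨star b.val, OO_star b.mem, by rw [Quaternion.normSq_star]; exact b.norm⟩

lemma BT_star_val {q : ℕ} (b : SS q) : (BT_star b).val = star b.val := rfl

lemma BT_star_star {q : ℕ} (b : SS q) : BT_star (BT_star b) = b := by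
  apply SS.ext
  rw [BT_star_val, BT_star_val, star_star]

lemma BT_uM_inv {q : ℕ} (M : ℕ) (hM : Nat.Coprime q M) (b' b : SS q) :
    uM M hM (BT_star b) (BT_star b') = (uM M hM b' b)⁻¹ := by
  apply Subtype.ext
  change ((q : ZMod M)⁻¹) • redM M ((BT_star b).val * (BT_star b').val)
    = star (((q : ZMod M)⁻¹) • redM M (b'.val * b.val))
  rw [BT_star_val, BT_star_val, Quaternion.star_smul, ← star_mul, redM, qmap_star]

section closure

variable {S : Type} [Group S] {q : ℕ} (s : SS q → S)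

/-- the subgroup of even words -/
def BT_H : Subgroup S :=
  Subgroup.closure (Set.range fun p : SS q × SS q => s p.1 * s p.2)

lemma BT_mem_H (b' b : SS q) : s b' * s b ∈ BT_H s := Subgroup.subset_closure ⟨(b', b), rfl⟩

lemma BT_inv (hs : ∀ b b' : SS q, b'.val = star b.val → s b' = (s b)⁻¹) (b : SS q) :
    s (BT_star b) = (s b)⁻¹ := hs b (BT_star b) rfl

lemma BT_conj (hs : ∀ b b' : SS q, b'.val = star b.val → s b' = (s b)⁻¹) (c : SS q) :
    ∀ h ∈ BT_H s, s c * h * (s c)⁻¹ ∈ BT_H s := by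
  intro h hh
  induction hh using Subgroup.closure_induction with
  | mem x hx =>
    obtain ⟨⟨b', b⟩, rfl⟩ := hx
    have e : s c * (s b' * s b) * (s c)⁻¹ = (s c * s b') * (s b * s (BT_star c)) := by
      rw [BT_inv s hs]; group
    change s c * (s b' * s b) * (s c)⁻¹ ∈ BT_H s
    rw [e]
    exact mul_mem (BT_mem_H s _ _) (BT_mem_H s _ _)
  | one => simp [one_mem]
  | mul x y _ _ hx hy =>
    have e : s c * (x * y) * (s c)⁻¹ = (s c * x * (s c)⁻¹) * (s c * y * (s c)⁻¹) := by group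
    rw [e]
    exact mul_mem hx hy
  | inv x _ hx =>
    have e : s c * x⁻¹ * (s c)⁻¹ = (s c * x * (s c)⁻¹)⁻¹ := by group
    rw [e]
    exact inv_mem hx

lemma BT_conj' (hs : ∀ b b' : SS q, b'.val = star b.val → s b' = (s b)⁻¹)
    (hgen : Subgroup.closure (Set.range s) = ⊤) (g : S) :
    (∀ h ∈ BT_H s, g * h * g⁻¹ ∈ BT_H s) ∧ (∀ h ∈ BT_H s, g⁻¹ * h * g ∈ BT_H s) := by
  have hg : g ∈ Subgroup.closure (Set.range s) := by rw [hgen]; trivial
  induction hg using Subgroup.closure_induction with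
  | mem x hx =>
    obtain ⟨c, rfl⟩ := hx
    refine ⟨BT_conj s hs c, fun h hh => ?_⟩
    have := BT_conj s hs (BT_star c) h hh
    rwa [BT_inv s hs, inv_inv] at this
  | one => simp
  | mul x y _ _ hx hy =>
    refine ⟨fun h hh => ?_, fun h hh => ?_⟩
    · have e : x * y * h * (x * y)⁻¹ = x * (y * h * y⁻¹) * x⁻¹ := by group
      rw [e]
      exact hx.1 _ (hy.1 h hh)
    · have e : (x * y)⁻¹ * h * (x * y) = y⁻¹ * (x⁻¹ * h * x) * y := by group
      rw [e]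
      exact hy.2 _ (hx.2 h hh)
  | inv x _ hx =>
    refine ⟨fun h hh => ?_, fun h hh => ?_⟩
    · rw [inv_inv]
      exact hx.2 h hh
    · rw [inv_inv]
      exact hx.1 h hh

/-- the even words generate a perfect group -/
lemma BT_even (hs : ∀ b b' : SS q, b'.val = star b.val → s b' = (s b)⁻¹)
    (hperf : commutator S = ⊤) (hgen : Subgroup.closure (Set.range s) = ⊤) :
    Subgroup.closure (Set.range fun p : SS q × SS q => s p.1 * s p.2) = ⊤ := by
  change BT_H s = ⊤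
  have hn : (BT_H s).Normal := ⟨fun h hh g => (BT_conj' s hs hgen g).1 h hh⟩
  have heq : ∀ b b' : SS q, (QuotientGroup.mk (s b) : S ⧸ BT_H s) = QuotientGroup.mk (s b') := by
    intro b b'
    rw [QuotientGroup.eq]
    have h1 := BT_mem_H s (BT_star b) b'
    rwa [BT_inv s hs] at h1
  have hc1 : ∀ (g : S) (b : SS q),
      Commute (QuotientGroup.mk g : S ⧸ BT_H s) (QuotientGroup.mk (s b)) := by
    intro g b
    have hg : g ∈ Subgroup.closure (Set.range s) := by rw [hgen]; trivial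
    induction hg using Subgroup.closure_induction with
    | mem x hx =>
      obtain ⟨c, rfl⟩ := hx
      rw [heq c b]
    | one => exact Commute.one_left _
    | mul x y _ _ hx hy => exact hx.mul_left hy
    | inv x _ hx => exact hx.inv_left
  have hc2 : ∀ g h : S, Commute (QuotientGroup.mk g : S ⧸ BT_H s) (QuotientGroup.mk h) := by
    intro g h
    have hh : h ∈ Subgroup.closure (Set.range s) := by rw [hgen]; trivial
    induction hh using Subgroup.closure_induction with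
    | mem x hx =>
      obtain ⟨c, rfl⟩ := hx
      exact hc1 g c
    | one => exact Commute.one_right _
    | mul x y _ _ hx hy => exact hx.mul_right hy
    | inv x _ hx => exact hx.inv_right
  rw [eq_top_iff, ← hperf, commutator_def, Subgroup.commutator_le]
  intro g _ h _
  rw [← QuotientGroup.eq_one_iff]
  have := (hc2 g h).eq
  rw [commutatorElement_def]
  change (QuotientGroup.mk g * QuotientGroup.mk h * (QuotientGroup.mk g)⁻¹
    * (QuotientGroup.mk h)⁻¹ : S ⧸ BT_H s) = 1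
  rw [this]
  group

end closure


/-- the permutations -/
noncomputable def BT_tau {q : ℕ} {S : Type} [Group S] (s : SS q → S) (M : ℕ)
    (hM : Nat.Coprime q M) (p : SS q × SS q) : Equiv.Perm (S × unitary ℍ[ZMod M]) :=
  Equiv.prodCongr (Equiv.mulLeft (s p.1 * s p.2)) (Equiv.mulLeft (uM M hM p.1 p.2))

lemma BT_tau_apply {q : ℕ} {S : Type} [Group S] (s : SS q → S) (M : ℕ)
    (hM : Nat.Coprime q M) (p : SS q × SS q) (z : S × unitary ℍ[ZMod M]) :
    BT_tau s M hM p z = (s p.1 * s p.2 * z.1, uM M hM p.1 p.2 * z.2) := rfl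

lemma BT_tau_inv {q : ℕ} {S : Type} [Group S] (s : SS q → S)
    (hs : ∀ b b' : SS q, b'.val = star b.val → s b' = (s b)⁻¹) (M : ℕ)
    (hM : Nat.Coprime q M) (p : SS q × SS q) :
    BT_tau s M hM (BT_star p.2, BT_star p.1) = (BT_tau s M hM p)⁻¹ := by
  apply Equiv.ext
  intro z
  have e : (BT_tau s M hM p)⁻¹ z
      = ((s p.1 * s p.2)⁻¹ * z.1, (uM M hM p.1 p.2)⁻¹ * z.2) := rfl
  rw [e, BT_tau_apply, BT_uM_inv, BT_inv s hs, BT_inv s hs, mul_inv_rev]

theorem BT_proof (hSC : Stmt_SC) (hgapS : Stmt_gapS) (hWW : Stmt_WW) (hdiv : Stmt_div)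
    (hcard : Stmt_card) : Stmt_BT := by
  obtain ⟨Cd, hCd, hdiv'⟩ := hdiv.2 (1 / 8) (by norm_num)
  obtain ⟨Cw, hCw, hWW'⟩ := hWW (1 / 24) (by norm_num)
  refine ⟨4096, fun q hq hq4 hq0 S _ _ s hs hperf hgen => ?_⟩
  obtain ⟨gS, hgS, hgap⟩ := hgapS S (SS q × SS q) (fun p => s p.1 * s p.2)
    (BT_even s hs hperf hgen)
  have hcS : (0 : ℝ) < (Fintype.card S : ℝ) := by exact_mod_cast Fintype.card_pos
  obtain ⟨L₀, hL₀q, hnum⟩ := BT_num q hq0 Cd Cw (Fintype.card S) hCd hCw hcS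
  refine ⟨min 1 gS, L₀, lt_min one_pos hgS, hL₀q, ?_⟩
  intro M _ hM hMl f hf
  by_contra hcon
  push Not at hcon
  have hvar : ∑ p : SS q × SS q, ∑ z, ‖f (BT_tau s M hM p z) - f z‖ ^ 2
      < 2 * min 1 gS * ∑ z, ‖f z‖ ^ 2 := by
    rw [Fintype.sum_prod_type]
    exact hcon
  obtain ⟨μ, F, hF0, hFs, hFe, hμ⟩ := BT_eigen (BT_tau s M hM)
    (fun p => (BT_star p.2, BT_star p.1)) (fun p => by
      change (BT_star (BT_star p.1), BT_star (BT_star p.2)) = p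
      rw [BT_star_star, BT_star_star]) (BT_tau_inv s hs M hM) f hf (min 1 gS) hvar
  have hq1 : (4096 : ℝ) ≤ q := by exact_mod_cast hq0
  have hn : (Fintype.card (SS q × SS q) : ℝ) = ((q : ℝ) + 1) ^ 2 := by
    rw [Fintype.card_prod, hcard q hq hq4]
    push_cast
    ring
  have hμq : (q : ℝ) ^ 2 ≤ μ := by
    have h1 : min 1 gS ≤ 1 := min_le_left _ _
    rw [hn] at hμ
    nlinarith
  by_cases hinv : ∃ (y : S) (x g : unitary ℍ[ZMod M]), F (y, x * g) ≠ F (y, x)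
  · -- not right-invariant: use SC
    have hodd : Odd M := by
      rw [← Nat.not_even_iff_odd]
      intro hev
      have := hMl 2 Nat.prime_two hev.two_dvd
      omega
    obtain ⟨M', hM'M, hM'1, hj⟩ := hSC q hq hq4 M hM hodd S s hs μ F (fun z => by
      have := hFe z
      rw [Fintype.sum_prod_type] at this
      exact this) hinv
    obtain ⟨l, hl, hlM'⟩ := Nat.exists_prime_and_dvd (show M' ≠ 1 by omega)
    have hL : L₀ ≤ M' := le_trans (hMl l hl (dvd_trans hlM' hM'M)) (Nat.le_of_dvd (by omega) hlM')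
    have hM'pos : 0 < M' := by omega
    have hcop : Nat.Coprime M' (2 * q) := by
      apply Nat.Coprime.mul_right
      · have : Odd M' := hodd.of_dvd_nat hM'M
        exact this.coprime_two_right
      · exact (Nat.Coprime.coprime_dvd_right hM'M hM).symm
    refine hnum M' M'.totient M'.primeFactors.card (fun j => (WW q M' (4 * j) : ℝ)) hL ?_ ?_ ?_
    · have := hdiv' M' hM'pos
      rw [show (1 : ℝ) - 1 / 8 = 7 / 8 by norm_num] at this
      exact this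
    · intro j
      refine le_trans ?_ (hj j)
      have h1 : ((q : ℝ) ^ 2) ^ (2 * j) ≤ μ ^ (2 * j) :=
        pow_le_pow_left₀ (by positivity) hμq _
      exact mul_le_mul_of_nonneg_left h1 (Nat.cast_nonneg _)
    · intro j
      have := hWW' q M' (2 * j) hq hq4 hM'pos hcop
      rw [show 2 * (2 * j) = 4 * j by ring] at this
      exact this
  · -- right-invariant: use the gap of `S`
    push Not at hinv
    have hFu : ∀ (y : S) (x : unitary ℍ[ZMod M]), F (y, x) = F (y, 1) := by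
      intro y x
      have := hinv y 1 x
      rwa [one_mul] at this
    set u : S → ℂ := fun y => F (y, 1) with hu
    have hu0 : u ≠ 0 := by
      intro h
      apply hF0
      funext z
      obtain ⟨y, x⟩ := z
      rw [hFu y x]
      exact congrFun h y
    have hus : ∑ y, u y = 0 := by
      rw [Fintype.sum_prod_type] at hFs
      have h1 : ∀ y : S, ∑ x : unitary ℍ[ZMod M], F (y, x)
          = (Fintype.card (unitary ℍ[ZMod M]) : ℂ) * u y := by
        intro y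
        rw [Finset.sum_congr rfl fun x _ => hFu y x, Finset.sum_const, Finset.card_univ,
          nsmul_eq_mul]
      rw [Finset.sum_congr rfl fun y _ => h1 y, ← Finset.mul_sum] at hFs
      rcases mul_eq_zero.mp hFs with h | h
      · exfalso
        have : (Fintype.card (unitary ℍ[ZMod M]) : ℂ) ≠ 0 := by
          exact_mod_cast Fintype.card_ne_zero
        exact this h
      · exact h
    have hue : ∀ y, ∑ p : SS q × SS q, u (Equiv.mulLeft (s p.1 * s p.2) y) = (μ : ℂ) * u y := by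
      intro y
      have h1 := hFe (y, 1)
      have h2 : ∀ p : SS q × SS q, F (BT_tau s M hM p (y, 1))
          = u (Equiv.mulLeft (s p.1 * s p.2) y) := fun p => hFu _ _
      rw [Finset.sum_congr rfl fun p _ => h2 p] at h1
      exact h1
    have hg := hgap u hus
    have hv := BT_var (fun p : SS q × SS q => Equiv.mulLeft (s p.1 * s p.2)) u
    have hv2 : (∑ y, (starRingEnd ℂ) (∑ p : SS q × SS q,
        u (Equiv.mulLeft (s p.1 * s p.2) y)) * u y).re = μ * ∑ y, ‖u y‖ ^ 2 := by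
      have h1 : ∀ y, (starRingEnd ℂ) (∑ p : SS q × SS q,
          u (Equiv.mulLeft (s p.1 * s p.2) y)) * u y = ((μ * ‖u y‖ ^ 2 : ℝ) : ℂ) := by
        intro y
        rw [hue, map_mul, Complex.conj_ofReal, mul_assoc, Complex.conj_mul']
        push_cast
        rfl
      rw [Finset.sum_congr rfl fun y _ => h1 y, ← Complex.ofReal_sum, Complex.ofReal_re,
        Finset.mul_sum]
    rw [hv2] at hv
    have hpos : 0 < ∑ y, ‖u y‖ ^ 2 := by
      obtain ⟨y, hy⟩ := Function.ne_iff.mp hu0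
      have h1 : 0 < ‖u y‖ ^ 2 := by
        have : 0 < ‖u y‖ := norm_pos_iff.mpr hy
        positivity
      exact lt_of_lt_of_le h1 (Finset.single_le_sum (f := fun y => ‖u y‖ ^ 2)
        (fun i _ => by positivity) (Finset.mem_univ y))
    have hg2 : 2 * gS * ∑ y, ‖u y‖ ^ 2 ≤ 2 * (Fintype.card (SS q × SS q)) * ∑ y, ‖u y‖ ^ 2
        - 2 * (μ * ∑ y, ‖u y‖ ^ 2) := by
      rw [← hv]
      exact hg
    have hmin : min 1 gS ≤ gS := min_le_right _ _
    have h3 : ((Fintype.card (SS q × SS q) : ℝ) - μ) * ∑ y, ‖u y‖ ^ 2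
        < gS * ∑ y, ‖u y‖ ^ 2 := mul_lt_mul_of_pos_right (by linarith) hpos
    linarith

end TauQ
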