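import Mathlib
import Pool.Agent.Work.MP_972ac7_al_tau.Interface

/-!
# Block DLa (N10a): generation of the last layer of `SL2(Z/M)` at the prime `l`
-/

set_option autoImplicit false
set_option linter.unusedSectionVars false

namespace TauQ

section DLa
variable {M : ℕ}

/-- matrices with given entries -/
def DLa_mk (a b c d : ZMod M) (h : a * d - b * c = 1) :
    Matrix.SpecialLinearGroup (Fin 2) (ZMod M) :=
  ⟨!![a, b; c, d], by rw [Matrix.det_fin_two_of]; exact h⟩

lemma DLa_mk_eq {a b c d a' b' c' d' : ZMod M} {h : a * d - b * c = 1}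
    {h' : a' * d' - b' * c' = 1} (h1 : a = a') (h2 : b = b') (h3 : c = c') (h4 : d = d') :
    DLa_mk a b c d h = DLa_mk a' b' c' d' h' := by
  subst h1; subst h2; subst h3; subst h4; rfl

lemma DLa_mem_of_eq {H : Subgroup (Matrix.SpecialLinearGroup (Fin 2) (ZMod M))}
    {a b c d a' b' c' d' : ZMod M} {h : a * d - b * c = 1}
    (hm : DLa_mk a b c d h ∈ H) (h' : a' * d' - b' * c' = 1)
    (h1 : a = a') (h2 : b = b') (h3 : c = c') (h4 : d = d') :
    DLa_mk a' b' c' d' h' ∈ H := by
  subst h1; subst h2; subst h3; subst h4; exact hm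

lemma DLa_mul {a b c d a' b' c' d' : ZMod M} (h : a * d - b * c = 1)
    (h' : a' * d' - b' * c' = 1) :
    DLa_mk a b c d h * DLa_mk a' b' c' d' h' =
      DLa_mk (a * a' + b * c') (a * b' + b * d') (c * a' + d * c') (c * b' + d * d')
        (by linear_combination (a' * d' - b' * c') * h + h') := by
  apply Subtype.ext
  change !![a, b; c, d] * !![a', b'; c', d'] = _
  rw [Matrix.mul_fin_two]
  rfl

lemma DLa_inv {a b c d : ZMod M} (h : a * d - b * c = 1) :
    (DLa_mk a b c d h)⁻¹ = DLa_mk d (-b) (-c) a (by linear_combination h) := by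
  rw [inv_eq_iff_mul_eq_one, DLa_mul]
  apply Subtype.ext
  change !![_, _; _, _] = (1 : Matrix (Fin 2) (Fin 2) (ZMod M))
  rw [Matrix.one_fin_two]
  congr 2
  · exact funext fun i => by
      fin_cases i
      · change a * d + b * -c = 1
        linear_combination h
      · change a * -b + b * a = 0
        ring
  · congr 1
    exact funext fun i => by
      fin_cases i
      · change c * d + d * -c = 0
        ring
      · change c * -b + d * a = 1
        linear_combination h

lemma DLa_U (t : ZMod M) : UU t = DLa_mk 1 t 0 1 (by ring) := rfl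
lemma DLa_L (t : ZMod M) : LL t = DLa_mk 1 0 t 1 (by ring) := rfl

lemma DLa_U_pow (t : ZMod M) (m : ℕ) : (UU t) ^ m = UU ((m : ZMod M) * t) := by
  induction m with
  | zero =>
    rw [pow_zero, Nat.cast_zero, zero_mul]
    apply Subtype.ext
    exact (Matrix.one_fin_two : (1 : Matrix (Fin 2) (Fin 2) (ZMod M)) = _)
  | succ m ih =>
    rw [pow_succ, ih, DLa_U, DLa_U, DLa_mul, DLa_U]
    refine DLa_mk_eq ?_ ?_ ?_ ?_
    · ring
    · push_cast; ring
    · ring
    · ring

lemma DLa_L_pow (t : ZMod M) (m : ℕ) : (LL t) ^ m = LL ((m : ZMod M) * t) := by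
  induction m with
  | zero =>
    rw [pow_zero, Nat.cast_zero, zero_mul]
    apply Subtype.ext
    exact (Matrix.one_fin_two : (1 : Matrix (Fin 2) (Fin 2) (ZMod M)) = _)
  | succ m ih =>
    rw [pow_succ, ih, DLa_L, DLa_L, DLa_mul, DLa_L]
    refine DLa_mk_eq ?_ ?_ ?_ ?_
    · ring
    · ring
    · push_cast; ring
    · ring

lemma DLa_U_mem [NeZero M] {H : Subgroup (Matrix.SpecialLinearGroup (Fin 2) (ZMod M))}
    {n : ZMod M} (h : UU n ∈ H) (a : ZMod M) : UU (n * a) ∈ H := by
  have h1 : (UU n) ^ a.val ∈ H := H.pow_mem h _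
  rw [DLa_U_pow, ZMod.natCast_zmod_val, mul_comm] at h1
  exact h1

lemma DLa_L_mem [NeZero M] {H : Subgroup (Matrix.SpecialLinearGroup (Fin 2) (ZMod M))}
    {n : ZMod M} (h : LL n ∈ H) (a : ZMod M) : LL (n * a) ∈ H := by
  have h1 : (LL n) ^ a.val ∈ H := H.pow_mem h _
  rw [DLa_L_pow, ZMod.natCast_zmod_val, mul_comm] at h1
  exact h1

/-- the case `N² = 0` -/
lemma DLa_case2 [NeZero M] (H : Subgroup (Matrix.SpecialLinearGroup (Fin 2) (ZMod M)))
    (n s : ZMod M) (l : ℕ) (hl : Odd l) (hnl : n * (l : ZMod M) = 0) (hnn : n * n = 0)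
    (hns : n * s = n) (h0 : UU n ∈ H) (h1 : LL s * UU n * (LL s)⁻¹ ∈ H)
    (h2 : LL (-s) * UU n * (LL (-s))⁻¹ ∈ H) (y11 y12 y21 y22 : ZMod M)
    (hdet : (1 + n * y11) * (1 + n * y22) - (n * y12) * (n * y21) = 1) :
    DLa_mk (1 + n * y11) (n * y12) (n * y21) (1 + n * y22) hdet ∈ H := by
  -- the two conjugates
  have hn0 : ∀ a b : ZMod M, n * a * (n * b) = 0 := fun a b => by
    linear_combination (a * b) * hnn
  have e1 : LL s * UU n * (LL s)⁻¹ = DLa_mk (1 - n) n (-n) (1 + n) (by
      linear_combination 0 * hnn) := by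
    rw [DLa_L, DLa_U, DLa_inv, DLa_mul, DLa_mul]
    refine DLa_mk_eq ?_ ?_ ?_ ?_
    · linear_combination -hns
    · ring
    · linear_combination (-s - 1) * hns
    · linear_combination hns
  have e2 : LL (-s) * UU n * (LL (-s))⁻¹ = DLa_mk (1 + n) n (-n) (1 - n) (by
      linear_combination 0 * hnn) := by
    rw [DLa_L, DLa_U, DLa_inv, DLa_mul, DLa_mul]
    refine DLa_mk_eq ?_ ?_ ?_ ?_
    · linear_combination hns
    · ring
    · linear_combination (-s - 1) * hns
    · linear_combination -hns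
  rw [e1] at h1
  rw [e2] at h2
  -- diagonal elements
  have hD : ∀ m : ℕ, DLa_mk (1 + 2 * (m : ZMod M) * n) 0 0 (1 - 2 * (m : ZMod M) * n)
      (by linear_combination (-4 * (m : ZMod M) ^ 2) * hnn) ∈ H := by
    intro m
    induction m with
    | zero =>
      have h3 : DLa_mk (1 + 2 * ((0 : ℕ) : ZMod M) * n) 0 0 (1 - 2 * ((0 : ℕ) : ZMod M) * n)
          (by linear_combination (-4 * ((0 : ℕ) : ZMod M) ^ 2 : ZMod M) * hnn) = 1 := by
        apply Subtype.ext
        change !![_, _; _, _] = (1 : Matrix (Fin 2) (Fin 2) (ZMod M))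
        rw [Matrix.one_fin_two]
        simp
      rw [h3]
      exact H.one_mem
    | succ m ih =>
      have h3 := H.mul_mem ih (H.mul_mem h2 (H.inv_mem h1))
      rw [DLa_inv, DLa_mul, DLa_mul] at h3
      refine DLa_mem_of_eq h3 _ ?_ ?_ ?_ ?_
      · push_cast
        linear_combination (4 * (m : ZMod M) + 2 + 4 * (m : ZMod M) * n) * hnn
      · linear_combination (-2 - 4 * (m : ZMod M) * n) * hnn
      · linear_combination (-2 + 4 * (m : ZMod M) * n) * hnn
      · push_cast
        linear_combination (4 * (m : ZMod M) + 2 - 4 * (m : ZMod M) * n) * hnn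
  have hD' : ∀ a : ZMod M, DLa_mk (1 + n * a) 0 0 (1 - n * a)
      (by linear_combination (-a ^ 2) * hnn) ∈ H := by
    intro a
    obtain ⟨j, hj⟩ := hl
    have h3 := hD (a.val * (j + 1))
    have h4 : (2 : ZMod M) * ((a.val * (j + 1) : ℕ) : ZMod M) * n = n * a := by
      have h5 : (l : ZMod M) = 2 * j + 1 := by rw [hj]; push_cast; ring
      push_cast
      rw [ZMod.natCast_zmod_val]
      rw [h5] at hnl
      linear_combination a * hnl
    exact DLa_mem_of_eq h3 _ (by rw [h4]) rfl rfl (by rw [h4])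
  -- lower unipotent
  have hL : LL n ∈ H := by
    have h3 := H.mul_mem (H.mul_mem (hD' 1) (H.inv_mem h0)) h1
    have h4 : LL (-n) = DLa_mk (1 + n * 1) 0 0 (1 - n * 1)
      (by linear_combination (-1 ^ 2 : ZMod M) * hnn) * (UU n)⁻¹ *
        DLa_mk (1 - n) n (-n) (1 + n) (by linear_combination 0 * hnn) := by
      rw [DLa_U, DLa_inv, DLa_mul, DLa_mul, DLa_L]
      refine DLa_mk_eq ?_ ?_ ?_ ?_
      · linear_combination (-n) * hnn
      · linear_combination (n + 1) * hnn
      · linear_combination (-1 : ZMod M) * hnn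
      · linear_combination hnn
    rw [← h4] at h3
    have h5 := DLa_L_mem h3 (-1)
    rw [neg_mul_neg, mul_one] at h5
    exact h5
  have h22 : n * y22 = -(n * y11) := by
    linear_combination hdet - (y11 * y22 - y12 * y21) * hnn
  have h3 := H.mul_mem (H.mul_mem (DLa_U_mem h0 y12) (hD' y11)) (DLa_L_mem hL y21)
  have h4 : DLa_mk (1 + n * y11) (n * y12) (n * y21) (1 + n * y22) hdet =
      UU (n * y12) * DLa_mk (1 + n * y11) 0 0 (1 - n * y11)
      (by linear_combination (-y11 ^ 2) * hnn) * LL (n * y21) := by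
    rw [DLa_U, DLa_L, DLa_mul, DLa_mul]
    refine DLa_mk_eq ?_ ?_ ?_ ?_
    · linear_combination (-(y12 * y21) + n * y11 * y12 * y21) * hnn
    · linear_combination (y11 * y12) * hnn
    · linear_combination (y11 * y21) * hnn
    · linear_combination h22
  rw [h4]
  exact h3

/-- the case `k = 1` -/
lemma DLa_case1 [NeZero M] (H : Subgroup (Matrix.SpecialLinearGroup (Fin 2) (ZMod M)))
    (n s t : ZMod M) (hs : s = n * t) (hns : n * s = n) (h0 : UU n ∈ H)
    (h1 : (UU s * LL (-s) * UU s) * UU n * (UU s * LL (-s) * UU s)⁻¹ ∈ H)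
    (hdich : ∀ y : ZMod M, n * y = 0 ∨ ∃ z, n * y * z = s) (y11 y12 y21 y22 : ZMod M)
    (hdet : (1 + n * y11) * (1 + n * y22) - (n * y12) * (n * y21) = 1) :
    DLa_mk (1 + n * y11) (n * y12) (n * y21) (1 + n * y22) hdet ∈ H := by
  have hss : s * s = s := by
    rw [hs] at hns ⊢
    linear_combination t * hns
  have e1 : (UU s * LL (-s) * UU s) * UU n * (UU s * LL (-s) * UU s)⁻¹ = LL (-n) := by
    have e2 : UU s * LL (-s) * UU s = DLa_mk (1 - s) s (-s) (1 - s)
        (by linear_combination 2 * hss) := by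
      rw [DLa_U, DLa_L, DLa_mul, DLa_mul]
      refine DLa_mk_eq ?_ ?_ ?_ ?_
      · linear_combination -hss
      · linear_combination (-s - 1) * hss
      · ring
      · linear_combination -hss
    rw [e2, DLa_inv, DLa_U, DLa_mul, DLa_mul, DLa_L]
    refine DLa_mk_eq ?_ ?_ ?_ ?_
    · linear_combination 2 * hss - s * hns
    · linear_combination (s - 1) * hns
    · linear_combination (-s - 1) * hns
    · linear_combination 2 * hss + s * hns
  rw [e1] at h1
  have hL : LL n ∈ H := by
    have h5 := DLa_L_mem h1 (-1)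
    rw [neg_mul_neg, mul_one] at h5
    exact h5
  -- the main case
  have main : ∀ y11 y12 y21 y22 z : ZMod M,
      ∀ hdet : (1 + n * y11) * (1 + n * y22) - (n * y12) * (n * y21) = 1, n * y21 * z = s →
      DLa_mk (1 + n * y11) (n * y12) (n * y21) (1 + n * y22) hdet ∈ H := by
    intro y11 y12 y21 y22 z hdet hz
    have h3 := H.mul_mem (H.mul_mem (DLa_U_mem h0 (y11 * z)) (DLa_L_mem hL y21))
      (DLa_U_mem h0 (y22 * z))
    have h4 : DLa_mk (1 + n * y11) (n * y12) (n * y21) (1 + n * y22) hdet =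
        UU (n * (y11 * z)) * LL (n * y21) * UU (n * (y22 * z)) := by
      rw [DLa_U, DLa_L, DLa_U, DLa_mul, DLa_mul]
      refine DLa_mk_eq ?_ ?_ ?_ ?_
      · linear_combination (-(n * y11)) * hz - y11 * hns
      · linear_combination (-(z)) * hdet - (y12 + n * y11 * y22 * z) * hns
          + (-(n * y12) - n * n * y11 * y22 * z) * hz
      · ring
      · linear_combination (-(n * y22)) * hz - y22 * hns
    rw [h4]
    exact h3
  rcases hdich y21 with hc | ⟨z, hz⟩
  · -- multiply by `LL s`
    have hLs : LL s ∈ H := by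
      rw [hs]
      exact DLa_L_mem hL t
    have hdet2 : (1 + n * y11) * (1 + n * (y22 + s * y12)) -
        (n * y12) * (n * (t * (1 + n * y11) + y21)) = 1 := by
      rw [hs]
      linear_combination hdet
    have h3 := main y11 y12 (t * (1 + n * y11) + y21) (y22 + s * y12) (1 + n * y22) hdet2 (by
      rw [hs]
      linear_combination (n * t) * hdet + (1 + n * y22) * hc + (n * t * n * y12) * hc)
    have h4 : DLa_mk (1 + n * y11) (n * y12) (n * (t * (1 + n * y11) + y21))
        (1 + n * (y22 + s * y12)) hdet2 =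
        LL s * DLa_mk (1 + n * y11) (n * y12) (n * y21) (1 + n * y22) hdet := by
      rw [DLa_L, DLa_mul]
      refine DLa_mk_eq ?_ ?_ ?_ ?_
      · ring
      · ring
      · rw [hs]; ring
      · ring
    rw [h4] at h3
    exact (H.mul_mem_cancel_left hLs).1 h3
  · exact main y11 y12 y21 y22 z hdet hz

end DLa

theorem DLa_proof : Stmt_DLa := by
  intro M l k e hM hl hk hMe hle g hg
  obtain ⟨y, hy⟩ := hg
  have hM0 : M ≠ 0 := by
    rintro rfl
    exact absurd hM (by decide)
  have : NeZero M := ⟨hM0⟩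
  have hlM : l ∣ M := by
    rw [hMe]
    exact Dvd.dvd.mul_right (dvd_pow_self l hk.ne') e
  have hlodd : Odd l := hM.of_dvd_nat hlM
  have hNdef : M / l * l = M := Nat.div_mul_cancel hlM
  have hNk : M / l = l ^ (k - 1) * e := by
    have h1 : M = l * (l ^ (k - 1) * e) := by
      rw [hMe, ← mul_assoc, ← pow_succ']
      congr 2
      omega
    rw [h1]
    exact Nat.mul_div_cancel_left _ hl.pos
  set n : ZMod M := ((M / l : ℕ) : ZMod M) with hn
  have hnl : n * (l : ZMod M) = 0 := by
    rw [hn, ← Nat.cast_mul, hNdef]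
    exact ZMod.natCast_self M
  -- Bezout
  obtain ⟨u, v, huv⟩ := Nat.isCoprime_iff_coprime.2 hle
  have huv' : (u : ZMod M) * l + (v : ZMod M) * e = 1 := by
    have := congrArg (fun x : ℤ => (x : ZMod M)) huv
    push_cast at this
    exact this
  set s : ZMod M := (e : ZMod M) * v with hs
  have hns : n * s = n := by
    rw [hs]
    linear_combination n * huv' - (u : ZMod M) * hnl
  -- entries
  have hmul : ∀ i j, (((M / l : ℕ) : Matrix (Fin 2) (Fin 2) (ZMod M)) * y) i j = n * y i j := by
    intro i j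
    rw [← nsmul_eq_mul, Matrix.smul_apply, nsmul_eq_mul]
  have hent : g = DLa_mk (1 + n * y 0 0) (n * y 0 1) (n * y 1 0) (1 + n * y 1 1) (by
      have h1 := g.2
      rw [hy, Matrix.det_fin_two] at h1
      simp only [Matrix.add_apply, hmul, Matrix.one_apply_eq,
        Matrix.one_apply_ne (show (0 : Fin 2) ≠ 1 by decide),
        Matrix.one_apply_ne (show (1 : Fin 2) ≠ 0 by decide), zero_add] at h1
      exact h1) := by
    apply Subtype.ext
    refine Eq.trans hy ?_
    ext i j
    rw [Matrix.add_apply, hmul]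
    fin_cases i <;> fin_cases j
    · rfl
    · exact zero_add _
    · exact zero_add _
    · rfl
  set H := Subgroup.closure {z | ∃ x ∈ EE M e, z = x * UU (((M / l : ℕ) : ZMod M)) * x⁻¹} with hH
  have hUe : ∀ t : ZMod M, UU ((e : ZMod M) * t) ∈ EE M e := fun t =>
    Subgroup.subset_closure ⟨t, Or.inl rfl⟩
  have hLe : ∀ t : ZMod M, LL ((e : ZMod M) * t) ∈ EE M e := fun t =>
    Subgroup.subset_closure ⟨t, Or.inr rfl⟩
  have hconj : ∀ x ∈ EE M e, x * UU n * x⁻¹ ∈ H := fun x hx =>
    Subgroup.subset_closure ⟨x, hx, rfl⟩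
  have h0 : UU n ∈ H := by
    have := hconj 1 (EE M e).one_mem
    rwa [one_mul, inv_one, mul_one] at this
  have hsn : LL (-s) ∈ EE M e := by
    have h1 : -s = (e : ZMod M) * (-(v : ZMod M)) := by rw [hs]; ring
    rw [h1]
    exact hLe _
  rw [hent]
  by_cases hk2 : 2 ≤ k
  · have hnn : n * n = 0 := by
      rw [hn, ← Nat.cast_mul, ZMod.natCast_eq_zero_iff, hNk, hMe]
      have h1 : l ^ (k - 1) * e * (l ^ (k - 1) * e) = l ^ k * e * (l ^ (k - 2) * e) := by
        have h2 : l ^ (k - 1) * l ^ (k - 1) = l ^ k * l ^ (k - 2) := by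
          rw [← pow_add, ← pow_add]
          congr 1
          omega
        calc l ^ (k - 1) * e * (l ^ (k - 1) * e) = (l ^ (k - 1) * l ^ (k - 1)) * (e * e) := by ring
          _ = _ := by rw [h2]; ring
      rw [h1]
      exact Dvd.intro _ rfl
    exact DLa_case2 H n s l hlodd hnl hnn hns h0 (hconj _ (hLe _)) (hconj _ hsn) _ _ _ _ _
  · have hk1 : k = 1 := by omega
    have hne : n = (e : ZMod M) := by
      rw [hn, hNk, hk1, Nat.sub_self, pow_zero, one_mul]
    have hel : (e : ZMod M) * l = 0 := by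
      rw [← hne]
      exact hnl
    refine DLa_case1 H n s v (by rw [hne, hs]) hns h0 (hconj _ ?_) ?_ _ _ _ _ _
    · exact (EE M e).mul_mem ((EE M e).mul_mem (hUe _) hsn) (hUe _)
    · intro y
      by_cases hly : l ∣ y.val
      · left
        obtain ⟨j, hj⟩ := hly
        have h1 : y = (l : ZMod M) * j := by
          rw [← ZMod.natCast_zmod_val y, hj]
          push_cast
          ring
        rw [h1]
        linear_combination (j : ZMod M) * hnl
      · right
        have hco : Nat.Coprime l y.val := (Nat.Prime.coprime_iff_not_dvd hl).2 hly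
        obtain ⟨a, b, hab⟩ := Nat.isCoprime_iff_coprime.2 hco
        have hab' : (a : ZMod M) * l + (b : ZMod M) * y = 1 := by
          have := congrArg (fun x : ℤ => (x : ZMod M)) hab
          push_cast at this
          rwa [ZMod.natCast_zmod_val] at this
        refine ⟨(v : ZMod M) * b, ?_⟩
        rw [hne, hs]
        linear_combination ((e : ZMod M) * v) * hab' - (a * v : ZMod M) * hel

end TauQ
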