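import Mathlib
import Pool.Agent.Work.MP_972ac7_al_tau.Interface

/-!
# Block N13b `SA`: the local group is perfect and transitive
-/

open scoped Quaternion BigOperators
open Classical

namespace TauQ

section

variable {p : ℕ}

lemma SA_natMul (k : ℕ) (δ : ℍ[ℤ]) : ((k : ℍ[ℤ]) * δ).re = k * δ.re ∧
    ((k : ℍ[ℤ]) * δ).imI = k * δ.imI ∧ ((k : ℍ[ℤ]) * δ).imJ = k * δ.imJ ∧
    ((k : ℍ[ℤ]) * δ).imK = k * δ.imK := by
  refine ⟨?_, ?_, ?_, ?_⟩ <;> simp

lemma SA_p_zero : ((p : ℕ) : ℍ[ZMod p]) = 0 := by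
  ext <;> simp

lemma SA_red_zero (α : ℍ[ℤ]) (h : redM p α = 0) : ∃ δ : ℍ[ℤ], α = (p : ℍ[ℤ]) * δ := by
  have h1 := congrArg (fun z : ℍ[ZMod p] => z.re) h
  have h2 := congrArg (fun z : ℍ[ZMod p] => z.imI) h
  have h3 := congrArg (fun z : ℍ[ZMod p] => z.imJ) h
  have h4 := congrArg (fun z : ℍ[ZMod p] => z.imK) h
  simp only [redM, qmap_re, qmap_imI, qmap_imJ, qmap_imK, Quaternion.re_zero,
    Quaternion.imI_zero, Quaternion.imJ_zero, Quaternion.imK_zero, eq_intCast,
    ZMod.intCast_zmod_eq_zero_iff_dvd] at h1 h2 h3 h4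
  obtain ⟨a, ha⟩ := h1
  obtain ⟨b, hb⟩ := h2
  obtain ⟨c, hc⟩ := h3
  obtain ⟨d, hd⟩ := h4
  refine ⟨mk4 a b c d, ?_⟩
  obtain ⟨e1, e2, e3, e4⟩ := SA_natMul p (mk4 a b c d)
  apply Quaternion.ext
  · rw [e1, ha]; rfl
  · rw [e2, hb]; rfl
  · rw [e3, hc]; rfl
  · rw [e4, hd]; rfl

lemma SA_norm (α : ℍ[ℤ]) :
    Quaternion.normSq (redM p α) = ((Quaternion.normSq α : ℤ) : ZMod p) := by
  rw [redM, normSq_qmap]
  rfl

lemma SA_surj [NeZero p] (x : ℍ[ZMod p]) : ∃ α : ℍ[ℤ], redM p α = x := by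
  refine ⟨mk4 (x.re.val : ℤ) (x.imI.val : ℤ) (x.imJ.val : ℤ) (x.imK.val : ℤ), ?_⟩
  ext <;> simp [redM]

lemma SA_ne (hp : p.Prime) (a : SS p) : redM p a.val ≠ 0 := by
  intro h
  obtain ⟨δ, hδ⟩ := SA_red_zero _ h
  have h1 := a.norm
  rw [hδ, map_mul, Quaternion.normSq_natCast] at h1
  have hp0 : (p : ℤ) ≠ 0 := by exact_mod_cast hp.ne_zero
  have h2 : (p : ℤ) * Quaternion.normSq δ = 1 := by
    have h3 : (p : ℤ) * ((p : ℤ) * Quaternion.normSq δ) = p * 1 := by
      rw [mul_one]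
      linarith
    exact mul_left_cancel₀ hp0 h3
  have h4 : (p : ℤ) ∣ 1 := ⟨_, h2.symm⟩
  have h5 : p ∣ 1 := by exact_mod_cast h4
  exact hp.one_lt.ne' (Nat.dvd_one.1 h5)

lemma SA_norm_zero (a : SS p) : Quaternion.normSq (redM p a.val) = 0 := by
  rw [SA_norm, a.norm]
  simp

lemma SA_ex (hp : p.Prime) (hp4 : p % 4 = 1) (hE : Stmt_exists) (y : ℍ[ZMod p]) (hy : y ≠ 0)
    (hN : Quaternion.normSq y = 0) : ∃ (β : SS p) (γ : ℍ[ZMod p]), y = redM p β.val * γ := by
  have : NeZero p := ⟨hp.ne_zero⟩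
  obtain ⟨α, rfl⟩ := SA_surj y
  obtain ⟨β, γ, h⟩ := hE p hp hp4 α (by
    intro γ h
    apply hy
    rw [h, map_mul, map_natCast, SA_p_zero, zero_mul]) (by
    rw [SA_norm, ZMod.intCast_zmod_eq_zero_iff_dvd] at hN
    exact hN)
  exact ⟨β, redM p γ, by rw [h, map_mul]⟩

lemma SA_un (hp : p.Prime) (hp4 : p % 4 = 1) (hU : Stmt_unique) (β β' : SS p)
    (γ γ' : ℍ[ZMod p]) (h0 : redM p β.val * γ ≠ 0)
    (h : redM p β.val * γ = redM p β'.val * γ') : β = β' := by
  have : NeZero p := ⟨hp.ne_zero⟩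
  obtain ⟨g, rfl⟩ := SA_surj γ
  obtain ⟨g', rfl⟩ := SA_surj γ'
  rw [← map_mul] at h h0
  rw [← map_mul] at h
  have h1 : redM p (β.val * g - β'.val * g') = 0 := by rw [map_sub, h, sub_self]
  obtain ⟨δ, hδ⟩ := SA_red_zero _ h1
  apply (hU p hp hp4).2 β β' g (g' + star β'.val * δ)
  · intro δ' h2
    apply h0
    rw [h2, map_mul, map_natCast, SA_p_zero, zero_mul]
  · have h3 : β'.val * star β'.val = (p : ℍ[ℤ]) := by
      rw [Quaternion.self_mul_star, β'.norm]
      rfl
    rw [mul_add, ← mul_assoc, h3, ← hδ]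
    abel

/-- the action on `SS p` -/
lemma SA_act_ex (hp : p.Prime) (hp4 : p % 4 = 1) (hE : Stmt_exists) (x : unitary ℍ[ZMod p])
    (a : SS p) : ∃ (β : SS p) (γ : ℍ[ZMod p]), (x : ℍ[ZMod p]) * redM p a.val =
      redM p β.val * γ := by
  apply SA_ex hp hp4 hE
  · intro h
    apply SA_ne hp a
    have h1 : star (x : ℍ[ZMod p]) * ((x : ℍ[ZMod p]) * redM p a.val) = 0 := by
      rw [h, mul_zero]
    rw [← mul_assoc, Unitary.coe_star_mul_self, one_mul] at h1
    exact h1
  · rw [map_mul, SA_norm_zero, mul_zero]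

lemma SA_xa_ne (hp : p.Prime) (x : unitary ℍ[ZMod p]) (a : SS p) :
    (x : ℍ[ZMod p]) * redM p a.val ≠ 0 := by
  intro h
  apply SA_ne hp a
  have h1 : star (x : ℍ[ZMod p]) * ((x : ℍ[ZMod p]) * redM p a.val) = 0 := by
    rw [h, mul_zero]
  rw [← mul_assoc, Unitary.coe_star_mul_self, one_mul] at h1
  exact h1

/-- the homomorphism to permutations -/
lemma SA_rho (hp : p.Prime) (hp4 : p % 4 = 1) (hE : Stmt_exists) (hU : Stmt_unique) :
    ∃ rho : unitary ℍ[ZMod p] →* Equiv.Perm (SS p), ∀ (x : unitary ℍ[ZMod p]) (a b : SS p),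
      (∃ γ : ℍ[ZMod p], (x : ℍ[ZMod p]) * redM p a.val = redM p b.val * γ) → rho x a = b := by
  choose act g hact using SA_act_ex hp hp4 hE
  have huniq : ∀ (x : unitary ℍ[ZMod p]) (a b : SS p),
      (∃ γ : ℍ[ZMod p], (x : ℍ[ZMod p]) * redM p a.val = redM p b.val * γ) → act x a = b := by
    rintro x a b ⟨γ, hγ⟩
    apply SA_un hp hp4 hU (act x a) b (g x a) γ
    · rw [← hact]
      exact SA_xa_ne hp x a
    · rw [← hact, hγ]
  let f : unitary ℍ[ZMod p] →* Function.End (SS p) :=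
    { toFun := act
      map_one' := by
        funext a
        apply huniq
        refine ⟨1, ?_⟩
        rw [mul_one, OneMemClass.coe_one, one_mul]
        rfl
      map_mul' := by
        intro x y
        funext a
        apply huniq
        refine ⟨g x (act y a) * g y a, ?_⟩
        show (x * y : unitary ℍ[ZMod p]).val * redM p a.val =
          redM p (act x (act y a)).val * (g x (act y a) * g y a)
        rw [← mul_assoc, ← hact x (act y a), mul_assoc, ← hact y a, ← mul_assoc]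
        rfl }
  exact ⟨f.toHomPerm, fun x a b h => huniq x a b h⟩

/-- rank one factorization -/
lemma SA_rank {F : Type} [Field F] (A : Matrix (Fin 2) (Fin 2) F) (h0 : A ≠ 0)
    (hd : A.det = 0) : ∃ u w : Fin 2 → F, u ≠ 0 ∧ w ≠ 0 ∧ ∀ i j, A i j = u i * w j := by
  rw [Matrix.det_fin_two] at hd
  by_cases ha : A 0 0 = 0
  · by_cases hc : A 1 0 = 0
    · refine ⟨fun i => A i 1, ![0, 1], ?_, ?_, ?_⟩
      · intro h
        apply h0
        have e1 := congrFun h 0
        have e2 := congrFun h 1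
        simp only [Pi.zero_apply] at e1 e2
        ext i j
        fin_cases i <;> fin_cases j
        · exact ha
        · exact e1
        · exact hc
        · exact e2
      · intro h
        have e1 := congrFun h 1
        simp at e1
      · intro i j
        fin_cases j
        · fin_cases i
          · simpa using ha
          · simpa using hc
        · simp
    · refine ⟨fun i => A i 0, ![1, A 1 1 / A 1 0], ?_, ?_, ?_⟩
      · intro h
        exact hc (congrFun h 1)
      · intro h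
        have e1 := congrFun h 0
        simp at e1
      · intro i j
        rw [ha, zero_mul, zero_sub, neg_eq_zero, mul_eq_zero] at hd
        have hb : A 0 1 = 0 := by
          rcases hd with h | h
          · exact h
          · exact absurd h hc
        fin_cases j
        · simp
        · fin_cases i
          · simp [ha, hb]
          · simp only [Fin.mk_one, Fin.isValue, Matrix.cons_val_one, Matrix.cons_val_zero]
            show A 1 1 = A 1 0 * (A 1 1 / A 1 0)
            field_simp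
  · refine ⟨fun i => A i 0, ![1, A 0 1 / A 0 0], ?_, ?_, ?_⟩
    · intro h
      exact ha (congrFun h 0)
    · intro h
      have e1 := congrFun h 0
      simp at e1
    · intro i j
      fin_cases j
      · simp
      · fin_cases i
        · show A 0 1 = A 0 0 * (A 0 1 / A 0 0)
          field_simp
        · show A 1 1 = A 1 0 * (A 0 1 / A 0 0)
          field_simp
          linear_combination hd

/-- a determinant one matrix with given first column -/
lemma SA_col {F : Type} [Field F] (u : Fin 2 → F) (h : u ≠ 0) :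
    ∃ P : Matrix (Fin 2) (Fin 2) F, P.det = 1 ∧ ∀ i, P i 0 = u i := by
  by_cases h0 : u 0 = 0
  · have h1 : u 1 ≠ 0 := by
      intro h1
      apply h
      ext i
      fin_cases i
      · exact h0
      · exact h1
    refine ⟨!![u 0, -(u 1)⁻¹; u 1, 0], ?_, ?_⟩
    · rw [Matrix.det_fin_two_of]
      field_simp
      simp
    · intro i
      fin_cases i <;> simp
  · refine ⟨!![u 0, 0; u 1, (u 0)⁻¹], ?_, ?_⟩
    · rw [Matrix.det_fin_two_of]
      field_simp
      simp
    · intro i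
      fin_cases i <;> simp

lemma SA_trans {F : Type} [Field F] (A A' : Matrix (Fin 2) (Fin 2) F) (h0 : A ≠ 0)
    (hd : A.det = 0) (h0' : A' ≠ 0) (hd' : A'.det = 0) :
    ∃ X G : Matrix (Fin 2) (Fin 2) F, X.det = 1 ∧ X * A = A' * G := by
  obtain ⟨u, w, hu, hw, hA⟩ := SA_rank A h0 hd
  obtain ⟨u', w', hu', hw', hA'⟩ := SA_rank A' h0' hd'
  obtain ⟨P, hP, hP0⟩ := SA_col u hu
  obtain ⟨P', hP', hP0'⟩ := SA_col u' hu'
  obtain ⟨k, hk⟩ := Function.ne_iff.1 hw'
  rw [Pi.zero_apply] at hk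
  have hPadj : P.adjugate * P = 1 := by rw [Matrix.adjugate_mul, hP, one_smul]
  have hcol : ∀ i, ∑ j, (P' * P.adjugate) i j * u j = u' i := by
    intro i
    have h1 : (P' * P.adjugate * P) i 0 = u' i := by
      rw [Matrix.mul_assoc, hPadj, Matrix.mul_one, hP0']
    rw [Matrix.mul_apply] at h1
    rw [← h1]
    apply Finset.sum_congr rfl
    intro j _
    rw [hP0]
  refine ⟨P' * P.adjugate, Matrix.of fun i j => if i = k then w j / w' k else 0, ?_, ?_⟩
  · rw [Matrix.det_mul, hP', one_mul]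
    have h1 := congrArg Matrix.det hPadj
    rw [Matrix.det_mul, hP, mul_one, Matrix.det_one] at h1
    exact h1
  · ext i j
    rw [Matrix.mul_apply, Matrix.mul_apply]
    have e1 : ∑ l, (P' * P.adjugate) i l * A l j = u' i * w j := by
      rw [← hcol i, Finset.sum_mul]
      apply Finset.sum_congr rfl
      intro l _
      rw [hA]
      ring
    rw [e1, Finset.sum_eq_single k]
    · rw [hA', Matrix.of_apply, if_pos rfl]
      field_simp
    · intro b _ hb
      rw [Matrix.of_apply, if_neg hb, mul_zero]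
    · intro h
      exact absurd (Finset.mem_univ _) h

end

theorem SA_proof (hE : Stmt_exists) (hU : Stmt_unique) (hI : Stmt_iso) (hPf : Stmt_perf) :
    Stmt_SA := by
  intro p q hp hq hp4 hq4 hpq hsq h hh hM hcl
  have : Fact p.Prime := ⟨hp⟩
  have : NeZero p := ⟨hp.ne_zero⟩
  obtain ⟨rho, hrho⟩ := SA_rho hp hp4 hE hU
  obtain ⟨c, hc⟩ := hsq
  have hq0 : (q : ZMod p) ≠ 0 := by
    intro h0
    rw [ZMod.natCast_eq_zero_iff] at h0
    exact hpq ((Nat.prime_dvd_prime_iff_eq hp hq).1 h0)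
  have hc0 : c ≠ 0 := by
    intro h0
    apply hq0
    rw [hc, h0, mul_zero]
  have hodd : Odd p := by rw [Nat.odd_iff]; omega
  obtain ⟨φ, hφ⟩ := hI p hodd
  -- the elements `b / c`
  have hx : ∀ b : SS q, (c⁻¹ • redM p b.val) ∈ unitary ℍ[ZMod p] := by
    intro b
    rw [mem_unitary_iff, Quaternion.normSq_smul, SA_norm, b.norm]
    rw [Int.cast_natCast, hc]
    field_simp
  have hsig : ∀ b : SS q, h.sigma b = rho ⟨c⁻¹ • redM p b.val, hx b⟩ := by
    intro b
    ext a
    symm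
    have h1 : rho ⟨c⁻¹ • redM p b.val, hx b⟩ a = h.sigma b a := by
      apply hrho
      have h2 := hh.2.2 (h.vh.symm (b, a)).1 (h.vh.symm (b, a)).2
      rw [Prod.mk.eta, Equiv.apply_symm_apply] at h2
      simp only at h2
      refine ⟨c⁻¹ • redM p (h.vh.symm (b, a)).2.val, ?_⟩
      show (c⁻¹ • redM p b.val) * redM p a.val =
        redM p (h.vh.symm (b, a)).1.val * (c⁻¹ • redM p (h.vh.symm (b, a)).2.val)
      rw [smul_mul_assoc, mul_smul_comm, ← map_mul, ← map_mul, h2]
    rw [h1]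
  have hrange : h.SA = rho.range := by
    apply le_antisymm
    · unfold VH.SA
      rw [Subgroup.closure_le]
      rintro _ ⟨b, rfl⟩
      exact ⟨_, (hsig b).symm⟩
    · rw [MonoidHom.range_eq_map, ← hcl, MonoidHom.map_closure, Subgroup.closure_le]
      rintro _ ⟨_, ⟨b', b, rfl⟩, rfl⟩
      have h1 : uM p hM b' b = ⟨c⁻¹ • redM p b'.val, hx b'⟩ * ⟨c⁻¹ • redM p b.val, hx b⟩ := by
        apply Subtype.ext
        show ((q : ZMod p)⁻¹) • redM p (b'.val * b.val) =
          (c⁻¹ • redM p b'.val) * (c⁻¹ • redM p b.val)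
        rw [smul_mul_assoc, mul_smul_comm, smul_smul, ← map_mul, hc, mul_inv]
      rw [h1, map_mul, ← hsig, ← hsig]
      exact mul_mem (Subgroup.subset_closure ⟨b', rfl⟩) (Subgroup.subset_closure ⟨b, rfl⟩)
  refine ⟨?_, ?_⟩
  · -- perfect
    have hψ : ∀ X : Matrix.SpecialLinearGroup (Fin 2) (ZMod p),
        φ.symm (X : Matrix (Fin 2) (Fin 2) (ZMod p)) ∈ unitary ℍ[ZMod p] := by
      intro X
      rw [mem_unitary_iff, ← hφ, RingEquiv.apply_symm_apply]
      exact X.2
    let ψ : Matrix.SpecialLinearGroup (Fin 2) (ZMod p) →* unitary ℍ[ZMod p] :=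
      { toFun := fun X => ⟨φ.symm (X : Matrix (Fin 2) (Fin 2) (ZMod p)), hψ X⟩
        map_one' := by
          apply Subtype.ext
          show φ.symm ((1 : Matrix.SpecialLinearGroup (Fin 2) (ZMod p)) :
            Matrix (Fin 2) (Fin 2) (ZMod p)) = 1
          rw [Matrix.SpecialLinearGroup.coe_one, map_one]
        map_mul' := by
          intro X Y
          apply Subtype.ext
          show φ.symm ((X * Y : Matrix.SpecialLinearGroup (Fin 2) (ZMod p)) :
            Matrix (Fin 2) (Fin 2) (ZMod p)) = φ.symm (X : Matrix (Fin 2) (Fin 2) (ZMod p)) *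
              φ.symm (Y : Matrix (Fin 2) (Fin 2) (ZMod p))
          rw [Matrix.SpecialLinearGroup.coe_mul, map_mul] }
    have hψs : Function.Surjective ψ := by
      intro x
      refine ⟨⟨φ (x : ℍ[ZMod p]), ?_⟩, ?_⟩
      · rw [hφ]
        exact (mem_unitary_iff _).1 x.2
      · apply Subtype.ext
        show φ.symm (φ (x : ℍ[ZMod p])) = x
        rw [RingEquiv.symm_apply_apply]
    have hmem : ∀ X, rho (ψ X) ∈ h.SA := fun X => by
      rw [hrange]
      exact ⟨_, rfl⟩
    let f : Matrix.SpecialLinearGroup (Fin 2) (ZMod p) →* h.SA :=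
      (rho.comp ψ).codRestrict h.SA hmem
    have hfs : Function.Surjective f := by
      rintro ⟨s, hs⟩
      rw [hrange] at hs
      obtain ⟨x, rfl⟩ := hs
      obtain ⟨X, rfl⟩ := hψs x
      exact ⟨X, rfl⟩
    have hp5 : 5 ≤ p := by
      have := hp.two_le
      omega
    have h1 := hPf p hp hp5
    have h2 : (⊤ : Subgroup h.SA) = Subgroup.map f ⊤ := (Subgroup.map_top_of_surjective f hfs).symm
    rw [commutator_def] at h1 ⊢
    rw [h2, ← Subgroup.map_commutator, h1]
  · -- transitive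
    intro a a'
    obtain ⟨X, G, hX, hXG⟩ := SA_trans (φ (redM p a.val)) (φ (redM p a'.val))
      (fun h0 => SA_ne hp a ((map_eq_zero_iff φ φ.injective).1 h0))
      (by rw [hφ, SA_norm_zero])
      (fun h0 => SA_ne hp a' ((map_eq_zero_iff φ φ.injective).1 h0))
      (by rw [hφ, SA_norm_zero])
    have hXu : φ.symm X ∈ unitary ℍ[ZMod p] := by
      rw [mem_unitary_iff, ← hφ, RingEquiv.apply_symm_apply, hX]
    refine ⟨⟨rho ⟨φ.symm X, hXu⟩, by rw [hrange]; exact ⟨_, rfl⟩⟩, ?_⟩
    apply hrho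
    refine ⟨φ.symm G, ?_⟩
    apply φ.injective
    show φ (φ.symm X * redM p a.val) = φ (redM p a'.val * φ.symm G)
    rw [map_mul, map_mul, RingEquiv.apply_symm_apply, RingEquiv.apply_symm_apply, hXG]

end TauQ
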