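import Mathlib
import Pool.Agent.Work.MP_972ac7_al_tau.Interface

/-!
# Block SC: the spectral count
-/

set_option autoImplicit false
set_option linter.unusedSectionVars false

open scoped Quaternion BigOperators

namespace TauQ

section SCred

variable {M M' : ℕ} [NeZero M] [NeZero M']

/-- reduction of quaternions -/
def SC_r (hd : M' ∣ M) : ℍ[ZMod M] →+* ℍ[ZMod M'] := qmap (ZMod.castHom hd (ZMod M'))

/-- reduction of quaternions of norm one -/
def SC_rU (hd : M' ∣ M) : unitary ℍ[ZMod M] →* unitary ℍ[ZMod M'] where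
  toFun x := ⟨SC_r hd x, (mem_unitary_iff _).2 (by
    rw [SC_r, normSq_qmap, (mem_unitary_iff _).1 x.2, map_one])⟩
  map_one' := Subtype.ext (map_one _)
  map_mul' x y := Subtype.ext (map_mul _ _ _)

lemma SC_rU_val (hd : M' ∣ M) (x : unitary ℍ[ZMod M]) :
    ((SC_rU hd x : unitary ℍ[ZMod M']) : ℍ[ZMod M']) = SC_r hd x := rfl

lemma SC_inv (hd : M' ∣ M) {q : ℕ} (hM : Nat.Coprime q M) :
    ZMod.castHom hd (ZMod M') ((q : ZMod M)⁻¹) = (q : ZMod M')⁻¹ := by
  have h1 := ZMod.coe_mul_inv_eq_one q hM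
  have h2 := ZMod.coe_mul_inv_eq_one q (Nat.Coprime.coprime_dvd_right hd hM)
  have h3 := congrArg (ZMod.castHom hd (ZMod M')) h1
  rw [map_mul, map_one, map_natCast] at h3
  calc ZMod.castHom hd (ZMod M') ((q : ZMod M)⁻¹)
      = ((q : ZMod M') * (q : ZMod M')⁻¹) * ZMod.castHom hd (ZMod M') ((q : ZMod M)⁻¹) := by
        rw [h2, one_mul]
    _ = (q : ZMod M')⁻¹ * ((q : ZMod M') * ZMod.castHom hd (ZMod M') ((q : ZMod M)⁻¹)) := by ring
    _ = (q : ZMod M')⁻¹ := by rw [h3, mul_one]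

lemma SC_r_smul (hd : M' ∣ M) (c : ZMod M) (x : ℍ[ZMod M]) :
    SC_r hd (c • x) = ZMod.castHom hd (ZMod M') c • SC_r hd x := by
  ext <;> simp only [SC_r, qmap_re, qmap_imI, qmap_imJ, qmap_imK, Quaternion.re_smul,
    Quaternion.imI_smul, Quaternion.imJ_smul, Quaternion.imK_smul, smul_eq_mul, map_mul]

lemma SC_r_redM (hd : M' ∣ M) (x : ℍ[ℤ]) : SC_r hd (redM M x) = redM M' x := by
  ext <;> simp only [SC_r, redM, qmap_re, qmap_imI, qmap_imJ, qmap_imK, eq_intCast, map_intCast]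

lemma SC_rU_uM (hd : M' ∣ M) {q : ℕ} (hM : Nat.Coprime q M) (hM' : Nat.Coprime q M')
    (b' b : SS q) : SC_rU hd (uM M hM b' b) = uM M' hM' b' b := by
  apply Subtype.ext
  rw [SC_rU_val]
  show SC_r hd (((q : ZMod M)⁻¹) • redM M (b'.val * b.val)) =
    ((q : ZMod M')⁻¹) • redM M' (b'.val * b.val)
  rw [SC_r_smul, SC_r_redM, SC_inv hd hM]

lemma SC_div (hd : M' ∣ M) (a : ZMod M) (h : ZMod.castHom hd (ZMod M') a = 0) :
    ∃ b : ZMod M, a = (M' : ZMod M) * b := by
  have h1 : ((a.val : ℕ) : ZMod M') = 0 := by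
    rw [← h, ← map_natCast (ZMod.castHom hd (ZMod M')), ZMod.natCast_val, ZMod.cast_id', id]
  rw [ZMod.natCast_eq_zero_iff] at h1
  obtain ⟨k, hk⟩ := h1
  refine ⟨(k : ZMod M), ?_⟩
  rw [← Nat.cast_mul, ← hk, ZMod.natCast_val, ZMod.cast_id', id]

lemma SC_ker (hd : M' ∣ M) (x : unitary ℍ[ZMod M]) (h : SC_rU hd x = 1) :
    ∃ y : ℍ[ZMod M], (x : ℍ[ZMod M]) = 1 + (M' : ℍ[ZMod M]) * y := by
  have h1 : SC_r hd (x : ℍ[ZMod M]) = 1 := by rw [← SC_rU_val, h]; rfl
  have h2 : SC_r hd ((x : ℍ[ZMod M]) - 1) = 0 := by rw [map_sub, h1, map_one, sub_self]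
  obtain ⟨a, ha⟩ := SC_div hd ((x : ℍ[ZMod M]) - 1).re (congrArg (fun y => y.re) h2)
  obtain ⟨b, hb⟩ := SC_div hd ((x : ℍ[ZMod M]) - 1).imI (congrArg (fun y => y.imI) h2)
  obtain ⟨c, hc⟩ := SC_div hd ((x : ℍ[ZMod M]) - 1).imJ (congrArg (fun y => y.imJ) h2)
  obtain ⟨d, hd'⟩ := SC_div hd ((x : ℍ[ZMod M]) - 1).imK (congrArg (fun y => y.imK) h2)
  refine ⟨mk4 a b c d, ?_⟩
  have e : (M' : ℍ[ZMod M]) * mk4 a b c d = (M' : ZMod M) • mk4 a b c d := by
    rw [Algebra.smul_def, map_natCast]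
  rw [← sub_eq_iff_eq_add', e]
  ext
  · rw [ha]; simp
  · rw [hb]; simp
  · rw [hc]; simp
  · rw [hd']; simp

end SCred

section SCext

variable {M M' : ℕ} [NeZero M] [NeZero M']

/-- extension of functions by zero off the image of the reduction -/
noncomputable def SC_ext (S : Type) (hd : M' ∣ M) :
    (S × unitary ℍ[ZMod M] → ℂ) →ₗ[ℂ] (S × unitary ℍ[ZMod M'] → ℂ) where
  toFun f z := by
    classical
    exact if h : ∃ x, SC_rU hd x = z.2 then f (z.1, Classical.choose h) else 0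
  map_add' f g := by
    funext z
    by_cases h : ∃ x, SC_rU hd x = z.2
    · simp [h]
    · simp [h]
  map_smul' c f := by
    funext z
    by_cases h : ∃ x, SC_rU hd x = z.2
    · simp [h]
    · simp [h]

lemma SC_ext_off (S : Type) (hd : M' ∣ M) (f : S × unitary ℍ[ZMod M] → ℂ)
    (z : S × unitary ℍ[ZMod M']) (h : ¬ ∃ x, SC_rU hd x = z.2) : SC_ext S hd f z = 0 := by
  simp [SC_ext, h]

lemma SC_ext_on (S : Type) (hd : M' ∣ M) (f : S × unitary ℍ[ZMod M] → ℂ)
    (hf : ∀ (y : S) (x k : unitary ℍ[ZMod M]), SC_rU hd k = 1 → f (y, x * k) = f (y, x))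
    (y : S) (x : unitary ℍ[ZMod M]) : SC_ext S hd f (y, SC_rU hd x) = f (y, x) := by
  have h : ∃ x', SC_rU hd x' = SC_rU hd x := ⟨x, rfl⟩
  have h1 : SC_ext S hd f (y, SC_rU hd x) = f (y, Classical.choose h) := by
    simp only [SC_ext, LinearMap.coe_mk, AddHom.coe_mk]
    rw [dif_pos h]
  rw [h1]
  have h2 := Classical.choose_spec h
  have h3 : SC_rU hd (x⁻¹ * Classical.choose h) = 1 := by
    rw [map_mul, h2, ← map_mul, inv_mul_cancel, map_one]
  have h4 := hf y x (x⁻¹ * Classical.choose h) h3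
  rw [mul_inv_cancel_left] at h4
  exact h4

end SCext

section SCword

variable {q M : ℕ} [NeZero M]

/-- the conjugate letter -/
def SC_star (b : SS q) : SS q := ⟨star b.val, OO_star b.mem, by
  rw [Quaternion.normSq_star]; exact b.norm⟩

lemma SC_star_val (b : SS q) : (SC_star b).val = star b.val := rfl

lemma SC_star_star (b : SS q) : SC_star (SC_star b) = b := SS.ext (by
  rw [SC_star_val, SC_star_val, star_star])

lemma SC_uM_star (hM : Nat.Coprime q M) (b' b : SS q) :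
    uM M hM (SC_star b) (SC_star b') = (uM M hM b' b)⁻¹ := by
  apply Subtype.ext
  show ((q : ZMod M)⁻¹) • redM M ((SC_star b).val * (SC_star b').val) =
    star (((q : ZMod M)⁻¹) • redM M (b'.val * b.val))
  rw [SC_star_val, SC_star_val, ← star_mul, redM, qmap_star]
  ext <;> simp

/-- the word of the letters -/
def SC_word {n : ℕ} (w : Fin n → SS q × SS q) (k : Fin (n * 2)) : SS q :=
  if (k : ℕ) % 2 = 0 then (w ⟨(k : ℕ) / 2, by omega⟩).1 else (w ⟨(k : ℕ) / 2, by omega⟩).2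

lemma SC_word_fst {n : ℕ} (w : Fin n → SS q × SS q) (i : Fin n) (h : (i : ℕ) * 2 + 0 < n * 2) :
    SC_word w ⟨(i : ℕ) * 2 + 0, h⟩ = (w i).1 := by
  have h1 : ((i : ℕ) * 2 + 0) % 2 = 0 := by omega
  have h2 : (⟨((i : ℕ) * 2 + 0) / 2, by omega⟩ : Fin n) = i := by
    apply Fin.ext; show ((i : ℕ) * 2 + 0) / 2 = i; omega
  simp only [SC_word]
  rw [if_pos h1, h2]

lemma SC_word_snd {n : ℕ} (w : Fin n → SS q × SS q) (i : Fin n) (h : (i : ℕ) * 2 + 1 < n * 2) :
    SC_word w ⟨(i : ℕ) * 2 + 1, h⟩ = (w i).2 := by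
  have h1 : ¬ ((i : ℕ) * 2 + 1) % 2 = 0 := by omega
  have h2 : (⟨((i : ℕ) * 2 + 1) / 2, by omega⟩ : Fin n) = i := by
    apply Fin.ext; show ((i : ℕ) * 2 + 1) / 2 = i; omega
  simp only [SC_word]
  rw [if_neg h1, h2]

lemma SC_word_inj {n : ℕ} : Function.Injective (SC_word (q := q) (n := n)) := by
  intro w w' h
  funext i
  have h1 : (i : ℕ) * 2 + 0 < n * 2 := by omega
  have h2 : (i : ℕ) * 2 + 1 < n * 2 := by omega
  apply Prod.ext
  · rw [← SC_word_fst w i h1, ← SC_word_fst w' i h1, h]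
  · rw [← SC_word_snd w i h2, ← SC_word_snd w' i h2, h]

lemma SC_word_prod {n : ℕ} (w : Fin n → SS q × SS q) :
    (List.ofFn fun k => (SC_word w k).val).prod =
      (List.ofFn fun i => (w i).1.val * (w i).2.val).prod := by
  rw [List.ofFn_mul, List.prod_flatten, List.map_ofFn]
  congr 1
  congr 1
  funext i
  simp only [Function.comp_apply]
  rw [List.ofFn_succ, List.ofFn_succ, List.ofFn_zero, List.prod_cons, List.prod_cons,
    List.prod_nil, mul_one]
  have e1 := SC_word_fst w i (by omega)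
  have e2 := SC_word_snd w i (by omega)
  rw [← e1, ← e2]
  rfl

lemma SC_mulLeft_prod {G : Type} [Group G] (l : List G) :
    (l.map (fun g => (Equiv.mulLeft g : Equiv.Perm G))).prod = Equiv.mulLeft l.prod := by
  induction l with
  | nil => ext x; simp
  | cons a l ih =>
    rw [List.map_cons, List.prod_cons, ih, List.prod_cons]
    ext x
    simp

lemma SC_list (hM : Nat.Coprime q M) (l : List (SS q × SS q)) :
    (((l.map (fun b => uM M hM b.1 b.2)).prod : unitary ℍ[ZMod M]) : ℍ[ZMod M]) =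
      ((q : ZMod M)⁻¹) ^ l.length • redM M ((l.map fun b => b.1.val * b.2.val).prod) := by
  induction l with
  | nil => simp
  | cons a l ih =>
    rw [List.map_cons, List.prod_cons, Submonoid.coe_mul, ih, List.map_cons, List.prod_cons,
      map_mul, List.length_cons, pow_succ]
    show (((q : ZMod M)⁻¹) • redM M (a.1.val * a.2.val)) * _ = _
    rw [smul_mul_smul_comm, mul_comm ((q : ZMod M)⁻¹ ^ l.length)]

lemma SC_scalar (hM : Nat.Coprime q M) (l : List (SS q × SS q))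
    (h : (l.map (fun b => uM M hM b.1 b.2)).prod = 1) :
    (M : ℤ) ∣ ((l.map fun b : SS q × SS q => b.1.val * b.2.val).prod).imI ∧
    (M : ℤ) ∣ ((l.map fun b : SS q × SS q => b.1.val * b.2.val).prod).imJ ∧
    (M : ℤ) ∣ ((l.map fun b : SS q × SS q => b.1.val * b.2.val).prod).imK := by
  have h1 := SC_list hM l
  rw [h] at h1
  generalize (l.map fun b => b.1.val * b.2.val).prod = P at h1
  have hu : IsUnit (((q : ZMod M)⁻¹) ^ l.length) := by
    apply IsUnit.pow
    exact IsUnit.of_mul_eq_one (q : ZMod M) (by rw [mul_comm]; exact ZMod.coe_mul_inv_eq_one q hM)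
  have key : ∀ a : ZMod M, 0 = ((q : ZMod M)⁻¹) ^ l.length * a → a = 0 := fun a ha =>
    hu.mul_right_eq_zero.1 ha.symm
  have hI := congrArg (fun y => y.imI) h1
  have hJ := congrArg (fun y => y.imJ) h1
  have hK := congrArg (fun y => y.imK) h1
  refine ⟨?_, ?_, ?_⟩
  · rw [← ZMod.intCast_zmod_eq_zero_iff_dvd]
    exact key _ hI
  · rw [← ZMod.intCast_zmod_eq_zero_iff_dvd]
    exact key _ hJ
  · rw [← ZMod.intCast_zmod_eq_zero_iff_dvd]
    exact key _ hK

/-- the permutation attached to a pair of letters -/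
noncomputable def SC_u (hM : Nat.Coprime q M) {S : Type} [Group S] (s : SS q → S)
    (b : SS q × SS q) : Equiv.Perm (S × unitary ℍ[ZMod M]) :=
  Equiv.mulLeft ((s b.1 * s b.2, uM M hM b.1 b.2) : S × unitary ℍ[ZMod M])

lemma SC_u_inv (hM : Nat.Coprime q M) {S : Type} [Group S] (s : SS q → S)
    (hs : ∀ b b' : SS q, b'.val = star b.val → s b' = (s b)⁻¹) (b : SS q × SS q) :
    SC_u hM s (SC_star b.2, SC_star b.1) = (SC_u hM s b)⁻¹ := by
  have h1 : ((s (SC_star b.2) * s (SC_star b.1), uM M hM (SC_star b.2) (SC_star b.1)) :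
      S × unitary ℍ[ZMod M]) = (s b.1 * s b.2, uM M hM b.1 b.2)⁻¹ := by
    rw [SC_uM_star, hs _ _ (SC_star_val b.1), hs _ _ (SC_star_val b.2), ← mul_inv_rev]
    rfl
  rw [eq_inv_iff_mul_eq_one]
  apply Equiv.ext
  intro z
  show ((s (SC_star b.2) * s (SC_star b.1), uM M hM (SC_star b.2) (SC_star b.1)) :
      S × unitary ℍ[ZMod M]) * ((s b.1 * s b.2, uM M hM b.1 b.2) * z) = z
  rw [h1, inv_mul_cancel_left]

lemma SC_count {n : ℕ} (hM : Nat.Coprime q M) {S : Type} [Group S] (s : SS q → S)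
    (z : S × unitary ℍ[ZMod M]) :
    Nat.card {w : Fin n → SS q × SS q //
      (List.ofFn fun i => SC_u hM s (w i)).prod z = z} ≤ WW q M (n * 2) := by
  have key : ∀ w : Fin n → SS q × SS q, (List.ofFn fun i => SC_u hM s (w i)).prod z = z →
      (M : ℤ) ∣ ((List.ofFn fun i => (SC_word w i).val).prod).imI ∧
      (M : ℤ) ∣ ((List.ofFn fun i => (SC_word w i).val).prod).imJ ∧
      (M : ℤ) ∣ ((List.ofFn fun i => (SC_word w i).val).prod).imK := by
    intro w hw
    have h1 : (List.ofFn fun i => SC_u hM s (w i)) =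
        ((List.ofFn w).map (fun b => ((s b.1 * s b.2, uM M hM b.1 b.2) :
          S × unitary ℍ[ZMod M]))).map
            (fun g => (Equiv.mulLeft g : Equiv.Perm (S × unitary ℍ[ZMod M]))) := by
      rw [List.map_map, List.map_ofFn]
      rfl
    rw [h1, SC_mulLeft_prod, Equiv.coe_mulLeft, mul_eq_right] at hw
    have h2 := congrArg (MonoidHom.snd S (unitary ℍ[ZMod M])) hw
    rw [map_list_prod, List.map_map, map_one] at h2
    have h3 := SC_scalar hM (List.ofFn w) h2
    rw [List.map_ofFn] at h3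
    rw [SC_word_prod]
    exact h3
  unfold WW
  refine Nat.card_le_card_of_injective
    (fun w => (⟨SC_word w.1, key w.1 w.2⟩ : {w : Fin (n * 2) → SS q //
    (M : ℤ) ∣ ((List.ofFn fun i => (w i).val).prod).imI ∧
    (M : ℤ) ∣ ((List.ofFn fun i => (w i).val).prod).imJ ∧
    (M : ℤ) ∣ ((List.ofFn fun i => (w i).val).prod).imK})) ?_
  intro w w' h
  apply Subtype.ext
  apply SC_word_inj
  exact congrArg Subtype.val h

end SCword

section SCmain

variable {q M : ℕ} [NeZero M]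

/-- the eigenspace -/
def SC_V (hM : Nat.Coprime q M) {S : Type} [Group S] (s : SS q → S) (μ : ℝ) :
    Submodule ℂ (S × unitary ℍ[ZMod M] → ℂ) where
  carrier := {f | ∀ z, ∑ b' : SS q, ∑ b : SS q, f (s b' * s b * z.1, uM M hM b' b * z.2) =
        (μ : ℂ) * f z}
  zero_mem' := by intro z; simp
  add_mem' := by
    intro f g hf hg z
    simp only [Pi.add_apply, Finset.sum_add_distrib]
    rw [hf z, hg z, mul_add]
  smul_mem' := by
    intro c f hf z
    simp only [Pi.smul_apply, smul_eq_mul, ← Finset.mul_sum]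
    rw [hf z]
    ring

/-- right translation on the eigenspace -/
def SC_rho (hM : Nat.Coprime q M) {S : Type} [Group S] (s : SS q → S) (μ : ℝ) {G : Type}
    [Group G] (θ : G →* unitary ℍ[ZMod M]) : G →* (SC_V hM s μ →ₗ[ℂ] SC_V hM s μ) where
  toFun g :=
    { toFun := fun f => ⟨fun z => f.1 (z.1, z.2 * θ g), by
        intro z
        have := f.2 (z.1, z.2 * θ g)
        simp only [← mul_assoc] at this
        exact this⟩
      map_add' := fun f g => rfl
      map_smul' := fun c f => rfl }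
  map_one' := by
    ext f z
    simp
  map_mul' g g' := by
    ext f z
    simp [mul_assoc]

end SCmain

theorem SC_proof (hDL : Stmt_DL) (hiso : Stmt_iso) (hTL : Stmt_TL) (hcardU : Stmt_cardU) :
    Stmt_SC := by
  intro q hq hq4 M _ hM hodd S _ _ s hs μ f hf hne
  obtain ⟨φ, hφ⟩ := hiso M hodd
  -- the isomorphism with `SL2`
  have hφ' : ∀ g : Matrix (Fin 2) (Fin 2) (ZMod M), Quaternion.normSq (φ.symm g) = g.det := by
    intro g
    rw [← hφ, RingEquiv.apply_symm_apply]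
  let θ : Matrix.SpecialLinearGroup (Fin 2) (ZMod M) →* unitary ℍ[ZMod M] :=
    { toFun := fun g => ⟨φ.symm g, (mem_unitary_iff _).2 (by rw [hφ']; exact g.2)⟩
      map_one' := Subtype.ext (by simp)
      map_mul' := fun g g' => Subtype.ext (by simp) }
  have hθ : ∀ x : unitary ℍ[ZMod M], ∃ g : Matrix.SpecialLinearGroup (Fin 2) (ZMod M),
      (g : Matrix (Fin 2) (Fin 2) (ZMod M)) = φ (x : ℍ[ZMod M]) ∧ θ g = x := by
    intro x
    refine ⟨⟨φ (x : ℍ[ZMod M]), by rw [hφ]; exact (mem_unitary_iff _).1 x.2⟩, rfl, ?_⟩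
    apply Subtype.ext
    show φ.symm (φ (x : ℍ[ZMod M])) = x
    rw [RingEquiv.symm_apply_apply]
  obtain ⟨M', hd, hM'1, W, hWinv, hWdim⟩ := hDL M hodd (SC_V hM s μ) (SC_rho hM s μ θ) (by
    obtain ⟨y, x, g, hg⟩ := hne
    obtain ⟨g', -, hg'⟩ := hθ g
    refine ⟨g', ⟨f, hf⟩, fun h => hg ?_⟩
    have h1 := congrFun (congrArg Subtype.val h) (y, x)
    have h2 : f (y, x * θ g') = f (y, x) := h1
    rw [hg'] at h2
    exact h2)
  have hne' : NeZero M' := ⟨by omega⟩
  have hM' : Nat.Coprime q M' := Nat.Coprime.coprime_dvd_right hd hM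
  have hodd' : Odd M' := Odd.of_dvd_nat hodd hd
  refine ⟨M', hd, hM'1, fun j => ?_⟩
  -- invariance of the elements of `W`
  have hinv : ∀ w ∈ W, ∀ (y : S) (x k : unitary ℍ[ZMod M]), SC_rU hd k = 1 →
      w.1 (y, x * k) = w.1 (y, x) := by
    intro w hw y x k hk
    obtain ⟨g, hg1, hg2⟩ := hθ k
    obtain ⟨u, hu⟩ := SC_ker hd k hk
    have h1 := hWinv w hw g ⟨φ u, by rw [hg1, hu, map_add, map_one, map_mul, map_natCast]⟩
    have h2 : w.1 (y, x * θ g) = w.1 (y, x) := congrFun (congrArg Subtype.val h1) (y, x)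
    rw [hg2] at h2
    exact h2
  -- transfer to `M'`
  let L : W →ₗ[ℂ] (S × unitary ℍ[ZMod M'] → ℂ) :=
    (SC_ext S hd).comp ((SC_V hM s μ).subtype.comp W.subtype)
  have hL : Function.Injective L := by
    rw [injective_iff_map_eq_zero]
    intro w hw
    apply Subtype.ext
    apply Subtype.ext
    funext z
    have h1 := SC_ext_on S hd w.1.1 (hinv w.1 w.2) z.1 z.2
    have h2 : SC_ext S hd w.1.1 (z.1, SC_rU hd z.2) = 0 := congrFun hw (z.1, SC_rU hd z.2)
    rw [h2] at h1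
    exact h1.symm
  have hdim : Module.finrank ℂ (LinearMap.range L) = Module.finrank ℂ W :=
    LinearMap.finrank_range_of_inj hL
  -- the eigenvalue equation
  have heig : ∀ f ∈ LinearMap.range L, ∀ z, ∑ i : SS q × SS q, f (SC_u hM' s i z) =
      (μ : ℂ) * f z := by
    rintro _ ⟨w, rfl⟩ z
    have hz : ∀ i : SS q × SS q, SC_u hM' s i z =
        (s i.1 * s i.2 * z.1, uM M' hM' i.1 i.2 * z.2) := fun i => rfl
    by_cases h : ∃ x, SC_rU hd x = z.2
    · obtain ⟨x, hx⟩ := h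
      have hz2 : z = (z.1, SC_rU hd x) := by rw [hx]
      have h1 : L w z = w.1.1 (z.1, x) := by
        rw [hz2]
        exact SC_ext_on S hd w.1.1 (hinv w.1 w.2) z.1 x
      have h2 : ∀ i : SS q × SS q, L w (SC_u hM' s i z) =
          w.1.1 (s i.1 * s i.2 * z.1, uM M hM i.1 i.2 * x) := by
        intro i
        rw [hz, ← hx, ← SC_rU_uM hd hM hM', ← map_mul]
        exact SC_ext_on S hd w.1.1 (hinv w.1 w.2) _ _
      rw [h1, Finset.sum_congr rfl (fun i _ => h2 i), Fintype.sum_prod_type]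
      exact w.1.2 (z.1, x)
    · have h1 : L w z = 0 := SC_ext_off S hd w.1.1 z h
      rw [h1, mul_zero]
      apply Finset.sum_eq_zero
      intro i _
      apply SC_ext_off
      rintro ⟨x, hx⟩
      apply h
      refine ⟨(uM M hM i.1 i.2)⁻¹ * x, ?_⟩
      rw [map_mul, map_inv, hx, SC_rU_uM hd hM hM', hz, inv_mul_cancel_left]
  have hT := hTL (S × unitary ℍ[ZMod M']) (SS q × SS q) (SC_u hM' s)
    (fun i => (SC_star i.2, SC_star i.1))
    (fun i => by simp only [SC_star_star]) (fun i => SC_u_inv hM' s hs i) j μ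
    (LinearMap.range L) heig
  rw [hdim] at hT
  have hc : ∀ z : S × unitary ℍ[ZMod M'], (Nat.card {w : Fin (2 * j) → SS q × SS q //
      (List.ofFn fun i => SC_u hM' s (w i)).prod z = z} : ℝ) ≤ (WW q M' (4 * j) : ℝ) := by
    intro z
    have h1 := SC_count (n := 2 * j) hM' s z
    have h2 : 2 * j * 2 = 4 * j := by ring
    rw [h2] at h1
    exact_mod_cast h1
  have hT2 : (Module.finrank ℂ W : ℝ) * μ ^ (2 * j) ≤
      Fintype.card S * (M' : ℝ) ^ 3 * (WW q M' (4 * j) : ℝ) := by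
    refine hT.trans ((Finset.sum_le_sum fun z _ => hc z).trans ?_)
    rw [Finset.sum_const, nsmul_eq_mul, Finset.card_univ, Fintype.card_prod]
    have h3 : (Fintype.card (unitary ℍ[ZMod M']) : ℝ) ≤ (M' : ℝ) ^ 3 := by
      exact_mod_cast hcardU M' hodd'
    push_cast
    gcongr
  have hμ : 0 ≤ μ ^ (2 * j) := by rw [pow_mul]; positivity
  have hW2 : (M'.totient : ℝ) ≤ 2 ^ M'.primeFactors.card * (Module.finrank ℂ W : ℝ) := by
    exact_mod_cast hWdim
  calc (M'.totient : ℝ) * μ ^ (2 * j)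
      ≤ (2 ^ M'.primeFactors.card * (Module.finrank ℂ W : ℝ)) * μ ^ (2 * j) := by gcongr
    _ = 2 ^ M'.primeFactors.card * ((Module.finrank ℂ W : ℝ) * μ ^ (2 * j)) := by ring
    _ ≤ _ := by gcongr

end TauQ
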