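import Mathlib
import Pool.Agent.Work.MP_972ac7_al_tau.Interface

/-! Block `TL`: the trace inequality (helper44). -/

open scoped BigOperators

namespace TauQ

/-- the operator `f ↦ ∑ i, f (u i z)` -/
noncomputable def TLop {Z ι : Type} [Fintype Z] [Fintype ι] (u : ι → Equiv.Perm Z) :
    EuclideanSpace ℂ Z →ₗ[ℂ] EuclideanSpace ℂ Z where
  toFun f := WithLp.toLp 2 (fun z => ∑ i, f (u i z))
  map_add' f g := by
    ext z
    simp [Finset.sum_add_distrib]
  map_smul' c f := by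
    ext z
    simp [Finset.mul_sum]

lemma TLop_apply {Z ι : Type} [Fintype Z] [Fintype ι] (u : ι → Equiv.Perm Z)
    (f : EuclideanSpace ℂ Z) (z : Z) : TLop u f z = ∑ i, f (u i z) := rfl

lemma TLop_pow {Z ι : Type} [Fintype Z] [Fintype ι] (u : ι → Equiv.Perm Z) (n : ℕ)
    (f : EuclideanSpace ℂ Z) (z : Z) :
    ((TLop u) ^ n) f z = ∑ w : Fin n → ι, f ((List.ofFn fun i => u (w i)).prod z) := by
  induction n generalizing f with
  | zero =>
    simp
  | succ n ih =>
    rw [pow_succ, Module.End.mul_apply, ih,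
      ← (Fin.consEquiv (fun _ : Fin (n + 1) => ι)).sum_comp, Fintype.sum_prod_type,
      Finset.sum_comm]
    refine Finset.sum_congr rfl fun w _ => ?_
    rw [TLop_apply]
    refine Finset.sum_congr rfl fun i _ => ?_
    rw [List.ofFn_succ, List.prod_cons]
    rfl

lemma TLop_symm {Z ι : Type} [Fintype Z] [Fintype ι] (u : ι → Equiv.Perm Z) (inv : ι → ι)
    (h1 : ∀ i, inv (inv i) = i) (h2 : ∀ i, u (inv i) = (u i)⁻¹) : (TLop u).IsSymmetric := by
  intro f g
  rw [PiLp.inner_apply, PiLp.inner_apply]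
  have hl : ∀ z, inner ℂ (TLop u f z) (g z) = ∑ i, inner ℂ (f (u i z)) (g z) := by
    intro z
    rw [TLop_apply, sum_inner]
  have hr : ∀ z, inner ℂ (f z) (TLop u g z) = ∑ i, inner ℂ (f z) (g (u i z)) := by
    intro z
    rw [TLop_apply, inner_sum]
  rw [Finset.sum_congr rfl fun z _ => hl z, Finset.sum_congr rfl fun z _ => hr z,
    Finset.sum_comm, Finset.sum_comm (s := Finset.univ (α := Z))]
  let e : Equiv.Perm ι := ⟨inv, inv, h1, h1⟩
  rw [← Equiv.sum_comp e]
  refine Finset.sum_congr rfl fun i _ => ?_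
  rw [← Equiv.sum_comp (u i)]
  refine Finset.sum_congr rfl fun z _ => ?_
  show inner ℂ (f (u (inv i) (u i z))) (g (u i z)) = _
  rw [h2]
  simp

theorem TL_proof : Stmt_TL := by
  intro Z ι _ _ u inv h1 h2 j μ W hW
  classical
  set T := TLop u with hT
  have hsym : T.IsSymmetric := TLop_symm u inv h1 h2
  have hsymj : (T ^ j).IsSymmetric := hsym.pow j
  -- transport W
  let L : (Z → ℂ) ≃ₗ[ℂ] EuclideanSpace ℂ Z := (WithLp.linearEquiv 2 ℂ (Z → ℂ)).symm
  let W' : Submodule ℂ (EuclideanSpace ℂ Z) := W.map (L : (Z → ℂ) →ₗ[ℂ] EuclideanSpace ℂ Z)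
  have hfin : Module.finrank ℂ W' = Module.finrank ℂ W := LinearEquiv.finrank_map_eq L W
  have hW' : ∀ f ∈ W', T f = (μ : ℂ) • f := by
    rintro _ ⟨f, hf, rfl⟩
    ext z
    exact hW f hf z
  have hWj : ∀ f ∈ W', ∀ n : ℕ, (T ^ n) f = ((μ : ℂ) ^ n) • f := by
    intro f hf n
    induction n with
    | zero => simp
    | succ n ih =>
      rw [pow_succ', Module.End.mul_apply, ih, map_smul, hW' f hf, smul_smul, pow_succ]
  let e := stdOrthonormalBasis ℂ W'
  have hortho : Orthonormal ℂ (fun i => ((e i : W') : EuclideanSpace ℂ Z)) :=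
    e.orthonormal.comp_linearIsometry W'.subtypeₗᵢ
  have hbessel : ∀ z : Z, ∑ i, ‖inner ℂ ((e i : W') : EuclideanSpace ℂ Z)
      ((T ^ j) (EuclideanSpace.single z 1))‖ ^ 2 ≤ ‖(T ^ j) (EuclideanSpace.single z 1)‖ ^ 2 :=
    fun z => hortho.sum_inner_products_le _
  have hnorm : ∀ z : Z, ‖(T ^ j) (EuclideanSpace.single z (1 : ℂ))‖ ^ 2 =
      (Nat.card {w : Fin (2 * j) → ι // (List.ofFn fun i => u (w i)).prod z = z} : ℝ) := by
    intro z
    have h3 : ((‖(T ^ j) (EuclideanSpace.single z (1 : ℂ))‖ ^ 2 : ℝ) : ℂ) =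
        ((Nat.card {w : Fin (2 * j) → ι // (List.ofFn fun i => u (w i)).prod z = z} : ℝ) : ℂ) := by
      have h4 := inner_self_eq_norm_sq_to_K (𝕜 := ℂ)
        ((T ^ j) (EuclideanSpace.single z (1 : ℂ)))
      push_cast
      rw [show ((‖(T ^ j) (EuclideanSpace.single z (1 : ℂ))‖ : ℝ) : ℂ) ^ 2 =
        inner ℂ ((T ^ j) (EuclideanSpace.single z (1 : ℂ)))
          ((T ^ j) (EuclideanSpace.single z (1 : ℂ))) from h4.symm]
      rw [hsymj, ← Module.End.mul_apply, ← pow_add, ← two_mul, EuclideanSpace.inner_single_left,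
        map_one, one_mul, TLop_pow, Nat.card_eq_fintype_card, Fintype.card_subtype]
      simp only [PiLp.single_apply]
      rw [Finset.sum_boole]
    exact_mod_cast h3
  have hterm : ∀ i, ∑ z : Z, ‖inner ℂ ((e i : W') : EuclideanSpace ℂ Z)
      ((T ^ j) (EuclideanSpace.single z 1))‖ ^ 2 = μ ^ (2 * j) := by
    intro i
    have h5 : ∀ z : Z, ‖inner ℂ ((e i : W') : EuclideanSpace ℂ Z)
        ((T ^ j) (EuclideanSpace.single z (1 : ℂ)))‖ ^ 2 =
        μ ^ (2 * j) * ‖((e i : W') : EuclideanSpace ℂ Z) z‖ ^ 2 := by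
      intro z
      rw [← hsymj, hWj _ (e i).2, inner_smul_left, EuclideanSpace.inner_single_right, norm_mul,
        mul_pow, one_mul, RCLike.norm_conj, RCLike.norm_conj, norm_pow, Complex.norm_real,
        Real.norm_eq_abs, ← pow_mul, mul_comm j 2, pow_mul, pow_mul, sq_abs]
    rw [Finset.sum_congr rfl fun z _ => h5 z, ← Finset.mul_sum, ← EuclideanSpace.norm_sq_eq,
      hortho.1 i, one_pow, mul_one]
  calc (Module.finrank ℂ W : ℝ) * μ ^ (2 * j)
      = ∑ i : Fin (Module.finrank ℂ W'), μ ^ (2 * j) := by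
        rw [Finset.sum_const, Finset.card_univ, Fintype.card_fin, nsmul_eq_mul, hfin]
    _ = ∑ i, ∑ z : Z, ‖inner ℂ ((e i : W') : EuclideanSpace ℂ Z)
          ((T ^ j) (EuclideanSpace.single z 1))‖ ^ 2 :=
        Finset.sum_congr rfl fun i _ => (hterm i).symm
    _ = ∑ z : Z, ∑ i, ‖inner ℂ ((e i : W') : EuclideanSpace ℂ Z)
          ((T ^ j) (EuclideanSpace.single z 1))‖ ^ 2 := Finset.sum_comm
    _ ≤ ∑ z : Z, ‖(T ^ j) (EuclideanSpace.single z (1 : ℂ))‖ ^ 2 :=
        Finset.sum_le_sum fun z _ => hbessel z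
    _ = _ := Finset.sum_congr rfl fun z _ => hnorm z

end TauQ
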