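import Mathlib
import Pool.Agent.Work.MP_972ac7_al_tau.Interface

/-!
# Block V: a near-eigenfunction on a class is near its average over `SA`
-/

open scoped Quaternion BigOperators

namespace TauQ

/-- right translation on the first factor, as a permutation -/
def V_act {S Q : Type} [Group S] (s : S) : Equiv.Perm (S × Q) :=
  Equiv.prodCongr (Equiv.mulRight s) (Equiv.refl Q)

@[simp] lemma V_act_apply {S Q : Type} [Group S] (s : S) (z : S × Q) :
    V_act s z = (z.1 * s, z.2) := rfl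

/-- the unitary representation of `S` by right translations -/
noncomputable def V_R (S Q : Type) [Group S] [Fintype S] [Fintype Q] :
    S →* (EuclideanSpace ℂ (S × Q) ≃ₗᵢ[ℂ] EuclideanSpace ℂ (S × Q)) where
  toFun s := LinearIsometryEquiv.piLpCongrLeft 2 ℂ ℂ (V_act s).symm
  map_one' := by
    ext v z
    simp [LinearIsometryEquiv.piLpCongrLeft_apply]
  map_mul' s t := by
    ext v z
    simp [LinearIsometryEquiv.piLpCongrLeft_apply, mul_assoc]

lemma V_R_apply {S Q : Type} [Group S] [Fintype S] [Fintype Q] (s : S)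
    (v : EuclideanSpace ℂ (S × Q)) (z : S × Q) : V_R S Q s v z = v (z.1 * s, z.2) := by
  simp [V_R, LinearIsometryEquiv.piLpCongrLeft_apply]

lemma V_sum_right {S Q : Type} [Group S] [Fintype S] [Fintype Q] (s : S) (f : S × Q → ℝ) :
    ∑ z : S × Q, f (z.1 * s, z.2) = ∑ z, f z :=
  Equiv.sum_comp (V_act s) f

/-- right translation on the second factor by an element of `D` -/
def V_actD {S Q : Type} [Group Q] (d : Q) : Equiv.Perm (S × Q) :=
  Equiv.prodCongr (Equiv.refl S) (Equiv.mulRight d)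

@[simp] lemma V_actD_apply {S Q : Type} [Group Q] (d : Q) (z : S × Q) :
    V_actD d z = (z.1, z.2 * d) := rfl

theorem V_proof (hph : Stmt_phase) (hnh : Stmt_nearhom) : Stmt_V := by
  intro A B _ _ h hperf g hg
  obtain ⟨K, hK, hA1⟩ := hph (Fintype.card B) g hg
  obtain ⟨C, hC, hA2⟩ := hnh h.SA hperf
  refine ⟨C ^ 2 * K, by positivity, ?_⟩
  intro Q _ _ r D hDn hDker hGB κ F ε ψ hε0 hεg hψ hsupp hvar
  by_cases hF : F = 0
  · subst hF
    simp
  -- the squared norm
  set N : ℝ := ∑ z, ‖F z‖ ^ 2 with hN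
  have hN0 : 0 ≤ N := Finset.sum_nonneg fun z _ => by positivity
  -- the translates
  have key : ∀ s : h.SA, ∃ c : ℂ, ∑ z : h.SA × Q, ‖F (z.1 * s, z.2) - c * F z‖ ^ 2 ≤ K * ε * N := by
    intro s
    have hnormG : ∑ z : h.SA × Q, ‖F (z.1 * s, z.2)‖ ^ 2 = N :=
      V_sum_right s (fun z => ‖F z‖ ^ 2)
    have := hA1 (h.SA × Q) B {d : Q // d ∈ D} rfl r.tau (fun d => V_actD (d : Q))
      {z | r.chiA z.2 = κ} ?_ ?_ ?_ ε F (fun z => F (z.1 * s, z.2)) (fun d => ψ (d : Q)) hε0 hεg hF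
      ?_ ?_ ?_ ?_ ?_ ?_ ?_
    · obtain ⟨c, hc⟩ := this
      refine ⟨c, ?_⟩
      rw [hnormG] at hc
      exact hc
    · intro b z
      simp only [Rep.tau_apply, Set.mem_ofPred_eq, map_mul, r.chiA_be, one_mul]
    · intro d z
      have hd : r.chiA (d : Q) = 1 := hDker d.2
      simp only [V_actD_apply, Set.mem_ofPred_eq, map_mul, hd, mul_one]
    · intro f hf0 hfD hfs
      refine hGB f (fun z d hd => hfD ⟨d, hd⟩ z) ?_
      intro κ'
      by_cases hκ : κ' = κ
      · subst hκ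
        refine Eq.trans (Finset.sum_congr rfl fun z _ => ?_) hfs
        split_ifs with h1
        · rfl
        · exact (hf0 z h1).symm
      · refine Finset.sum_eq_zero fun z _ => ?_
        split_ifs with h1
        · refine hf0 z ?_
          intro h2
          exact hκ (h1.symm.trans h2)
        · rfl
    · intro z hz
      exact hsupp z hz
    · intro z hz
      exact hsupp _ hz
    · intro d
      exact (hψ d d.2).1
    · intro d z
      exact (hψ d d.2).2 z
    · intro d z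
      exact (hψ d d.2).2 (z.1 * s, z.2)
    · exact hvar
    · rw [hnormG]
      refine le_trans (le_of_eq ?_) hvar
      unfold Rep.varB
      refine Finset.sum_congr rfl fun b _ => ?_
      have := V_sum_right s (fun z => ‖F (r.tau b z) - F z‖ ^ 2)
      rw [← this]
      refine Finset.sum_congr rfl fun z _ => ?_
      simp only [Rep.tau_apply, mul_assoc]
  -- apply nearhom
  set E := EuclideanSpace ℂ (h.SA × Q) with hE
  let v : E := WithLp.toLp 2 F
  have hv : ∀ z, v z = F z := fun z => rfl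
  have hvN : ‖v‖ ^ 2 = N := by
    rw [EuclideanSpace.norm_sq_eq]
  set δ : ℝ := Real.sqrt (K * ε) with hδ
  have hδ0 : 0 ≤ δ := Real.sqrt_nonneg _
  have hδ2 : δ ^ 2 = K * ε := Real.sq_sqrt (by positivity)
  have hR : ∀ s : h.SA, ‖V_R h.SA Q s v - v‖ ≤ C * δ * ‖v‖ := by
    refine hA2 E (V_R h.SA Q) v δ hδ0 ?_
    intro s
    obtain ⟨c, hc⟩ := key s
    refine ⟨c, ?_⟩
    have h1 : ‖V_R h.SA Q s v - c • v‖ ^ 2 ≤ (δ * ‖v‖) ^ 2 := by
      rw [EuclideanSpace.norm_sq_eq, mul_pow, hδ2, hvN]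
      refine le_trans (le_of_eq ?_) hc
      refine Finset.sum_congr rfl fun z _ => ?_
      rw [PiLp.sub_apply, PiLp.smul_apply, V_R_apply, hv, hv, smul_eq_mul]
    exact le_of_sq_le_sq h1 (by positivity)
  have hR2 : ∀ s : h.SA, ∑ z : h.SA × Q, ‖F z - F (z.1 * s, z.2)‖ ^ 2 ≤ C ^ 2 * K * ε * N := by
    intro s
    have h1 : ‖V_R h.SA Q s v - v‖ ^ 2 ≤ (C * δ * ‖v‖) ^ 2 :=
      pow_le_pow_left₀ (norm_nonneg _) (hR s) 2
    rw [EuclideanSpace.norm_sq_eq, mul_pow, mul_pow, hδ2, hvN] at h1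
    calc ∑ z : h.SA × Q, ‖F z - F (z.1 * s, z.2)‖ ^ 2
        = ∑ z, ‖(V_R h.SA Q s v - v) z‖ ^ 2 := by
          refine Finset.sum_congr rfl fun z _ => ?_
          rw [PiLp.sub_apply, V_R_apply, hv, hv, norm_sub_rev]
      _ ≤ C ^ 2 * (K * ε) * N := h1
      _ = C ^ 2 * K * ε * N := by ring
  -- average
  set m : ℝ := (Fintype.card h.SA : ℝ) with hm
  have hm0 : 0 < m := by
    rw [hm]
    exact_mod_cast Fintype.card_pos
  have hmC : ((Fintype.card h.SA : ℂ)) ≠ 0 := by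
    exact_mod_cast Fintype.card_pos.ne'
  have havg : ∀ z : h.SA × Q, F z - (Fintype.card h.SA : ℂ)⁻¹ * ∑ y, F (y, z.2) =
      (Fintype.card h.SA : ℂ)⁻¹ * ∑ s : h.SA, (F z - F (z.1 * s, z.2)) := by
    intro z
    rw [Finset.sum_sub_distrib, mul_sub, Finset.sum_const, Finset.card_univ, nsmul_eq_mul,
      ← mul_assoc, inv_mul_cancel₀ hmC, one_mul]
    congr 2
    exact (Equiv.sum_comp (Equiv.mulLeft z.1) (fun y => F (y, z.2))).symm
  calc ∑ z, ‖F z - (Fintype.card h.SA : ℂ)⁻¹ * ∑ y, F (y, z.2)‖ ^ 2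
      ≤ ∑ z : h.SA × Q, m⁻¹ * ∑ s : h.SA, ‖F z - F (z.1 * s, z.2)‖ ^ 2 := by
        refine Finset.sum_le_sum fun z _ => ?_
        rw [havg z, norm_mul, norm_inv, Complex.norm_natCast, ← hm, mul_pow]
        have h1 : ‖∑ s : h.SA, (F z - F (z.1 * s, z.2))‖ ^ 2 ≤
            m * ∑ s : h.SA, ‖F z - F (z.1 * s, z.2)‖ ^ 2 := by
          refine le_trans (pow_le_pow_left₀ (norm_nonneg _) (norm_sum_le _ _) 2) ?_
          have := sq_sum_le_card_mul_sum_sq (s := (Finset.univ : Finset h.SA))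
            (f := fun s => ‖F z - F (z.1 * s, z.2)‖)
          rw [Finset.card_univ] at this
          exact this
        calc m⁻¹ ^ 2 * ‖∑ s : h.SA, (F z - F (z.1 * s, z.2))‖ ^ 2
            ≤ m⁻¹ ^ 2 * (m * ∑ s : h.SA, ‖F z - F (z.1 * s, z.2)‖ ^ 2) :=
              mul_le_mul_of_nonneg_left h1 (by positivity)
          _ = m⁻¹ * ∑ s : h.SA, ‖F z - F (z.1 * s, z.2)‖ ^ 2 := by
              field_simp
    _ = m⁻¹ * ∑ s : h.SA, ∑ z : h.SA × Q, ‖F z - F (z.1 * s, z.2)‖ ^ 2 := by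
        rw [← Finset.mul_sum, Finset.sum_comm]
    _ ≤ m⁻¹ * ∑ _s : h.SA, C ^ 2 * K * ε * N := by
        refine mul_le_mul_of_nonneg_left ?_ (by positivity)
        exact Finset.sum_le_sum fun s _ => hR2 s
    _ = C ^ 2 * K * ε * N := by
        rw [Finset.sum_const, Finset.card_univ, nsmul_eq_mul, ← hm, ← mul_assoc,
          inv_mul_cancel₀ hm0.ne', one_mul]

end TauQ
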