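import Mathlib
import Pool.Agent.Work.MP_972ac7_al_tau.Interface

/-! A5: a joint near-top eigenfunction of `T_A`, `T_B` is `A`-invariant. -/

set_option autoImplicit false

open scoped Quaternion BigOperators
open Finset

namespace TauQ

theorem X_count {A B : Type} [Fintype A] (h : VH A B)
    (htr : ∀ a a' : A, ∃ s : h.SA, (s : Equiv.Perm A) a = a') (a0 : A) {E : Type}
    [AddCommMonoid E] (φ : A → E) :
    Fintype.card A • ∑ y : h.SA, φ ((y : Equiv.Perm A) a0) =
      Fintype.card h.SA • ∑ a, φ a := by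
  have h1 : ∀ a, ∑ y : h.SA, φ ((y : Equiv.Perm A) a) =
      ∑ y : h.SA, φ ((y : Equiv.Perm A) a0) := by
    intro a
    obtain ⟨s, hs⟩ := htr a0 a
    rw [← hs]
    exact Equiv.sum_comp (Equiv.mulRight s) (fun y : h.SA => φ ((y : Equiv.Perm A) a0))
  have h2 : ∑ a, ∑ y : h.SA, φ ((y : Equiv.Perm A) a) =
      Fintype.card A • ∑ y : h.SA, φ ((y : Equiv.Perm A) a0) := by
    rw [Finset.sum_congr rfl fun a _ => h1 a, Finset.sum_const, Finset.card_univ]
  rw [← h2, Finset.sum_comm]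
  have h3 : ∀ y : h.SA, ∑ a, φ ((y : Equiv.Perm A) a) = ∑ a, φ a := fun y =>
    Equiv.sum_comp (y : Equiv.Perm A) φ
  rw [Finset.sum_congr rfl fun y _ => h3 y, Finset.sum_const, Finset.card_univ]

theorem X_var {Z ι : Type} [Fintype Z] [Fintype ι] (τ : ι → Equiv.Perm Z) (F : Z → ℂ) (ε : ℝ)
    (hF : ∀ z, ∑ i, F (τ i z) = ((Fintype.card ι : ℂ) - (ε : ℂ)) * F z) :
    ∑ i, ∑ z, ‖F (τ i z) - F z‖ ^ 2 = 2 * ε * ∑ z, ‖F z‖ ^ 2 := by
  have h1 : ∀ i, ∑ z, ‖F (τ i z) - F z‖ ^ 2 =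
      2 * ∑ z, ‖F z‖ ^ 2 - 2 * ∑ z, inner ℝ (F (τ i z)) (F z) := by
    intro i
    have h2 : ∀ z, ‖F (τ i z) - F z‖ ^ 2 =
        ‖F (τ i z)‖ ^ 2 - 2 * inner ℝ (F (τ i z)) (F z) + ‖F z‖ ^ 2 := fun z =>
      norm_sub_sq_real _ _
    have h3 : ∑ z, ‖F (τ i z)‖ ^ 2 = ∑ z, ‖F z‖ ^ 2 :=
      Equiv.sum_comp (τ i) (fun z => ‖F z‖ ^ 2)
    rw [Finset.sum_congr rfl fun z _ => h2 z, Finset.sum_add_distrib, Finset.sum_sub_distrib,
      h3, ← Finset.mul_sum]
    ring
  rw [Finset.sum_congr rfl fun i _ => h1 i, Finset.sum_sub_distrib, Finset.sum_const,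
    Finset.card_univ, nsmul_eq_mul, ← Finset.mul_sum, Finset.sum_comm]
  have h4 : ∀ z, ∑ i, inner ℝ (F (τ i z)) (F z) = ((Fintype.card ι : ℝ) - ε) * ‖F z‖ ^ 2 := by
    intro z
    rw [← sum_inner, hF z]
    have h5 : ((Fintype.card ι : ℂ) - (ε : ℂ)) * F z = ((Fintype.card ι : ℝ) - ε) • F z := by
      rw [Complex.real_smul]
      push_cast
      rfl
    rw [h5, real_inner_smul_left, real_inner_self_eq_norm_sq]
  rw [Finset.sum_congr rfl fun z _ => h4 z, ← Finset.mul_sum]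
  ring

/-- the key relation -/
theorem X_key {A B : Type} {h : VH A B} {Q : Type} [Group Q] (r : Rep h Q) (b : B) (a' : A) :
    (r.al (h.sigma b a'))⁻¹ * r.be b = r.be (h.vh.symm (b, a')).2 * (r.al a')⁻¹ := by
  have h1 := r.comm (h.vh.symm (b, a')).1 (h.vh.symm (b, a')).2
  rw [Prod.mk.eta, Equiv.apply_symm_apply] at h1
  have h2 : h.sigma b a' = (h.vh.symm (b, a')).1 := rfl
  rw [h2, inv_mul_eq_iff_eq_mul, ← mul_assoc, h1]
  group

theorem X_bij {A B : Type} (h : VH A B) (a' : A) (b : B) :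
    (h.vh.symm ((h.vh.symm (b, a')).2, h.invA a')).2 = b := by
  have h1 := h.h1 (h.vh.symm (b, a')).1 (h.vh.symm (b, a')).2
  rw [Prod.mk.eta, Equiv.apply_symm_apply] at h1
  have h2 : h.vh.symm ((h.vh.symm (b, a')).2, h.invA a') = (h.invA (h.vh.symm (b, a')).1, b) := by
    rw [Equiv.symm_apply_eq]
    exact h1.symm
  rw [h2]

/-- the bijection `b ↦ b''` -/
def X_rho {A B : Type} (h : VH A B) (a' : A) : B ≃ B where
  toFun b := (h.vh.symm (b, a')).2
  invFun b := (h.vh.symm (b, h.invA a')).2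
  left_inv b := X_bij h a' b
  right_inv b := by
    have := X_bij h (h.invA a') b
    rwa [h.invA_invA] at this

theorem X_units : ∀ a b : ℤˣ, a ≠ b → -1 * a = b := by decide

set_option maxHeartbeats 4000000 in
theorem X_proof (hph : Stmt_phase) : Stmt_X := by
  intro A B _ _ h hA htr g hg
  obtain ⟨K, hK, hphase⟩ := hph (Fintype.card B) g hg
  refine ⟨min (g / 2) (1 / (12 * K + 1)), by positivity, ?_⟩
  intro Q _ _ r D hDn hDA hGB v ψ εA εB hv hψ hTA hTB hεB0 hεBδ hεA0 hεA4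
  classical
  by_contra hne
  have hεA : 0 < εA := lt_of_le_of_ne hεA0 (Ne.symm hne)
  obtain ⟨a0⟩ := hA
  set m : ℝ := (Fintype.card A : ℝ) with hmd
  have hm : 0 < m := by
    rw [hmd]
    exact_mod_cast Fintype.card_pos_iff.2 ⟨a0⟩
  set nS : ℝ := (Fintype.card h.SA : ℝ) with hnS
  have hnS0 : 0 < nS := by
    rw [hnS]
    exact_mod_cast Fintype.card_pos_iff.2 ⟨(1 : h.SA)⟩
  have hεB1 : εB < g / 2 := hεBδ.trans_le (min_le_left _ _)
  have hεB2 : 6 * K * εB < 1 / 2 := by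
    have h1 : εB < 1 / (12 * K + 1) := hεBδ.trans_le (min_le_right _ _)
    have h2 : εB * (12 * K + 1) < 1 := by rwa [lt_div_iff₀ (by positivity)] at h1
    nlinarith
  set G0 : h.SA × Q → ℂ := fun z => v ((r.al ((z.1 : Equiv.Perm A) a0))⁻¹ * z.2) with hG0d
  have hG0 : ∀ z, ∑ b, G0 (r.tau b z) = ((Fintype.card B : ℂ) - (εB : ℂ)) * G0 z := by
    intro z
    have h1 : ∀ b, G0 (r.tau b z) = v (r.be (X_rho h ((z.1 : Equiv.Perm A) a0) b) *
        ((r.al ((z.1 : Equiv.Perm A) a0))⁻¹ * z.2)) := by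
      intro b
      have h2 := X_key r b ((z.1 : Equiv.Perm A) a0)
      show v ((r.al (h.sigma b ((z.1 : Equiv.Perm A) a0)))⁻¹ * (r.be b * z.2)) = _
      rw [← mul_assoc, h2, mul_assoc]
      rfl
    rw [Finset.sum_congr rfl fun b _ => h1 b]
    rw [Equiv.sum_comp (X_rho h ((z.1 : Equiv.Perm A) a0))
      (fun b => v (r.be b * ((r.al ((z.1 : Equiv.Perm A) a0))⁻¹ * z.2)))]
    exact hTB _
  have hchA : ∀ b z, r.chiA (r.tau b z).2 = r.chiA z.2 := by
    intro b z
    rw [Rep.tau_apply, map_mul, r.chiA_be, one_mul]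
  -- average over y
  have havg : ∀ x, ∑ y : h.SA, (G0 (y, x) - v x) = -((nS * (εA / m) : ℝ) : ℂ) * v x := by
    intro x
    have h1 := X_count h htr a0 (fun a => v ((r.al a)⁻¹ * x))
    have h2 : ∑ a, v ((r.al a)⁻¹ * x) = ((Fintype.card A : ℂ) - (εA : ℂ)) * v x := by
      rw [← hTA x]
      have h3 : ∀ a, v ((r.al a)⁻¹ * x) = v (r.al (h.invA a) * x) := by
        intro a
        rw [r.al_inv]
      rw [Finset.sum_congr rfl fun a _ => h3 a]
      exact Equiv.sum_comp (⟨h.invA, h.invA, h.invA_invA, h.invA_invA⟩ : A ≃ A)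
        (fun a => v (r.al a * x))
    rw [h2, nsmul_eq_mul, nsmul_eq_mul] at h1
    have hmc : (Fintype.card A : ℂ) ≠ 0 := by
      have := hm.ne'
      rw [hmd] at this
      exact_mod_cast this
    have h4 : ∑ y : h.SA, G0 (y, x) =
        (Fintype.card h.SA : ℂ) * (((Fintype.card A : ℂ) - (εA : ℂ)) * v x) /
          (Fintype.card A : ℂ) := by
      rw [eq_div_iff hmc, mul_comm]
      exact h1
    rw [Finset.sum_sub_distrib, h4, Finset.sum_const, Finset.card_univ, nsmul_eq_mul, hnS, hmd]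
    push_cast
    field_simp
    ring
  -- main estimate on each class
  have key : ∀ κ : ℤˣ,
      ∑ z : h.SA × Q, ‖(if r.chiA z.2 = κ then G0 z - v z.2 else 0 : ℂ)‖ ^ 2 ≤
      6 * K * εB * ∑ z : h.SA × Q, ‖(if r.chiA z.2 = κ then G0 z - v z.2 else 0 : ℂ)‖ ^ 2 +
        3 * (εA / m) ^ 2 * ∑ z : h.SA × Q, ‖(if r.chiA z.2 = κ then v z.2 else 0 : ℂ)‖ ^ 2 := by
    intro κ
    set F : h.SA × Q → ℂ := fun z => if r.chiA z.2 = κ then v z.2 else 0 with hF
    set G : h.SA × Q → ℂ := fun z => if r.chiA z.2 = κ then G0 z - v z.2 else 0 with hG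
    have hFne : F ≠ 0 := by
      obtain ⟨x0, hx0⟩ : ∃ x, v x ≠ 0 := by
        by_contra hc
        push Not at hc
        exact hv (funext hc)
      by_cases h1 : r.chiA x0 = κ
      · intro h2
        have h3 := congrFun h2 (1, x0)
        simp only [hF, if_pos h1] at h3
        exact hx0 h3
      · have h2 : ∃ a, v (r.al a * x0) ≠ 0 := by
          by_contra hc
          push Not at hc
          have h3 := hTA x0
          rw [Finset.sum_eq_zero fun a _ => hc a] at h3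
          rcases mul_eq_zero.1 h3.symm with h4 | h4
          · have h5 : (m : ℝ) - εA = 0 := by
              rw [hmd]
              exact_mod_cast h4
            linarith
          · exact hx0 h4
        obtain ⟨a, ha⟩ := h2
        intro h3
        have h4 := congrFun h3 (1, r.al a * x0)
        have h5 : r.chiA (r.al a * x0) = κ := by
          rw [map_mul, r.chiA_al]
          exact X_units _ _ h1
        simp only [hF, if_pos h5] at h4
        exact ha h4
    have hFT : ∀ z, ∑ b, F (r.tau b z) = ((Fintype.card B : ℂ) - (εB : ℂ)) * F z := by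
      intro z
      simp only [hF, hchA]
      by_cases hz : r.chiA z.2 = κ
      · simp only [if_pos hz]
        exact hTB z.2
      · simp only [if_neg hz, Finset.sum_const_zero, mul_zero]
    have hGT : ∀ z, ∑ b, G (r.tau b z) = ((Fintype.card B : ℂ) - (εB : ℂ)) * G z := by
      intro z
      simp only [hG, hchA]
      by_cases hz : r.chiA z.2 = κ
      · simp only [if_pos hz]
        rw [Finset.sum_sub_distrib, hG0, mul_sub]
        congr 1
        exact hTB z.2
      · simp only [if_neg hz, Finset.sum_const_zero, mul_zero]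
    have hchD : ∀ (d : {d // d ∈ D}) (x : Q), r.chiA (x * d.1) = r.chiA x := by
      intro d x
      have : r.chiA d.1 = 1 := hDA d.2
      rw [map_mul, this, mul_one]
    obtain ⟨c, hc⟩ := hphase (h.SA × Q) B {d // d ∈ D} rfl r.tau
      (fun d => Equiv.prodCongr (Equiv.refl _) (Equiv.mulRight d.1)) {z | r.chiA z.2 = κ}
      (fun b z => by
        show r.chiA (r.tau b z).2 = κ ↔ r.chiA z.2 = κ
        rw [hchA])
      (fun d z => by
        show r.chiA (z.2 * d.1) = κ ↔ r.chiA z.2 = κ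
        rw [hchD])
      (fun f hf1 hf2 hf3 => by
        refine hGB f (fun z d hd => hf2 ⟨d, hd⟩ z) (fun κ' => ?_)
        by_cases hk : κ' = κ
        · refine (Finset.sum_congr rfl fun z _ => ?_).trans hf3
          by_cases hz : r.chiA z.2 = κ'
          · rw [if_pos hz]
          · rw [if_neg hz, hf1 z (fun h1 => hz (by rw [hk]; exact h1))]
        · refine Finset.sum_eq_zero fun z _ => ?_
          by_cases hz : r.chiA z.2 = κ'
          · rw [if_pos hz]
            exact hf1 z (fun h1 => hk (hz.symm.trans h1))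
          · rw [if_neg hz])
      εB F G (fun d => ψ d.1) hεB0 hεB1.le hFne
      (fun z hz => if_neg hz) (fun z hz => if_neg hz) (fun d => (hψ d.1 d.2).1)
      (fun d z => by
        show (if r.chiA (z.2 * d.1) = κ then v (z.2 * d.1) else 0) = ψ d.1 * F z
        rw [hchD, (hψ d.1 d.2).2]
        simp only [hF]
        split_ifs
        · rfl
        · rw [mul_zero])
      (fun d z => by
        show (if r.chiA (z.2 * d.1) = κ then
          v ((r.al ((z.1 : Equiv.Perm A) a0))⁻¹ * (z.2 * d.1)) - v (z.2 * d.1) else 0) =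
            ψ d.1 * G z
        rw [hchD, (hψ d.1 d.2).2, ← mul_assoc, (hψ d.1 d.2).2]
        simp only [hG]
        split_ifs
        · simp only [hG0d]
          ring
        · rw [mul_zero])
      (X_var r.tau F εB hFT).le (X_var r.tau G εB hGT).le
    -- Cauchy-Schwarz
    have hCS : ∑ z : h.SA × Q, ‖((εA / m : ℝ) + c) * F z‖ ^ 2 ≤
        ∑ z : h.SA × Q, ‖G z - c * F z‖ ^ 2 := by
      rw [Fintype.sum_prod_type_right, Fintype.sum_prod_type_right]
      refine Finset.sum_le_sum fun x _ => ?_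
      by_cases hx : r.chiA x = κ
      · have e1 : ∀ y : h.SA, F (y, x) = v x := fun y => if_pos hx
        have e2 : ∀ y : h.SA, G (y, x) = G0 (y, x) - v x := fun y => if_pos hx
        simp only [e1, e2]
        rw [Finset.sum_const, Finset.card_univ, nsmul_eq_mul, ← hnS]
        have h1 : ∑ y : h.SA, (G0 (y, x) - v x - c * v x) =
            -(nS : ℂ) * (((εA / m : ℝ) + c) * v x) := by
          rw [Finset.sum_sub_distrib, havg, Finset.sum_const, Finset.card_univ, nsmul_eq_mul]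
          rw [hnS]
          push_cast
          ring
        have h2 : ‖∑ y : h.SA, (G0 (y, x) - v x - c * v x)‖ ^ 2 ≤
            nS * ∑ y : h.SA, ‖G0 (y, x) - v x - c * v x‖ ^ 2 := by
          have h3 : ‖∑ y : h.SA, (G0 (y, x) - v x - c * v x)‖ ≤
              ∑ y : h.SA, ‖G0 (y, x) - v x - c * v x‖ := norm_sum_le _ _
          have h4 := sq_sum_le_card_mul_sum_sq (s := (Finset.univ : Finset h.SA))
            (f := fun y => ‖G0 (y, x) - v x - c * v x‖)
          rw [Finset.card_univ, ← hnS] at h4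
          refine (pow_le_pow_left₀ (norm_nonneg _) h3 2).trans h4
        rw [h1, norm_mul, norm_neg, mul_pow, Complex.norm_real, Real.norm_of_nonneg hnS0.le] at h2
        have h5 : nS * (nS * ‖((εA / m : ℝ) + c) * v x‖ ^ 2) ≤
            nS * ∑ y : h.SA, ‖G0 (y, x) - v x - c * v x‖ ^ 2 := by
          calc nS * (nS * ‖((εA / m : ℝ) + c) * v x‖ ^ 2)
              = nS ^ 2 * ‖((εA / m : ℝ) + c) * v x‖ ^ 2 := by ring
            _ ≤ _ := h2
        exact le_of_mul_le_mul_left h5 hnS0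
      · have e1 : ∀ y : h.SA, F (y, x) = 0 := fun y => if_neg hx
        have e2 : ∀ y : h.SA, G (y, x) = 0 := fun y => if_neg hx
        simp only [e1, e2]
        simp
    have h3 : ∀ z, ‖G z‖ ^ 2 ≤ 3 * ‖G z - c * F z‖ ^ 2 +
        3 * ‖((εA / m : ℝ) + c) * F z‖ ^ 2 + 3 * (εA / m) ^ 2 * ‖F z‖ ^ 2 := by
      intro z
      have h4 : G z = (G z - c * F z) + ((εA / m : ℝ) + c) * F z + (-((εA / m : ℝ) : ℂ)) * F z := by
        ring
      have h5 : ‖G z‖ ≤ ‖G z - c * F z‖ + ‖((εA / m : ℝ) + c) * F z‖ + (εA / m) * ‖F z‖ := by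
        calc ‖G z‖ = ‖(G z - c * F z) + ((εA / m : ℝ) + c) * F z +
              (-((εA / m : ℝ) : ℂ)) * F z‖ := by rw [← h4]
          _ ≤ ‖(G z - c * F z) + ((εA / m : ℝ) + c) * F z‖ +
              ‖(-((εA / m : ℝ) : ℂ)) * F z‖ := norm_add_le _ _
          _ ≤ ‖G z - c * F z‖ + ‖((εA / m : ℝ) + c) * F z‖ + (εA / m) * ‖F z‖ := by
            have h6 : ‖(-((εA / m : ℝ) : ℂ)) * F z‖ = (εA / m) * ‖F z‖ := by
              rw [norm_mul, norm_neg, Complex.norm_real, Real.norm_of_nonneg (by positivity)]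
            rw [h6]
            have := norm_add_le (G z - c * F z) (((εA / m : ℝ) + c) * F z)
            linarith
      have h7 : ‖G z‖ ^ 2 ≤
          (‖G z - c * F z‖ + ‖((εA / m : ℝ) + c) * F z‖ + (εA / m) * ‖F z‖) ^ 2 :=
        pow_le_pow_left₀ (norm_nonneg _) h5 2
      refine h7.trans ?_
      nlinarith [sq_nonneg (‖G z - c * F z‖ - ‖((εA / m : ℝ) + c) * F z‖),
        sq_nonneg (‖G z - c * F z‖ - (εA / m) * ‖F z‖),
        sq_nonneg (‖((εA / m : ℝ) + c) * F z‖ - (εA / m) * ‖F z‖)]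
    have h8 := Finset.sum_le_sum (s := (Finset.univ : Finset (h.SA × Q))) (fun z _ => h3 z)
    rw [Finset.sum_add_distrib, Finset.sum_add_distrib, ← Finset.mul_sum, ← Finset.mul_sum,
      ← Finset.mul_sum] at h8
    nlinarith
  -- sum over the classes
  have hsumκ : ∀ w : h.SA × Q → ℂ,
      ∑ κ : ℤˣ, ∑ z : h.SA × Q, ‖(if r.chiA z.2 = κ then w z else 0 : ℂ)‖ ^ 2 =
        ∑ z, ‖w z‖ ^ 2 := by
    intro w
    rw [Finset.sum_comm]
    refine Finset.sum_congr rfl fun z _ => ?_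
    have h1 : ∀ κ : ℤˣ, ‖(if r.chiA z.2 = κ then w z else 0 : ℂ)‖ ^ 2 =
        if r.chiA z.2 = κ then ‖w z‖ ^ 2 else 0 := by
      intro κ
      split_ifs
      · rfl
      · simp
    rw [Finset.sum_congr rfl fun κ _ => h1 κ, Finset.sum_ite_eq, if_pos (Finset.mem_univ _)]
  have h1 := Finset.sum_le_sum (s := (Finset.univ : Finset ℤˣ)) (fun κ _ => key κ)
  rw [Finset.sum_add_distrib, ← Finset.mul_sum, ← Finset.mul_sum,
    hsumκ (fun z => G0 z - v z.2), hsumκ (fun z => v z.2)] at h1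
  have h2 : ∑ z : h.SA × Q, ‖v z.2‖ ^ 2 = nS * ∑ x, ‖v x‖ ^ 2 := by
    rw [Fintype.sum_prod_type]
    show ∑ _y : h.SA, ∑ x, ‖v x‖ ^ 2 = _
    rw [Finset.sum_const, Finset.card_univ, nsmul_eq_mul]
  have h3 : m * ∑ z : h.SA × Q, ‖G0 z - v z.2‖ ^ 2 = nS * (2 * εA * ∑ x, ‖v x‖ ^ 2) := by
    have h4 := X_count h htr a0 (fun a => ∑ x, ‖v ((r.al a)⁻¹ * x) - v x‖ ^ 2)
    rw [nsmul_eq_mul, nsmul_eq_mul] at h4
    rw [Fintype.sum_prod_type]
    refine h4.trans ?_
    rw [← hnS]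
    congr 1
    have h5 : ∀ a, ∑ x, ‖v ((r.al a)⁻¹ * x) - v x‖ ^ 2 =
        ∑ x, ‖v (r.al (h.invA a) * x) - v x‖ ^ 2 := by
      intro a
      rw [r.al_inv]
    rw [Finset.sum_congr rfl fun a _ => h5 a]
    exact (Equiv.sum_comp (⟨h.invA, h.invA, h.invA_invA, h.invA_invA⟩ : A ≃ A)
      (fun a => ∑ x, ‖v (r.al a * x) - v x‖ ^ 2)).trans
      (X_var (fun a => Equiv.mulLeft (r.al a)) v εA hTA)
  have hvpos : 0 < ∑ x, ‖v x‖ ^ 2 := by
    obtain ⟨x0, hx0⟩ : ∃ x, v x ≠ 0 := by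
      by_contra hc
      push Not at hc
      exact hv (funext hc)
    refine Finset.sum_pos' (fun x _ => by positivity) ⟨x0, Finset.mem_univ _, ?_⟩
    have := norm_pos_iff.2 hx0
    positivity
  rw [h2] at h1
  set GG2 := ∑ z : h.SA × Q, ‖G0 z - v z.2‖ ^ 2 with hGG
  set V2 := ∑ x, ‖v x‖ ^ 2 with hV2
  have hGGpos : 0 < GG2 := by
    have : 0 < nS * (2 * εA * V2) := by positivity
    rw [← h3] at this
    exact (mul_pos_iff_of_pos_left hm).1 this
  -- (1/2) GG2 ≤ 3 (εA/m)^2 nS V2, and m GG2 = 2 εA nS V2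
  have h6 : (1 / 2) * GG2 < 3 * (εA / m) ^ 2 * (nS * V2) := by
    nlinarith
  have h7 : m * GG2 = nS * (2 * εA * V2) := h3
  have h8 : 3 * (εA / m) ^ 2 * (nS * V2) = (3 / 2) * (εA / m) * GG2 := by
    have h9 : GG2 = nS * (2 * εA * V2) / m := by
      rw [eq_div_iff hm.ne', mul_comm]
      exact h7
    rw [h9]
    field_simp
  rw [h8] at h6
  have h10 : εA / m < 1 / 4 := by
    rw [div_lt_iff₀ hm]
    linarith
  nlinarith

end TauQ
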