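import Mathlib
import Pool.Agent.Work.MP_972ac7_al_tau.Interface

/-! N15: the base gap is transferred to the finite group. -/

set_option autoImplicit false

open scoped Quaternion BigOperators
open Finset

namespace TauQ

section base_abstract

variable {Z ι : Type} [Fintype Z] [Fintype ι]

/-- real inner product of functions -/
noncomputable def base_rip (f g : Z → ℂ) : ℝ := ∑ z, inner ℝ (f z) (g z)

theorem base_rip_self (f : Z → ℂ) : base_rip f f = ∑ z, ‖f z‖ ^ 2 := by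
  unfold base_rip
  exact Finset.sum_congr rfl fun z _ => real_inner_self_eq_norm_sq _

theorem base_norm_perm (τ : Equiv.Perm Z) (f : Z → ℂ) :
    ∑ z, ‖f (τ z)‖ ^ 2 = ∑ z, ‖f z‖ ^ 2 := Equiv.sum_comp τ (fun z => ‖f z‖ ^ 2)

/-- variation for one permutation -/
theorem base_var1 (τ : Equiv.Perm Z) (f : Z → ℂ) :
    ∑ z, ‖f (τ z) - f z‖ ^ 2 = 2 * ∑ z, ‖f z‖ ^ 2 - 2 * base_rip (fun z => f (τ z)) f := by
  have h1 : ∀ z, ‖f (τ z) - f z‖ ^ 2 =
      ‖f (τ z)‖ ^ 2 - 2 * inner ℝ (f (τ z)) (f z) + ‖f z‖ ^ 2 := fun z =>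
    norm_sub_sq_real _ _
  rw [Finset.sum_congr rfl fun z _ => h1 z, Finset.sum_add_distrib, Finset.sum_sub_distrib,
    base_norm_perm, ← Finset.mul_sum]
  unfold base_rip
  ring

theorem base_two_step (τ : ι → Equiv.Perm Z) (inv : ι → ι) (hinv : ∀ i, inv (inv i) = i)
    (hτ : ∀ i, τ (inv i) = (τ i)⁻¹) (f : Z → ℂ) :
    ∑ i', ∑ i, base_rip (fun z => f (τ i' (τ i z))) f = ∑ z, ‖∑ i, f (τ i z)‖ ^ 2 := by
  have h1 : ∀ i' i, base_rip (fun z => f (τ i' (τ i z))) f =
      ∑ w, inner ℝ (f (τ i' w)) (f (τ (inv i) w)) := by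
    intro i' i
    have h := Equiv.sum_comp (τ i) (fun w => inner ℝ (f (τ i' w)) (f ((τ i)⁻¹ w)))
    rw [hτ]
    rw [← h]
    unfold base_rip
    refine Finset.sum_congr rfl fun z _ => ?_
    have hz : (τ i)⁻¹ ((τ i) z) = z := (τ i).symm_apply_apply z
    rw [hz]
  have e : ι ≃ ι := ⟨inv, inv, hinv, hinv⟩
  have h2 : ∀ i', ∑ i, base_rip (fun z => f (τ i' (τ i z))) f =
      ∑ i, ∑ w, inner ℝ (f (τ i' w)) (f (τ i w)) := by
    intro i'
    rw [Finset.sum_congr rfl fun i _ => h1 i' i]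
    exact Equiv.sum_comp (⟨inv, inv, hinv, hinv⟩ : ι ≃ ι)
      (fun i => ∑ w, inner ℝ (f (τ i' w)) (f (τ i w)))
  rw [Finset.sum_congr rfl fun i' _ => h2 i']
  have h3 : ∀ z, ‖∑ i, f (τ i z)‖ ^ 2 = ∑ i', ∑ i, inner ℝ (f (τ i' z)) (f (τ i z)) := by
    intro z
    rw [← real_inner_self_eq_norm_sq, sum_inner]
    exact Finset.sum_congr rfl fun i' _ => inner_sum _ _ _
  rw [Finset.sum_congr rfl fun z _ => h3 z]
  rw [Finset.sum_comm (s := (Finset.univ : Finset Z))]
  refine Finset.sum_congr rfl fun i' _ => ?_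
  rw [Finset.sum_comm]

theorem base_main (τ : ι → Equiv.Perm Z) (inv : ι → ι) (hinv : ∀ i, inv (inv i) = i)
    (hτ : ∀ i, τ (inv i) = (τ i)⁻¹) (hn : 0 < Fintype.card ι) (g₁ : ℝ)
    (f e : Z → ℂ) (he : ∀ i z, e (τ i z) = -e z) (horth : ∑ z, inner ℝ (f z - e z) (e z) = 0)
    (hgap : 2 * g₁ * ∑ z, ‖f z - e z‖ ^ 2 ≤ ∑ i', ∑ i, ∑ z, ‖f (τ i' (τ i z)) - f z‖ ^ 2) :
    2 * min (g₁ / (2 * Fintype.card ι)) (Fintype.card ι) * ∑ z, ‖f z‖ ^ 2 ≤
      ∑ i, ∑ z, ‖f (τ i z) - f z‖ ^ 2 := by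
  set n : ℝ := (Fintype.card ι : ℝ) with hnd
  have hn0 : 0 < n := by rw [hnd]; exact_mod_cast hn
  set f' : Z → ℂ := fun z => f z - e z with hf'
  set a : ℝ := ∑ z, ‖f' z‖ ^ 2 with ha
  set b : ℝ := ∑ z, ‖e z‖ ^ 2 with hb
  have ha0 : 0 ≤ a := Finset.sum_nonneg fun z _ => by positivity
  have hb0 : 0 ≤ b := Finset.sum_nonneg fun z _ => by positivity
  -- |f|^2
  have hf2 : ∑ z, ‖f z‖ ^ 2 = a + b := by
    have h1 : ∀ z, ‖f z‖ ^ 2 = ‖f' z‖ ^ 2 + 2 * inner ℝ (f z - e z) (e z) + ‖e z‖ ^ 2 := by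
      intro z
      have : f z = f' z + e z := by simp [hf']
      rw [this, norm_add_sq_real]
      simp [hf']
    rw [Finset.sum_congr rfl fun z _ => h1 z, Finset.sum_add_distrib, Finset.sum_add_distrib,
      ← Finset.mul_sum, horth]
    ring
  -- two step variation of f'
  have hv2 : ∑ i', ∑ i, ∑ z, ‖f (τ i' (τ i z)) - f z‖ ^ 2 =
      ∑ i', ∑ i, ∑ z, ‖f' (τ i' (τ i z)) - f' z‖ ^ 2 := by
    refine Finset.sum_congr rfl fun i' _ => Finset.sum_congr rfl fun i _ =>
      Finset.sum_congr rfl fun z _ => ?_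
    have : f' (τ i' (τ i z)) - f' z = f (τ i' (τ i z)) - f z := by
      simp only [hf', he, neg_neg]
      ring
    rw [this]
  have hv2' : ∑ i', ∑ i, ∑ z, ‖f' (τ i' (τ i z)) - f' z‖ ^ 2 =
      2 * n ^ 2 * a - 2 * ∑ z, ‖∑ i, f' (τ i z)‖ ^ 2 := by
    rw [← base_two_step τ inv hinv hτ f']
    have h1 : ∀ i' i, ∑ z, ‖f' (τ i' (τ i z)) - f' z‖ ^ 2 =
        2 * a - 2 * base_rip (fun z => f' (τ i' (τ i z))) f' := fun i' i =>
      base_var1 ((τ i).trans (τ i')) f'
    rw [Finset.sum_congr rfl fun i' _ => Finset.sum_congr rfl fun i _ => h1 i' i]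
    simp only [Finset.sum_sub_distrib, Finset.sum_const, Finset.card_univ, nsmul_eq_mul,
      ← Finset.mul_sum]
    rw [← hnd]
    ring
  have hT : ∑ z, ‖∑ i, f' (τ i z)‖ ^ 2 ≤ (n ^ 2 - g₁) * a := by
    rw [hv2, hv2'] at hgap
    linarith
  -- one step variation of f'
  have hv1 : ∑ i, ∑ z, ‖f' (τ i z) - f' z‖ ^ 2 =
      2 * n * a - 2 * ∑ z, inner ℝ (∑ i, f' (τ i z)) (f' z) := by
    have h1 : ∀ i, ∑ z, ‖f' (τ i z) - f' z‖ ^ 2 =
        2 * a - 2 * base_rip (fun z => f' (τ i z)) f' := fun i => base_var1 (τ i) f'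
    rw [Finset.sum_congr rfl fun i _ => h1 i]
    simp only [Finset.sum_sub_distrib, Finset.sum_const, Finset.card_univ, nsmul_eq_mul,
      ← Finset.mul_sum]
    rw [← hnd]
    have h2 : ∑ z, inner ℝ (∑ i, f' (τ i z)) (f' z) = ∑ i, base_rip (fun z => f' (τ i z)) f' := by
      unfold base_rip
      rw [Finset.sum_comm]
      exact Finset.sum_congr rfl fun z _ => sum_inner _ _ _
    rw [h2]
    ring
  have hv1' : g₁ / n * a ≤ ∑ i, ∑ z, ‖f' (τ i z) - f' z‖ ^ 2 := by
    rw [hv1]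
    have h3 : 2 * n * ∑ z, inner ℝ (∑ i, f' (τ i z)) (f' z) ≤
        ∑ z, ‖∑ i, f' (τ i z)‖ ^ 2 + n ^ 2 * a := by
      rw [ha, Finset.mul_sum, Finset.mul_sum, ← Finset.sum_add_distrib]
      refine Finset.sum_le_sum fun z _ => ?_
      have h4 : 0 ≤ ‖(∑ i, f' (τ i z)) - (n : ℝ) • f' z‖ ^ 2 := by positivity
      rw [norm_sub_sq_real, real_inner_smul_right, norm_smul, mul_pow, Real.norm_eq_abs,
        sq_abs] at h4
      linarith
    have h5 : 2 * n * ∑ z, inner ℝ (∑ i, f' (τ i z)) (f' z) ≤ (2 * n ^ 2 - g₁) * a := by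
      linarith
    have h6 : g₁ / n * a * n = g₁ * a := by field_simp
    have h7 : (g₁ / n * a) * n ≤ (2 * n * a - 2 * ∑ z, inner ℝ (∑ i, f' (τ i z)) (f' z)) * n := by
      rw [h6]
      nlinarith
    exact le_of_mul_le_mul_right h7 hn0
  -- variation of f
  have hvf : ∑ i, ∑ z, ‖f (τ i z) - f z‖ ^ 2 =
      ∑ i, ∑ z, ‖f' (τ i z) - f' z‖ ^ 2 + 4 * n * b := by
    have h1 : ∀ i, ∑ z, ‖f (τ i z) - f z‖ ^ 2 = ∑ z, ‖f' (τ i z) - f' z‖ ^ 2 + 4 * b := by
      intro i
      have h2 : ∀ z, ‖f (τ i z) - f z‖ ^ 2 = ‖f' (τ i z) - f' z‖ ^ 2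
          + 4 * inner ℝ (f' (τ i z)) (e (τ i z)) + 4 * inner ℝ (f' z) (e z) + 4 * ‖e z‖ ^ 2 := by
        intro z
        have h3 : f (τ i z) - f z = (f' (τ i z) - f' z) - (2 : ℝ) • e z := by
          simp only [hf', he]
          rw [Complex.real_smul]
          push_cast
          ring
        rw [h3, norm_sub_sq_real, real_inner_smul_right, norm_smul, he, inner_sub_left,
          inner_neg_right]
        norm_num
        ring
      rw [Finset.sum_congr rfl fun z _ => h2 z, Finset.sum_add_distrib, Finset.sum_add_distrib,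
        Finset.sum_add_distrib, ← Finset.mul_sum, ← Finset.mul_sum, ← Finset.mul_sum]
      have h4 : ∑ z, inner ℝ (f' (τ i z)) (e (τ i z)) = 0 := by
        have := Equiv.sum_comp (τ i) (fun z => inner ℝ (f' z) (e z))
        rw [this]
        exact horth
      have h5 : ∑ z, inner ℝ (f' z) (e z) = 0 := horth
      rw [h4, h5]
      ring
    rw [Finset.sum_congr rfl fun i _ => h1 i, Finset.sum_add_distrib, Finset.sum_const,
      Finset.card_univ, nsmul_eq_mul, ← hnd]
    ring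
  rw [hvf, hf2]
  have m1 := min_le_left (g₁ / (2 * n)) n
  have m2 := min_le_right (g₁ / (2 * n)) n
  set m := min (g₁ / (2 * n)) n
  have h8 : 2 * m * a ≤ g₁ / n * a := by
    have : 2 * m ≤ g₁ / n := by
      have h9 : g₁ / n = 2 * (g₁ / (2 * n)) := by field_simp
      rw [h9]
      linarith
    exact mul_le_mul_of_nonneg_right this ha0
  have h10 : 2 * m * b ≤ 4 * n * b := by
    exact mul_le_mul_of_nonneg_right (by linarith) hb0
  nlinarith

end base_abstract

/-- `tau (invB b) = (tau b)⁻¹` -/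
theorem base_tau_inv {A B : Type} {h : VH A B} {Q : Type} [Group Q] (r : Rep h Q) (b : B) :
    r.tau (h.invB b) = (r.tau b)⁻¹ := by
  have hs : h.sig (h.invB b) = (h.sig b)⁻¹ := by
    apply Subtype.ext
    show h.sigma (h.invB b) = (h.sigma b)⁻¹
    apply Equiv.ext
    intro a
    rfl
  apply Equiv.ext
  intro z
  have hz : (r.tau b)⁻¹ z = ((h.sig b)⁻¹ * z.1, (r.be b)⁻¹ * z.2) := by
    rw [Equiv.Perm.inv_eq_iff_eq]
    simp
  rw [hz, Rep.tau_apply, hs, r.be_inv]

/-- averaging over the shifts by a section -/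
theorem base_shift {S Q UM : Type} [Fintype S] [Fintype Q] [Group Q] [Fintype UM]
    (σ : UM → Q) (Ψ : S × Q → ℝ) :
    ∑ c : Q, ∑ z : S × UM, Ψ (z.1, σ z.2 * c) = (Fintype.card UM : ℝ) * ∑ z, Ψ z := by
  rw [Finset.sum_comm, Fintype.sum_prod_type, Fintype.sum_prod_type, Finset.mul_sum]
  refine Finset.sum_congr rfl fun y _ => ?_
  have h1 : ∀ g : UM, ∑ c : Q, Ψ (y, σ g * c) = ∑ x, Ψ (y, x) := fun g =>
    Equiv.sum_comp (Equiv.mulLeft (σ g)) (fun x => Ψ (y, x))
  rw [Finset.sum_congr rfl fun g _ => h1 g, Finset.sum_const, Finset.card_univ, nsmul_eq_mul]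

theorem base_proof : Stmt_base := by
  intro n g₁ hn hg₁
  refine ⟨min (g₁ / (2 * n)) n, by positivity, ?_⟩
  intro A B _ _ h hcard Q _ _ r D H UM _ _ _ rQ rM u hDn hrange hDker hu hgap
  classical
  have hBne : Nonempty B := by
    rw [← Fintype.card_pos_iff, hcard]
    exact hn
  -- rM is onto
  have hsurj : Function.Surjective rM := by
    intro g0
    by_contra hns
    set F : h.SA × UM → ℂ := fun z => if z.2 ∈ rM.range then 1 else 0 with hF
    set μ : ℂ := (∑ z, F z) / (Fintype.card (h.SA × UM) : ℂ) with hμ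
    have hcz : (Fintype.card (h.SA × UM) : ℂ) ≠ 0 := by
      have : 0 < Fintype.card (h.SA × UM) := Fintype.card_pos_iff.2 ⟨(1, 1)⟩
      exact_mod_cast this.ne'
    have hsum : ∑ z, (F z - μ) = 0 := by
      rw [Finset.sum_sub_distrib, Finset.sum_const, Finset.card_univ, nsmul_eq_mul, hμ,
        mul_div_cancel₀ _ hcz, sub_self]
    have h1 := hgap (fun z => F z - μ) hsum
    have h2 : ∑ b', ∑ b, ∑ z : h.SA × UM,
        ‖(F (h.sig b' * h.sig b * z.1, u b' b * z.2) - μ) - (F z - μ)‖ ^ 2 = 0 := by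
      refine Finset.sum_eq_zero fun b' _ => Finset.sum_eq_zero fun b _ =>
        Finset.sum_eq_zero fun z _ => ?_
      obtain ⟨γ, _, hγ⟩ := hu b' b
      have hub : u b' b ∈ rM.range := ⟨γ, hγ⟩
      have h3 : F (h.sig b' * h.sig b * z.1, u b' b * z.2) = F z := by
        simp only [hF]
        have : (u b' b * z.2 ∈ rM.range) ↔ (z.2 ∈ rM.range) := Subgroup.mul_mem_cancel_left _ hub
        by_cases hz : z.2 ∈ rM.range
        · rw [if_pos hz, if_pos (this.2 hz)]
        · rw [if_neg hz, if_neg (fun h => hz (this.1 h))]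
      rw [h3]
      simp
    rw [h2] at h1
    have h4 : ∑ z : h.SA × UM, ‖F z - μ‖ ^ 2 ≤ 0 := by
      by_contra hc
      push Not at hc
      have : 0 < 2 * g₁ * ∑ z : h.SA × UM, ‖F z - μ‖ ^ 2 := by positivity
      linarith
    have h5 : ∀ z : h.SA × UM, F z = μ := by
      intro z
      have h6 : ‖F z - μ‖ ^ 2 ≤ ∑ z : h.SA × UM, ‖F z - μ‖ ^ 2 :=
        Finset.single_le_sum (f := fun z : h.SA × UM => ‖F z - μ‖ ^ 2)
          (fun z _ => by positivity) (Finset.mem_univ z)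
      have h7 : ‖F z - μ‖ ^ 2 ≤ 0 := h6.trans h4
      have h8 : ‖F z - μ‖ = 0 := by
        have : 0 ≤ ‖F z - μ‖ := norm_nonneg _
        nlinarith
      exact sub_eq_zero.1 (norm_eq_zero.1 h8)
    have h9 := h5 (1, 1)
    have h10 := h5 (1, g0)
    rw [← h9] at h10
    simp only [hF] at h10
    rw [if_pos (Subgroup.one_mem _), if_neg (fun ⟨a, ha⟩ => hns ⟨a, ha⟩)] at h10
    exact zero_ne_one h10
  intro f hfD hzero
  obtain ⟨s, hs⟩ : ∃ s : UM → H, ∀ g, rM (s g) = g :=
    ⟨Function.surjInv hsurj, Function.surjInv_eq hsurj⟩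
  -- well-definedness
  have hwd : ∀ (γ γ' : H), rM γ = rM γ' → ∀ (y : h.SA) (c : Q),
      f (y, rQ γ' * c) = f (y, rQ γ * c) := by
    intro γ γ' hγ y c
    have h1 : rQ (γ⁻¹ * γ') ∈ D := by
      rw [hDker]
      exact ⟨γ⁻¹ * γ', by
        show rM (γ⁻¹ * γ') = 1
        rw [map_mul, map_inv, hγ, inv_mul_cancel], rfl⟩
    have h2 : c⁻¹ * rQ (γ⁻¹ * γ') * c ∈ D := by
      have := hDn.conj_mem _ h1 c⁻¹
      rwa [inv_inv] at this
    have h3 := hfD (y, rQ γ * c) _ h2
    rw [← h3]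
    congr 2
    rw [map_mul, map_inv]
    group
  set nS : ℝ := (Fintype.card h.SA : ℝ) with hnS
  set nU : ℝ := (Fintype.card UM : ℝ) with hnU
  have hnS0 : 0 < nS := by
    rw [hnS]
    exact_mod_cast Fintype.card_pos_iff.2 ⟨(1 : h.SA)⟩
  have hnU0 : 0 < nU := by
    rw [hnU]
    exact_mod_cast Fintype.card_pos_iff.2 ⟨(1 : UM)⟩
  set e : h.SA × Q → ℂ := fun z => (nS * nU)⁻¹ • ∑ y', ∑ g, f (y', rQ (s g) * z.2) with he
  have heN : ∀ z, (nS * nU) • e z = ∑ y', ∑ g, f (y', rQ (s g) * z.2) := by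
    intro z
    simp only [he]
    rw [smul_smul, mul_inv_cancel₀ (by positivity), one_smul]
  have P1 : ∀ y y' x, e (y, x) = e (y', x) := fun _ _ _ => rfl
  have P2 : ∀ (γ : H) (y y' : h.SA) (x : Q), e (y, rQ γ * x) = e (y', x) := by
    intro γ y y' x
    simp only [he]
    congr 1
    refine Finset.sum_congr rfl fun y'' _ => ?_
    have h1 : ∀ g, f (y'', rQ (s g) * (rQ γ * x)) = f (y'', rQ (s (g * rM γ)) * x) := by
      intro g
      rw [← mul_assoc, ← map_mul]
      apply hwd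
      rw [hs, map_mul, hs]
    rw [Finset.sum_congr rfl fun g _ => h1 g]
    exact Equiv.sum_comp (Equiv.mulRight (rM γ)) (fun g => f (y'', rQ (s g) * x))
  have P3 : ∀ (z z' : h.SA × Q), r.chiA z.2 = r.chiA z'.2 → r.chiB z.2 = r.chiB z'.2 →
      e z = e z' := by
    intro z z' hA hB
    have h1 : z.2 * z'.2⁻¹ ∈ rQ.range := by
      rw [hrange]
      refine ⟨?_, ?_⟩
      · show r.chiA (z.2 * z'.2⁻¹) = 1
        rw [map_mul, map_inv, hA, mul_inv_cancel]
      · show r.chiB (z.2 * z'.2⁻¹) = 1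
        rw [map_mul, map_inv, hB, mul_inv_cancel]
    obtain ⟨γ, hγ⟩ := h1
    have h2 := P2 γ z.1 z'.1 z'.2
    rw [hγ] at h2
    have h3 : z.2 * z'.2⁻¹ * z'.2 = z.2 := by group
    rw [h3] at h2
    exact h2
  have hchA : ∀ b z, r.chiA (r.tau b z).2 = r.chiA z.2 := by
    intro b z
    rw [Rep.tau_apply, map_mul, r.chiA_be, one_mul]
  have hchB : ∀ b z, r.chiB (r.tau b z).2 = -r.chiB z.2 := by
    intro b z
    rw [Rep.tau_apply, map_mul, r.chiB_be, neg_one_mul]
  have hrQA : ∀ γ, r.chiA (rQ γ) = 1 := by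
    intro γ
    have : rQ γ ∈ rQ.range := ⟨γ, rfl⟩
    rw [hrange] at this
    exact this.1
  -- the zero sum for e
  have hea : ∀ κ : ℤˣ, ∑ z, (if r.chiA z.2 = κ then e z else 0) = 0 := by
    intro κ
    have h1 : ∀ z : h.SA × Q, (if r.chiA z.2 = κ then e z else 0) =
        (nS * nU)⁻¹ • ∑ y', ∑ g,
          (if r.chiA (rQ (s g) * z.2) = κ then f (y', rQ (s g) * z.2) else 0) := by
      intro z
      have h2 : ∀ g, r.chiA (rQ (s g) * z.2) = r.chiA z.2 := by
        intro g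
        rw [map_mul, hrQA, one_mul]
      by_cases hz : r.chiA z.2 = κ
      · rw [if_pos hz]
        simp only [he]
        congr 1
        refine Finset.sum_congr rfl fun y' _ => Finset.sum_congr rfl fun g _ => ?_
        rw [if_pos ((h2 g).trans hz)]
      · rw [if_neg hz]
        have : ∑ y' : h.SA, ∑ g : UM,
            (if r.chiA (rQ (s g) * z.2) = κ then f (y', rQ (s g) * z.2) else 0) = 0 := by
          refine Finset.sum_eq_zero fun y' _ => Finset.sum_eq_zero fun g _ => ?_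
          rw [if_neg (fun h3 => hz ((h2 g).symm.trans h3))]
        rw [this, smul_zero]
    rw [Finset.sum_congr rfl fun z _ => h1 z, ← Finset.smul_sum]
    have h3 : ∑ z : h.SA × Q, ∑ y', ∑ g,
        (if r.chiA (rQ (s g) * z.2) = κ then f (y', rQ (s g) * z.2) else 0) = 0 := by
      rw [Fintype.sum_prod_type]
      refine Finset.sum_eq_zero fun y _ => ?_
      have h4 : ∑ x : Q, ∑ y' : h.SA, ∑ g : UM,
          (if r.chiA (rQ (s g) * x) = κ then f (y', rQ (s g) * x) else 0) =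
          ∑ g : UM, ∑ y' : h.SA, ∑ x : Q,
          (if r.chiA (rQ (s g) * x) = κ then f (y', rQ (s g) * x) else 0) := by
        rw [Finset.sum_comm]
        rw [Finset.sum_congr rfl fun y' _ => Finset.sum_comm]
        rw [Finset.sum_comm]
      rw [h4]
      refine Finset.sum_eq_zero fun g _ => ?_
      have h5 : ∀ y' : h.SA, ∑ x : Q,
          (if r.chiA (rQ (s g) * x) = κ then f (y', rQ (s g) * x) else 0) =
          ∑ x : Q, (if r.chiA x = κ then f (y', x) else 0) := fun y' =>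
        Equiv.sum_comp (Equiv.mulLeft (rQ (s g)))
          (fun x => if r.chiA x = κ then f (y', x) else 0)
      rw [Finset.sum_congr rfl fun y' _ => h5 y']
      have h6 := hzero κ
      rw [Fintype.sum_prod_type] at h6
      exact h6
    rw [h3, smul_zero]
  have P4 : ∀ b z, e (r.tau b z) = -e z := by
    intro b z
    set κ := r.chiA z.2 with hκ
    have hb : ∑ z', (if r.chiA z'.2 = κ then e (r.tau b z') else 0) = 0 := by
      have h0 := (Equiv.sum_comp (r.tau b)
        (fun z' => if r.chiA z'.2 = κ then e z' else 0)).trans (hea κ)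
      refine (Finset.sum_congr rfl fun z' _ => ?_).trans h0
      rw [hchA]
    have hconst : ∀ z', r.chiA z'.2 = κ → e z' + e (r.tau b z') = e z + e (r.tau b z) := by
      intro z' hz'
      rcases Int.units_eq_one_or (r.chiB z'.2 * (r.chiB z.2)⁻¹) with h1 | h1
      · have h2 : r.chiB z'.2 = r.chiB z.2 := by rwa [mul_inv_eq_one] at h1
        rw [P3 z' z hz' h2, P3 (r.tau b z') (r.tau b z) (by rw [hchA, hchA]; exact hz')
          (by rw [hchB, hchB, h2])]
      · have h2 : r.chiB z'.2 = -r.chiB z.2 := by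
          rw [mul_inv_eq_iff_eq_mul] at h1
          rw [h1, neg_one_mul]
        rw [P3 z' (r.tau b z) (by rw [hchA]; exact hz') (by rw [hchB, h2]),
          P3 (r.tau b z') z (by rw [hchA]; exact hz') (by rw [hchB, h2, neg_neg])]
        ring
    have hsum : ∑ z' : h.SA × Q,
        (if r.chiA z'.2 = κ then (e z + e (r.tau b z)) else 0) = 0 := by
      have h1 : ∀ z' : h.SA × Q, (if r.chiA z'.2 = κ then (e z + e (r.tau b z)) else 0) =
          (if r.chiA z'.2 = κ then e z' else 0) +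
            (if r.chiA z'.2 = κ then e (r.tau b z') else 0) := by
        intro z'
        by_cases hz' : r.chiA z'.2 = κ
        · rw [if_pos hz', if_pos hz', if_pos hz', hconst z' hz']
        · rw [if_neg hz', if_neg hz', if_neg hz', add_zero]
      rw [Finset.sum_congr rfl fun z' _ => h1 z', Finset.sum_add_distrib, hea, hb, add_zero]
    rw [← Finset.sum_filter, Finset.sum_const, nsmul_eq_mul] at hsum
    have hne : ((Finset.univ.filter fun z' : h.SA × Q => r.chiA z'.2 = κ).card : ℂ) ≠ 0 := by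
      have : (Finset.univ.filter fun z' : h.SA × Q => r.chiA z'.2 = κ).card ≠ 0 := by
        rw [Finset.card_ne_zero]
        exact ⟨z, by simp [hκ]⟩
      exact_mod_cast this
    rcases mul_eq_zero.1 hsum with h1 | h1
    · exact absurd h1 hne
    · exact eq_neg_of_add_eq_zero_right h1
  -- orthogonality
  have horth : ∑ z, inner ℝ (f z - e z) (e z) = 0 := by
    have h1 : (nS * nU) * ∑ z, inner ℝ (e z) (e z) = (nS * nU) * ∑ z, inner ℝ (f z) (e z) := by
      have h2 : ∀ z : h.SA × Q, (nS * nU) * inner ℝ (e z) (e z) =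
          ∑ y', ∑ g, inner ℝ (f (y', rQ (s g) * z.2)) (e (y', rQ (s g) * z.2)) := by
        intro z
        rw [← real_inner_smul_left, heN, sum_inner]
        refine Finset.sum_congr rfl fun y' _ => ?_
        rw [sum_inner]
        refine Finset.sum_congr rfl fun g _ => ?_
        rw [P2 (s g) y' z.1 z.2]
      rw [Finset.mul_sum, Finset.sum_congr rfl fun z _ => h2 z]
      have h3 : ∑ z : h.SA × Q, ∑ y', ∑ g,
          inner ℝ (f (y', rQ (s g) * z.2)) (e (y', rQ (s g) * z.2)) =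
          ∑ y : h.SA, ∑ g : UM, ∑ z : h.SA × Q, inner ℝ (f z) (e z) := by
        rw [Fintype.sum_prod_type]
        refine Finset.sum_congr rfl fun y _ => ?_
        rw [Finset.sum_comm]
        rw [Finset.sum_congr rfl fun y' _ => Finset.sum_comm]
        rw [Finset.sum_comm]
        refine Finset.sum_congr rfl fun g _ => ?_
        rw [Fintype.sum_prod_type]
        refine Finset.sum_congr rfl fun y' _ => ?_
        exact Equiv.sum_comp (Equiv.mulLeft (rQ (s g)))
          (fun x => inner ℝ (f (y', x)) (e (y', x)))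
      rw [h3]
      simp only [Finset.sum_const, Finset.card_univ, nsmul_eq_mul]
      rw [← hnS, ← hnU]
      ring
    have h4 := mul_left_cancel₀ (by positivity : nS * nU ≠ 0) h1
    have h5 : ∀ z, inner ℝ (f z - e z) (e z) = inner ℝ (f z) (e z) - inner ℝ (e z) (e z) :=
      fun z => inner_sub_left _ _ _
    rw [Finset.sum_congr rfl fun z _ => h5 z, Finset.sum_sub_distrib, h4, sub_self]
  -- the gap
  have hgap2 : 2 * g₁ * ∑ z, ‖f z - e z‖ ^ 2 ≤
      ∑ b', ∑ b, ∑ z, ‖f (r.tau b' (r.tau b z)) - f z‖ ^ 2 := by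
    have h1 : ∀ c : Q, 2 * g₁ * ∑ z : h.SA × UM,
        ‖f (z.1, rQ (s z.2) * c) - e (z.1, rQ (s z.2) * c)‖ ^ 2 ≤
        ∑ b', ∑ b, ∑ z : h.SA × UM, ‖f (r.tau b' (r.tau b (z.1, rQ (s z.2) * c))) -
          f (z.1, rQ (s z.2) * c)‖ ^ 2 := by
      intro c
      have h2 := hgap (fun z => f (z.1, rQ (s z.2) * c) - e (1, c)) (by
        rw [Finset.sum_sub_distrib, Finset.sum_const, Finset.card_univ, Fintype.card_prod,
          Fintype.sum_prod_type]
        have h3 := heN (1, c)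
        rw [← h3, sub_eq_zero, nsmul_eq_mul, Complex.real_smul]
        push_cast
        rfl)
      have h4 : ∀ z : h.SA × UM, e (z.1, rQ (s z.2) * c) = e (1, c) := fun z =>
        P2 (s z.2) z.1 1 c
      have h5 : ∀ (b' b : B) (z : h.SA × UM),
          f (h.sig b' * h.sig b * z.1, rQ (s (u b' b * z.2)) * c) =
          f (r.tau b' (r.tau b (z.1, rQ (s z.2) * c))) := by
        intro b' b z
        obtain ⟨γ, hγQ, hγM⟩ := hu b' b
        rw [Rep.tau_apply, Rep.tau_apply]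
        have h6 := hwd (γ * s z.2) (s (u b' b * z.2)) (by rw [map_mul, hs, hs, hγM])
          (h.sig b' * h.sig b * z.1) c
        rw [h6, map_mul, hγQ]
        simp only [mul_assoc]
      simp only [h5, sub_sub_sub_cancel_right] at h2
      simp only [h4]
      exact h2
    have h7 := Finset.sum_le_sum (s := (Finset.univ : Finset Q)) (fun c _ => h1 c)
    rw [← Finset.mul_sum,
      base_shift (fun g => rQ (s g)) (fun z : h.SA × Q => ‖f z - e z‖ ^ 2)] at h7
    have h8 : ∑ c : Q, ∑ b', ∑ b, ∑ z : h.SA × UM,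
        ‖f (r.tau b' (r.tau b (z.1, rQ (s z.2) * c))) - f (z.1, rQ (s z.2) * c)‖ ^ 2 =
        nU * ∑ b', ∑ b, ∑ z, ‖f (r.tau b' (r.tau b z)) - f z‖ ^ 2 := by
      rw [Finset.sum_comm, Finset.mul_sum]
      refine Finset.sum_congr rfl fun b' _ => ?_
      rw [Finset.sum_comm, Finset.mul_sum]
      refine Finset.sum_congr rfl fun b _ => ?_
      exact base_shift (fun g => rQ (s g))
        (fun z : h.SA × Q => ‖f (r.tau b' (r.tau b z)) - f z‖ ^ 2)
    rw [h8] at h7
    have h9 : nU * (2 * g₁ * ∑ z, ‖f z - e z‖ ^ 2) ≤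
        nU * ∑ b', ∑ b, ∑ z, ‖f (r.tau b' (r.tau b z)) - f z‖ ^ 2 := by
      rw [← hnU] at h7
      linarith
    exact le_of_mul_le_mul_left h9 hnU0
  have hfin := base_main r.tau h.invB h.invB_invB (base_tau_inv r) (by rw [hcard]; exact hn) g₁
    f e P4 horth hgap2
  rw [hcard] at hfin
  exact hfin

end TauQ
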