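import Mathlib
import Pool.Agent.Work.MP_972ac7_al_tau.Interface

open scoped Quaternion BigOperators

namespace TauQ

section cardSec

variable {r : ℕ} (i0 : ZMod r)

def cardA (x : ℍ[ℤ]) : ZMod r := x.re + i0 * x.imI
def cardB (x : ℍ[ℤ]) : ZMod r := x.imJ + i0 * x.imK
def cardC (x : ℍ[ℤ]) : ZMod r := -x.imJ + i0 * x.imK
def cardD (x : ℍ[ℤ]) : ZMod r := x.re - i0 * x.imI

variable (hi : i0 * i0 = -1)
include hi

lemma cardA_mul (x y : ℍ[ℤ]) : cardA i0 (x * y) = cardA i0 x * cardA i0 y + cardB i0 x * cardC i0 y := by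
  simp only [cardA, cardB, cardC, Quaternion.re_mul, Quaternion.imI_mul]
  push_cast
  linear_combination ((-(x.imI : ZMod r) * y.imI - (x.imK : ZMod r) * y.imK)) * hi

lemma cardB_mul (x y : ℍ[ℤ]) : cardB i0 (x * y) = cardA i0 x * cardB i0 y + cardB i0 x * cardD i0 y := by
  simp only [cardA, cardB, cardD, Quaternion.imJ_mul, Quaternion.imK_mul]
  push_cast
  linear_combination ((-(x.imI : ZMod r) * y.imK + (x.imK : ZMod r) * y.imI)) * hi

lemma cardC_mul (x y : ℍ[ℤ]) : cardC i0 (x * y) = cardC i0 x * cardA i0 y + cardD i0 x * cardC i0 y := by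
  simp only [cardA, cardC, cardD, Quaternion.imJ_mul, Quaternion.imK_mul]
  push_cast
  linear_combination (((x.imI : ZMod r) * y.imK - (x.imK : ZMod r) * y.imI)) * hi

lemma cardD_mul (x y : ℍ[ℤ]) : cardD i0 (x * y) = cardC i0 x * cardB i0 y + cardD i0 x * cardD i0 y := by
  simp only [cardB, cardC, cardD, Quaternion.re_mul, Quaternion.imI_mul]
  push_cast
  linear_combination ((-(x.imI : ZMod r) * y.imI - (x.imK : ZMod r) * y.imK)) * hi

lemma card_norm (x : ℍ[ℤ]) : ((Quaternion.normSq x : ℤ) : ZMod r) =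
    cardA i0 x * cardD i0 x - cardB i0 x * cardC i0 x := by
  rw [Quaternion.normSq_def']
  simp only [cardA, cardB, cardC, cardD]
  push_cast
  linear_combination ((x.imI : ZMod r) ^ 2 + (x.imK : ZMod r) ^ 2) * hi

lemma card_zero (hr : r.Prime) (hr4 : r % 4 = 1) (x : ℍ[ℤ]) (h1 : cardA i0 x = 0)
    (h2 : cardB i0 x = 0) (h3 : cardC i0 x = 0) (h4 : cardD i0 x = 0) :
    ∃ δ : ℍ[ℤ], x = (r : ℍ[ℤ]) * δ := by
  have : Fact r.Prime := ⟨hr⟩
  simp only [cardA, cardB, cardC, cardD] at h1 h2 h3 h4
  have h2' : (2 : ZMod r) ≠ 0 := by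
    intro h
    have : ((2 : ℕ) : ZMod r) = 0 := by exact_mod_cast h
    rw [ZMod.natCast_eq_zero_iff] at this
    have := Nat.le_of_dvd two_pos this
    have := hr.two_le
    omega
  have hi0 : i0 ≠ 0 := by
    rintro rfl
    rw [mul_zero] at hi
    exact (neg_ne_zero.2 one_ne_zero) hi.symm
  have e0 : (x.re : ZMod r) = 0 := by
    have : (2 : ZMod r) * x.re = 0 := by linear_combination h1 + h4
    exact (mul_eq_zero.1 this).resolve_left h2'
  have e1 : (x.imI : ZMod r) = 0 := by
    have : (2 : ZMod r) * i0 * x.imI = 0 := by linear_combination h1 - h4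
    exact (mul_eq_zero.1 this).resolve_left (mul_ne_zero h2' hi0)
  have e2 : (x.imJ : ZMod r) = 0 := by
    have : (2 : ZMod r) * x.imJ = 0 := by linear_combination h2 - h3
    exact (mul_eq_zero.1 this).resolve_left h2'
  have e3 : (x.imK : ZMod r) = 0 := by
    have : (2 : ZMod r) * i0 * x.imK = 0 := by linear_combination h2 + h3
    exact (mul_eq_zero.1 this).resolve_left (mul_ne_zero h2' hi0)
  rw [ZMod.intCast_zmod_eq_zero_iff_dvd] at e0 e1 e2 e3
  obtain ⟨a, ha⟩ := e0
  obtain ⟨b, hb⟩ := e1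
  obtain ⟨c, hc⟩ := e2
  obtain ⟨d, hd⟩ := e3
  refine ⟨mk4 a b c d, ?_⟩
  ext <;> simp [ha, hb, hc, hd]

end cardSec

lemma card_lift {r : ℕ} (i0 : ZMod r) (hi : i0 * i0 = -1) (hr : r.Prime) (hr4 : r % 4 = 1)
    (a b c d : ZMod r) : ∃ x : ℍ[ℤ], cardA i0 x = a ∧ cardB i0 x = b ∧ cardC i0 x = c ∧
      cardD i0 x = d := by
  have : Fact r.Prime := ⟨hr⟩
  have h2' : (2 : ZMod r) ≠ 0 := by
    intro h
    have : ((2 : ℕ) : ZMod r) = 0 := by exact_mod_cast h
    rw [ZMod.natCast_eq_zero_iff] at this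
    have := Nat.le_of_dvd two_pos this
    have := hr.two_le
    omega
  obtain ⟨x0, h0⟩ := ZMod.intCast_surjective ((a + d) / 2)
  obtain ⟨x1, h1⟩ := ZMod.intCast_surjective (-i0 * (a - d) / 2)
  obtain ⟨x2, h2⟩ := ZMod.intCast_surjective ((b - c) / 2)
  obtain ⟨x3, h3⟩ := ZMod.intCast_surjective (-i0 * (b + c) / 2)
  refine ⟨mk4 x0 x1 x2 x3, ?_, ?_, ?_, ?_⟩
  · simp only [cardA, mk4_re, mk4_imI, h0, h1]
    field_simp
    linear_combination (-(a - d)) * hi
  · simp only [cardB, mk4_imJ, mk4_imK, h2, h3]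
    field_simp
    linear_combination (-(b + c)) * hi
  · simp only [cardC, mk4_imJ, mk4_imK, h2, h3]
    field_simp
    linear_combination (-(b + c)) * hi
  · simp only [cardD, mk4_re, mk4_imI, h0, h1]
    field_simp
    linear_combination ((a - d)) * hi

theorem card_proof (hex : Stmt_exists) (hun : Stmt_unique) : Stmt_card := by
  classical
  intro r hr hr4
  have : Fact r.Prime := ⟨hr⟩
  have hsq : IsSquare (-1 : ZMod r) := (ZMod.exists_sq_eq_neg_one_iff).2 (by omega)
  obtain ⟨i0, hi0⟩ := hsq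
  have hi : i0 * i0 = -1 := hi0.symm
  let Φ : SS r → Option (ZMod r) := fun β =>
    if cardA i0 β.val = 0 ∧ cardB i0 β.val = 0 then none
    else some (if cardA i0 β.val ≠ 0 then cardC i0 β.val / cardA i0 β.val
      else cardD i0 β.val / cardB i0 β.val)
  have hdet : ∀ β : SS r, cardA i0 β.val * cardD i0 β.val = cardB i0 β.val * cardC i0 β.val := by
    intro β
    have := card_norm i0 hi β.val
    rw [β.norm] at this
    have h0 : (((r : ℤ)) : ZMod r) = 0 := by simp
    rw [h0] at this
    linear_combination -this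
  have hsome : ∀ (β : SS r) (t : ZMod r), Φ β = some t →
      cardC i0 β.val = cardA i0 β.val * t ∧ cardD i0 β.val = cardB i0 β.val * t := by
    intro β t h
    simp only [Φ] at h
    split_ifs at h with h1 h2
    · have ht := Option.some.inj h
      have e1 : cardC i0 β.val = cardA i0 β.val * t := by rw [← ht]; field_simp
      refine ⟨e1, ?_⟩
      have := hdet β
      have h3 : cardA i0 β.val * (cardD i0 β.val - cardB i0 β.val * t) = 0 := by
        linear_combination this + cardB i0 β.val * e1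
      have := (mul_eq_zero.1 h3).resolve_left h2
      linear_combination this
    · have ht := Option.some.inj h
      push Not at h2
      have hB : cardB i0 β.val ≠ 0 := fun hB => h1 ⟨h2, hB⟩
      have e1 : cardD i0 β.val = cardB i0 β.val * t := by rw [← ht]; field_simp
      refine ⟨?_, e1⟩
      have := hdet β
      rw [h2, zero_mul] at this
      have := (mul_eq_zero.1 this.symm).resolve_left hB
      rw [this, h2, zero_mul]
  have hnone : ∀ (β : SS r), Φ β = none → cardA i0 β.val = 0 ∧ cardB i0 β.val = 0 := by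
    intro β h
    simp only [Φ] at h
    split_ifs at h with h1
    exact h1
  have hinj : Function.Injective Φ := by
    intro β β' h
    refine (hun r hr hr4).1 β β' ?_
    have sA : cardA i0 (star β'.val) = cardD i0 β'.val := by simp [cardA, cardD]; ring
    have sB : cardB i0 (star β'.val) = - cardB i0 β'.val := by simp [cardB]; ring
    have sC : cardC i0 (star β'.val) = - cardC i0 β'.val := by simp [cardC]; ring
    have sD : cardD i0 (star β'.val) = cardA i0 β'.val := by simp [cardA, cardD]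
    rcases hΦ : Φ β with _ | t
    · obtain ⟨a1, a2⟩ := hnone β hΦ
      obtain ⟨b1, b2⟩ := hnone β' (by rw [← h, hΦ])
      apply card_zero i0 hi hr hr4
      · rw [cardA_mul i0 hi, sA, sB, a1, b2]; ring
      · rw [cardB_mul i0 hi, sA, sB, a2, b2]; ring
      · rw [cardC_mul i0 hi, sC, sD, a1, b1]; ring
      · rw [cardD_mul i0 hi, sC, sD, a2, b1]; ring
    · obtain ⟨a1, a2⟩ := hsome β t hΦ
      obtain ⟨b1, b2⟩ := hsome β' t (by rw [← h, hΦ])
      apply card_zero i0 hi hr hr4
      · rw [cardA_mul i0 hi, sA, sB, a1, b2]; ring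
      · rw [cardB_mul i0 hi, sA, sB, a2, b2]; ring
      · rw [cardC_mul i0 hi, sC, sD, a1, b1]; ring
      · rw [cardD_mul i0 hi, sC, sD, a2, b1]; ring
  have hsurj : Function.Surjective Φ := by
    intro o
    rcases o with _ | t
    · obtain ⟨x, xa, xb, xc, xd⟩ := card_lift i0 hi hr hr4 0 0 1 0
      obtain ⟨β, γ, hβ⟩ := hex r hr hr4 x (by
        intro γ hγ
        have : cardC i0 x = 0 := by
          rw [hγ]; simp [cardC]
        rw [xc] at this
        exact one_ne_zero this) (by
        rw [← ZMod.intCast_zmod_eq_zero_iff_dvd, card_norm i0 hi, xa, xb]; ring)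
      refine ⟨β, ?_⟩
      rcases hΦ : Φ β with _ | t
      · rfl
      · exfalso
        obtain ⟨a1, a2⟩ := hsome β t hΦ
        rw [hβ, cardA_mul i0 hi] at xa
        rw [hβ, cardC_mul i0 hi, a1, a2] at xc
        have : (1 : ZMod r) = 0 := by rw [← xc]; linear_combination t * xa
        exact one_ne_zero this
    · obtain ⟨x, xa, xb, xc, xd⟩ := card_lift i0 hi hr hr4 1 0 t 0
      obtain ⟨β, γ, hβ⟩ := hex r hr hr4 x (by
        intro γ hγ
        have : cardA i0 x = 0 := by
          rw [hγ]; simp [cardA]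
        rw [xa] at this
        exact one_ne_zero this) (by
        rw [← ZMod.intCast_zmod_eq_zero_iff_dvd, card_norm i0 hi, xd, xb]; ring)
      refine ⟨β, ?_⟩
      rcases hΦ : Φ β with _ | t'
      · exfalso
        obtain ⟨a1, a2⟩ := hnone β hΦ
        rw [hβ, cardA_mul i0 hi, a1, a2] at xa
        have : (1 : ZMod r) = 0 := by rw [← xa]; ring
        exact one_ne_zero this
      · obtain ⟨a1, a2⟩ := hsome β t' hΦ
        rw [hβ, cardA_mul i0 hi] at xa
        rw [hβ, cardC_mul i0 hi, a1, a2] at xc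
        congr 1
        rw [← xc]
        linear_combination (-t') * xa
  have := Fintype.card_of_bijective ⟨hinj, hsurj⟩
  rw [this, Fintype.card_option, ZMod.card]

end TauQ
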