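import Mathlib
import Pool.Agent.Work.MP_972ac7_al_tau.Interface

/-! Block `cardU`: the norm one group of `H(Z/M)` has at most `M ^ 3` elements (helper44). -/

open scoped Quaternion BigOperators

namespace TauQ

theorem cardU_proof (hiso : Stmt_iso) : Stmt_cardU := by
  intro M _ hM
  classical
  obtain ⟨φ, hφ⟩ := hiso M hM
  have hsol : ∀ ab : ZMod M × ZMod M, ∃ cd : ZMod M × ZMod M,
      (∃ cd' : ZMod M × ZMod M, ab.1 * cd'.2 - ab.2 * cd'.1 = 1) →
        ab.1 * cd.2 - ab.2 * cd.1 = 1 := by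
    intro ab
    by_cases h : ∃ cd' : ZMod M × ZMod M, ab.1 * cd'.2 - ab.2 * cd'.1 = 1
    · exact ⟨h.choose, fun _ => h.choose_spec⟩
    · exact ⟨0, fun h' => absurd h' h⟩
  choose c hc using hsol
  let f : unitary ℍ[ZMod M] → ZMod M × ZMod M × ZMod M := fun x =>
    (φ x 0 0, φ x 0 1,
      (c (φ x 0 0, φ x 0 1)).2 * (φ x 1 0 - (c (φ x 0 0, φ x 0 1)).1) -
        (c (φ x 0 0, φ x 0 1)).1 * (φ x 1 1 - (c (φ x 0 0, φ x 0 1)).2))
  have hdet : ∀ x : unitary ℍ[ZMod M], φ x 0 0 * φ x 1 1 - φ x 0 1 * φ x 1 0 = 1 := by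
    intro x
    rw [← Matrix.det_fin_two, hφ]
    exact (mem_unitary_iff _).1 x.2
  have hinj : Function.Injective f := by
    intro x y hxy
    simp only [f, Prod.mk.injEq] at hxy
    obtain ⟨h0, h1, h2⟩ := hxy
    have hx := hdet x
    have hy := hdet y
    rw [← h0, ← h1] at h2 hy
    have hs := hc (φ x 0 0, φ x 0 1) ⟨(φ x 1 0, φ x 1 1), hx⟩
    set a := φ (x : ℍ[ZMod M]) 0 0
    set b := φ (x : ℍ[ZMod M]) 0 1
    simp only at hs
    set c0 := (c (a, b)).1
    set d0 := (c (a, b)).2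
    set cx := φ (x : ℍ[ZMod M]) 1 0
    set dx := φ (x : ℍ[ZMod M]) 1 1
    set cy := φ (y : ℍ[ZMod M]) 1 0
    set dy := φ (y : ℍ[ZMod M]) 1 1
    have e1 : cx - c0 = (d0 * (cx - c0) - c0 * (dx - d0)) * a := by
      linear_combination (-cx + c0) * hs + c0 * hx - c0 * hs
    have e2 : cy - c0 = (d0 * (cy - c0) - c0 * (dy - d0)) * a := by
      linear_combination (-cy + c0) * hs + c0 * hy - c0 * hs
    have e3 : dx - d0 = (d0 * (cx - c0) - c0 * (dx - d0)) * b := by
      linear_combination (-dx + d0) * hs + d0 * hx - d0 * hs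
    have e4 : dy - d0 = (d0 * (cy - c0) - c0 * (dy - d0)) * b := by
      linear_combination (-dy + d0) * hs + d0 * hy - d0 * hs
    have k1 : cx = cy := by
      have : cx - c0 = cy - c0 := by rw [e1, e2, h2]
      linear_combination this
    have k2 : dx = dy := by
      have : dx - d0 = dy - d0 := by rw [e3, e4, h2]
      linear_combination this
    apply Subtype.ext
    apply φ.injective
    ext i j
    fin_cases i <;> fin_cases j
    · exact h0
    · exact h1
    · exact k1
    · exact k2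
  calc Fintype.card (unitary ℍ[ZMod M]) ≤ Fintype.card (ZMod M × ZMod M × ZMod M) :=
        Fintype.card_le_of_injective f hinj
    _ = M ^ 3 := by
        rw [Fintype.card_prod, Fintype.card_prod, ZMod.card]
        ring

end TauQ
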