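import Mathlib
import Pool.Agent.Work.MP_972ac7_al_tau.Interface

/-! # Block N7: quaternions congruent to scalars -/

open scoped Quaternion BigOperators

namespace TauQ

theorem count_abs {x : ℤ} {B : ℕ} (h : x ^ 2 ≤ (B : ℤ) ^ 2) : x ∈ Set.Icc (-(B : ℤ)) B := by
  have h1 := sq_le_sq.1 h
  rw [Nat.abs_cast] at h1
  exact abs_le.1 h1

theorem count_card {α : Type*} (P : α → Prop) (h : {x | P x}.Finite) :
    Nat.card {x // P x} = h.toFinset.card :=
  (Nat.card_coe_set_eq {x | P x}).trans (Set.ncard_eq_toFinset_card _ h)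

theorem count_fin3 (n : ℕ) :
    {x : ℤ × ℤ × ℤ | x.1 ^ 2 + x.2.1 ^ 2 + x.2.2 ^ 2 = (n : ℤ)}.Finite := by
  have hfin : ((Set.Icc (-(n : ℤ)) n) ×ˢ ((Set.Icc (-(n : ℤ)) n) ×ˢ (Set.Icc (-(n : ℤ)) n)) :
      Set (ℤ × ℤ × ℤ)).Finite :=
    (Set.finite_Icc _ _).prod ((Set.finite_Icc _ _).prod (Set.finite_Icc _ _))
  refine hfin.subset fun x hx => ?_
  have h0 : x.1 ^ 2 + x.2.1 ^ 2 + x.2.2 ^ 2 = (n : ℤ) := hx
  have hn : (n : ℤ) ≤ (n : ℤ) ^ 2 := by
    rcases Nat.eq_zero_or_pos n with h | h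
    · simp [h]
    · have : (1 : ℤ) ≤ n := by exact_mod_cast h
      nlinarith
  have h1 := sq_nonneg x.1
  have h2 := sq_nonneg x.2.1
  have h3 := sq_nonneg x.2.2
  exact ⟨count_abs (by linarith), count_abs (by linarith), count_abs (by linarith)⟩

theorem count_finX (Y M : ℕ) :
    {x : ℤ | x ^ 2 ≤ (Y : ℤ) ^ 2 ∧ ((M : ℤ) ^ 2) ∣ (Y : ℤ) ^ 2 - x ^ 2}.Finite :=
  (Set.finite_Icc (-(Y : ℤ)) Y).subset fun _ hx => count_abs hx.1

theorem count_finS (Y M : ℕ) :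
    {α : ℍ[ℤ] | Quaternion.normSq α = (Y : ℤ) ^ 2 ∧ (M : ℤ) ∣ α.imI ∧ (M : ℤ) ∣ α.imJ ∧
      (M : ℤ) ∣ α.imK}.Finite := by
  have hfin : ((Set.Icc (-(Y : ℤ)) Y) ×ˢ ((Set.Icc (-(Y : ℤ)) Y) ×ˢ
      ((Set.Icc (-(Y : ℤ)) Y) ×ˢ (Set.Icc (-(Y : ℤ)) Y))) : Set (ℤ × ℤ × ℤ × ℤ)).Finite :=
    (Set.finite_Icc _ _).prod ((Set.finite_Icc _ _).prod
      ((Set.finite_Icc _ _).prod (Set.finite_Icc _ _)))
  refine (hfin.preimage (f := fun α : ℍ[ℤ] => (α.re, α.imI, α.imJ, α.imK))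
    (Function.Injective.injOn ?_)).subset fun α hα => ?_
  · intro α β h
    simp only [Prod.mk.injEq] at h
    exact Quaternion.ext _ _ h.1 h.2.1 h.2.2.1 h.2.2.2
  · have h0 := hα.1
    rw [Quaternion.normSq_def'] at h0
    have h1 := sq_nonneg α.re
    have h2 := sq_nonneg α.imI
    have h3 := sq_nonneg α.imJ
    have h4 := sq_nonneg α.imK
    exact ⟨count_abs (by linarith), count_abs (by linarith), count_abs (by linarith),
      count_abs (by linarith)⟩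

/-- the main count, with `Y` for `q ^ t` -/
theorem count_main {ε C1 C2 : ℝ} (hε : 0 < ε) (hC1 : 0 < C1) (hC2 : 0 < C2)
    (hr3 : ∀ n : ℕ, 0 < n →
    (Nat.card {x : ℤ × ℤ × ℤ // x.1 ^ 2 + x.2.1 ^ 2 + x.2.2 ^ 2 = (n : ℤ)} : ℝ) ≤
      C1 * (n : ℝ) ^ (1 / 2 + ε))
    (hdiv : ∀ m : ℕ, 0 < m → (m.divisors.card : ℝ) ≤ C2 * (m : ℝ) ^ ε)
    (hx0 : Stmt_x0) {Y M : ℕ} (hY : 0 < Y) (hM : 0 < M) (hc : Nat.Coprime M (2 * Y)) :
    (Nat.card {α : ℍ[ℤ] // Quaternion.normSq α = (Y : ℤ) ^ 2 ∧ (M : ℤ) ∣ α.imI ∧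
      (M : ℤ) ∣ α.imJ ∧ (M : ℤ) ∣ α.imK} : ℝ) ≤
      2 + 2 * C1 * C2 * ((Y : ℝ) / (M : ℝ) ^ 2 + 1) * ((Y : ℝ) / M) * (Y : ℝ) ^ (4 * ε) := by
  classical
  have hYr : (1 : ℝ) ≤ Y := by exact_mod_cast hY
  have hMr : (1 : ℝ) ≤ M := by exact_mod_cast hM
  have hM0 : (0 : ℝ) < M := by linarith
  have hMz : (M : ℤ) ≠ 0 := by exact_mod_cast hM.ne'
  -- the finset
  rw [count_card _ (count_finS Y M)]
  set S : Finset ℍ[ℤ] := (count_finS Y M).toFinset with hS
  have hmemS : ∀ α, α ∈ S ↔ (Quaternion.normSq α = (Y : ℤ) ^ 2 ∧ (M : ℤ) ∣ α.imI ∧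
      (M : ℤ) ∣ α.imJ ∧ (M : ℤ) ∣ α.imK) := fun α => by
    rw [hS, Set.Finite.mem_toFinset]
    rfl
  have hsplit := Finset.card_filter_add_card_filter_not (s := S) (fun α => α.re ^ 2 = (Y : ℤ) ^ 2)
  set S1 := S.filter (fun α => α.re ^ 2 = (Y : ℤ) ^ 2) with hS1
  set S2 := S.filter (fun α => ¬ α.re ^ 2 = (Y : ℤ) ^ 2) with hS2
  have h1 : S1.card ≤ 2 := by
    have hsub : S1 ⊆ {mk4 (Y : ℤ) 0 0 0, mk4 (-(Y : ℤ)) 0 0 0} := by
      intro α hα
      rw [hS1, Finset.mem_filter, hmemS] at hα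
      obtain ⟨⟨h0, -⟩, h2⟩ := hα
      rw [Quaternion.normSq_def'] at h0
      have hI := sq_nonneg α.imI
      have hJ := sq_nonneg α.imJ
      have hK := sq_nonneg α.imK
      have hI0 : α.imI = 0 := pow_eq_zero_iff (two_ne_zero) |>.1 (by linarith)
      have hJ0 : α.imJ = 0 := pow_eq_zero_iff (two_ne_zero) |>.1 (by linarith)
      have hK0 : α.imK = 0 := pow_eq_zero_iff (two_ne_zero) |>.1 (by linarith)
      rw [Finset.mem_insert, Finset.mem_singleton]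
      rcases sq_eq_sq_iff_eq_or_eq_neg.1 h2 with h3 | h3
      · left
        exact Quaternion.ext _ _ h3 hI0 hJ0 hK0
      · right
        exact Quaternion.ext _ _ h3 hI0 hJ0 hK0
    exact (Finset.card_le_card hsub).trans Finset.card_le_two
  have h1r : (S1.card : ℝ) ≤ 2 := by exact_mod_cast h1
  have hcardr : (S.card : ℝ) = S1.card + S2.card := by exact_mod_cast hsplit.symm
  rcases Finset.eq_empty_or_nonempty S2 with he | ⟨α0, hα0⟩
  · rw [he, Finset.card_empty, Nat.cast_zero, add_zero] at hcardr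
    have : 0 ≤ 2 * C1 * C2 * ((Y : ℝ) / (M : ℝ) ^ 2 + 1) * ((Y : ℝ) / M) * (Y : ℝ) ^ (4 * ε) := by
      positivity
    linarith
  -- M ≤ Y
  have hlt : ∀ α ∈ S2, α.re ^ 2 < (Y : ℤ) ^ 2 := by
    intro α hα
    rw [hS2, Finset.mem_filter, hmemS, Quaternion.normSq_def'] at hα
    have hI := sq_nonneg α.imI
    have hJ := sq_nonneg α.imJ
    have hK := sq_nonneg α.imK
    exact lt_of_le_of_ne (by linarith [hα.1.1]) hα.2
  have hdvd : ∀ α ∈ S, ((M : ℤ) ^ 2) ∣ (Y : ℤ) ^ 2 - α.re ^ 2 := by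
    intro α hα
    rw [hmemS, Quaternion.normSq_def'] at hα
    obtain ⟨h0, ⟨a, ha⟩, ⟨b, hb⟩, ⟨c, hc⟩⟩ := hα
    refine ⟨a ^ 2 + b ^ 2 + c ^ 2, ?_⟩
    rw [← h0, ha, hb, hc]
    ring
  have hMY : (M : ℝ) ≤ Y := by
    have h2 := hlt α0 hα0
    have h3 := hdvd α0 (Finset.mem_filter.1 hα0).1
    have h4 : (M : ℤ) ^ 2 ≤ (Y : ℤ) ^ 2 - α0.re ^ 2 := Int.le_of_dvd (by linarith) h3
    have h5 : (M : ℤ) ^ 2 ≤ (Y : ℤ) ^ 2 := by linarith [sq_nonneg α0.re]
    have h6 : (M : ℤ) ≤ Y := by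
      have h7 := sq_le_sq.1 h5
      rwa [Nat.abs_cast, Nat.abs_cast] at h7
    exact_mod_cast h6
  -- the fibres
  set Bd : ℝ := C1 * ((Y : ℝ) / M) ^ (1 + 2 * ε) with hBd
  have hBd0 : 0 ≤ Bd := by positivity
  set n0 := ⌊Bd⌋₊ with hn0
  set X := (count_finX Y M).toFinset with hX
  have h2 : S2.card ≤ n0 * X.card := by
    refine Finset.card_le_mul_card_image_of_maps_to (f := fun α : ℍ[ℤ] => α.re) ?_ n0 ?_
    · intro α hα
      rw [hX, Set.Finite.mem_toFinset]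
      exact ⟨(hlt α hα).le, hdvd α (Finset.mem_filter.1 hα).1⟩
    · intro b hb
      rw [hX, Set.Finite.mem_toFinset] at hb
      obtain ⟨hb1, k, hk⟩ := hb
      rcases eq_or_lt_of_le hb1 with hb2 | hb2
      · have : S2.filter (fun α => α.re = b) = ∅ := by
          rw [Finset.filter_eq_empty_iff]
          intro α hα h
          have := hlt α hα
          rw [h, hb2] at this
          exact lt_irrefl _ this
        rw [this, Finset.card_empty]
        exact Nat.zero_le _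
      · have hMsq : (0 : ℤ) < (M : ℤ) ^ 2 := by positivity
        have hk0 : 0 < k := by
          by_contra hcon
          push Not at hcon
          have : (M : ℤ) ^ 2 * k ≤ 0 := mul_nonpos_of_nonneg_of_nonpos hMsq.le hcon
          linarith
        obtain ⟨m, rfl⟩ := Int.eq_ofNat_of_zero_le hk0.le
        have hm0 : 0 < m := by exact_mod_cast hk0
        rw [hn0]
        apply Nat.le_floor
        have hcard : (S2.filter (fun α => α.re = b)).card ≤ (count_fin3 m).toFinset.card := by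
          refine Finset.card_le_card_of_injOn
            (fun α => (α.imI / (M : ℤ), α.imJ / (M : ℤ), α.imK / (M : ℤ))) ?_ ?_
          · intro α hα
            rw [Finset.mem_coe, Finset.mem_filter] at hα
            obtain ⟨hα1, hα2⟩ := hα
            have hα3 := (hmemS α).1 (Finset.mem_filter.1 hα1).1
            rw [Quaternion.normSq_def'] at hα3
            obtain ⟨h0, ⟨x, hx⟩, ⟨y, hy⟩, ⟨z, hz⟩⟩ := hα3
            rw [Finset.mem_coe, Set.Finite.mem_toFinset]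
            show (α.imI / (M : ℤ)) ^ 2 + (α.imJ / (M : ℤ)) ^ 2 + (α.imK / (M : ℤ)) ^ 2 = (m : ℤ)
            rw [hx, hy, hz, Int.mul_ediv_cancel_left _ hMz, Int.mul_ediv_cancel_left _ hMz,
              Int.mul_ediv_cancel_left _ hMz]
            apply mul_left_cancel₀ hMsq.ne'
            rw [hx, hy, hz, hα2] at h0
            linear_combination h0 + hk
          · intro α hα β hβ h
            rw [Finset.mem_coe, Finset.mem_filter] at hα hβ
            obtain ⟨-, ⟨x, hx⟩, ⟨y, hy⟩, ⟨z, hz⟩⟩ := (hmemS α).1 (Finset.mem_filter.1 hα.1).1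
            obtain ⟨-, ⟨x', hx'⟩, ⟨y', hy'⟩, ⟨z', hz'⟩⟩ :=
              (hmemS β).1 (Finset.mem_filter.1 hβ.1).1
            simp only [Prod.mk.injEq] at h
            obtain ⟨e1, e2, e3⟩ := h
            rw [hx, hx', Int.mul_ediv_cancel_left _ hMz, Int.mul_ediv_cancel_left _ hMz] at e1
            rw [hy, hy', Int.mul_ediv_cancel_left _ hMz, Int.mul_ediv_cancel_left _ hMz] at e2
            rw [hz, hz', Int.mul_ediv_cancel_left _ hMz, Int.mul_ediv_cancel_left _ hMz] at e3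
            exact Quaternion.ext _ _ (hα.2.trans hβ.2.symm) (by rw [hx, hx', e1])
              (by rw [hy, hy', e2]) (by rw [hz, hz', e3])
        have hr := hr3 m hm0
        rw [count_card _ (count_fin3 m)] at hr
        have hcardr : ((S2.filter (fun α => α.re = b)).card : ℝ) ≤
            (count_fin3 m).toFinset.card := by exact_mod_cast hcard
        refine (hcardr.trans hr).trans ?_
        rw [hBd]
        refine mul_le_mul_of_nonneg_left ?_ hC1.le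
        have hm1 : (m : ℝ) ≤ ((Y : ℝ) / M) ^ 2 := by
          rw [div_pow, le_div_iff₀ (by positivity)]
          have h7 : (m : ℤ) * (M : ℤ) ^ 2 ≤ (Y : ℤ) ^ 2 := by
            have := sq_nonneg b
            linarith
          exact_mod_cast h7
        have e1 : ((Y : ℝ) / M) ^ (1 + 2 * ε) = (((Y : ℝ) / M) ^ 2) ^ (1 / 2 + ε) := by
          rw [← Real.rpow_natCast, ← Real.rpow_mul (by positivity)]
          congr 1
          push_cast
          ring
        rw [e1]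
        exact Real.rpow_le_rpow (by positivity) hm1 (by positivity)
  have h2r : (S2.card : ℝ) ≤ Bd * X.card := by
    have h3 : (S2.card : ℝ) ≤ (n0 : ℝ) * X.card := by exact_mod_cast h2
    have h4 : (n0 : ℝ) ≤ Bd := Nat.floor_le hBd0
    exact h3.trans (mul_le_mul_of_nonneg_right h4 (Nat.cast_nonneg _))
  have hXc : (X.card : ℝ) ≤ C2 * (Y : ℝ) ^ (2 * ε) * (2 * ((Y : ℝ) / (M : ℝ) ^ 2 + 1)) := by
    have h3 := hx0 Y M hY hM hc
    rw [count_card _ (count_finX Y M)] at h3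
    refine h3.trans ?_
    have h4 := hdiv (M ^ 2) (by positivity)
    have h5 : ((M ^ 2 : ℕ) : ℝ) ^ ε ≤ (Y : ℝ) ^ (2 * ε) := by
      push_cast
      rw [← Real.rpow_natCast, ← Real.rpow_mul hM0.le]
      push_cast
      exact Real.rpow_le_rpow hM0.le hMY (by positivity)
    have h6 : ((M ^ 2).divisors.card : ℝ) ≤ C2 * (Y : ℝ) ^ (2 * ε) :=
      h4.trans (mul_le_mul_of_nonneg_left h5 hC2.le)
    have h7 : 2 * (Y : ℝ) / (M : ℝ) ^ 2 + 1 ≤ 2 * ((Y : ℝ) / (M : ℝ) ^ 2 + 1) := by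
      rw [mul_div_assoc]
      linarith
    exact mul_le_mul h6 h7 (by positivity) (by positivity)
  have hB2 : Bd ≤ C1 * (((Y : ℝ) / M) * (Y : ℝ) ^ (2 * ε)) := by
    rw [hBd]
    refine mul_le_mul_of_nonneg_left ?_ hC1.le
    rw [Real.rpow_add (by positivity), Real.rpow_one]
    refine mul_le_mul_of_nonneg_left ?_ (by positivity)
    refine Real.rpow_le_rpow (by positivity) ?_ (by positivity)
    exact div_le_self (by linarith) hMr
  have e4 : (Y : ℝ) ^ (4 * ε) = (Y : ℝ) ^ (2 * ε) * (Y : ℝ) ^ (2 * ε) := by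
    rw [← Real.rpow_add (by linarith)]
    congr 1
    ring
  have h8 : Bd * X.card ≤ (C1 * (((Y : ℝ) / M) * (Y : ℝ) ^ (2 * ε))) *
      (C2 * (Y : ℝ) ^ (2 * ε) * (2 * ((Y : ℝ) / (M : ℝ) ^ 2 + 1))) :=
    mul_le_mul hB2 hXc (Nat.cast_nonneg _) (by positivity)
  rw [hcardr, e4]
  calc (S1.card : ℝ) + S2.card ≤ 2 + Bd * X.card := by linarith
    _ ≤ 2 + (C1 * (((Y : ℝ) / M) * (Y : ℝ) ^ (2 * ε))) *
      (C2 * (Y : ℝ) ^ (2 * ε) * (2 * ((Y : ℝ) / (M : ℝ) ^ 2 + 1))) := by linarith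
    _ = _ := by ring

theorem count_proof (hr3 : Stmt_r3) (hx0 : Stmt_x0) (hdiv : Stmt_div) : Stmt_count := by
  intro η hη
  obtain ⟨C1, hC1, h1⟩ := hr3 (η / 4) (by positivity)
  obtain ⟨C2, hC2, h2⟩ := hdiv.1 (η / 4) (by positivity)
  refine ⟨2 * C1 * C2, by positivity, fun q M t hq hM hc => ?_⟩
  have hY : 0 < q ^ t := by positivity
  have hc' : Nat.Coprime M (2 * q ^ t) := by
    have h2 : Nat.Coprime M 2 := Nat.Coprime.coprime_mul_right_right hc
    have h3 : Nat.Coprime M q := Nat.Coprime.coprime_mul_left_right hc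
    exact Nat.Coprime.mul_right h2 (Nat.Coprime.pow_right t h3)
  have h := count_main (ε := η / 4) (by positivity) hC1 hC2 h1 h2 hx0 hY hM hc'
  have e1 : 4 * (η / 4) = η := by ring
  rw [e1] at h
  push_cast at h
  have e2 : ((q : ℤ) ^ t) ^ 2 = (q : ℤ) ^ (2 * t) := by
    rw [← pow_mul, mul_comm]
  rw [e2] at h
  exact h

end TauQ
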