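import Mathlib
import Pool.Agent.Work.MP_972ac7_al_tau.Interface

/-!
# MP_972ac7_al: block `div` (helper22): the divisor bound
-/

set_option autoImplicit false

namespace TauQ

open Finset

/-- divisor bound -/
theorem div_bound (δ : ℝ) (hδ : 0 < δ) : ∃ T : ℝ, 1 ≤ T ∧ ∀ n : ℕ, n ≠ 0 →
    ((n.divisors.card : ℕ) : ℝ) ≤ T * (n : ℝ) ^ δ := by
  have hl2 : 0 < Real.log 2 := Real.log_pos (by norm_num)
  set P0 : ℕ := ⌈(2 : ℝ) ^ (1 / δ)⌉₊ with hP0
  set K : ℝ := max 1 (1 / (δ * Real.log 2)) with hK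
  have hK1 : 1 ≤ K := le_max_left _ _
  refine ⟨K ^ P0, one_le_pow₀ hK1, ?_⟩
  intro n hn
  have hterm : ∀ p ∈ n.primeFactors, (((n.factorization p + 1 : ℕ) : ℝ)) ≤
      (if p < P0 then K else 1) * ((p : ℝ) ^ (n.factorization p)) ^ δ := by
    intro p hp
    have hpp := Nat.prime_of_mem_primeFactors hp
    have hp2 : (2 : ℝ) ≤ p := by exact_mod_cast hpp.two_le
    set a := n.factorization p with ha
    have hswap : ((p : ℝ) ^ a) ^ δ = ((p : ℝ) ^ δ) ^ a := by
      rw [← Real.rpow_natCast, ← Real.rpow_natCast, ← Real.rpow_mul (by linarith),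
        ← Real.rpow_mul (by linarith), mul_comm]
    by_cases hpt : p < P0
    · rw [if_pos hpt]
      have h1 : (1 : ℝ) + δ * Real.log 2 * a ≤ ((p : ℝ) ^ a) ^ δ := by
        have h2 : (2 : ℝ) ^ δ ≤ (p : ℝ) ^ δ := Real.rpow_le_rpow (by norm_num) hp2 hδ.le
        have h3 : ((2 : ℝ) ^ δ) ^ a ≤ ((p : ℝ) ^ δ) ^ a := pow_le_pow_left₀ (by positivity) h2 a
        rw [hswap]
        refine le_trans ?_ h3
        rw [Real.rpow_def_of_pos (by norm_num), ← Real.exp_nat_mul]
        have := Real.add_one_le_exp ((a : ℝ) * (Real.log 2 * δ))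
        linarith
      push_cast
      have h4 : K * (1 + δ * Real.log 2 * a) ≤ K * ((p : ℝ) ^ a) ^ δ :=
        mul_le_mul_of_nonneg_left h1 (by linarith)
      refine le_trans ?_ h4
      have h5 : 1 ≤ K * (δ * Real.log 2) := by
        have h6 : 1 / (δ * Real.log 2) ≤ K := le_max_right _ _
        rwa [div_le_iff₀ (by positivity)] at h6
      have h7 : (0 : ℝ) ≤ a := by positivity
      nlinarith
    · rw [if_neg hpt, one_mul, hswap]
      have h1 : (2 : ℝ) ≤ (p : ℝ) ^ δ := by
        have h2 : (2 : ℝ) ^ (1 / δ) ≤ p := by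
          refine (Nat.le_ceil _).trans ?_
          exact_mod_cast (not_lt.mp hpt)
        calc (2 : ℝ) = ((2 : ℝ) ^ (1 / δ)) ^ δ := by
              rw [← Real.rpow_mul (by norm_num), one_div_mul_cancel hδ.ne', Real.rpow_one]
          _ ≤ (p : ℝ) ^ δ := Real.rpow_le_rpow (by positivity) h2 hδ.le
      calc ((a + 1 : ℕ) : ℝ) ≤ 2 ^ a := by
            have : a + 1 ≤ 2 ^ a := Nat.lt_two_pow_self
            exact_mod_cast this
        _ ≤ ((p : ℝ) ^ δ) ^ a := pow_le_pow_left₀ (by norm_num) h1 a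
  rw [Nat.card_divisors hn]
  push_cast
  have hterm' : ∀ p ∈ n.primeFactors, ((n.factorization p : ℝ) + 1) ≤
      (if p < P0 then K else 1) * ((p : ℝ) ^ (n.factorization p)) ^ δ := by
    intro p hp
    have := hterm p hp
    push_cast at this
    exact this
  refine (prod_le_prod (fun p _ => by positivity) hterm').trans ?_
  rw [prod_mul_distrib, Real.finsetProd_rpow _ _ (fun p _ => by positivity)]
  have hn' : (∏ p ∈ n.primeFactors, (p : ℝ) ^ (n.factorization p)) = n := by
    have := Nat.prod_factorization_pow_eq_self hn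
    rw [Finsupp.prod, Nat.support_factorization] at this
    exact_mod_cast this
  rw [hn']
  refine mul_le_mul_of_nonneg_right ?_ (by positivity)
  rw [prod_ite, prod_const, prod_const_one, mul_one]
  refine pow_le_pow_right₀ hK1 ?_
  calc (n.primeFactors.filter (fun p => p < P0)).card ≤ (range P0).card := by
        apply card_le_card
        intro p hp
        exact mem_range.mpr (mem_filter.mp hp).2
    _ = P0 := card_range _

theorem div_omega (m : ℕ) (hm : 0 < m) : 2 ^ m.primeFactors.card ≤ m.divisors.card := by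
  rw [Nat.card_divisors hm.ne', ← Finset.prod_const]
  refine Finset.prod_le_prod' fun p hp => ?_
  have h1 : 0 < m.factorization p :=
    Nat.Prime.factorization_pos_of_dvd (Nat.prime_of_mem_primeFactors hp) hm.ne'
      (Nat.dvd_of_mem_primeFactors hp)
  omega

theorem div_totient (m : ℕ) : m ≤ m.totient * 2 ^ m.primeFactors.card := by
  have h1 := Nat.totient_mul_prod_primeFactors m
  have hpos : 0 < ∏ p ∈ m.primeFactors, (p - 1) := by
    refine Finset.prod_pos fun p hp => ?_
    have := (Nat.prime_of_mem_primeFactors hp).two_le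
    omega
  have h2 : ∏ p ∈ m.primeFactors, p ≤ 2 ^ m.primeFactors.card * ∏ p ∈ m.primeFactors, (p - 1) := by
    rw [← Finset.prod_const, ← Finset.prod_mul_distrib]
    refine Finset.prod_le_prod' fun p hp => ?_
    have := (Nat.prime_of_mem_primeFactors hp).two_le
    omega
  have h3 : m * ∏ p ∈ m.primeFactors, (p - 1) ≤
      (m.totient * 2 ^ m.primeFactors.card) * ∏ p ∈ m.primeFactors, (p - 1) := by
    rw [← h1, mul_assoc]
    exact Nat.mul_le_mul_left _ h2
  exact Nat.le_of_mul_le_mul_right h3 hpos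

theorem div_proof : Stmt_div := by
  constructor
  · intro ε hε
    obtain ⟨T, hT, h⟩ := div_bound ε hε
    exact ⟨T, by linarith, fun m hm => h m hm.ne'⟩
  · intro ε hε
    obtain ⟨T, hT, h⟩ := div_bound (ε / 2) (by linarith)
    refine ⟨T ^ 2, by positivity, ?_⟩
    intro m hm
    have hm0 : (0 : ℝ) < m := by exact_mod_cast hm
    set w : ℝ := (2 : ℝ) ^ m.primeFactors.card with hw
    have hw0 : 0 < w := by positivity
    have h1 : (m : ℝ) ≤ m.totient * w := by
      have := div_totient m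
      rw [hw]
      exact_mod_cast this
    have h2 : w ≤ T * (m : ℝ) ^ (ε / 2) := by
      refine le_trans ?_ (h m hm.ne')
      rw [hw]
      exact_mod_cast div_omega m hm
    have h3 : (m : ℝ) ^ (1 - ε) = m * (m : ℝ) ^ (-ε) := by
      rw [sub_eq_add_neg, Real.rpow_add hm0, Real.rpow_one]
    have h4 : w * w ≤ T ^ 2 * (m : ℝ) ^ ε := by
      calc w * w ≤ (T * (m : ℝ) ^ (ε / 2)) * (T * (m : ℝ) ^ (ε / 2)) :=
            mul_le_mul h2 h2 hw0.le (hw0.le.trans h2)
        _ = T ^ 2 * ((m : ℝ) ^ (ε / 2) * (m : ℝ) ^ (ε / 2)) := by ring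
        _ = T ^ 2 * (m : ℝ) ^ ε := by
            rw [← Real.rpow_add hm0, add_halves]
    have hr : 0 < (m : ℝ) ^ (-ε) := Real.rpow_pos_of_pos hm0 _
    have ht : (0 : ℝ) ≤ m.totient := Nat.cast_nonneg _
    calc (m : ℝ) ^ (1 - ε) * w = (m : ℝ) * ((m : ℝ) ^ (-ε) * w) := by rw [h3]; ring
      _ ≤ (m.totient * w) * ((m : ℝ) ^ (-ε) * w) :=
          mul_le_mul_of_nonneg_right h1 (by positivity)
      _ = m.totient * (m : ℝ) ^ (-ε) * (w * w) := by ring
      _ ≤ m.totient * (m : ℝ) ^ (-ε) * (T ^ 2 * (m : ℝ) ^ ε) :=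
          mul_le_mul_of_nonneg_left h4 (by positivity)
      _ = T ^ 2 * m.totient * ((m : ℝ) ^ (-ε) * (m : ℝ) ^ ε) := by ring
      _ = T ^ 2 * m.totient := by
          rw [← Real.rpow_add hm0, neg_add_cancel, Real.rpow_zero, mul_one]

end TauQ
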