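import Mathlib
import Pool.Agent.Work.MP_972ac7_al_tau.Interface

/-!
# Block `exists`: a primitive quaternion whose norm is divisible by `r` is divisible by an element
of `SS r`.
-/

set_option autoImplicit false

open scoped Quaternion BigOperators

namespace TauQ

lemma exists_round (N z : ℤ) (hN : 0 < N) : ∃ q : ℤ, |2 * (z - N * q)| ≤ N := by
  refine ⟨(2 * z + N) / (2 * N), ?_⟩
  have h1 := Int.emod_add_mul_ediv (2 * z + N) (2 * N)
  have h2 := Int.emod_nonneg (2 * z + N) (show (2 * N) ≠ 0 by omega)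
  have h3 := Int.emod_lt_of_pos (2 * z + N) (show 0 < 2 * N by omega)
  set q := (2 * z + N) / (2 * N) with hq
  set s := (2 * z + N) % (2 * N) with hs
  rw [abs_le]
  constructor <;> nlinarith

lemma exists_normSq_def (a : ℍ[ℤ]) : Quaternion.normSq a
    = a.re ^ 2 + a.imI ^ 2 + a.imJ ^ 2 + a.imK ^ 2 := Quaternion.normSq_def' a

lemma exists_pos (x : ℍ[ℤ]) (hx : x ≠ 0) : 0 < Quaternion.normSq x := by
  have h1 : 0 ≤ Quaternion.normSq x := Quaternion.normSq_nonneg
  have h2 : Quaternion.normSq x ≠ 0 := by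
    rw [ne_eq, Quaternion.normSq_eq_zero]
    exact hx
  omega

lemma exists_star_mul_self (x : ℍ[ℤ]) :
    star x * x = Int.cast (Quaternion.normSq x) := by
  rw [Quaternion.star_mul_self]
  ext <;> simp

lemma exists_self_mul_star (x : ℍ[ℤ]) :
    x * star x = Int.cast (Quaternion.normSq x) := by
  rw [Quaternion.self_mul_star]
  ext <;> simp

/-- division with remainder -/
lemma exists_div (x y : ℍ[ℤ]) (hx : x ≠ 0) : ∃ q ρ : ℍ[ℤ],
    Quaternion.normSq x * Quaternion.normSq (y - x * q) = Quaternion.normSq ρ ∧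
    star x * y = Int.cast (Quaternion.normSq x) * q + ρ ∧
    |2 * ρ.re| ≤ Quaternion.normSq x ∧ |2 * ρ.imI| ≤ Quaternion.normSq x ∧
    |2 * ρ.imJ| ≤ Quaternion.normSq x ∧ |2 * ρ.imK| ≤ Quaternion.normSq x := by
  set N := Quaternion.normSq x with hN
  have hN0 : 0 < N := exists_pos x hx
  set z : ℍ[ℤ] := star x * y with hz
  obtain ⟨q0, h0⟩ := exists_round N z.re hN0
  obtain ⟨q1, h1⟩ := exists_round N z.imI hN0
  obtain ⟨q2, h2⟩ := exists_round N z.imJ hN0
  obtain ⟨q3, h3⟩ := exists_round N z.imK hN0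
  refine ⟨mk4 q0 q1 q2 q3, z - Int.cast N * mk4 q0 q1 q2 q3, ?_, ?_, ?_, ?_, ?_, ?_⟩
  · have e : z - Int.cast N * mk4 q0 q1 q2 q3 = star x * (y - x * mk4 q0 q1 q2 q3) := by
      rw [mul_sub, ← mul_assoc, exists_star_mul_self]
    rw [e, map_mul, Quaternion.normSq_star]
  · abel
  · simpa using h0
  · simpa using h1
  · simpa using h2
  · simpa using h3

lemma exists_div_odd (x y : ℍ[ℤ]) (hx : Odd (Quaternion.normSq x)) :
    ∃ q : ℍ[ℤ], Quaternion.normSq (y - x * q) < Quaternion.normSq x := by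
  have hx0 : x ≠ 0 := by
    rintro rfl
    simp at hx
  obtain ⟨q, ρ, h1, -, h2, h3, h4, h5⟩ := exists_div x y hx0
  refine ⟨q, ?_⟩
  have hN0 := exists_pos x hx0
  set N := Quaternion.normSq x with hN
  have key : ∀ a : ℤ, |2 * a| ≤ N → 4 * a ^ 2 < N ^ 2 := by
    intro a ha
    have hne : |2 * a| ≠ N := by
      intro h
      obtain ⟨m, hm⟩ := hx
      rcases abs_choice (2 * a) with h' | h' <;> omega
    have hlt : |2 * a| < N := lt_of_le_of_ne ha hne
    have h6 : |2 * a| ^ 2 < N ^ 2 := by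
      have := abs_nonneg (2 * a)
      nlinarith
    rw [sq_abs] at h6
    linarith
  have hρ := exists_normSq_def ρ
  have k2 := key _ h2
  have k3 := key _ h3
  have k4 := key _ h4
  have k5 := key _ h5
  by_contra hcon
  push Not at hcon
  nlinarith

/-- the right ideal -/
def exIn (r : ℕ) (α x : ℍ[ℤ]) : Prop := ∃ c : ℍ[ℤ], star α * x = (r : ℍ[ℤ]) * c

lemma exIn_sub {r : ℕ} {α x y : ℍ[ℤ]} (hx : exIn r α x) (hy : exIn r α y) : exIn r α (x - y) := by
  obtain ⟨c, hc⟩ := hx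
  obtain ⟨d, hd⟩ := hy
  exact ⟨c - d, by rw [mul_sub, hc, hd, mul_sub]⟩

lemma exIn_mul {r : ℕ} {α x : ℍ[ℤ]} (hx : exIn r α x) (y : ℍ[ℤ]) : exIn r α (x * y) := by
  obtain ⟨c, hc⟩ := hx
  exact ⟨c * y, by rw [← mul_assoc, hc, mul_assoc]⟩

lemma exIn_self {r : ℕ} (α : ℍ[ℤ]) : exIn r α (r : ℍ[ℤ]) :=
  ⟨star α, (Nat.cast_commute r (star α)).eq.symm⟩

lemma exIn_alpha {r : ℕ} {α : ℍ[ℤ]} (h : (r : ℤ) ∣ Quaternion.normSq α) : exIn r α α := by
  obtain ⟨c, hc⟩ := h
  refine ⟨Int.cast c, ?_⟩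
  rw [exists_star_mul_self, hc]
  push_cast
  rfl

lemma exIn_dvd {r : ℕ} (hr : r.Prime) {α x : ℍ[ℤ]} (hα : ∀ γ : ℍ[ℤ], α ≠ (r : ℍ[ℤ]) * γ)
    (hx : exIn r α x) : (r : ℤ) ∣ Quaternion.normSq x := by
  by_contra hnd
  obtain ⟨c, hc⟩ := hx
  have hcop : IsCoprime (r : ℤ) (Quaternion.normSq x) := by
    exact (Prime.coprime_iff_not_dvd (Nat.prime_iff_prime_int.mp hr)).mpr hnd
  obtain ⟨u, v, huv⟩ := hcop
  have h1 : star α * Int.cast (Quaternion.normSq x) = (r : ℍ[ℤ]) * (c * star x) := by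
    rw [← mul_assoc, ← hc, mul_assoc, exists_self_mul_star]
  apply hα (star (Int.cast u * star α + Int.cast v * (c * star x)))
  have h2 : star α = (r : ℍ[ℤ]) * (Int.cast u * star α + Int.cast v * (c * star x)) := by
    have h3 : Int.cast (u * (r : ℤ) + v * Quaternion.normSq x) * star α = star α := by
      rw [huv]; simp
    calc star α = Int.cast (u * (r : ℤ) + v * Quaternion.normSq x) * star α := h3.symm
      _ = (r : ℍ[ℤ]) * (Int.cast u * star α)
          + Int.cast v * (star α * Int.cast (Quaternion.normSq x)) := by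
        ext <;> simp <;> ring
      _ = _ := by
        have h5 : (Int.cast v : ℍ[ℤ]) * ((r : ℍ[ℤ]) * (c * star x))
            = (r : ℍ[ℤ]) * (Int.cast v * (c * star x)) := by
          rw [← mul_assoc, ← (Nat.cast_commute r (Int.cast v : ℍ[ℤ])).eq, mul_assoc]
        rw [h1, mul_add, h5]
  have h4 := congrArg star h2
  rw [star_star, star_mul, star_natCast, ← (Nat.cast_commute r _).eq] at h4
  exact h4

lemma exists_min (P : ℍ[ℤ] → Prop) (h : ∃ x, P x) :
    ∃ x, P x ∧ ∀ y, P y → Quaternion.normSq x ≤ Quaternion.normSq y := by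
  classical
  have h' : ∃ n : ℕ, ∃ x, P x ∧ (Quaternion.normSq x).toNat = n := by
    obtain ⟨x, hx⟩ := h
    exact ⟨_, x, hx, rfl⟩
  obtain ⟨x, hx, hn⟩ := Nat.find_spec h'
  refine ⟨x, hx, fun y hy => ?_⟩
  have h1 : Nat.find h' ≤ (Quaternion.normSq y).toNat := Nat.find_min' h' ⟨y, hy, rfl⟩
  have h2 : 0 ≤ Quaternion.normSq x := Quaternion.normSq_nonneg
  have h3 : 0 ≤ Quaternion.normSq y := Quaternion.normSq_nonneg
  rw [← hn] at h1
  omega

/-- the key step: an element of norm `r` dividing `α` on the left -/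
lemma exists_norm {r : ℕ} (hr : r.Prime) (hr4 : r % 4 = 1) (α : ℍ[ℤ])
    (hα : ∀ γ : ℍ[ℤ], α ≠ (r : ℍ[ℤ]) * γ) (hd : (r : ℤ) ∣ Quaternion.normSq α) :
    ∃ x q : ℍ[ℤ], Quaternion.normSq x = (r : ℤ) ∧ α = x * q := by
  have hr0 : (0 : ℤ) < r := by exact_mod_cast hr.pos
  have hrne : (r : ℍ[ℤ]) ≠ 0 := by
    intro h
    have := congrArg (fun y : ℍ[ℤ] => y.re) h
    simp at this
    omega
  obtain ⟨x, ⟨hx0, hxI⟩, hmin⟩ := exists_min (fun x => x ≠ 0 ∧ exIn r α x) ⟨_, hrne, exIn_self α⟩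
  have hNpos := exists_pos x hx0
  -- elements of smaller norm vanish
  have hsmall : ∀ y, exIn r α y → Quaternion.normSq y < Quaternion.normSq x → y = 0 := by
    intro y hy hlt
    by_contra hy0
    exact absurd (hmin y ⟨hy0, hy⟩) (not_le.mpr hlt)
  obtain ⟨k, hk⟩ := exIn_dvd hr hα hxI
  -- `x` divides `r`
  obtain ⟨q, hq⟩ : ∃ q : ℍ[ℤ], (r : ℍ[ℤ]) = x * q := by
    obtain ⟨q, ρ, h1, h2, h3, h4, h5, h6⟩ := exists_div x (r : ℍ[ℤ]) hx0
    refine ⟨q, ?_⟩
    have hs : (r : ℍ[ℤ]) - x * q = 0 := by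
      apply hsmall _ (exIn_sub (exIn_self α) (exIn_mul hxI q))
      by_contra hcon
      push Not at hcon
      have hρ := exists_normSq_def ρ
      set N := Quaternion.normSq x with hN
      have key : ∀ a : ℤ, |2 * a| ≤ N → 4 * a ^ 2 ≤ N ^ 2 := by
        intro a ha
        have h6 : |2 * a| ^ 2 ≤ N ^ 2 := by
          have := abs_nonneg (2 * a)
          nlinarith
        rw [sq_abs] at h6
        linarith
      have hge : N ^ 2 ≤ Quaternion.normSq ρ := by
        rw [← h1]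
        nlinarith
      have k3 := key _ h3
      have k4 := key _ h4
      have k5 := key _ h5
      have k6 := key _ h6
      have e3 : 4 * ρ.re ^ 2 = N ^ 2 := by nlinarith
      have e4 : 4 * ρ.imI ^ 2 = N ^ 2 := by nlinarith
      have e5 : 4 * ρ.imJ ^ 2 = N ^ 2 := by nlinarith
      have e6 : 4 * ρ.imK ^ 2 = N ^ 2 := by nlinarith
      have hkpos : 0 < k := by
        rw [hk] at hNpos
        exact (pos_iff_pos_of_mul_pos hNpos).mp hr0
      -- coordinates: r * x' = N q + ρ, with 2 ρ = ± N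
      have c0 : (r : ℤ) * x.re = N * q.re + ρ.re := by
        have := congrArg (fun y : ℍ[ℤ] => y.re) h2
        simp at this
        linarith
      have c1 : -((r : ℤ) * x.imI) = N * q.imI + ρ.imI := by
        have := congrArg (fun y : ℍ[ℤ] => y.imI) h2
        simp at this
        linarith
      have c2 : -((r : ℤ) * x.imJ) = N * q.imJ + ρ.imJ := by
        have := congrArg (fun y : ℍ[ℤ] => y.imJ) h2
        simp at this
        linarith
      have c3 : -((r : ℤ) * x.imK) = N * q.imK + ρ.imK := by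
        have := congrArg (fun y : ℍ[ℤ] => y.imK) h2
        simp at this
        linarith
      -- 2 x' = k * odd
      have comp : ∀ a b c : ℤ, (r : ℤ) * a = N * b + c → 4 * c ^ 2 = N ^ 2 →
          ∃ w : ℤ, 2 * a = k * (2 * w + 1) := by
        intro a b c hab hc
        have hc2 : (2 * c - N) * (2 * c + N) = 0 := by ring_nf; linarith
        rcases mul_eq_zero.mp hc2 with h | h
        · refine ⟨b, ?_⟩
          have : (r : ℤ) * (2 * a) = r * (k * (2 * b + 1)) := by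
            rw [hk] at hab h
            linarith
          exact mul_left_cancel₀ hr0.ne' this
        · refine ⟨b - 1, ?_⟩
          have : (r : ℤ) * (2 * a) = r * (k * (2 * (b - 1) + 1)) := by
            rw [hk] at hab h
            linarith
          exact mul_left_cancel₀ hr0.ne' this
      obtain ⟨w0, hw0⟩ := comp _ _ _ c0 e3
      obtain ⟨w1, hw1⟩ := comp (-x.imI) q.imI ρ.imI (by linarith) e4
      obtain ⟨w2, hw2⟩ := comp (-x.imJ) q.imJ ρ.imJ (by linarith) e5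
      obtain ⟨w3, hw3⟩ := comp (-x.imK) q.imK ρ.imK (by linarith) e6
      -- k is even
      have hkev : Even k := by
        rcases Int.even_or_odd k with h | h
        · exact h
        · exfalso
          have : Odd (k * (2 * w0 + 1)) := h.mul ⟨w0, rfl⟩
          rw [← hw0] at this
          obtain ⟨m, hm⟩ := this
          omega
      -- 4 r = k * (sum of four odd squares)
      have hsum : 4 * (r : ℤ) = k * ((2 * w0 + 1) ^ 2 + (2 * w1 + 1) ^ 2 + (2 * w2 + 1) ^ 2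
          + (2 * w3 + 1) ^ 2) := by
        have hNx := exists_normSq_def x
        have h4N : 4 * N = k ^ 2 * ((2 * w0 + 1) ^ 2 + (2 * w1 + 1) ^ 2 + (2 * w2 + 1) ^ 2
          + (2 * w3 + 1) ^ 2) := by
          have e : 4 * N = (2 * x.re) ^ 2 + (2 * -x.imI) ^ 2 + (2 * -x.imJ) ^ 2
              + (2 * -x.imK) ^ 2 := by
            rw [hN, hNx]; ring
          rw [e, hw0, hw1, hw2, hw3]
          ring
        rw [hk] at h4N
        have : k * (4 * (r : ℤ)) = k * (k * ((2 * w0 + 1) ^ 2 + (2 * w1 + 1) ^ 2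
            + (2 * w2 + 1) ^ 2 + (2 * w3 + 1) ^ 2)) := by linarith
        exact mul_left_cancel₀ hkpos.ne' this
      obtain ⟨m, hm⟩ := hkev
      -- r = k * (w0^2+w0+...+1), r odd
      have hr' : (r : ℤ) = k * (w0 ^ 2 + w0 + w1 ^ 2 + w1 + w2 ^ 2 + w2 + w3 ^ 2 + w3 + 1) := by
        linarith
      have : (2 : ℤ) ∣ r := by
        rw [hr', hm]
        exact ⟨m * (w0 ^ 2 + w0 + w1 ^ 2 + w1 + w2 ^ 2 + w2 + w3 ^ 2 + w3 + 1), by ring⟩
      omega
    exact sub_eq_zero.mp hs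
  -- norms
  have hnorm : Quaternion.normSq x * Quaternion.normSq q = (r : ℤ) ^ 2 := by
    rw [← map_mul, ← hq]
    have : (Quaternion.normSq (r : ℍ[ℤ])) = (r : ℤ) ^ 2 := by
      rw [exists_normSq_def]
      simp
    exact this
  have hodd : Odd (Quaternion.normSq x) := by
    have : Odd ((r : ℤ) ^ 2) := by
      apply Odd.pow
      rw [Int.odd_iff]
      omega
    rw [← hnorm] at this
    exact (Int.odd_mul.mp this).1
  -- `x` divides `α`
  obtain ⟨q', hq'⟩ : ∃ q' : ℍ[ℤ], α = x * q' := by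
    obtain ⟨q', h⟩ := exists_div_odd x α hodd
    refine ⟨q', ?_⟩
    exact sub_eq_zero.mp (hsmall _ (exIn_sub (exIn_alpha hd) (exIn_mul hxI q')) h)
  refine ⟨x, q', ?_, hq'⟩
  -- the norm of `x` is `r`
  have hqn : (0 : ℤ) ≤ Quaternion.normSq q := Quaternion.normSq_nonneg
  have hkq : k * Quaternion.normSq q = r := by
    rw [hk] at hnorm
    have : (r : ℤ) * (k * Quaternion.normSq q) = r * r := by linarith
    exact mul_left_cancel₀ hr0.ne' this
  have hkpos : 0 < k := by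
    rw [hk] at hNpos
    exact (pos_iff_pos_of_mul_pos hNpos).mp hr0
  have hkdvd : k.toNat ∣ r := by
    have : (k.toNat : ℤ) ∣ (r : ℤ) := by
      rw [Int.toNat_of_nonneg hkpos.le]
      exact ⟨_, hkq.symm⟩
    exact_mod_cast this
  rcases (Nat.dvd_prime hr).mp hkdvd with h | h
  · have : k = 1 := by omega
    rw [hk, this, mul_one]
  · exfalso
    have hkr : k = r := by omega
    have hq1 : Quaternion.normSq q = 1 := by
      rw [hkr] at hkq
      have : (r : ℤ) * Quaternion.normSq q = r * 1 := by linarith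
      exact mul_left_cancel₀ hr0.ne' this
    apply hα (star q * q')
    have : x = (r : ℍ[ℤ]) * star q := by
      rw [hq, mul_assoc, exists_self_mul_star, hq1]
      simp
    rw [hq', this, mul_assoc]

lemma exists_sqmod (t : ℤ) : t ^ 2 % 4 = t % 2 := by
  rcases Int.even_or_odd t with ⟨m, hm⟩ | ⟨m, hm⟩
  · have : t ^ 2 = 4 * (m ^ 2) := by rw [hm]; ring
    omega
  · have : t ^ 2 = 4 * (m ^ 2 + m) + 1 := by rw [hm]; ring
    omega

lemma exists_unit {r : ℕ} (hr4 : r % 4 = 1) (x : ℍ[ℤ]) (hx : Quaternion.normSq x = (r : ℤ)) :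
    ∃ u : ℍ[ℤ], u * star u = 1 ∧ x * u ∈ OO := by
  rw [exists_normSq_def] at hx
  have h0 := exists_sqmod x.re
  have h1 := exists_sqmod x.imI
  have h2 := exists_sqmod x.imJ
  have h3 := exists_sqmod x.imK
  have hr : (x.re ^ 2 + x.imI ^ 2 + x.imJ ^ 2 + x.imK ^ 2) % 4 = 1 := by
    rw [hx]
    omega
  have hsum : (x.re % 2 + x.imI % 2 + x.imJ % 2 + x.imK % 2) % 4 = 1 := by omega
  have hcase : (x.re % 2 = 1 ∧ x.imI % 2 = 0 ∧ x.imJ % 2 = 0 ∧ x.imK % 2 = 0) ∨
      (x.re % 2 = 0 ∧ x.imI % 2 = 1 ∧ x.imJ % 2 = 0 ∧ x.imK % 2 = 0) ∨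
      (x.re % 2 = 0 ∧ x.imI % 2 = 0 ∧ x.imJ % 2 = 1 ∧ x.imK % 2 = 0) ∨
      (x.re % 2 = 0 ∧ x.imI % 2 = 0 ∧ x.imJ % 2 = 0 ∧ x.imK % 2 = 1) := by omega
  rcases hcase with h | h | h | h
  · by_cases h4 : x.re % 4 = 1
    · refine ⟨mk4 1 0 0 0, by ext <;> simp, ?_⟩
      refine ⟨?_, ?_, ?_, ?_⟩ <;> simp <;> omega
    · refine ⟨mk4 (-1) 0 0 0, by ext <;> simp, ?_⟩
      refine ⟨?_, ?_, ?_, ?_⟩ <;> simp <;> omega
  · by_cases h4 : x.imI % 4 = 1
    · refine ⟨mk4 0 (-1) 0 0, by ext <;> simp, ?_⟩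
      refine ⟨?_, ?_, ?_, ?_⟩ <;> simp <;> omega
    · refine ⟨mk4 0 1 0 0, by ext <;> simp, ?_⟩
      refine ⟨?_, ?_, ?_, ?_⟩ <;> simp <;> omega
  · by_cases h4 : x.imJ % 4 = 1
    · refine ⟨mk4 0 0 (-1) 0, by ext <;> simp, ?_⟩
      refine ⟨?_, ?_, ?_, ?_⟩ <;> simp <;> omega
    · refine ⟨mk4 0 0 1 0, by ext <;> simp, ?_⟩
      refine ⟨?_, ?_, ?_, ?_⟩ <;> simp <;> omega
  · by_cases h4 : x.imK % 4 = 1
    · refine ⟨mk4 0 0 0 (-1), by ext <;> simp, ?_⟩
      refine ⟨?_, ?_, ?_, ?_⟩ <;> simp <;> omega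
    · refine ⟨mk4 0 0 0 1, by ext <;> simp, ?_⟩
      refine ⟨?_, ?_, ?_, ?_⟩ <;> simp <;> omega

theorem exists_proof : Stmt_exists := by
  intro r hr hr4 α hα hd
  obtain ⟨x, q, hx, hq⟩ := exists_norm hr hr4 α hα hd
  obtain ⟨u, hu, hO⟩ := exists_unit hr4 x hx
  have hn : Quaternion.normSq (x * u) = (r : ℤ) := by
    have h1 : Quaternion.normSq u * Quaternion.normSq u = 1 := by
      have := congrArg Quaternion.normSq hu
      rw [map_mul, Quaternion.normSq_star, map_one] at this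
      exact this
    have h2 : 0 ≤ Quaternion.normSq u := Quaternion.normSq_nonneg
    have h3 : Quaternion.normSq u = 1 := by nlinarith
    rw [map_mul, hx, h3, mul_one]
  refine ⟨⟨x * u, hO, hn⟩, star u * q, ?_⟩
  change α = (x * u) * (star u * q)
  rw [mul_assoc, ← mul_assoc u, hu, one_mul, hq]

end TauQ
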