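import Mathlib
import Pool.Agent.Work.MP_972ac7_al_tau.Interface

/-!
# Block extract (A3): failure of the gap gives an equivariant eigenfunction on one class
-/

set_option autoImplicit false
set_option linter.unusedSectionVars false

namespace TauQ

open scoped BigOperators

/-- commuting operators have a common eigenvector -/
lemma extract_common {X ι : Type} [AddCommGroup X] [Module ℂ X] [FiniteDimensional ℂ X]
    (R : ι → X →ₗ[ℂ] X) : ∀ (n : ℕ) (V : Submodule ℂ X), Module.finrank ℂ V = n → V ≠ ⊥ →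
    (∀ i, ∀ v ∈ V, R i v ∈ V) → (∀ i j, ∀ v ∈ V, R i (R j v) = R j (R i v)) →
    ∃ v ∈ V, v ≠ 0 ∧ ∀ i, ∃ c : ℂ, R i v = c • v := by
  intro n
  induction n using Nat.strong_induction_on with
  | _ n ih =>
    intro V hn hV hst hco
    by_cases hsc : ∀ i, ∃ c : ℂ, ∀ v ∈ V, R i v = c • v
    · obtain ⟨v, hv, hv0⟩ := Submodule.exists_mem_ne_zero_of_ne_bot hV
      refine ⟨v, hv, hv0, fun i => ?_⟩
      obtain ⟨c, hc⟩ := hsc i
      exact ⟨c, hc v hv⟩
    · push Not at hsc
      obtain ⟨i, hi⟩ := hsc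
      have hnt : Nontrivial V := Submodule.nontrivial_iff_ne_bot.2 hV
      obtain ⟨c, hc⟩ := Module.End.exists_eigenvalue ((R i).restrict (hst i))
      obtain ⟨w, hw⟩ := hc.exists_hasEigenvector
      have hw1 : R i (w : X) = c • (w : X) := by
        have := hw.apply_eq_smul
        exact congrArg Subtype.val this
      have hw0 : (w : X) ≠ 0 := fun h => hw.2 (Subtype.ext h)
      let V' : Submodule ℂ X := V ⊓ LinearMap.ker (R i - c • LinearMap.id)
      have hV'mem : ∀ v, v ∈ V' ↔ v ∈ V ∧ R i v = c • v := by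
        intro v
        rw [Submodule.mem_inf, LinearMap.mem_ker, LinearMap.sub_apply, LinearMap.smul_apply,
          LinearMap.id_apply, sub_eq_zero]
      have hlt : V' < V := by
        refine lt_of_le_of_ne inf_le_left ?_
        intro heq
        obtain ⟨v, hv, hne⟩ := hi c
        rw [← heq, hV'mem] at hv
        exact hne hv.2
      have hfin : Module.finrank ℂ V' < n := by
        rw [← hn]
        exact Submodule.finrank_lt_finrank_of_lt hlt
      obtain ⟨v, hv, hv0, hvc⟩ := ih _ hfin V' rfl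
        (by
          intro hbot
          have h1 : (w : X) ∈ V' := (hV'mem _).2 ⟨w.2, hw1⟩
          rw [hbot, Submodule.mem_bot] at h1
          exact hw0 h1)
        (by
          intro j v hv
          rw [hV'mem] at hv ⊢
          refine ⟨hst j v hv.1, ?_⟩
          rw [hco i j v hv.1, hv.2, map_smul])
        (fun j k v hv => hco j k v ((hV'mem v).1 hv).1)
      exact ⟨v, ((hV'mem v).1 hv).1, hv0, hvc⟩

section main
variable {A B : Type} [Fintype A] [Fintype B] {h : VH A B} {Q : Type} [Group Q] [Fintype Q]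

lemma extract_sigma_inv (h : VH A B) (b : B) : h.sigma (h.invB b) = (h.sigma b)⁻¹ := by
  ext a
  rfl

lemma extract_tau_inv (r : Rep h Q) (b : B) (z : h.SA × Q) :
    r.tau (h.invB b) (r.tau b z) = z := by
  rw [Rep.tau_apply, Rep.tau_apply]
  have h1 : h.sig (h.invB b) = (h.sig b)⁻¹ := by
    apply Subtype.ext
    exact extract_sigma_inv h b
  refine Prod.ext ?_ ?_
  · change h.sig (h.invB b) * (h.sig b * z.1) = z.1
    rw [h1, inv_mul_cancel_left]
  · change r.be (h.invB b) * (r.be b * z.2) = z.2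
    rw [r.be_inv, inv_mul_cancel_left]

/-- the space of functions -/
abbrev ExX (h : VH A B) (Q : Type) : Type := EuclideanSpace ℂ (h.SA × Q)

/-- `n - T_B` -/
noncomputable def extract_S (r : Rep h Q) : ExX h Q →ₗ[ℂ] ExX h Q where
  toFun x := WithLp.toLp 2 fun z => (Fintype.card B : ℂ) * x z - ∑ b, x (r.tau b z)
  map_add' x y := by
    ext z
    simp only [PiLp.add_apply, Finset.sum_add_distrib]
    ring
  map_smul' c x := by
    ext z
    simp only [PiLp.smul_apply, smul_eq_mul, RingHom.id_apply, ← Finset.mul_sum]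
    ring

lemma extract_S_apply (r : Rep h Q) (x : ExX h Q) (z : h.SA × Q) :
    extract_S r x z = (Fintype.card B : ℂ) * x z - ∑ b, x (r.tau b z) := rfl

lemma extract_inner (r : Rep h Q) (x y : ExX h Q) :
    inner ℂ (extract_S r x) y = (Fintype.card B : ℂ) * inner ℂ x y -
      ∑ b, ∑ z, inner ℂ (x (r.tau b z)) (y z) := by
  rw [PiLp.inner_apply, PiLp.inner_apply, Finset.mul_sum, Finset.sum_comm,
    ← Finset.sum_sub_distrib]
  refine Finset.sum_congr rfl fun z _ => ?_
  rw [extract_S_apply, inner_sub_left, sum_inner]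
  congr 1
  rw [← smul_eq_mul, inner_smul_left]
  simp

lemma extract_symm (r : Rep h Q) : (extract_S r).IsSymmetric := by
  intro x y
  rw [extract_inner]
  have h1 : inner ℂ x (extract_S r y) = (starRingEnd ℂ) (inner ℂ (extract_S r y) x) :=
    (inner_conj_symm _ _).symm
  rw [h1, extract_inner, map_sub, map_mul, map_natCast, inner_conj_symm, map_sum]
  congr 1
  simp_rw [map_sum, inner_conj_symm]
  -- reindex `b` by `invB b` and `z` by `tau`
  have hb : Function.Bijective h.invB :=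
    Function.Involutive.bijective h.invB_invB
  rw [← hb.sum_comp (fun b => ∑ z, inner ℂ (x z) (y (r.tau b z)))]
  refine Finset.sum_congr rfl fun b _ => ?_
  rw [← Equiv.sum_comp (r.tau b) (fun z => inner ℂ (x z) (y (r.tau (h.invB b) z)))]
  refine Finset.sum_congr rfl fun z _ => ?_
  rw [extract_tau_inv]

lemma extract_var (r : Rep h Q) (x : ExX h Q) :
    r.varB (fun z => x z) = 2 * RCLike.re (inner ℂ (extract_S r x) x) := by
  rw [extract_inner]
  unfold Rep.varB
  have h0 : (inner ℂ x x : ℂ) = ((∑ z, ‖x z‖ ^ 2 : ℝ) : ℂ) := by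
    rw [inner_self_eq_norm_sq_to_K, ← EuclideanSpace.norm_sq_eq x]
    push_cast
    rfl
  have h1 : ∀ b : B, ∑ z, ‖x (r.tau b z) - x z‖ ^ 2 = 2 * ∑ z, ‖x z‖ ^ 2 -
      2 * RCLike.re (∑ z, inner ℂ (x (r.tau b z)) (x z)) := by
    intro b
    have h2 : ∀ z, ‖x (r.tau b z) - x z‖ ^ 2 = ‖x (r.tau b z)‖ ^ 2 -
        2 * RCLike.re (inner ℂ (x (r.tau b z)) (x z)) + ‖x z‖ ^ 2 := fun z =>
      norm_sub_sq (𝕜 := ℂ) _ _
    simp_rw [h2]
    rw [Finset.sum_add_distrib, Finset.sum_sub_distrib,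
      Equiv.sum_comp (r.tau b) (fun z => ‖x z‖ ^ 2), ← Finset.mul_sum, map_sum]
    ring
  simp_rw [h1]
  rw [Finset.sum_sub_distrib, Finset.sum_const, nsmul_eq_mul, Finset.card_univ, ← Finset.mul_sum,
    map_sub, h0, map_sum]
  have h3 : RCLike.re ((Fintype.card B : ℂ) * ((∑ z, ‖x z‖ ^ 2 : ℝ) : ℂ)) =
      (Fintype.card B : ℝ) * ∑ z, ‖x z‖ ^ 2 := by
    rw [← Complex.ofReal_natCast, ← Complex.ofReal_mul]
    exact Complex.ofReal_re _
  rw [h3]
  ring

/-- the space `W` -/
def extract_W (r : Rep h Q) (E : Subgroup Q) : Submodule ℂ (ExX h Q) where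
  carrier := {x | (∀ z : h.SA × Q, ∀ e ∈ E, x (z.1, z.2 * e) = x z) ∧
    ∀ κ : ℤˣ, ∑ z : h.SA × Q, (if r.chiA z.2 = κ then x z else 0) = 0}
  zero_mem' := by
    refine ⟨fun z e _ => rfl, fun κ => ?_⟩
    refine Finset.sum_eq_zero fun z _ => ?_
    rw [PiLp.zero_apply, ite_self]
  add_mem' := by
    rintro x y ⟨hx, hx'⟩ ⟨hy, hy'⟩
    refine ⟨fun z e he => ?_, fun κ => ?_⟩
    · rw [PiLp.add_apply, PiLp.add_apply, hx z e he, hy z e he]
    · have := hx' κ
      have := hy' κ
      have e1 : ∀ z : h.SA × Q, (if r.chiA z.2 = κ then (x + y) z else 0) =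
          (if r.chiA z.2 = κ then x z else 0) + (if r.chiA z.2 = κ then y z else 0) := by
        intro z
        split_ifs
        · rfl
        · rw [add_zero]
      simp_rw [e1]
      rw [Finset.sum_add_distrib, hx' κ, hy' κ, add_zero]
  smul_mem' := by
    rintro c x ⟨hx, hx'⟩
    refine ⟨fun z e he => ?_, fun κ => ?_⟩
    · rw [PiLp.smul_apply, PiLp.smul_apply, hx z e he]
    · have e1 : ∀ z : h.SA × Q, (if r.chiA z.2 = κ then (c • x) z else 0) =
          c * (if r.chiA z.2 = κ then x z else 0) := by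
        intro z
        split_ifs
        · rfl
        · rw [mul_zero]
      simp_rw [e1]
      rw [← Finset.mul_sum, hx' κ, mul_zero]

lemma extract_chi (r : Rep h Q) (b : B) (z : h.SA × Q) :
    r.chiA (r.tau b z).2 = r.chiA z.2 := by
  rw [Rep.tau_apply]
  change r.chiA (r.be b * z.2) = r.chiA z.2
  rw [map_mul, r.chiA_be, one_mul]

lemma extract_tau_mul (r : Rep h Q) (b : B) (z : h.SA × Q) (d : Q) :
    r.tau b (z.1, z.2 * d) = ((r.tau b z).1, (r.tau b z).2 * d) := by
  rw [Rep.tau_apply, Rep.tau_apply]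
  refine Prod.ext rfl ?_
  exact (mul_assoc _ _ _).symm

lemma extract_W_stable (r : Rep h Q) (E : Subgroup Q) :
    ∀ x ∈ extract_W r E, extract_S r x ∈ extract_W r E := by
  rintro x ⟨hx, hx'⟩
  refine ⟨fun z e he => ?_, fun κ => ?_⟩
  · rw [extract_S_apply, extract_S_apply, hx z e he]
    congr 1
    refine Finset.sum_congr rfl fun b _ => ?_
    rw [extract_tau_mul, hx _ e he]
  · have e1 : ∀ z : h.SA × Q, (if r.chiA z.2 = κ then extract_S r x z else 0) =
        (Fintype.card B : ℂ) * (if r.chiA z.2 = κ then x z else 0) -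
          ∑ b, (if r.chiA (r.tau b z).2 = κ then x (r.tau b z) else 0) := by
      intro z
      simp_rw [extract_chi]
      rw [extract_S_apply]
      split_ifs
      · rfl
      · simp
    simp_rw [e1]
    rw [Finset.sum_sub_distrib, ← Finset.mul_sum, hx' κ, mul_zero, Finset.sum_comm]
    rw [Finset.sum_eq_zero, sub_zero]
    intro b _
    rw [Equiv.sum_comp (r.tau b) (fun z : h.SA × Q => if r.chiA z.2 = κ then x z else 0)]
    exact hx' κ

/-- first step: an eigenfunction in `W` -/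
lemma extract_eig (r : Rep h Q) (E : Subgroup Q) (g' : ℝ) (hng : ¬ r.GB E g') :
    ∃ (ε : ℝ) (x : ExX h Q), x ≠ 0 ∧ x ∈ extract_W r E ∧ 0 ≤ ε ∧ ε < g' ∧
      ∀ z, ∑ b, x (r.tau b z) = ((Fintype.card B : ℂ) - (ε : ℂ)) * x z := by
  unfold Rep.GB at hng
  push Not at hng
  obtain ⟨f, hf1, hf2, hf3⟩ := hng
  set x0 : ExX h Q := WithLp.toLp 2 f with hx0
  have hx0W : x0 ∈ extract_W r E := ⟨hf1, hf2⟩
  have hnorm : ∑ z, ‖f z‖ ^ 2 = ‖x0‖ ^ 2 := by
    rw [EuclideanSpace.norm_sq_eq]
  have hvar : r.varB f = 2 * RCLike.re (inner ℂ (extract_S r x0) x0) := extract_var r x0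
  have hvar0 : ∀ x : ExX h Q, 0 ≤ RCLike.re (inner ℂ (extract_S r x) x : ℂ) := by
    intro x
    have h1 := extract_var r x
    have h2 : 0 ≤ r.varB (fun z => x z) :=
      Finset.sum_nonneg fun b _ => Finset.sum_nonneg fun z _ => sq_nonneg _
    linarith
  have hne : x0 ≠ 0 := by
    intro h0
    rw [hvar, hnorm, h0] at hf3
    simp at hf3
  have hnt : Nontrivial (extract_W r E) := by
    refine Submodule.nontrivial_iff_ne_bot.2 ?_
    intro hbot
    rw [hbot, Submodule.mem_bot] at hx0W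
    exact hne hx0W
  have hsym := (extract_symm r).restrict_invariant (extract_W_stable r E)
  set SW : extract_W r E →ₗ[ℂ] extract_W r E :=
    (extract_S r).restrict (extract_W_stable r E) with hSW
  have heig := hsym.hasEigenvalue_iInf_of_finiteDimensional
  set ε : ℝ := ⨅ x : {x : extract_W r E // x ≠ 0},
    RCLike.re (inner ℂ (SW x) (x : extract_W r E)) / ‖(x : extract_W r E)‖ ^ 2 with hε
  have hquot : ∀ x : {x : extract_W r E // x ≠ 0},
      0 ≤ RCLike.re (inner ℂ (SW x) (x : extract_W r E)) / ‖(x : extract_W r E)‖ ^ 2 := by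
    intro x
    refine div_nonneg ?_ (sq_nonneg _)
    exact hvar0 (x : extract_W r E)
  obtain ⟨w, hw⟩ := heig.exists_hasEigenvector
  have hw1 : extract_S r (w : ExX h Q) = (ε : ℂ) • (w : ExX h Q) :=
    congrArg Subtype.val hw.apply_eq_smul
  refine ⟨ε, w, fun h0 => hw.2 (Subtype.ext h0), w.2, Real.iInf_nonneg hquot, ?_, ?_⟩
  · have hle : ε ≤ RCLike.re (inner ℂ (SW ⟨x0, hx0W⟩) (⟨x0, hx0W⟩ : extract_W r E)) /
        ‖(⟨x0, hx0W⟩ : extract_W r E)‖ ^ 2 := by
      have hne' : (⟨x0, hx0W⟩ : extract_W r E) ≠ 0 := fun h0 => hne (congrArg Subtype.val h0)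
      exact ciInf_le ⟨0, by
        rintro _ ⟨x, rfl⟩
        exact hquot x⟩ (⟨⟨x0, hx0W⟩, hne'⟩ : {x : extract_W r E // x ≠ 0})
    refine lt_of_le_of_lt hle ?_
    have hpos : 0 < ‖x0‖ ^ 2 := by
      have := norm_pos_iff.2 hne
      positivity
    have h2 : RCLike.re (inner ℂ (SW ⟨x0, hx0W⟩) (⟨x0, hx0W⟩ : extract_W r E)) /
        ‖(⟨x0, hx0W⟩ : extract_W r E)‖ ^ 2 = RCLike.re (inner ℂ (extract_S r x0) x0) / ‖x0‖ ^ 2 := rfl
    rw [h2, div_lt_iff₀ hpos]
    rw [hvar, hnorm] at hf3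
    linarith
  · intro z
    have h2 := congrArg (fun x : ExX h Q => x z) hw1
    simp only [extract_S_apply, PiLp.smul_apply, smul_eq_mul] at h2
    linear_combination (-1 : ℂ) * h2

/-- the space of the eigenfunctions on the class `κ` -/
def extract_V (r : Rep h Q) (E : Subgroup Q) (ε : ℝ) (κ : ℤˣ) :
    Submodule ℂ (h.SA × Q → ℂ) where
  carrier := {F | (∀ z : h.SA × Q, ∀ e ∈ E, F (z.1, z.2 * e) = F z) ∧
    (∀ z, ∑ b, F (r.tau b z) = ((Fintype.card B : ℂ) - (ε : ℂ)) * F z) ∧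
    (∀ z, r.chiA z.2 ≠ κ → F z = 0) ∧ ∑ z, F z = 0}
  zero_mem' := by
    refine ⟨fun z e _ => rfl, fun z => ?_, fun z _ => rfl, ?_⟩
    · simp
    · simp
  add_mem' := by
    rintro x y ⟨h1, h2, h3, h4⟩ ⟨k1, k2, k3, k4⟩
    refine ⟨fun z e he => ?_, fun z => ?_, fun z hz => ?_, ?_⟩
    · rw [Pi.add_apply, Pi.add_apply, h1 z e he, k1 z e he]
    · simp only [Pi.add_apply]
      rw [Finset.sum_add_distrib, h2, k2]
      ring
    · rw [Pi.add_apply, h3 z hz, k3 z hz, add_zero]
    · simp only [Pi.add_apply]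
      rw [Finset.sum_add_distrib, h4, k4, add_zero]
  smul_mem' := by
    rintro c x ⟨h1, h2, h3, h4⟩
    refine ⟨fun z e he => ?_, fun z => ?_, fun z hz => ?_, ?_⟩
    · rw [Pi.smul_apply, Pi.smul_apply, h1 z e he]
    · simp only [Pi.smul_apply, smul_eq_mul]
      rw [← Finset.mul_sum, h2]
      ring
    · rw [Pi.smul_apply, h3 z hz, smul_zero]
    · simp only [Pi.smul_apply, smul_eq_mul]
      rw [← Finset.mul_sum, h4, mul_zero]

/-- right translations -/
def extract_R (h : VH A B) (Q : Type) [Group Q] (d : Q) :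
    (h.SA × Q → ℂ) →ₗ[ℂ] (h.SA × Q → ℂ) where
  toFun F := fun z => F (z.1, z.2 * d)
  map_add' _ _ := rfl
  map_smul' _ _ := rfl

lemma extract_R_apply (h : VH A B) (Q : Type) [Group Q] (d : Q) (F : h.SA × Q → ℂ)
    (z : h.SA × Q) : extract_R h Q d F z = F (z.1, z.2 * d) := rfl

/-- right translation as a permutation -/
def extract_P (h : VH A B) (Q : Type) [Group Q] (d : Q) : Equiv.Perm (h.SA × Q) :=
  Equiv.prodCongr (Equiv.refl _) (Equiv.mulRight d)

lemma extract_P_apply (h : VH A B) (Q : Type) [Group Q] (d : Q) (z : h.SA × Q) :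
    extract_P h Q d z = (z.1, z.2 * d) := rfl

end main

theorem extract_proof : Stmt_extract := by
  intro A B _ _ h Q _ _ r D E hD hE hED hDD hker g' hng
  obtain ⟨ε, x, hx0, hxW, hε0, hεg, hxe⟩ := extract_eig r E g' hng
  -- choose the class
  have hκ : ∃ κ : ℤˣ, ∃ z : h.SA × Q, r.chiA z.2 = κ ∧ x z ≠ 0 := by
    by_contra hcon
    push Not at hcon
    apply hx0
    ext z
    exact hcon (r.chiA z.2) z rfl
  obtain ⟨κ, z0, hz0, hxz0⟩ := hκ
  have hchiE : ∀ e ∈ D, r.chiA e = 1 := fun e he => MonoidHom.mem_ker.1 (hker he)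
  have hV : extract_V r E ε κ ≠ ⊥ := by
    intro hbot
    have hmem : (fun z => if r.chiA z.2 = κ then x z else 0) ∈ extract_V r E ε κ := by
      refine ⟨fun z e he => ?_, fun z => ?_, fun z hz => ?_, ?_⟩
      · have h1 : r.chiA (z.2 * e) = r.chiA z.2 := by
          rw [map_mul, hchiE e (hED he), mul_one]
        simp only [h1]
        rw [hxW.1 z e he]
      · simp only [extract_chi]
        by_cases hz : r.chiA z.2 = κ
        · simp only [hz, if_true]
          exact hxe z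
        · simp [hz]
      · exact if_neg hz
      · exact hxW.2 κ
    rw [hbot, Submodule.mem_bot] at hmem
    have h1 := congrFun hmem z0
    simp only [hz0, if_true, Pi.zero_apply] at h1
    exact hxz0 h1
  obtain ⟨F, hF, hF0, hFc⟩ := extract_common (fun d : D => extract_R h Q (d : Q)) _
    (extract_V r E ε κ) rfl hV
    (by
      rintro ⟨d, hd⟩ F ⟨h1, h2, h3, h4⟩
      refine ⟨fun z e he => ?_, fun z => ?_, fun z hz => ?_, ?_⟩
      · simp only [extract_R_apply]
        have h5 : z.2 * e * d = z.2 * d * (d⁻¹ * e * d) := by group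
        have h6 : d⁻¹ * e * d ∈ E := by
          have := hE.conj_mem e he d⁻¹
          rwa [inv_inv] at this
        rw [h5]
        exact h1 (z.1, z.2 * d) _ h6
      · simp only [extract_R_apply]
        have h5 := h2 (z.1, z.2 * d)
        simp_rw [extract_tau_mul] at h5
        exact h5
      · simp only [extract_R_apply]
        refine h3 _ ?_
        change r.chiA (z.2 * d) ≠ κ
        rw [map_mul, hchiE d hd, mul_one]
        exact hz
      · simp only [extract_R_apply]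
        rw [← h4]
        exact Equiv.sum_comp (extract_P h Q d) F)
    (by
      rintro ⟨d, hd⟩ ⟨d', hd'⟩ F ⟨h1, _, _, _⟩
      funext z
      simp only [extract_R_apply]
      have h5 : z.2 * d * d' = z.2 * d' * d * (d⁻¹ * d'⁻¹ * d * d') := by group
      have h6 : d⁻¹ * d'⁻¹ * d * d' ∈ E := by
        have h7 := hDD (Subgroup.commutator_mem_commutator (D.inv_mem hd) (D.inv_mem hd'))
        rw [commutatorElement_def, inv_inv, inv_inv] at h7
        exact h7
      rw [h5]
      exact h1 (z.1, z.2 * d' * d) _ h6)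
  choose c hc using hFc
  classical
  refine ⟨κ, F, ε, fun d => if hd : d ∈ D then c ⟨d, hd⟩ else 1, hF0, hε0, hεg, hF.2.1, ?_,
    hF.2.2.1, hF.2.2.2⟩
  intro d hd
  have hcd : ∀ z : h.SA × Q, F (z.1, z.2 * d) = c ⟨d, hd⟩ * F z := fun z =>
    congrFun (hc ⟨d, hd⟩) z
  simp only [hd, dif_pos]
  refine ⟨?_, hcd⟩
  have hsum : ∑ z, ‖F z‖ ^ 2 = ‖c ⟨d, hd⟩‖ ^ 2 * ∑ z, ‖F z‖ ^ 2 := by
    calc ∑ z, ‖F z‖ ^ 2 = ∑ z : h.SA × Q, ‖F (z.1, z.2 * d)‖ ^ 2 :=
          (Equiv.sum_comp (extract_P h Q d) (fun z => ‖F z‖ ^ 2)).symm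
      _ = _ := by
          rw [Finset.mul_sum]
          refine Finset.sum_congr rfl fun z _ => ?_
          rw [hcd, norm_mul, mul_pow]
  have hpos : 0 < ∑ z, ‖F z‖ ^ 2 := by
    obtain ⟨z, hz⟩ := Function.ne_iff.1 hF0
    refine lt_of_lt_of_le ?_ (Finset.single_le_sum (f := fun z => ‖F z‖ ^ 2)
      (fun z _ => sq_nonneg _) (Finset.mem_univ z))
    have := norm_pos_iff.2 hz
    positivity
  have h1 : ‖c ⟨d, hd⟩‖ ^ 2 = 1 := by
    have h2 : (‖c ⟨d, hd⟩‖ ^ 2 - 1) * ∑ z, ‖F z‖ ^ 2 = 0 := by linarith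
    rcases mul_eq_zero.1 h2 with h3 | h3
    · linarith
    · exact absurd h3 hpos.ne'
  exact (pow_eq_one_iff_of_nonneg (norm_nonneg _) (by norm_num)).1 h1

end TauQ
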