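import Mathlib
import Pool.Agent.Work.MP_972ac7_al_tau.Interface

/-! Block `gapS`: spectral gap of a finite connected Cayley graph (helper44). -/

open scoped BigOperators

namespace TauQ

lemma gapS_invariant {S ι : Type} [Group S] [Finite S] (s : ι → S)
    (hs : Subgroup.closure (Set.range s) = ⊤) (u : S → ℂ) (hu : ∀ i y, u (s i * y) = u y) :
    ∀ y, u y = u 1 := by
  have h : ∀ x : S, ∀ y, u (x * y) = u y := by
    intro x
    have hx : x ∈ Subgroup.closure (Set.range s) := by rw [hs]; trivial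
    induction hx using Subgroup.closure_induction with
    | mem x hx =>
      obtain ⟨i, rfl⟩ := hx
      exact hu i
    | one => intro y; rw [one_mul]
    | mul x x' _ _ h h' => intro y; rw [mul_assoc, h, h']
    | inv x _ h => intro y; rw [← h (x⁻¹ * y), mul_inv_cancel_left]
  intro y
  rw [← h y 1, mul_one]

theorem gapS_proof : Stmt_gapS := by
  intro S ι _ _ _ s hs
  classical
  -- the unit sphere in the zero-sum functions is compact
  let K : Set (S → ℂ) := {u | ∑ y, u y = 0 ∧ ∑ y, ‖u y‖ ^ 2 = 1}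
  have hcl : IsClosed K := by
    apply IsClosed.inter
    · exact isClosed_eq (by fun_prop) continuous_const
    · exact isClosed_eq (by fun_prop) continuous_const
  have hbd : Bornology.IsBounded K := by
    rw [isBounded_iff_forall_norm_le]
    refine ⟨1, ?_⟩
    rintro u ⟨-, hu⟩
    rw [pi_norm_le_iff_of_nonneg zero_le_one]
    intro y
    have h1 : ‖u y‖ ^ 2 ≤ 1 := by
      rw [← hu]
      exact Finset.single_le_sum (f := fun y => ‖u y‖ ^ 2) (fun _ _ => sq_nonneg _)
        (Finset.mem_univ y)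
    nlinarith [norm_nonneg (u y)]
  have hK : IsCompact K := Metric.isCompact_of_isClosed_isBounded hcl hbd
  let V : (S → ℂ) → ℝ := fun u => ∑ i, ∑ y, ‖u (s i * y) - u y‖ ^ 2
  have hV : Continuous V := by
    show Continuous fun u : S → ℂ => ∑ i, ∑ y, ‖u (s i * y) - u y‖ ^ 2
    fun_prop
  have hVpos : ∀ u ∈ K, 0 < V u := by
    rintro u ⟨hu0, hu1⟩
    have hnn : 0 ≤ V u := Finset.sum_nonneg fun i _ => Finset.sum_nonneg fun y _ => sq_nonneg _
    rcases hnn.lt_or_eq with h | h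
    · exact h
    · exfalso
      have hz : ∀ i y, u (s i * y) = u y := by
        intro i y
        have h1 := (Finset.sum_eq_zero_iff_of_nonneg (fun i _ =>
          Finset.sum_nonneg fun y _ => sq_nonneg _)).1 h.symm i (Finset.mem_univ i)
        have h2 := (Finset.sum_eq_zero_iff_of_nonneg (fun y _ => sq_nonneg _)).1 h1 y
          (Finset.mem_univ y)
        have h3 : ‖u (s i * y) - u y‖ = 0 := by
          exact pow_eq_zero_iff (two_ne_zero) |>.1 h2
        exact sub_eq_zero.1 (norm_eq_zero.1 h3)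
      have hc := gapS_invariant s hs u hz
      have hsum : ∑ y, u y = (Fintype.card S : ℂ) * u 1 := by
        rw [Finset.sum_congr rfl fun y _ => hc y, Finset.sum_const, Finset.card_univ, nsmul_eq_mul]
      rw [hu0] at hsum
      have hcard : (Fintype.card S : ℂ) ≠ 0 := by
        exact_mod_cast Fintype.card_ne_zero
      have h1 : u 1 = 0 := by
        rcases mul_eq_zero.1 hsum.symm with h | h
        · exact absurd h hcard
        · exact h
      rw [Finset.sum_congr rfl fun y _ => by rw [hc y, h1]] at hu1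
      simp at hu1
  rcases K.eq_empty_or_nonempty with hE | hN
  · refine ⟨1, one_pos, ?_⟩
    intro u hu
    have hz : ∑ y, ‖u y‖ ^ 2 = 0 := by
      by_contra hne
      have hp : 0 < ∑ y, ‖u y‖ ^ 2 :=
        lt_of_le_of_ne (Finset.sum_nonneg fun _ _ => sq_nonneg _) (Ne.symm hne)
      set N := ∑ y, ‖u y‖ ^ 2 with hNdef
      have : (fun y => ((Real.sqrt N : ℝ) : ℂ)⁻¹ * u y) ∈ K := by
        constructor
        · rw [← Finset.mul_sum, hu, mul_zero]
        · have : ∀ y, ‖((Real.sqrt N : ℝ) : ℂ)⁻¹ * u y‖ ^ 2 = N⁻¹ * ‖u y‖ ^ 2 := by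
            intro y
            rw [norm_mul, mul_pow, norm_inv, Complex.norm_real, Real.norm_eq_abs, inv_pow, sq_abs,
              Real.sq_sqrt hp.le]
          rw [Finset.sum_congr rfl fun y _ => this y, ← Finset.mul_sum, ← hNdef,
            inv_mul_cancel₀ hne]
      rw [hE] at this
      exact this
    rw [hz, mul_zero]
    exact Finset.sum_nonneg fun i _ => Finset.sum_nonneg fun y _ => sq_nonneg _
  · obtain ⟨u₀, hu₀, hmin⟩ := hK.exists_isMinOn hN hV.continuousOn
    refine ⟨V u₀ / 2, half_pos (hVpos u₀ hu₀), ?_⟩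
    intro u hu
    rw [mul_div_cancel₀ _ (two_ne_zero)]
    show V u₀ * ∑ y, ‖u y‖ ^ 2 ≤ V u
    by_cases hne : ∑ y, ‖u y‖ ^ 2 = 0
    · rw [hne, mul_zero]
      exact Finset.sum_nonneg fun i _ => Finset.sum_nonneg fun y _ => sq_nonneg _
    have hp : 0 < ∑ y, ‖u y‖ ^ 2 :=
      lt_of_le_of_ne (Finset.sum_nonneg fun _ _ => sq_nonneg _) (Ne.symm hne)
    set N := ∑ y, ‖u y‖ ^ 2 with hNdef
    have hc : ∀ x : ℂ, ‖((Real.sqrt N : ℝ) : ℂ)⁻¹ * x‖ ^ 2 = N⁻¹ * ‖x‖ ^ 2 := by
      intro x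
      rw [norm_mul, mul_pow, norm_inv, Complex.norm_real, Real.norm_eq_abs, inv_pow, sq_abs,
        Real.sq_sqrt hp.le]
    have hmem : (fun y => ((Real.sqrt N : ℝ) : ℂ)⁻¹ * u y) ∈ K := by
      constructor
      · rw [← Finset.mul_sum, hu, mul_zero]
      · rw [Finset.sum_congr rfl fun y _ => hc (u y), ← Finset.mul_sum, ← hNdef,
          inv_mul_cancel₀ hne]
    have h1 : V u₀ ≤ V (fun y => ((Real.sqrt N : ℝ) : ℂ)⁻¹ * u y) :=
      (isMinOn_iff.1 hmin) (fun y => ((Real.sqrt N : ℝ) : ℂ)⁻¹ * u y) hmem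
    have h2 : V (fun y => ((Real.sqrt N : ℝ) : ℂ)⁻¹ * u y) = N⁻¹ * V u := by
      show ∑ i, ∑ y, ‖((Real.sqrt N : ℝ) : ℂ)⁻¹ * u (s i * y) -
        ((Real.sqrt N : ℝ) : ℂ)⁻¹ * u y‖ ^ 2 = N⁻¹ * ∑ i, ∑ y, ‖u (s i * y) - u y‖ ^ 2
      rw [Finset.mul_sum]
      refine Finset.sum_congr rfl fun i _ => ?_
      rw [Finset.mul_sum]
      refine Finset.sum_congr rfl fun y _ => ?_
      rw [← mul_sub, hc]
    rw [h2] at h1
    calc V u₀ * N ≤ (N⁻¹ * V u) * N := mul_le_mul_of_nonneg_right h1 hp.le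
      _ = V u := by field_simp

end TauQ
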