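import Mathlib
import Pool.Agent.Work.MP_972ac7_al_tau.Interface

/-!
# Block gen: generation of the norm one group modulo `p`
-/

open scoped Quaternion BigOperators

namespace TauQ

/-- the numerical contradiction -/
lemma gen_num (K : ℕ) (hK : 0 < K) (C : ℝ) (hC : 0 < C) (p q : ℕ) (hp1 : 2 ≤ p)
    (hpq : p < q ^ K) (hqp : q < p ^ K)
    (hbig : ((8 * 16 ^ (2 * K) + 4 * 16 ^ (2 * K) * C * (4 * K + 1) + 1 : ℝ)) ^ 2 < p)
    (hW : ((p : ℝ) - 1) * ((q : ℝ) + 1) ^ (8 * K) ≤ 2 * ((p : ℝ) ^ 3 * ((4 * q) ^ (4 * K) *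
      (4 + C * (4 * K + 1) * ((q : ℝ) ^ (4 * K)) ^ (1 / (8 * (K : ℝ) ^ 2)) *
        ((q : ℝ) ^ (4 * K) / (p : ℝ) ^ 3 + 1 / p))))) : False := by
  have hp0 : (0 : ℝ) < p := by positivity
  have hp1' : (1 : ℝ) ≤ p := by exact_mod_cast (by omega : 1 ≤ p)
  have hq0 : 0 < q := by
    rcases Nat.eq_zero_or_pos q with h | h
    · rw [h, zero_pow hK.ne'] at hpq; omega
    · exact h
  have hq0' : (0 : ℝ) < q := by exact_mod_cast hq0
  have hK0 : (0 : ℝ) < K := by exact_mod_cast hK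
  have hpq' : (p : ℝ) ≤ (q : ℝ) ^ K := by exact_mod_cast hpq.le
  have hqp' : (q : ℝ) ≤ (p : ℝ) ^ K := by exact_mod_cast hqp.le
  set X : ℝ := (q : ℝ) ^ (4 * K) with hX
  have hX0 : 0 < X := by positivity
  have hXp : (p : ℝ) ^ 4 ≤ X := by
    have := pow_le_pow_left₀ hp0.le hpq' 4
    rw [← pow_mul] at this
    rw [hX, mul_comm 4 K]
    exact this
  have hs : X ^ (1 / (8 * (K : ℝ) ^ 2)) ≤ Real.sqrt p := by
    have h1 : X ≤ (p : ℝ) ^ (4 * K ^ 2) := by
      have := pow_le_pow_left₀ hq0'.le hqp' (4 * K)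
      rw [← pow_mul] at this
      rw [hX]
      refine this.trans (le_of_eq ?_)
      congr 1
      ring
    refine (Real.rpow_le_rpow hX0.le h1 (by positivity)).trans (le_of_eq ?_)
    rw [← Real.rpow_natCast, ← Real.rpow_mul hp0.le, Real.sqrt_eq_rpow]
    congr 1
    push_cast
    field_simp
    norm_num
  set s : ℝ := X ^ (1 / (8 * (K : ℝ) ^ 2)) with hs'
  have hs0 : 0 ≤ s := by positivity
  set c : ℝ := 16 ^ (2 * K) with hc
  have hc0 : 0 < c := by positivity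
  set E : ℝ := C * (4 * K + 1) with hE
  have hE0 : 0 < E := by positivity
  -- lower bound for the left side
  have hL : ((p : ℝ) - 1) * X ^ 2 ≤ ((p : ℝ) - 1) * ((q : ℝ) + 1) ^ (8 * K) := by
    refine mul_le_mul_of_nonneg_left ?_ (by linarith)
    have : X ^ 2 = (q : ℝ) ^ (8 * K) := by
      rw [hX, ← pow_mul]
      congr 1
      ring
    rw [this]
    exact pow_le_pow_left₀ hq0'.le (by linarith) _
  have h4 : ((4 : ℝ) * q) ^ (4 * K) = c * X := by
    rw [mul_pow, hX, hc]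
    congr 1
    rw [show 4 * K = 2 * (2 * K) by ring, pow_mul (4 : ℝ) 2]
    norm_num
  rw [h4] at hW
  have h5 := hL.trans hW
  -- simplify
  have h6 : ((p : ℝ) - 1) * X ≤ 2 * c * (4 * (p : ℝ) ^ 3 + E * s * (X + (p : ℝ) ^ 2)) := by
    have h7 : 2 * ((p : ℝ) ^ 3 * (c * X * (4 + E * s * (X / (p : ℝ) ^ 3 + 1 / p)))) =
        X * (2 * c * (4 * (p : ℝ) ^ 3 + E * s * (X + (p : ℝ) ^ 2))) := by
      field_simp
    rw [h7] at h5
    have h8 : X * (((p : ℝ) - 1) * X) ≤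
        X * (2 * c * (4 * (p : ℝ) ^ 3 + E * s * (X + (p : ℝ) ^ 2))) := by
      refine le_trans (le_of_eq ?_) h5
      ring
    exact le_of_mul_le_mul_left h8 hX0
  have hp2X : (p : ℝ) ^ 2 ≤ X := le_trans (pow_le_pow_right₀ hp1' (by norm_num)) hXp
  have hp3X : (p : ℝ) ^ 3 ≤ X := le_trans (pow_le_pow_right₀ hp1' (by norm_num)) hXp
  have h9 : ((p : ℝ) - 1) * X ≤ (8 * c + 4 * c * E * s) * X := by
    refine h6.trans ?_
    have e1 : E * s * (X + (p : ℝ) ^ 2) ≤ E * s * (2 * X) :=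
      mul_le_mul_of_nonneg_left (by linarith) (by positivity)
    have e2 : 4 * (p : ℝ) ^ 3 ≤ 4 * X := by linarith
    have := mul_le_mul_of_nonneg_left (add_le_add e2 e1) (by positivity : 0 ≤ 2 * c)
    refine this.trans (le_of_eq ?_)
    ring
  have h10 : (p : ℝ) - 1 ≤ 8 * c + 4 * c * E * s := le_of_mul_le_mul_right h9 hX0
  have hsq1 : 1 ≤ Real.sqrt p := by
    rw [Real.one_le_sqrt]
    exact hp1'
  have hsqp : Real.sqrt p * Real.sqrt p = p := Real.mul_self_sqrt hp0.le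
  have h11 : (p : ℝ) ≤ (8 * c + 4 * c * E + 1) * Real.sqrt p := by
    have e1 : 4 * c * E * s ≤ 4 * c * E * Real.sqrt p :=
      mul_le_mul_of_nonneg_left hs (by positivity)
    have e2 : 8 * c ≤ 8 * c * Real.sqrt p := le_mul_of_one_le_right (by positivity) hsq1
    nlinarith
  have h12 : Real.sqrt p ≤ 8 * c + 4 * c * E + 1 := by
    have : Real.sqrt p * Real.sqrt p ≤ (8 * c + 4 * c * E + 1) * Real.sqrt p := by
      rw [hsqp]; exact h11
    exact le_of_mul_le_mul_right this (by linarith)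
  have h13 : (p : ℝ) ≤ (8 * c + 4 * c * E + 1) ^ 2 := by
    rw [← hsqp, ← sq]
    exact pow_le_pow_left₀ (by linarith) h12 2
  have h14 : (8 * c + 4 * c * C * (4 * (K : ℝ) + 1) + 1) ^ 2 = (8 * c + 4 * c * E + 1) ^ 2 := by
    rw [hE]; ring
  rw [h14] at hbig
  linarith

theorem gen_proof (hSC : Stmt_SC) (hWW : Stmt_WW) (hcard : Stmt_card) : Stmt_gen := by
  classical
  intro K
  rcases Nat.eq_zero_or_pos K with hK | hK
  · subst hK
    refine ⟨0, fun p q hp _ _ _ _ _ _ h1 => ?_⟩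
    rw [pow_zero] at h1
    exact absurd h1 (by have := hp.one_lt; omega)
  have hK0 : (0 : ℝ) < K := by exact_mod_cast hK
  obtain ⟨C, hC, hWW'⟩ := hWW (1 / (8 * (K : ℝ) ^ 2)) (by positivity)
  refine ⟨⌈((8 * 16 ^ (2 * K) + 4 * 16 ^ (2 * K) * C * (4 * K + 1) + 1 : ℝ)) ^ 2⌉₊ + 1, ?_⟩
  intro p q hp hq hp4 hq4 hPp _ hpq hpqK hqpK hM
  by_contra htop
  have : NeZero p := ⟨hp.ne_zero⟩
  have hpodd : Odd p := by
    rw [Nat.odd_iff]; omega
  set Hc := Subgroup.closure {x : unitary ℍ[ZMod p] | ∃ b' b : SS q, x = uM p hM b' b} with hHc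
  obtain ⟨g, hg⟩ : ∃ g, g ∉ Hc := by
    by_contra hcon
    push Not at hcon
    exact htop (eq_top_iff.mpr fun x _ => hcon x)
  obtain ⟨M', hM'd, hM'1, hM'⟩ := hSC q hq hq4 p hM hpodd Unit (fun _ => 1) (by intros; simp)
    (((q + 1 : ℕ) : ℝ) ^ 2) (fun z => if z.2 ∈ Hc then 1 else 0)
    (by
      intro z
      have h1 : ∀ b' b : SS q, (uM p hM b' b * z.2 ∈ Hc ↔ z.2 ∈ Hc) := by
        intro b' b
        refine Subgroup.mul_mem_cancel_left Hc ?_
        exact Subgroup.subset_closure ⟨b', b, rfl⟩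
      simp only [h1, Finset.sum_const, Finset.card_univ, hcard q hq hq4, nsmul_eq_mul]
      push_cast
      ring)
    ⟨(), 1, g, by
      simp only [one_mul, if_neg hg]
      rw [if_pos Hc.one_mem]
      exact zero_ne_one⟩
  have hM'p : M' = p := ((Nat.dvd_prime hp).mp hM'd).resolve_left (by omega)
  subst hM'p
  have h1 := hM' (2 * K)
  have hcop : Nat.Coprime M' (2 * q) := by
    refine Nat.Coprime.mul_right ?_ ((Nat.coprime_primes hp hq).mpr hpq)
    exact hpodd.coprime_two_right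
  have h2 := hWW' q M' (4 * K) hq hq4 hp.pos hcop
  refine gen_num K hK C hC M' q hp.two_le hpqK hqpK ?_ ?_
  · exact lt_of_le_of_lt (Nat.le_ceil _) (Nat.cast_lt.mpr (Nat.lt_of_succ_le hPp))
  · rw [Nat.totient_prime hp, hp.primeFactors, Finset.card_singleton, Fintype.card_unit] at h1
    have e1 : ((M' - 1 : ℕ) : ℝ) = (M' : ℝ) - 1 := by
      rw [Nat.cast_sub hp.one_le]; simp
    rw [e1] at h1
    have e2 : (((q + 1 : ℕ) : ℝ) ^ 2) ^ (2 * (2 * K)) = ((q : ℝ) + 1) ^ (8 * K) := by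
      rw [← pow_mul]
      push_cast
      congr 1
      ring
    rw [e2, show 4 * (2 * K) = 2 * (4 * K) by ring] at h1
    refine h1.trans ?_
    simp only [pow_one, Nat.cast_one, one_mul]
    refine mul_le_mul_of_nonneg_left ?_ (by norm_num)
    refine mul_le_mul_of_nonneg_left ?_ (by positivity)
    push_cast at h2
    exact h2

end TauQ
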