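import Mathlib
import Pool.Agent.Work.MP_972ac7_al_tau.Interface

/-!
# Block hat: the group generated by the quaternions of norms `p` and `q`
-/

set_option autoImplicit false

open scoped Quaternion BigOperators

namespace TauQ

section hatBasic

variable {p q : ℕ}

/-- the embedding of `Z[1/pq]` into the rationals -/
noncomputable def hat_phi (p q : ℕ) (hp : p.Prime) (hq : q.Prime) : RR p q →+* ℚ :=
  IsLocalization.Away.lift (((p * q : ℕ) : ℤ)) (g := Int.castRingHom ℚ) (by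
    have hp0 : (p : ℚ) ≠ 0 := by exact_mod_cast hp.ne_zero
    have hq0 : (q : ℚ) ≠ 0 := by exact_mod_cast hq.ne_zero
    rw [isUnit_iff_ne_zero]
    simp [hp0, hq0])

lemma hat_unit_pq (p q : ℕ) : IsUnit (((p * q : ℕ) : RR p q)) := by
  have h := IsLocalization.Away.algebraMap_isUnit (S := RR p q) (((p * q : ℕ) : ℤ))
  simpa using h

lemma hat_unit_p (p q : ℕ) : IsUnit ((p : ℕ) : RR p q) := by
  have h := hat_unit_pq p q
  rw [Nat.cast_mul] at h
  exact isUnit_of_mul_isUnit_left h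

lemma hat_unit_q (p q : ℕ) : IsUnit ((q : ℕ) : RR p q) := by
  have h := hat_unit_pq p q
  rw [Nat.cast_mul] at h
  exact isUnit_of_mul_isUnit_right h

lemma hat_phi_inj (hp : p.Prime) (hq : q.Prime) :
    Function.Injective (hat_phi p q hp hq) := by
  rw [injective_iff_map_eq_zero]
  intro x hx
  obtain ⟨⟨a, s⟩, hs⟩ := IsLocalization.surj (Submonoid.powers (((p * q : ℕ) : ℤ))) x
  obtain ⟨s, k, hk⟩ := s
  have h1 : hat_phi p q hp hq (algebraMap ℤ (RR p q) a) = 0 := by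
    rw [← hs, map_mul, hx, zero_mul]
  have h2 : a = 0 := by
    simpa using h1
  have h3 : IsUnit (algebraMap ℤ (RR p q) s) := by
    have hk' : (((p * q : ℕ) : ℤ)) ^ k = s := hk
    rw [← hk', map_pow]
    apply IsUnit.pow
    have := hat_unit_pq p q
    simpa using this
  have h4 : x * algebraMap ℤ (RR p q) s = 0 := by
    have : x * algebraMap ℤ (RR p q) s = algebraMap ℤ (RR p q) a := hs
    rw [this, h2, map_zero]
  exact (IsUnit.mul_left_eq_zero h3).1 h4

lemma hat_cast_inj (hp : p.Prime) (hq : q.Prime) {m n : ℤ} (h : (m : RR p q) = (n : RR p q)) :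
    m = n := by
  have h1 := congrArg (hat_phi p q hp hq) h
  simpa using h1

lemma hat_castR_re (α : ℍ[ℤ]) : (castR p q α).re = ((α.re : ℤ) : RR p q) := by
  simp [castR]

lemma hat_normSq_castR (α : ℍ[ℤ]) :
    Quaternion.normSq (castR p q α) = ((Quaternion.normSq α : ℤ) : RR p q) := by
  rw [castR, normSq_qmap, eq_intCast]

lemma hat_self_star (α : ℍ[ℤ]) : castR p q α * castR p q (star α) =
    algebraMap (RR p q) ℍ[RR p q] ((Quaternion.normSq α : ℤ) : RR p q) := by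
  rw [← map_mul, Quaternion.self_mul_star]
  ext <;> simp [castR]

lemma hat_star_self (α : ℍ[ℤ]) : castR p q (star α) * castR p q α =
    algebraMap (RR p q) ℍ[RR p q] ((Quaternion.normSq α : ℤ) : RR p q) := by
  rw [← map_mul, Quaternion.star_mul_self]
  ext <;> simp [castR]

end hatBasic

section hatGroup

variable (p q : ℕ)

/-- `p` as a unit -/
noncomputable def hat_pu : (RR p q)ˣ := (hat_unit_p p q).unit

/-- `q` as a unit -/
noncomputable def hat_qu : (RR p q)ˣ := (hat_unit_q p q).unit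

lemma hat_pu_val : ((hat_pu p q : (RR p q)ˣ) : RR p q) = (p : RR p q) := rfl
lemma hat_qu_val : ((hat_qu p q : (RR p q)ˣ) : RR p q) = (q : RR p q) := rfl

/-- the scalar `p^a q^b` -/
noncomputable def hat_sc (a b : ℕ) : (RR p q)ˣ := hat_pu p q ^ a * hat_qu p q ^ b

lemma hat_sc_val (a b : ℕ) : ((hat_sc p q a b : (RR p q)ˣ) : RR p q) = ((p ^ a * q ^ b : ℕ) : RR p q) := by
  rw [hat_sc, Units.val_mul, Units.val_pow_eq_pow_val, Units.val_pow_eq_pow_val, hat_pu_val,
    hat_qu_val]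
  push_cast
  ring

/-- the norm is `p^a q^b` -/
def hat_N (α : ℍ[ℤ]) (a b : ℕ) : Prop := Quaternion.normSq α = ((p ^ a * q ^ b : ℕ) : ℤ)

variable {p q}

/-- an integral quaternion of norm `p^a q^b` as a unit -/
noncomputable def hat_U (α : ℍ[ℤ]) (a b : ℕ) (h : hat_N p q α a b) : (ℍ[RR p q])ˣ where
  val := castR p q α
  inv := algebraMap (RR p q) ℍ[RR p q] ((hat_sc p q a b)⁻¹ : (RR p q)ˣ) * castR p q (star α)
  val_inv := by
    rw [← mul_assoc, ← Algebra.commutes, mul_assoc, hat_self_star, ← map_mul, h,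
      Int.cast_natCast, ← hat_sc_val, Units.inv_mul, map_one]
  inv_val := by
    rw [mul_assoc, hat_star_self, ← map_mul, h, Int.cast_natCast, ← hat_sc_val, Units.inv_mul,
      map_one]

@[simp] lemma hat_U_val (α : ℍ[ℤ]) (a b : ℕ) (h : hat_N p q α a b) :
    ((hat_U α a b h : (ℍ[RR p q])ˣ) : ℍ[RR p q]) = castR p q α := rfl

/-- the scalars -/
noncomputable def hat_Z (p q : ℕ) : Subgroup (ℍ[RR p q])ˣ :=
  (Units.map ((algebraMap (RR p q) ℍ[RR p q]) : RR p q →* ℍ[RR p q])).range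

instance hat_Z_normal (p q : ℕ) : (hat_Z p q).Normal := by
  constructor
  rintro n ⟨c, rfl⟩ g
  refine ⟨c, ?_⟩
  apply Units.ext
  rw [Units.val_mul, Units.val_mul, Units.coe_map]
  have : (g : ℍ[RR p q]) * (algebraMap (RR p q) ℍ[RR p q]) (c : RR p q) =
      (algebraMap (RR p q) ℍ[RR p q]) (c : RR p q) * (g : ℍ[RR p q]) :=
    (Algebra.commutes _ _).symm
  simp only [MonoidHom.coe_coe]
  rw [this, mul_assoc, Units.mul_inv, mul_one]

/-- the class of a unit modulo scalars -/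
noncomputable def hat_cl (p q : ℕ) : (ℍ[RR p q])ˣ →* (ℍ[RR p q])ˣ ⧸ hat_Z p q :=
  QuotientGroup.mk' (hat_Z p q)

lemma hat_cl_one_iff (u : (ℍ[RR p q])ˣ) : hat_cl p q u = 1 ↔
    ∃ c : (RR p q)ˣ, (u : ℍ[RR p q]) = algebraMap (RR p q) ℍ[RR p q] (c : RR p q) := by
  have h : hat_cl p q u = 1 ↔ u ∈ hat_Z p q := by
    show (QuotientGroup.mk' (hat_Z p q)) u = 1 ↔ _
    rw [← MonoidHom.mem_ker, QuotientGroup.ker_mk']
  rw [h]
  constructor
  · rintro ⟨c, rfl⟩
    exact ⟨c, rfl⟩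
  · rintro ⟨c, hc⟩
    exact ⟨c, Units.ext hc.symm⟩

lemma hat_cl_eq (u v : (ℍ[RR p q])ˣ) (c : (RR p q)ˣ)
    (h : (u : ℍ[RR p q]) = algebraMap (RR p q) ℍ[RR p q] (c : RR p q) * v) :
    hat_cl p q u = hat_cl p q v := by
  have h1 : hat_cl p q (u * v⁻¹) = 1 := by
    rw [hat_cl_one_iff]
    refine ⟨c, ?_⟩
    rw [Units.val_mul, h, mul_assoc, Units.mul_inv, mul_one]
  rw [map_mul, map_inv, mul_inv_eq_one] at h1
  exact h1

lemma hat_N_mul {α β : ℍ[ℤ]} {a b a' b' : ℕ} (h : hat_N p q α a b) (h' : hat_N p q β a' b') :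
    hat_N p q (α * β) (a + a') (b + b') := by
  rw [hat_N, map_mul, h, h']
  push_cast
  ring

lemma hat_U_mul {α β : ℍ[ℤ]} {a b a' b' : ℕ} (h : hat_N p q α a b) (h' : hat_N p q β a' b') :
    hat_U α a b h * hat_U β a' b' h' = hat_U (α * β) (a + a') (b + b') (hat_N_mul h h') := by
  apply Units.ext
  simp

lemma hat_U_congr {α β : ℍ[ℤ]} {a b a' b' : ℕ} (h : hat_N p q α a b) (h' : hat_N p q β a' b')
    (he : α = β) : hat_U α a b h = hat_U β a' b' h' := by
  apply Units.ext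
  simp [he]

lemma hat_N_star {α : ℍ[ℤ]} {a b : ℕ} (h : hat_N p q α a b) : hat_N p q (star α) a b := by
  rw [hat_N, Quaternion.normSq_star, h]

lemma hat_N_one : hat_N p q 1 0 0 := by
  simp [hat_N]

lemma hat_cl_star {α : ℍ[ℤ]} {a b : ℕ} (h : hat_N p q α a b) :
    hat_cl p q (hat_U (star α) a b (hat_N_star h)) = (hat_cl p q (hat_U α a b h))⁻¹ := by
  rw [eq_inv_iff_mul_eq_one, ← map_mul, hat_cl_one_iff]
  refine ⟨hat_sc p q a b, ?_⟩
  rw [Units.val_mul, hat_U_val, hat_U_val, hat_star_self, h, Int.cast_natCast, hat_sc_val]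

/-- the letters of norm `p` -/
noncomputable def hat_A (a : SS p) : (ℍ[RR p q])ˣ := hat_U a.val 1 0 (by
  rw [hat_N, a.norm]; simp)

/-- the letters of norm `q` -/
noncomputable def hat_B (b : SS q) : (ℍ[RR p q])ˣ := hat_U b.val 0 1 (by
  rw [hat_N, b.norm]; simp)

lemma hat_A_val (a : SS p) : ((hat_A a : (ℍ[RR p q])ˣ) : ℍ[RR p q]) = castR p q a.val := rfl
lemma hat_B_val (b : SS q) : ((hat_B b : (ℍ[RR p q])ˣ) : ℍ[RR p q]) = castR p q b.val := rfl

/-- the group generated by the letters modulo scalars -/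
noncomputable def hat_G (p q : ℕ) : Subgroup ((ℍ[RR p q])ˣ ⧸ hat_Z p q) :=
  Subgroup.closure (Set.range (fun a : SS p => hat_cl p q (hat_A a)) ∪
    Set.range (fun b : SS q => hat_cl p q (hat_B b)))

lemma hat_rep {x : (ℍ[RR p q])ˣ ⧸ hat_Z p q} (hx : x ∈ hat_G p q) :
    ∃ (α : ℍ[ℤ]) (a b : ℕ) (h : hat_N p q α a b), α ∈ OO ∧ x = hat_cl p q (hat_U α a b h) := by
  induction hx using Subgroup.closure_induction with
  | mem x hx =>
    rcases hx with ⟨a, rfl⟩ | ⟨b, rfl⟩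
    · exact ⟨a.val, 1, 0, _, a.mem, rfl⟩
    · exact ⟨b.val, 0, 1, _, b.mem, rfl⟩
  | one =>
    refine ⟨1, 0, 0, hat_N_one, OO.one_mem, ?_⟩
    have : hat_U (p := p) (q := q) 1 0 0 hat_N_one = 1 := by
      apply Units.ext; simp
    rw [this, map_one]
  | mul x y _ _ hx hy =>
    obtain ⟨α, a, b, h, hα, rfl⟩ := hx
    obtain ⟨β, a', b', h', hβ, rfl⟩ := hy
    exact ⟨α * β, a + a', b + b', hat_N_mul h h', OO.mul_mem hα hβ, by
      rw [← map_mul, hat_U_mul]⟩
  | inv x _ hx =>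
    obtain ⟨α, a, b, h, hα, rfl⟩ := hx
    exact ⟨star α, a, b, hat_N_star h, OO_star hα, (hat_cl_star h).symm⟩

end hatGroup

section hatFact

lemma hat_OO_of_mul {r : ℕ} (hr : r % 4 = 1) {α γ : ℍ[ℤ]} (hα : α ∈ OO)
    (h : α = (r : ℍ[ℤ]) * γ) : γ ∈ OO := by
  obtain ⟨h0, h1, h2, h3⟩ := hα
  have e : α = (r : ℤ) • γ := by
    rw [h]
    ext <;> simp
  have e0 : α.re = r * γ.re := by rw [e]; simp
  have e1 : α.imI = r * γ.imI := by rw [e]; simp
  have e2 : α.imJ = r * γ.imJ := by rw [e]; simp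
  have e3 : α.imK = r * γ.imK := by rw [e]; simp
  have hr4 : (r : ℤ) % 4 = 1 := by exact_mod_cast hr
  have hr2 : ¬ (2 : ℤ) ∣ (r : ℤ) := by omega
  have h2p : Prime (2 : ℤ) := Int.prime_two
  refine ⟨?_, ?_, ?_, ?_⟩
  · rw [e0, Int.mul_emod, hr4] at h0
    omega
  · rw [e1] at h1
    exact (h2p.dvd_mul.1 h1).resolve_left hr2
  · rw [e2] at h2
    exact (h2p.dvd_mul.1 h2).resolve_left hr2
  · rw [e3] at h3
    exact (h2p.dvd_mul.1 h3).resolve_left hr2

lemma hat_OO_of_letter {r : ℕ} (hr : r % 4 = 1) {α γ : ℍ[ℤ]} (hα : α ∈ OO) (β : SS r)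
    (h : α = β.val * γ) : γ ∈ OO := by
  apply hat_OO_of_mul (α := star β.val * α) hr (OO.mul_mem (OO_star β.mem) hα)
  rw [h, ← mul_assoc, Quaternion.star_mul_self, β.norm]
  ext <;> simp

lemma hat_normSq_natMul (r : ℕ) (γ : ℍ[ℤ]) :
    Quaternion.normSq ((r : ℍ[ℤ]) * γ) = (r : ℤ) ^ 2 * Quaternion.normSq γ := by
  rw [map_mul]
  congr 1
  rw [Quaternion.normSq_natCast]

lemma hat_eq_one {α : ℍ[ℤ]} (hα : α ∈ OO) (h : Quaternion.normSq α = 1) : α = 1 := by
  obtain ⟨h0, h1, h2, h3⟩ := hα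
  rw [Quaternion.normSq_def'] at h
  have hre : α.re ^ 2 ≥ 1 := by
    have : α.re ≠ 0 := by intro h00; rw [h00] at h0; norm_num at h0
    have : 0 < α.re ^ 2 := by positivity
    omega
  have hI : α.imI ^ 2 = 0 := by nlinarith [sq_nonneg α.imI, sq_nonneg α.imJ, sq_nonneg α.imK]
  have hJ : α.imJ ^ 2 = 0 := by nlinarith [sq_nonneg α.imI, sq_nonneg α.imJ, sq_nonneg α.imK]
  have hK : α.imK ^ 2 = 0 := by nlinarith [sq_nonneg α.imI, sq_nonneg α.imJ, sq_nonneg α.imK]
  have hR : α.re ^ 2 = 1 := by nlinarith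
  have hI' : α.imI = 0 := by simpa using hI
  have hJ' : α.imJ = 0 := by simpa using hJ
  have hK' : α.imK = 0 := by simpa using hK
  have hR' : α.re = 1 := by
    have h5 : (α.re - 1) * (α.re + 1) = 0 := by linear_combination hR
    rcases mul_eq_zero.1 h5 with h | h
    · omega
    · omega
  ext <;> simp [hI', hJ', hK', hR']

variable {p q : ℕ}

lemma hat_mem (hE : Stmt_exists) (hp : p.Prime) (hq : q.Prime) (hp4 : p % 4 = 1)
    (hq4 : q % 4 = 1) (hpq : p ≠ q) :
    ∀ (n a b : ℕ), a + b = n → ∀ (α : ℍ[ℤ]) (h : hat_N p q α a b), α ∈ OO →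
      hat_cl p q (hat_U α a b h) ∈ hat_G p q := by
  intro n
  induction n using Nat.strong_induction_on with
  | _ n ih =>
    intro a b hab α h hα
    rcases Nat.eq_zero_or_pos a with ha | ha
    · rcases Nat.eq_zero_or_pos b with hb | hb
      · subst ha; subst hb
        have h1 : α = 1 := hat_eq_one hα (by rw [hat_N] at h; simpa using h)
        have h2 : hat_U α 0 0 h = 1 := by apply Units.ext; simp [h1]
        rw [h2, map_one]
        exact Subgroup.one_mem _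
      · -- a letter of norm `q`
        obtain ⟨b', rfl⟩ : ∃ k, b = k + 1 := ⟨b - 1, by omega⟩
        subst ha
        have hdvd : (q : ℤ) ∣ Quaternion.normSq α := by
          rw [h]; push_cast
          exact ⟨(p : ℤ) ^ 0 * (q : ℤ) ^ b', by ring⟩
        have hq0 : (q : ℤ) ≠ 0 := by exact_mod_cast hq.ne_zero
        by_cases hd : ∃ γ : ℍ[ℤ], α = (q : ℍ[ℤ]) * γ
        · obtain ⟨γ, hγ⟩ := hd
          have hn : (q : ℤ) ^ 2 * Quaternion.normSq γ = ((p ^ 0 * q ^ (b' + 1) : ℕ) : ℤ) := by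
            rw [← hat_normSq_natMul, ← hγ]; exact h
          have hb1 : b' ≠ 0 := by
            rintro rfl
            have h1 : (q : ℤ) * ((q : ℤ) * Quaternion.normSq γ) = q * 1 := by
              push_cast at hn; linarith
            have h2 := mul_left_cancel₀ hq0 h1
            have h3 : (q : ℤ) ∣ 1 := ⟨_, h2.symm⟩
            have h4 : q ∣ 1 := by exact_mod_cast h3
            exact hq.one_lt.ne' (Nat.dvd_one.1 h4)
          obtain ⟨b'', rfl⟩ : ∃ k, b' = k + 1 := ⟨b' - 1, by omega⟩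
          have hN : hat_N p q γ 0 b'' := by
            rw [hat_N]
            apply mul_left_cancel₀ (pow_ne_zero 2 hq0)
            rw [hn]; push_cast; ring
          have hmem := ih (0 + b'') (by omega) 0 b'' rfl γ hN (hat_OO_of_mul hq4 hα hγ)
          rw [hat_cl_eq (hat_U α 0 (b'' + 1 + 1) h) (hat_U γ 0 b'' hN) (hat_qu p q)]
          · exact hmem
          · rw [hat_U_val, hat_U_val, hat_qu_val, hγ, map_mul]
            congr 1
        · push Not at hd
          obtain ⟨β, γ, hγ⟩ := hE q hq hq4 α hd hdvd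
          have hN : hat_N p q γ 0 b' := by
            rw [hat_N]
            apply mul_left_cancel₀ hq0
            have : (q : ℤ) * Quaternion.normSq γ = Quaternion.normSq α := by
              rw [hγ, map_mul, β.norm]
            rw [this, h]; push_cast; ring
          have hmem := ih (0 + b') (by omega) 0 b' rfl γ hN (hat_OO_of_letter hq4 hα β hγ)
          have e : hat_U α 0 (b' + 1) h = hat_B β * hat_U γ 0 b' hN := by
            apply Units.ext
            rw [Units.val_mul, hat_B_val, hat_U_val, hat_U_val, hγ, map_mul]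
          rw [e, map_mul]
          exact Subgroup.mul_mem _ (Subgroup.subset_closure (Or.inr ⟨β, rfl⟩)) hmem
    · -- a letter of norm `p`
      obtain ⟨a', rfl⟩ : ∃ k, a = k + 1 := ⟨a - 1, by omega⟩
      have hdvd : (p : ℤ) ∣ Quaternion.normSq α := by
        rw [h]; push_cast
        exact ⟨(p : ℤ) ^ a' * (q : ℤ) ^ b, by ring⟩
      have hp0 : (p : ℤ) ≠ 0 := by exact_mod_cast hp.ne_zero
      by_cases hd : ∃ γ : ℍ[ℤ], α = (p : ℍ[ℤ]) * γ
      · obtain ⟨γ, hγ⟩ := hd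
        have hn : (p : ℤ) ^ 2 * Quaternion.normSq γ = ((p ^ (a' + 1) * q ^ b : ℕ) : ℤ) := by
          rw [← hat_normSq_natMul, ← hγ]; exact h
        have ha1 : a' ≠ 0 := by
          rintro rfl
          have h1 : (p : ℤ) * ((p : ℤ) * Quaternion.normSq γ) = p * (q : ℤ) ^ b := by
            push_cast at hn; linarith
          have h2 := mul_left_cancel₀ hp0 h1
          have h3 : (p : ℤ) ∣ (q : ℤ) ^ b := ⟨_, h2.symm⟩
          have h4 : p ∣ q ^ b := by exact_mod_cast h3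
          exact hpq ((Nat.prime_dvd_prime_iff_eq hp hq).1 (hp.dvd_of_dvd_pow h4))
        obtain ⟨a'', rfl⟩ : ∃ k, a' = k + 1 := ⟨a' - 1, by omega⟩
        have hN : hat_N p q γ a'' b := by
          rw [hat_N]
          apply mul_left_cancel₀ (pow_ne_zero 2 hp0)
          rw [hn]; push_cast; ring
        have hmem := ih (a'' + b) (by omega) a'' b rfl γ hN (hat_OO_of_mul hp4 hα hγ)
        rw [hat_cl_eq (hat_U α (a'' + 1 + 1) b h) (hat_U γ a'' b hN) (hat_pu p q)]
        · exact hmem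
        · rw [hat_U_val, hat_U_val, hat_pu_val, hγ, map_mul]
          congr 1
      · push Not at hd
        obtain ⟨β, γ, hγ⟩ := hE p hp hp4 α hd hdvd
        have hN : hat_N p q γ a' b := by
          rw [hat_N]
          apply mul_left_cancel₀ hp0
          have : (p : ℤ) * Quaternion.normSq γ = Quaternion.normSq α := by
            rw [hγ, map_mul, β.norm]
          rw [this, h]; push_cast; ring
        have hmem := ih (a' + b) (by omega) a' b rfl γ hN (hat_OO_of_letter hp4 hα β hγ)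
        have e : hat_U α (a' + 1) b h = hat_A β * hat_U γ a' b hN := by
          apply Units.ext
          rw [Units.val_mul, hat_A_val, hat_U_val, hat_U_val, hγ, map_mul]
        rw [e, map_mul]
        exact Subgroup.mul_mem _ (Subgroup.subset_closure (Or.inl ⟨β, rfl⟩)) hmem

end hatFact

section hatChar

variable {p q : ℕ}

/-- the rational norm -/
noncomputable def hat_nQ (hp : p.Prime) (hq : q.Prime) : (ℍ[RR p q])ˣ →* ℚˣ :=
  Units.map (((hat_phi p q hp hq : RR p q →+* ℚ) : RR p q →* ℚ).comp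
    ((Quaternion.normSq : ℍ[RR p q] →*₀ RR p q) : ℍ[RR p q] →* RR p q))

lemma hat_nQ_val (hp : p.Prime) (hq : q.Prime) (u : (ℍ[RR p q])ˣ) :
    ((hat_nQ hp hq u : ℚˣ) : ℚ) = hat_phi p q hp hq (Quaternion.normSq (u : ℍ[RR p q])) := rfl

/-- the parity of the valuation -/
noncomputable def hat_chi0 (r : ℕ) (hr : r.Prime) : ℚˣ →* ℤˣ where
  toFun x := (-1) ^ (padicValRat r (x : ℚ))
  map_one' := by simp
  map_mul' x y := by
    have := Fact.mk hr
    rw [Units.val_mul, padicValRat.mul x.ne_zero y.ne_zero, zpow_add]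

lemma hat_val {r s : ℕ} (hr : r.Prime) (hs : s.Prime) (hrs : r ≠ s) (a b : ℕ) :
    padicValRat r (((r ^ a * s ^ b : ℕ) : ℤ) : ℚ) = a := by
  have := Fact.mk hr
  have := Fact.mk hs
  rw [Int.cast_natCast, padicValRat.of_nat,
    padicValNat.mul (pow_ne_zero _ hr.ne_zero) (pow_ne_zero _ hs.ne_zero),
    padicValNat.prime_pow, padicValNat.pow, padicValNat_primes hrs]
  simp

/-- parity of the valuation of the norm -/
noncomputable def hat_chi (hp : p.Prime) (hq : q.Prime) (r : ℕ) (hr : r.Prime) :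
    (ℍ[RR p q])ˣ ⧸ hat_Z p q →* ℤˣ :=
  QuotientGroup.lift (hat_Z p q) ((hat_chi0 r hr).comp (hat_nQ hp hq)) (by
    rintro u ⟨c, rfl⟩
    have h1 : hat_nQ hp hq (Units.map ((algebraMap (RR p q) ℍ[RR p q]) : RR p q →* ℍ[RR p q]) c)
        = (Units.map ((hat_phi p q hp hq : RR p q →+* ℚ) : RR p q →* ℚ) c) ^ 2 := by
      apply Units.ext
      rw [hat_nQ_val, Units.val_pow_eq_pow_val, Units.coe_map, Units.coe_map]
      simp [Quaternion.normSq_def']
    rw [MonoidHom.mem_ker, MonoidHom.comp_apply, h1, map_pow, Int.units_sq])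

lemma hat_chi_p (hp : p.Prime) (hq : q.Prime) (hpq : p ≠ q) (α : ℍ[ℤ]) (a b : ℕ)
    (h : hat_N p q α a b) : hat_chi hp hq p hp (hat_cl p q (hat_U α a b h)) = (-1) ^ a := by
  show (-1 : ℤˣ) ^ (padicValRat p (((hat_nQ hp hq (hat_U α a b h)) : ℚˣ) : ℚ)) = _
  rw [hat_nQ_val, hat_U_val, hat_normSq_castR, h, map_intCast, hat_val hp hq hpq]
  simp

lemma hat_chi_q (hp : p.Prime) (hq : q.Prime) (hpq : p ≠ q) (α : ℍ[ℤ]) (a b : ℕ)
    (h : hat_N p q α a b) : hat_chi hp hq q hq (hat_cl p q (hat_U α a b h)) = (-1) ^ b := by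
  show (-1 : ℤˣ) ^ (padicValRat q (((hat_nQ hp hq (hat_U α a b h)) : ℚˣ) : ℚ)) = _
  rw [hat_nQ_val, hat_U_val, hat_normSq_castR, h, map_intCast, mul_comm, hat_val hq hp hpq.symm]
  simp

end hatChar

section hatMain

variable {p q : ℕ}

lemma hat_nat (n : ℕ) : ((n : ℕ) : ℍ[RR p q]) = algebraMap (RR p q) ℍ[RR p q] (n : RR p q) := by
  rw [map_natCast]

lemma hat_mk (α : ℍ[ℤ]) (i j : ℕ) (hα : α ∈ OO) (h : hat_N p q α (2 * i) (2 * j)) :
    ∃ γ : G1 p q, ((p ^ i * q ^ j : ℕ) : ℍ[RR p q]) * ((γ : GG p q) : ℍ[RR p q]) =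
      castR p q α := by
  have hs : algebraMap (RR p q) ℍ[RR p q] ((p ^ i * q ^ j : ℕ) : RR p q) *
      (algebraMap (RR p q) ℍ[RR p q] ((hat_sc p q i j)⁻¹ : (RR p q)ˣ) * castR p q α) =
      castR p q α := by
    rw [← mul_assoc, ← map_mul, ← hat_sc_val, Units.mul_inv, map_one, one_mul]
  have hu : (algebraMap (RR p q) ℍ[RR p q] ((hat_sc p q i j)⁻¹ : (RR p q)ˣ) * castR p q α) ∈
      unitary ℍ[RR p q] := by
    rw [mem_unitary_iff, map_mul, hat_normSq_castR, h]
    have e : Quaternion.normSq (algebraMap (RR p q) ℍ[RR p q] ((hat_sc p q i j)⁻¹ : (RR p q)ˣ)) =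
        (((hat_sc p q i j)⁻¹ : (RR p q)ˣ) : RR p q) ^ 2 := by
      simp [Quaternion.normSq_def']
    have e2 : (((p ^ (2 * i) * q ^ (2 * j) : ℕ) : ℤ) : RR p q) =
        (((hat_sc p q i j) : (RR p q)ˣ) : RR p q) ^ 2 := by
      rw [hat_sc_val]; push_cast; ring
    rw [e, e2, ← mul_pow, Units.inv_mul, one_pow]
  rw [← hat_nat] at hs
  exact ⟨⟨⟨_, hu⟩, ⟨i, j, α, hα, hs⟩⟩, hs⟩

lemma hat_G1_N (hp : p.Prime) (hq : q.Prime) (γ : GG p q) (i j : ℕ) (α : ℍ[ℤ])
    (h : ((p ^ i * q ^ j : ℕ) : ℍ[RR p q]) * (γ : ℍ[RR p q]) = castR p q α) :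
    hat_N p q α (2 * i) (2 * j) := by
  rw [hat_N]
  apply hat_cast_inj hp hq
  rw [← hat_normSq_castR, ← h, map_mul, (mem_unitary_iff _).1 γ.2, mul_one,
    Quaternion.normSq_natCast]
  push_cast
  ring

lemma hat_G1_cl (γ : GG p q) (i j : ℕ) (α : ℍ[ℤ])
    (h : ((p ^ i * q ^ j : ℕ) : ℍ[RR p q]) * (γ : ℍ[RR p q]) = castR p q α)
    (hN : hat_N p q α (2 * i) (2 * j)) :
    hat_cl p q (Unitary.toUnits γ) = hat_cl p q (hat_U α (2 * i) (2 * j) hN) := by
  symm
  apply hat_cl_eq _ _ (hat_sc p q i j)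
  rw [hat_U_val, ← h, hat_nat, hat_sc_val]
  rfl

/-- the representation -/
noncomputable def hat_rep0 (hp : p.Prime) (hq : q.Prime) (hpq : p ≠ q)
    (h : VH (SS p) (SS q)) (hh : IsQVH h) : Rep h ↥(hat_G p q) where
  al a := ⟨hat_cl p q (hat_A a), Subgroup.subset_closure (Or.inl ⟨a, rfl⟩)⟩
  be b := ⟨hat_cl p q (hat_B b), Subgroup.subset_closure (Or.inr ⟨b, rfl⟩)⟩
  al_inv a := by
    apply Subtype.ext
    rw [Subgroup.coe_inv]
    show hat_cl p q (hat_A (h.invA a)) = (hat_cl p q (hat_A a))⁻¹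
    rw [hat_A, hat_A, ← hat_cl_star]
    congr 1
    exact hat_U_congr _ _ (hh.1 a)
  be_inv b := by
    apply Subtype.ext
    rw [Subgroup.coe_inv]
    show hat_cl p q (hat_B (h.invB b)) = (hat_cl p q (hat_B b))⁻¹
    rw [hat_B, hat_B, ← hat_cl_star]
    congr 1
    exact hat_U_congr _ _ (hh.2.1 b)
  comm a b := by
    apply Subtype.ext
    rw [Subgroup.coe_mul, Subgroup.coe_mul]
    show hat_cl p q (hat_A a) * hat_cl p q (hat_B b) =
      hat_cl p q (hat_B (h.vh (a, b)).1) * hat_cl p q (hat_A (h.vh (a, b)).2)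
    rw [← map_mul, ← map_mul]
    congr 1
    apply Units.ext
    rw [Units.val_mul, Units.val_mul, hat_A_val, hat_B_val, hat_A_val, hat_B_val, ← map_mul,
      ← map_mul, hh.2.2 a b]
  chiA := (hat_chi hp hq p hp).comp (hat_G p q).subtype
  chiB := (hat_chi hp hq q hq).comp (hat_G p q).subtype
  chiA_al a := by
    show hat_chi hp hq p hp (hat_cl p q (hat_A a)) = -1
    rw [hat_A, hat_chi_p hp hq hpq, pow_one]
  chiA_be b := by
    show hat_chi hp hq p hp (hat_cl p q (hat_B b)) = 1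
    rw [hat_B, hat_chi_p hp hq hpq, pow_zero]
  chiB_al a := by
    show hat_chi hp hq q hq (hat_cl p q (hat_A a)) = 1
    rw [hat_A, hat_chi_q hp hq hpq, pow_zero]
  chiB_be b := by
    show hat_chi hp hq q hq (hat_cl p q (hat_B b)) = -1
    rw [hat_B, hat_chi_q hp hq hpq, pow_one]
  gen := by
    have h1 := Subgroup.closure_closure_coe_preimage
      (k := (Set.range (fun a : SS p => hat_cl p q (hat_A a)) ∪
        Set.range (fun b : SS q => hat_cl p q (hat_B b))))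
    rw [eq_top_iff]
    refine le_trans h1.ge (Subgroup.closure_mono ?_)
    rintro ⟨x, hx⟩ (⟨a, ha⟩ | ⟨b, hb⟩)
    · exact Or.inl ⟨a, Subtype.ext ha⟩
    · exact Or.inr ⟨b, Subtype.ext hb⟩

/-- the embedding -/
noncomputable def hat_iota (hE : Stmt_exists) (hp : p.Prime) (hq : q.Prime) (hp4 : p % 4 = 1)
    (hq4 : q % 4 = 1) (hpq : p ≠ q) : G1 p q →* ↥(hat_G p q) :=
  ((hat_cl p q).comp ((Unitary.toUnits).comp (G1 p q).subtype)).codRestrict (hat_G p q) (by
    rintro ⟨γ, i, j, α, hα, h⟩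
    have hN := hat_G1_N hp hq γ i j α h
    show hat_cl p q (Unitary.toUnits γ) ∈ hat_G p q
    rw [hat_G1_cl γ i j α h hN]
    exact hat_mem hE hp hq hp4 hq4 hpq _ _ _ rfl α hN hα)

lemma hat_iota_val (hE : Stmt_exists) (hp : p.Prime) (hq : q.Prime) (hp4 : p % 4 = 1)
    (hq4 : q % 4 = 1) (hpq : p ≠ q) (γ : G1 p q) :
    ((hat_iota hE hp hq hp4 hq4 hpq γ : ↥(hat_G p q)) : (ℍ[RR p q])ˣ ⧸ hat_Z p q) =
      hat_cl p q (Unitary.toUnits (γ : GG p q)) := rfl

lemma hat_inj (hp : p.Prime) (hq : q.Prime) (hp4 : p % 4 = 1) (hq4 : q % 4 = 1) (γ : G1 p q)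
    (h : hat_cl p q (Unitary.toUnits (γ : GG p q)) = 1) : γ = 1 := by
  rw [hat_cl_one_iff] at h
  obtain ⟨c, hc⟩ := h
  have hc' : ((γ : GG p q) : ℍ[RR p q]) = algebraMap (RR p q) ℍ[RR p q] (c : RR p q) := hc
  obtain ⟨i, j, α, hα, hγ⟩ := γ.2
  have h1 : (c : RR p q) ^ 2 = 1 := by
    have := (mem_unitary_iff _).1 (γ : GG p q).2
    rw [hc'] at this
    simpa [Quaternion.normSq_def'] using this
  have h2 : (hat_phi p q hp hq (c : RR p q) - 1) * (hat_phi p q hp hq (c : RR p q) + 1) = 0 := by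
    have h3 := congrArg (hat_phi p q hp hq) h1
    rw [map_pow, map_one] at h3
    linear_combination h3
  have h4 : (((p ^ i * q ^ j : ℕ) : ℤ) : RR p q) * (c : RR p q) = ((α.re : ℤ) : RR p q) := by
    have h5 := congrArg (fun x : ℍ[RR p q] => x.re) hγ
    simp only [hc'] at h5
    rw [hat_castR_re] at h5
    rw [← h5, hat_nat, ← map_mul, Int.cast_natCast]
    rfl
  have hn4 : (((p ^ i * q ^ j : ℕ) : ℤ)) % 4 = 1 := by
    have : (p ^ i * q ^ j) % 4 = 1 := by
      rw [Nat.mul_mod, Nat.pow_mod, hp4, Nat.pow_mod q, hq4]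
      simp
    exact_mod_cast this
  rcases mul_eq_zero.1 h2 with h6 | h6
  · have h7 : (c : RR p q) = 1 := by
      apply hat_phi_inj hp hq
      rw [map_one]; linarith
    apply Subtype.ext
    apply Subtype.ext
    rw [hc', h7, map_one]
    rfl
  · exfalso
    have h7 : (c : RR p q) = -1 := by
      apply hat_phi_inj hp hq
      rw [map_neg, map_one]; linarith
    have h8 : -((p ^ i * q ^ j : ℕ) : ℤ) = α.re := by
      apply hat_cast_inj hp hq
      rw [← h4, h7]
      push_cast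
      ring
    have h9 := hα.1
    omega

end hatMain

theorem hat_proof (hE : Stmt_exists) : Stmt_hat := by
  intro p q hp hq hp4 hq4 hpq h hh
  refine ⟨↥(hat_G p q), inferInstance, hat_rep0 hp hq hpq h hh,
    hat_iota hE hp hq hp4 hq4 hpq, ?_, ?_, ?_, ?_, ?_⟩
  · rw [injective_iff_map_eq_one]
    intro γ hγ
    apply hat_inj hp hq hp4 hq4 γ
    rw [← hat_iota_val hE hp hq hp4 hq4 hpq, hγ]
    rfl
  · apply le_antisymm
    · rintro _ ⟨γ, rfl⟩
      obtain ⟨i, j, α, hα, hγ⟩ := γ.2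
      have hN := hat_G1_N hp hq γ i j α hγ
      have hv := hat_iota_val hE hp hq hp4 hq4 hpq γ
      rw [hat_G1_cl γ i j α hγ hN] at hv
      constructor
      · show hat_chi hp hq p hp
          ((hat_iota hE hp hq hp4 hq4 hpq γ : ↥(hat_G p q)) : (ℍ[RR p q])ˣ ⧸ hat_Z p q) = 1
        rw [hv, hat_chi_p hp hq hpq, pow_mul]
        simp
      · show hat_chi hp hq q hq
          ((hat_iota hE hp hq hp4 hq4 hpq γ : ↥(hat_G p q)) : (ℍ[RR p q])ˣ ⧸ hat_Z p q) = 1
        rw [hv, hat_chi_q hp hq hpq, pow_mul]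
        simp
    · rintro ⟨x, hx⟩ ⟨h1, h2⟩
      obtain ⟨α, a, b, hN, hα, rfl⟩ := hat_rep hx
      have h3 : (-1 : ℤˣ) ^ a = 1 := by
        rw [← hat_chi_p hp hq hpq α a b hN]; exact h1
      have h4 : (-1 : ℤˣ) ^ b = 1 := by
        rw [← hat_chi_q hp hq hpq α a b hN]; exact h2
      have ha : Even a := by
        by_contra hc
        rw [Nat.not_even_iff_odd] at hc
        rw [hc.neg_one_pow] at h3
        exact absurd h3 (by decide)
      have hb : Even b := by
        by_contra hc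
        rw [Nat.not_even_iff_odd] at hc
        rw [hc.neg_one_pow] at h4
        exact absurd h4 (by decide)
      obtain ⟨i, rfl⟩ := ha.two_dvd
      obtain ⟨j, rfl⟩ := hb.two_dvd
      obtain ⟨γ, hγ⟩ := hat_mk α i j hα hN
      refine ⟨γ, Subtype.ext ?_⟩
      rw [hat_iota_val, hat_G1_cl γ i j α hγ hN]
  · intro b' b
    have hN : hat_N p q (b'.val * b.val) (2 * 0) (2 * 1) := by
      rw [hat_N, map_mul, b'.norm, b.norm]; push_cast; ring
    obtain ⟨γ, hγ⟩ := hat_mk (b'.val * b.val) 0 1 (OO.mul_mem b'.mem b.mem) hN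
    refine ⟨γ, by simpa using hγ, Subtype.ext ?_⟩
    rw [hat_iota_val, hat_G1_cl γ 0 1 _ hγ hN, Subgroup.coe_mul]
    show _ = hat_cl p q (hat_B b') * hat_cl p q (hat_B b)
    rw [← map_mul]
    congr 1
    apply Units.ext
    rw [Units.val_mul, hat_U_val, hat_B_val, hat_B_val, map_mul]
  · intro b' b
    have hN : hat_N p q (b'.val * b.val) (2 * 1) (2 * 0) := by
      rw [hat_N, map_mul, b'.norm, b.norm]; push_cast; ring
    obtain ⟨γ, hγ⟩ := hat_mk (b'.val * b.val) 1 0 (OO.mul_mem b'.mem b.mem) hN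
    refine ⟨γ, by simpa using hγ, Subtype.ext ?_⟩
    rw [hat_iota_val, hat_G1_cl γ 1 0 _ hγ hN, Subgroup.coe_mul]
    show _ = hat_cl p q (hat_A b') * hat_cl p q (hat_A b)
    rw [← map_mul]
    congr 1
    apply Units.ext
    rw [Units.val_mul, hat_U_val, hat_A_val, hat_A_val, map_mul]
  · rintro ⟨g, hg⟩ γ
    obtain ⟨α, a, b, hN, hα, rfl⟩ := hat_rep hg
    obtain ⟨i, j, δ, hδ, hγ⟩ := γ.2
    have hNδ := hat_G1_N hp hq γ i j δ hγ
    have hN2 : hat_N p q (α * δ * star α) (2 * (i + a)) (2 * (j + b)) := by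
      rw [hat_N, map_mul, map_mul, Quaternion.normSq_star, hN, hNδ]
      push_cast
      ring
    obtain ⟨γ', hγ'⟩ := hat_mk (α * δ * star α) (i + a) (j + b)
      (OO.mul_mem (OO.mul_mem hα hδ) (OO_star hα)) hN2
    have hx : ((γ' : GG p q) : ℍ[RR p q]) = ((hat_U α a b hN : (ℍ[RR p q])ˣ) : ℍ[RR p q]) *
        ((γ : GG p q) : ℍ[RR p q]) * (((hat_U α a b hN)⁻¹ : (ℍ[RR p q])ˣ) : ℍ[RR p q]) := by
      have hs : IsUnit (algebraMap (RR p q) ℍ[RR p q]
          ((p ^ (i + a) * q ^ (j + b) : ℕ) : RR p q)) := by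
        rw [← hat_sc_val]; exact (Units.isUnit _).map _
      apply hs.mul_left_cancel
      have e3 : castR p q (star α) = ((p ^ a * q ^ b : ℕ) : RR p q) •
          (((hat_U α a b hN)⁻¹ : (ℍ[RR p q])ˣ) : ℍ[RR p q]) := by
        show castR p q (star α) = ((p ^ a * q ^ b : ℕ) : RR p q) •
          (algebraMap (RR p q) ℍ[RR p q] ((hat_sc p q a b)⁻¹ : (RR p q)ˣ) * castR p q (star α))
        rw [Algebra.smul_def, ← mul_assoc, ← map_mul, ← hat_sc_val, Units.mul_inv, map_one,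
          one_mul]
      rw [← hat_nat, hγ', map_mul, map_mul, ← hγ, hat_U_val, e3, hat_nat, hat_nat,
        ← Algebra.smul_def, ← Algebra.smul_def]
      simp only [Algebra.smul_mul_assoc, Algebra.mul_smul_comm, smul_smul]
      congr 1
      push_cast
      ring
    refine ⟨hat_U α a b hN, γ', hx, Subtype.ext ?_⟩
    rw [hat_iota_val, Subgroup.coe_mul, Subgroup.coe_mul, Subgroup.coe_inv, hat_iota_val]
    show _ = hat_cl p q (hat_U α a b hN) * _ * (hat_cl p q (hat_U α a b hN))⁻¹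
    rw [← map_inv, ← map_mul, ← map_mul]
    congr 1
    apply Units.ext
    exact hx

end TauQ
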