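import Mathlib
import Pool.Agent.Work.MP_972ac7_al_tau.Interface

/-! # Block N9: `H(Z/M) = M_2(Z/M)` for odd `M` -/

open scoped Quaternion BigOperators

namespace TauQ

/-- `-1` is a sum of two squares modulo an odd number -/
theorem iso_sq (M : ℕ) (hM : Odd M) : ∃ x y : ZMod M, x ^ 2 + y ^ 2 = -1 := by
  have hM0 : M ≠ 0 := by
    rintro rfl
    exact absurd hM (by decide)
  have hc : Nat.Coprime 4 M := by
    have h2 : Nat.Coprime 2 M := (Nat.coprime_two_left).2 hM
    exact Nat.Coprime.pow_left 2 h2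
  have : NeZero (4 * M) := ⟨by positivity⟩
  obtain ⟨a, ha4, haM⟩ := Nat.chineseRemainder hc 1 (M - 1)
  have hca : Nat.Coprime a (4 * M) := by
    apply Nat.Coprime.mul_right
    · have h := ha4.gcd_eq
      rw [Nat.Coprime, h]
      norm_num
    · have h := haM.gcd_eq
      rw [Nat.Coprime, h]
      have h1 : Nat.Coprime (M - 1) (M - 1 + 1) := (Nat.coprime_self_add_right).2 (Nat.coprime_one_right _)
      rwa [Nat.sub_add_cancel (Nat.one_le_iff_ne_zero.2 hM0)] at h1
  have hu : IsUnit ((a : ℕ) : ZMod (4 * M)) := (ZMod.isUnit_iff_coprime a (4 * M)).2 hca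
  obtain ⟨P, -, hP, hPa⟩ := Nat.forall_exists_prime_gt_and_eq_mod hu 0
  have hPa' : P ≡ a [MOD 4 * M] := (ZMod.natCast_eq_natCast_iff P a (4 * M)).1 hPa
  have : Fact P.Prime := ⟨hP⟩
  have h4 : P ≡ 1 [MOD 4] := (hPa'.of_mul_right M).trans ha4
  have hm : P ≡ M - 1 [MOD M] := (hPa'.of_mul_left 4).trans haM
  obtain ⟨x, y, hxy⟩ := Nat.Prime.sq_add_sq (p := P) (by
    have : P % 4 = 1 := h4
    omega)
  refine ⟨(x : ZMod M), (y : ZMod M), ?_⟩
  have h5 : ((x ^ 2 + y ^ 2 : ℕ) : ZMod M) = ((M - 1 : ℕ) : ZMod M) := by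
    rw [hxy]
    exact (ZMod.natCast_eq_natCast_iff P (M - 1) M).2 hm
  push_cast [Nat.cast_sub (Nat.one_le_iff_ne_zero.2 hM0)] at h5
  rw [h5, ZMod.natCast_self, zero_sub]

theorem iso_proof : Stmt_iso := by
  intro M hM
  obtain ⟨x, y, hxy⟩ := iso_sq M hM
  obtain ⟨h, h2⟩ : ∃ h : ZMod M, 2 * h = 1 := by
    obtain ⟨k, hk⟩ := hM
    refine ⟨-(k : ZMod M), ?_⟩
    have : ((2 * k + 1 : ℕ) : ZMod M) = 0 := by
      rw [← hk]
      exact ZMod.natCast_self M
    push_cast at this
    linear_combination -this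
  refine ⟨{
    toFun := fun p => !![p.re + p.imJ * x - p.imK * y, -p.imI + p.imJ * y + p.imK * x;
      p.imI + p.imJ * y + p.imK * x, p.re - p.imJ * x + p.imK * y]
    invFun := fun m => ⟨h * (m 0 0 + m 1 1), h * (m 1 0 - m 0 1),
      -(h * (m 0 0 - m 1 1) * x + h * (m 0 1 + m 1 0) * y),
      h * (m 0 0 - m 1 1) * y - h * (m 0 1 + m 1 0) * x⟩
    left_inv := ?_
    right_inv := ?_
    map_mul' := ?_
    map_add' := ?_ }, ?_⟩
  · intro p
    ext
    · simp
      linear_combination p.re * h2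
    · simp
      linear_combination p.imI * h2
    · simp
      linear_combination (-p.imJ * (x ^ 2 + y ^ 2)) * h2 - p.imJ * hxy
    · simp
      linear_combination (-p.imK * (x ^ 2 + y ^ 2)) * h2 - p.imK * hxy
  · intro m
    ext i j
    fin_cases i <;> fin_cases j
    · simp
      linear_combination (m 0 0) * h2 - (h * (m 0 0 - m 1 1)) * hxy
    · simp
      linear_combination (m 0 1) * h2 - (h * (m 0 1 + m 1 0)) * hxy
    · simp
      linear_combination (m 1 0) * h2 - (h * (m 0 1 + m 1 0)) * hxy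
    · simp
      linear_combination (m 1 1) * h2 + (h * (m 0 0 - m 1 1)) * hxy
  · intro p q
    ext i j
    fin_cases i <;> fin_cases j
    · simp [Matrix.mul_apply, Fin.sum_univ_two]
      linear_combination -(p.imJ * q.imJ + p.imK * q.imK) * hxy
    · simp [Matrix.mul_apply, Fin.sum_univ_two]
      linear_combination -(p.imJ * q.imK - p.imK * q.imJ) * hxy
    · simp [Matrix.mul_apply, Fin.sum_univ_two]
      linear_combination (p.imJ * q.imK - p.imK * q.imJ) * hxy
    · simp [Matrix.mul_apply, Fin.sum_univ_two]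
      linear_combination -(p.imJ * q.imJ + p.imK * q.imK) * hxy
  · intro p q
    ext i j
    fin_cases i <;> fin_cases j
    · simp
      ring
    · simp
      ring
    · simp
      ring
    · simp
      ring
  · intro p
    show Matrix.det !![p.re + p.imJ * x - p.imK * y, -p.imI + p.imJ * y + p.imK * x;
      p.imI + p.imJ * y + p.imK * x, p.re - p.imJ * x + p.imK * y] = _
    rw [Matrix.det_fin_two_of, Quaternion.normSq_def']
    linear_combination -(p.imJ ^ 2 + p.imK ^ 2) * hxy

end TauQ
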