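import Mathlib
import Pool.Agent.Work.MP_972ac7_al_tau.Interface

open scoped Quaternion BigOperators

namespace TauQ

lemma iter_GB_mono {A B : Type} [Finite A] [Fintype B] {h : VH A B} {Q : Type} [Group Q]
    [Fintype Q] (r : Rep h Q) (D : Subgroup Q) {g g' : ℝ} (hg : g' ≤ g) (hr : r.GB D g) :
    r.GB D g' := by
  intro f h1 h2
  have := hr f h1 h2
  have h0 : 0 ≤ ∑ z, ‖f z‖ ^ 2 := Finset.sum_nonneg fun z _ => by positivity
  nlinarith

lemma iter_dser_normal {Q : Type} [Group Q] (D : Subgroup Q) (hD : D.Normal) (d : ℕ) :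
    (Rep.dser D d).Normal := by
  induction d with
  | zero => exact hD
  | succ n ih =>
    have := ih
    exact Subgroup.commutator_normal _ _

lemma iter_dser_succ_le {Q : Type} [Group Q] (D : Subgroup Q) (hD : D.Normal) (d : ℕ) :
    Rep.dser D (d + 1) ≤ Rep.dser D d := by
  have := iter_dser_normal D hD d
  exact Subgroup.commutator_le_left _ _

lemma iter_dser_le {Q : Type} [Group Q] (D : Subgroup Q) (hD : D.Normal) (d : ℕ) :
    Rep.dser D d ≤ D := by
  induction d with
  | zero => exact le_rfl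
  | succ n ih => exact (iter_dser_succ_le D hD n).trans ih

theorem iter_proof (hstep : Stmt_step1) : Stmt_iter := by
  intro A B _ _ h hA hB hG hG' d
  induction d with
  | zero =>
    intro g hg
    exact ⟨g, hg, fun Q _ _ r D _ _ _ h1 h2 => ⟨h1, h2⟩⟩
  | succ n ih =>
    intro g hg
    obtain ⟨g1, hg1, H1⟩ := ih g hg
    obtain ⟨g2, hg2, H2⟩ := hstep A B h hA hB hG hG' g1 hg1
    obtain ⟨g3, hg3, H3⟩ := hstep B A h.swap hB hA hG' hG g1 hg1
    refine ⟨min g2 g3, lt_min hg2 hg3, ?_⟩
    intro Q _ _ r D hD hA' hB' k1 k2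
    obtain ⟨m1, m2⟩ := H1 Q r D hD hA' hB' k1 k2
    have hn := iter_dser_normal D hD n
    have hn' := iter_dser_normal D hD (n + 1)
    have hle := iter_dser_succ_le D hD n
    have hl := iter_dser_le D hD n
    constructor
    · exact iter_GB_mono r _ (min_le_left _ _)
        (H2 Q r (Rep.dser D n) (Rep.dser D (n + 1)) hn hn' hle le_rfl (hl.trans hA') (hl.trans hB')
          m1 m2)
    · exact iter_GB_mono r.swap _ (min_le_right _ _)
        (H3 Q r.swap (Rep.dser D n) (Rep.dser D (n + 1)) hn hn' hle le_rfl (hl.trans hB')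
          (hl.trans hA') m2 m1)

end TauQ
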