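import Mathlib
import Pool.Agent.Work.MP_972ac7_al_tau.Interface

/-!
# Block `joint` of the property tau theorem (MP_972ac7_al): joint eigenvectors
-/

open scoped BigOperators

set_option linter.unusedSectionVars false

namespace TauQ

section

variable {A B : Type} [Fintype A] [Fintype B] {h : VH A B} {Q : Type} [Group Q] [Fintype Q]

/-- the operator `T_A` -/
noncomputable def joint_T (r : Rep h Q) : (Q → ℂ) →ₗ[ℂ] (Q → ℂ) where
  toFun w x := ∑ a, w (r.al a * x)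
  map_add' u w := by
    funext x
    simp [Finset.sum_add_distrib]
  map_smul' c w := by
    funext x
    simp [Finset.mul_sum]

lemma joint_T_apply (r : Rep h Q) (w : Q → ℂ) (x : Q) :
    joint_T r w x = ∑ a, w (r.al a * x) := rfl

/-- the space of equivariant `T_B`-eigenfunctions with zero sums -/
noncomputable def joint_W (r : Rep h Q) (D : Subgroup Q) (ψ : Q → ℂ) (ε : ℝ) :
    Submodule ℂ (Q → ℂ) where
  carrier := {w | (∀ d ∈ D, ∀ x, w (x * d) = ψ d * w x) ∧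
      (∀ x, ∑ b, w (r.be b * x) = ((Fintype.card B : ℂ) - (ε : ℂ)) * w x) ∧
      ∑ x, w x = 0 ∧ ∑ x, (((r.chiA x : ℤˣ) : ℤ) : ℂ) * w x = 0}
  zero_mem' := by
    refine ⟨?_, ?_, ?_, ?_⟩
    · intro d _ x
      simp
    · intro x
      simp
    · simp
    · simp
  add_mem' := by
    rintro u w ⟨u1, u2, u3, u4⟩ ⟨w1, w2, w3, w4⟩
    refine ⟨?_, ?_, ?_, ?_⟩
    · intro d hd x
      simp only [Pi.add_apply]
      rw [u1 d hd x, w1 d hd x, mul_add]
    · intro x
      simp only [Pi.add_apply]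
      rw [Finset.sum_add_distrib, u2 x, w2 x, mul_add]
    · simp only [Pi.add_apply]
      rw [Finset.sum_add_distrib, u3, w3, add_zero]
    · simp only [Pi.add_apply, mul_add]
      rw [Finset.sum_add_distrib, u4, w4, add_zero]
  smul_mem' := by
    rintro c w ⟨w1, w2, w3, w4⟩
    refine ⟨?_, ?_, ?_, ?_⟩
    · intro d hd x
      simp only [Pi.smul_apply, smul_eq_mul]
      rw [w1 d hd x]
      ring
    · intro x
      simp only [Pi.smul_apply, smul_eq_mul]
      rw [← Finset.mul_sum, w2 x]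
      ring
    · simp only [Pi.smul_apply, smul_eq_mul]
      rw [← Finset.mul_sum, w3, mul_zero]
    · simp only [Pi.smul_apply, smul_eq_mul]
      have : ∀ x, (((r.chiA x : ℤˣ) : ℤ) : ℂ) * (c * w x) =
          c * ((((r.chiA x : ℤˣ) : ℤ) : ℂ) * w x) := fun x => by ring
      rw [Finset.sum_congr rfl fun x _ => this x, ← Finset.mul_sum, w4, mul_zero]

lemma joint_mem_W (r : Rep h Q) (D : Subgroup Q) (ψ : Q → ℂ) (ε : ℝ) (w : Q → ℂ) :
    w ∈ joint_W r D ψ ε ↔ (∀ d ∈ D, ∀ x, w (x * d) = ψ d * w x) ∧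
      (∀ x, ∑ b, w (r.be b * x) = ((Fintype.card B : ℂ) - (ε : ℂ)) * w x) ∧
      ∑ x, w x = 0 ∧ ∑ x, (((r.chiA x : ℤˣ) : ℤ) : ℂ) * w x = 0 := Iff.rfl

lemma joint_sum_mul_left (g : Q) (f : Q → ℂ) : ∑ x, f (g * x) = ∑ x, f x :=
  Equiv.sum_comp (Equiv.mulLeft g) f

lemma joint_chi (r : Rep h Q) (a : A) (y : Q) :
    ((((r.chiA ((r.al a)⁻¹ * y)) : ℤˣ) : ℤ) : ℂ) = -(((r.chiA y : ℤˣ) : ℤ) : ℂ) := by
  rw [map_mul, map_inv, r.chiA_al]
  simp

lemma joint_pres (r : Rep h Q) (D : Subgroup Q) (ψ : Q → ℂ) (ε : ℝ) (w : Q → ℂ)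
    (hw : w ∈ joint_W r D ψ ε) : joint_T r w ∈ joint_W r D ψ ε := by
  rw [joint_mem_W] at hw ⊢
  obtain ⟨w1, w2, w3, w4⟩ := hw
  refine ⟨?_, ?_, ?_, ?_⟩
  · intro d hd x
    rw [joint_T_apply, joint_T_apply, Finset.mul_sum]
    refine Finset.sum_congr rfl fun a _ => ?_
    rw [← mul_assoc, w1 d hd]
  · intro x
    simp only [joint_T_apply]
    have e1 : ∑ b, ∑ a, w (r.al a * (r.be b * x)) =
        ∑ z : A × B, w (r.be (h.vh z).1 * (r.al (h.vh z).2 * x)) := by
      rw [Fintype.sum_prod_type, Finset.sum_comm]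
      refine Finset.sum_congr rfl fun a _ => Finset.sum_congr rfl fun b _ => ?_
      rw [← mul_assoc, r.comm a b, mul_assoc]
    have e2 : ∑ z : A × B, w (r.be (h.vh z).1 * (r.al (h.vh z).2 * x)) =
        ∑ z : B × A, w (r.be z.1 * (r.al z.2 * x)) :=
      Equiv.sum_comp h.vh (fun z : B × A => w (r.be z.1 * (r.al z.2 * x)))
    rw [e1, e2, Fintype.sum_prod_type, Finset.sum_comm, Finset.mul_sum]
    exact Finset.sum_congr rfl fun a _ => w2 (r.al a * x)
  · simp only [joint_T_apply]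
    rw [Finset.sum_comm]
    refine Finset.sum_eq_zero fun a _ => ?_
    rw [joint_sum_mul_left, w3]
  · simp only [joint_T_apply, Finset.mul_sum]
    rw [Finset.sum_comm]
    refine Finset.sum_eq_zero fun a _ => ?_
    have e : ∀ x, (((r.chiA x : ℤˣ) : ℤ) : ℂ) * w (r.al a * x) =
        (fun y => -((((r.chiA y : ℤˣ) : ℤ) : ℂ) * w y)) (r.al a * x) := by
      intro x
      have := joint_chi r a (r.al a * x)
      rw [inv_mul_cancel_left] at this
      rw [this]
      ring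
    rw [Finset.sum_congr rfl fun x _ => e x,
      joint_sum_mul_left (r.al a) (fun y => -((((r.chiA y : ℤˣ) : ℤ) : ℂ) * w y)),
      Finset.sum_neg_distrib, w4, neg_zero]

lemma joint_symm (r : Rep h Q) (w : Q → ℂ) :
    (starRingEnd ℂ) (∑ x, (starRingEnd ℂ) (w x) * ∑ a, w (r.al a * x)) =
      ∑ x, (starRingEnd ℂ) (w x) * ∑ a, w (r.al a * x) := by
  rw [map_sum]
  simp only [map_mul, map_sum, Complex.conj_conj, Finset.mul_sum]
  rw [Finset.sum_comm]
  nth_rewrite 2 [Finset.sum_comm]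
  have hinv : ∑ a, ∑ x, w x * (starRingEnd ℂ) (w (r.al a * x)) =
      ∑ a, ∑ x, w x * (starRingEnd ℂ) (w (r.al (h.invA a) * x)) := by
    have hbij : Function.Involutive h.invA := h.invA_invA
    exact (Equiv.sum_comp (hbij.toPerm)
      (fun a => ∑ x, w x * (starRingEnd ℂ) (w (r.al a * x)))).symm
  rw [hinv]
  refine Finset.sum_congr rfl fun a _ => ?_
  rw [← joint_sum_mul_left (r.al a)]
  refine Finset.sum_congr rfl fun x _ => ?_
  rw [r.al_inv, inv_mul_cancel_left]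
  ring

end

theorem joint_proof : Stmt_joint := by
  intro A B _ _ h Q _ _ r D _ v ψ ε hv h1 h2 h3 h4
  have hvW : v ∈ joint_W r D ψ ε := ⟨h1, h2, h3, h4⟩
  have hmaps : ∀ w ∈ joint_W r D ψ ε, joint_T r w ∈ joint_W r D ψ ε := joint_pres r D ψ ε
  have : Nontrivial (joint_W r D ψ ε) := by
    refine ⟨⟨⟨v, hvW⟩, 0, ?_⟩⟩
    intro hh
    exact hv (congrArg Subtype.val hh)
  obtain ⟨μ, hμ⟩ := Module.End.exists_eigenvalue ((joint_T r).restrict hmaps)
  obtain ⟨w, hw⟩ := hμ.exists_hasEigenvector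
  have hw0 : (w : Q → ℂ) ≠ 0 := fun hh => hw.2 (Subtype.ext hh)
  have hwe : ∀ x, ∑ a, (w : Q → ℂ) (r.al a * x) = μ * (w : Q → ℂ) x := by
    intro x
    have := congrArg (fun u : joint_W r D ψ ε => (u : Q → ℂ) x) hw.apply_eq_smul
    simpa [LinearMap.restrict_apply, joint_T_apply] using this
  obtain ⟨w1, w2, w3, w4⟩ := w.2
  have hreal : (starRingEnd ℂ) μ = μ := by
    have hs := joint_symm r (w : Q → ℂ)
    have e : ∑ x, (starRingEnd ℂ) ((w : Q → ℂ) x) * ∑ a, (w : Q → ℂ) (r.al a * x) =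
        μ * ((∑ x, ‖(w : Q → ℂ) x‖ ^ 2 : ℝ) : ℂ) := by
      push_cast
      rw [Finset.mul_sum]
      refine Finset.sum_congr rfl fun x _ => ?_
      rw [hwe x, ← Complex.conj_mul']
      ring
    rw [e, map_mul, Complex.conj_ofReal] at hs
    have hpos : ((∑ x, ‖(w : Q → ℂ) x‖ ^ 2 : ℝ) : ℂ) ≠ 0 := by
      rw [Complex.ofReal_ne_zero]
      intro hh
      apply hw0
      funext x
      have := (Finset.sum_eq_zero_iff_of_nonneg fun x _ => sq_nonneg ‖(w : Q → ℂ) x‖).1 hh x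
        (Finset.mem_univ x)
      simpa using this
    exact mul_right_cancel₀ hpos hs
  refine ⟨w, μ.re, hw0, w1, w2, w3, w4, ?_⟩
  intro x
  rw [hwe x, Complex.conj_eq_iff_re.1 hreal]

end TauQ
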