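import Mathlib
import Pool.Agent.Work.MP_972ac7_al_tau.Interface

/-!
Block link: the finite group attached to a normal subgroup of `GG p q`.
-/

open scoped Quaternion BigOperators

namespace TauQ

lemma link_dser_map {G H : Type} [Group G] [Group H] (f : G →* H) (D : Subgroup G) :
    ∀ d : ℕ, Rep.dser (D.map f) d = (Rep.dser D d).map f
  | 0 => rfl
  | d + 1 => by
      change ⁅Rep.dser (D.map f) d, Rep.dser (D.map f) d⁆ = (⁅Rep.dser D d, Rep.dser D d⁆).map f
      rw [link_dser_map f D d, Subgroup.map_commutator]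

lemma link_dser_mono {G : Type} [Group G] (D E : Subgroup G) (h : D ≤ E) :
    ∀ d : ℕ, Rep.dser D d ≤ Rep.dser E d
  | 0 => h
  | d + 1 => Subgroup.commutator_mono (link_dser_mono D E h d) (link_dser_mono D E h d)

lemma link_dser_normal {G : Type} [Group G] (D : Subgroup G) (h : D.Normal) :
    ∀ d : ℕ, (Rep.dser D d).Normal
  | 0 => h
  | d + 1 => by
      have := link_dser_normal D h d
      exact Subgroup.commutator_normal _ _

lemma link_dser_derived {G : Type} [Group G] (D : Subgroup G) :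
    ∀ d : ℕ, (derivedSeries D d).map D.subtype = Rep.dser D d
  | 0 => by
      change (⊤ : Subgroup D).map D.subtype = D
      rw [← MonoidHom.range_eq_map, Subgroup.range_subtype]
  | d + 1 => by
      change (⁅derivedSeries D d, derivedSeries D d⁆).map D.subtype =
        ⁅Rep.dser D d, Rep.dser D d⁆
      rw [Subgroup.map_commutator, link_dser_derived D d]

lemma link_uM {M : ℕ} {r : ℕ} (hM : Nat.Coprime r M) (b' b : SS r)
    (x : unitary ℍ[ZMod M]) (h : (r : ℍ[ZMod M]) * (x : ℍ[ZMod M]) =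
      redM M (b'.val * b.val)) : x = uM M hM b' b := by
  apply Subtype.ext
  change (x : ℍ[ZMod M]) = ((r : ZMod M)⁻¹) • redM M (b'.val * b.val)
  rw [← h]
  have h1 := ZMod.coe_mul_inv_eq_one r hM
  have h2 : (r : ℍ[ZMod M]) * (x : ℍ[ZMod M]) = (r : ZMod M) • (x : ℍ[ZMod M]) := by
    ext <;> simp
  rw [h2, smul_smul, mul_comm, h1, one_smul]

/-- the quotient representation -/
def link_rep {A B : Type} {h : VH A B} {Γ : Type} [Group Γ] (r : Rep h Γ) (K : Subgroup Γ)
    [K.Normal] (hA : K ≤ r.chiA.ker) (hB : K ≤ r.chiB.ker) : Rep h (Γ ⧸ K) where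
  al a := QuotientGroup.mk' K (r.al a)
  be b := QuotientGroup.mk' K (r.be b)
  al_inv a := by rw [r.al_inv, map_inv]
  be_inv b := by rw [r.be_inv, map_inv]
  comm a b := by rw [← map_mul, r.comm, map_mul]
  chiA := QuotientGroup.lift K r.chiA hA
  chiB := QuotientGroup.lift K r.chiB hB
  chiA_al a := by
    rw [QuotientGroup.mk'_apply, QuotientGroup.lift_mk]; exact r.chiA_al a
  chiA_be b := by
    rw [QuotientGroup.mk'_apply, QuotientGroup.lift_mk]; exact r.chiA_be b
  chiB_al a := by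
    rw [QuotientGroup.mk'_apply, QuotientGroup.lift_mk]; exact r.chiB_al a
  chiB_be b := by
    rw [QuotientGroup.mk'_apply, QuotientGroup.lift_mk]; exact r.chiB_be b
  gen := by
    have h1 : (Subgroup.closure (Set.range r.al ∪ Set.range r.be)).map (QuotientGroup.mk' K) =
        ⊤ := by
      rw [r.gen]
      exact Subgroup.map_top_of_surjective _ (QuotientGroup.mk'_surjective K)
    rw [MonoidHom.map_closure, Set.image_union, ← Set.range_comp, ← Set.range_comp] at h1
    exact h1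

theorem link_proof (hhat : Stmt_hat) (hred : Stmt_red) : Stmt_link := by
  intro p q hpp hqq hp4 hq4 hpq h hQ M _ hq hp d N hN hNf hder
  obtain ⟨Γ, _, r, ι, hι, hrange, hB, hA, hconj⟩ := hhat p q hpp hqq hp4 hq4 hpq h hQ
  obtain ⟨rM, hIs, hker⟩ := hred p q hpp hqq M hp hq
  let N1 : Subgroup (G1 p q) := N.subgroupOf (G1 p q)
  have hN1f : N1.FiniteIndex := by
    have : (N.subgroupOf (G1 p q)).FiniteIndex := inferInstance
    exact this
  let K0 : Subgroup Γ := N1.map ι
  have hK0r : K0 ≤ ι.range := by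
    rintro _ ⟨y, -, rfl⟩
    exact ⟨y, rfl⟩
  have hK0f : K0.FiniteIndex := by
    constructor
    change (N1.map ι).index ≠ 0
    rw [Subgroup.index_map_of_injective _ hι, hrange]
    refine mul_ne_zero hN1f.index_ne_zero ?_
    have h1 : (r.chiA.ker).FiniteIndex := Subgroup.finiteIndex_ker r.chiA
    have h2 : (r.chiB.ker).FiniteIndex := Subgroup.finiteIndex_ker r.chiB
    exact Subgroup.index_inf_ne_zero h1.index_ne_zero h2.index_ne_zero
  let K : Subgroup Γ := K0.normalCore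
  have hKn : K.Normal := Subgroup.normalCore_normal K0
  have hKf : K.FiniteIndex := by
    have : (K0.normalCore).FiniteIndex := inferInstance
    exact this
  have hKK0 : K ≤ K0 := Subgroup.normalCore_le K0
  have hKr : K ≤ r.chiA.ker ⊓ r.chiB.ker := by
    rw [← hrange]; exact hKK0.trans hK0r
  have hfin : Finite (Γ ⧸ K) := Subgroup.finite_quotient_of_finiteIndex
  let r' : Rep h (Γ ⧸ K) := link_rep r K (hKr.trans inf_le_left) (hKr.trans inf_le_right)
  let π : Γ →* Γ ⧸ K := QuotientGroup.mk' K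
  have hπs : Function.Surjective π := QuotientGroup.mk'_surjective K
  have hchiA : ∀ g : Γ, r'.chiA (π g) = r.chiA g := fun g => rfl
  have hchiB : ∀ g : Γ, r'.chiB (π g) = r.chiB g := fun g => rfl
  let rQ : G1 p q →* Γ ⧸ K := π.comp ι
  have hrQ : rQ.range = r'.chiA.ker ⊓ r'.chiB.ker := by
    ext z
    obtain ⟨g, rfl⟩ := hπs z
    rw [Subgroup.mem_inf, MonoidHom.mem_ker, MonoidHom.mem_ker, hchiA, hchiB]
    constructor
    · rintro ⟨γ, hγ⟩
      have h1 : π (ι γ) = π g := hγ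
      have h2 : ι γ ∈ r.chiA.ker ⊓ r.chiB.ker := by rw [← hrange]; exact ⟨γ, rfl⟩
      rw [← hchiA, ← hchiB, ← h1, hchiA, hchiB]
      exact ⟨h2.1, h2.2⟩
    · rintro ⟨h1, h2⟩
      have h3 : g ∈ ι.range := by rw [hrange]; exact ⟨h1, h2⟩
      obtain ⟨γ, rfl⟩ := h3
      exact ⟨γ, rfl⟩
  -- the image of the kernel of reduction is normal in `Γ`
  let L : Subgroup (G1 p q) := rM.ker
  have hLn : (L.map ι).Normal := by
    constructor
    rintro _ ⟨γ, hγ, rfl⟩ g
    obtain ⟨x, γ', hx, hγ'⟩ := hconj g γ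
    rw [← hγ']
    refine ⟨γ', ?_, rfl⟩
    have h1 : (γ : GG p q) ∈ Cong p q M := (hker γ).mp hγ
    obtain ⟨y, hy⟩ := h1
    refine (hker γ').mpr ⟨x * y * ((x⁻¹ : (ℍ[RR p q])ˣ) : ℍ[RR p q]), ?_⟩
    rw [hx, hy, mul_add, add_mul, mul_one, Units.mul_inv, ← mul_assoc (x : ℍ[RR p q]),
      ← (Nat.cast_commute M (x : ℍ[RR p q])).eq, mul_assoc, mul_assoc, mul_assoc]
  have hLd : Rep.dser (L.map ι) d ≤ K := by
    have hn := link_dser_normal (L.map ι) hLn d
    refine Subgroup.normal_le_normalCore.mpr ?_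
    rw [link_dser_map]
    refine Subgroup.map_mono ?_
    have h1 : (Rep.dser L d).map (G1 p q).subtype ≤ N := by
      rw [← link_dser_map]
      refine (link_dser_mono _ (Cong p q M) ?_ d).trans ?_
      · rintro _ ⟨γ, hγ, rfl⟩
        exact (hker γ).mp hγ
      · rw [← link_dser_derived]; exact hder
    intro γ hγ
    exact h1 ⟨γ, hγ, rfl⟩
  have hDe : (L.map rQ) = (L.map ι).map π := by
    rw [Subgroup.map_map]
  refine ⟨Γ ⧸ K, inferInstance, Fintype.ofFinite _, r', L.map rQ, rQ, rM, ?_, ?_, ?_, ?_, hrQ,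
    rfl, ?_, ?_, ?_⟩
  · rw [hDe]
    exact hLn.map π hπs
  · refine le_trans ?_ (inf_le_left : r'.chiA.ker ⊓ r'.chiB.ker ≤ r'.chiA.ker)
    rw [← hrQ]
    rintro _ ⟨γ, -, rfl⟩
    exact ⟨γ, rfl⟩
  · refine le_trans ?_ (inf_le_right : r'.chiA.ker ⊓ r'.chiB.ker ≤ r'.chiB.ker)
    rw [← hrQ]
    rintro _ ⟨γ, -, rfl⟩
    exact ⟨γ, rfl⟩
  · rw [hDe, link_dser_map, eq_bot_iff]
    rintro _ ⟨g, hg, rfl⟩
    have h1 : g ∈ K := hLd hg
    exact (QuotientGroup.eq_one_iff g).mpr h1
  · intro b' b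
    obtain ⟨γ, h1, h2⟩ := hB b' b
    refine ⟨γ, h1, ?_, ?_⟩
    · change π (ι γ) = π (r.be b') * π (r.be b)
      rw [h2, map_mul]
    · refine link_uM hq b' b _ ?_
      have h3 := hIs γ 0 1 (b'.val * b.val) (by simpa using h1)
      simpa using h3
  · intro a' a
    obtain ⟨γ, h1, h2⟩ := hA a' a
    refine ⟨γ, h1, ?_, ?_⟩
    · change π (ι γ) = π (r.al a') * π (r.al a)
      rw [h2, map_mul]
    · refine link_uM hp a' a _ ?_
      have h3 := hIs γ 1 0 (a'.val * a.val) (by simpa using h1)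
      simpa using h3
  · intro γ hγ
    have h1 : ι γ ∈ K := (QuotientGroup.eq_one_iff (ι γ)).mp hγ
    obtain ⟨n, hn, hn'⟩ := hKK0 h1
    have h2 : n = γ := hι hn'
    rw [← h2]
    exact hn

end TauQ
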