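import Mathlib
import Pool.Agent.Work.MP_972ac7_al_tau.Interface

open scoped Quaternion BigOperators

namespace TauQ

lemma main_GB_mono {A B : Type} [Finite A] [Fintype B] {h : VH A B} {Q : Type} [Group Q]
    [Fintype Q] (r : Rep h Q) (D : Subgroup Q) {g g' : ℝ} (hg : g' ≤ g) (hr : r.GB D g) :
    r.GB D g' := by
  intro f h1 h2
  have := hr f h1 h2
  have h0 : 0 ≤ ∑ z, ‖f z‖ ^ 2 := Finset.sum_nonneg fun z _ => by positivity
  nlinarith

lemma main_isqvh_swap {p q : ℕ} {h : VH (SS p) (SS q)} (hh : IsQVH h) : IsQVH h.swap := by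
  refine ⟨hh.2.1, hh.1, ?_⟩
  intro b a
  have e : h.vh ((h.vh.symm (b, a)).1, (h.vh.symm (b, a)).2) = (b, a) := by
    rw [Prod.mk.eta, Equiv.apply_symm_apply]
  have := hh.2.2 (h.vh.symm (b, a)).1 (h.vh.symm (b, a)).2
  rw [e] at this
  exact this.symm

lemma main_sig_inv {p q : ℕ} {h : VH (SS p) (SS q)} (hh : IsQVH h) (b b' : SS q)
    (hb : b'.val = star b.val) : h.sig b' = (h.sig b)⁻¹ := by
  have e : b' = h.invB b := SS.ext (by rw [hb, hh.2.1])
  subst e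
  apply Subtype.ext
  change h.sigma (h.invB b) = (h.sigma b)⁻¹
  ext a
  rfl

lemma main_sig_gen {p q : ℕ} (h : VH (SS p) (SS q)) :
    Subgroup.closure (Set.range h.sig) = ⊤ := by
  rw [eq_top_iff]
  rintro ⟨s, hs⟩ -
  have key : ∀ x (hx : x ∈ Subgroup.closure (Set.range h.sigma)),
      (⟨x, hx⟩ : h.SA) ∈ Subgroup.closure (Set.range h.sig) := by
    intro x hx
    induction hx using Subgroup.closure_induction with
    | mem x hx =>
      obtain ⟨b, rfl⟩ := hx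
      exact Subgroup.subset_closure ⟨b, rfl⟩
    | one => exact one_mem _
    | mul x y hx hy ihx ihy => exact mul_mem ihx ihy
    | inv x hx ihx => exact inv_mem ihx
  exact key s hs

lemma main_coprime {p M : ℕ} (hp : p.Prime) (hM : ∀ l : ℕ, l.Prime → l ∣ M → p < l) :
    Nat.Coprime p M := by
  rw [Nat.Prime.coprime_iff_not_dvd hp]
  intro hd
  exact lt_irrefl _ (hM p hp hd)

theorem main_proof (hcard : Stmt_card) (hvh : Stmt_vh) (hBT : Stmt_BT) (hgen : Stmt_gen)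
    (hSA : Stmt_SA) (hlink : Stmt_link) (hbase : Stmt_base) (hiter : Stmt_iter)
    (hfinal : Stmt_final) : Stmt_main := by
  classical
  intro K
  obtain ⟨q₀, hq₀⟩ := hBT
  obtain ⟨P₁, hP₁⟩ := hgen K
  refine ⟨max q₀ P₁, ?_⟩
  intro p q hp hq hp4 hq4 hPp hpq hqK hsq
  have hne : p ≠ q := hpq.ne
  have hq₀p : q₀ ≤ p := (le_max_left _ _).trans hPp
  have hP₁p : P₁ ≤ p := (le_max_right _ _).trans hPp
  obtain ⟨h, hh⟩ := hvh p q hp hq hp4 hq4 hne
  have hh' : IsQVH h.swap := main_isqvh_swap hh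
  have hK : K ≠ 0 := by
    rintro rfl
    rw [pow_zero] at hqK
    have := hq.pos
    omega
  have hpqK : p < q ^ K := by
    calc p < q := hpq
      _ = q ^ 1 := (pow_one q).symm
      _ ≤ q ^ K := Nat.pow_le_pow_right hq.pos (Nat.one_le_iff_ne_zero.mpr hK)
  have cqp : Nat.Coprime q p := (Nat.coprime_primes hq hp).2 hne.symm
  have cpq : Nat.Coprime p q := (Nat.coprime_primes hp hq).2 hne
  have g1 := hP₁ p q hp hq hp4 hq4 hP₁p (hP₁p.trans hpq.le) hne hpqK hqK cqp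
  have g2 := hP₁ q p hq hp hq4 hp4 (hP₁p.trans hpq.le) hP₁p hne.symm hqK hpqK cpq
  have : Fact p.Prime := ⟨hp⟩
  have : Fact q.Prime := ⟨hq⟩
  have hsq' : IsSquare (p : ZMod q) :=
    (ZMod.exists_sq_eq_prime_iff_of_mod_four_eq_one hp4 (by rintro rfl; omega)).1 hsq
  have G : h.Good := hSA p q hp hq hp4 hq4 hne hsq h hh cqp g1
  have G' : h.swap.Good := hSA q p hq hp hq4 hp4 hne.symm hsq' h.swap hh' cpq g2
  -- base gaps
  obtain ⟨gB, LB, hgB, hqLB, HB⟩ := hq₀ q hq hq4 (hq₀p.trans hpq.le) h.SA h.sig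
    (main_sig_inv hh) G.1 (main_sig_gen h)
  obtain ⟨gA, LA, hgA, hpLA, HA⟩ := hq₀ p hp hp4 hq₀p h.swap.SA h.swap.sig
    (main_sig_inv hh') G'.1 (main_sig_gen h.swap)
  have cB : Fintype.card (SS q) = q + 1 := hcard q hq hq4
  have cA : Fintype.card (SS p) = p + 1 := hcard p hp hp4
  obtain ⟨g0B, hg0B, H0B⟩ := hbase (q + 1) gB (Nat.succ_pos _) hgB
  obtain ⟨g0A, hg0A, H0A⟩ := hbase (p + 1) gA (Nat.succ_pos _) hgA
  obtain ⟨QQ, hQQ⟩ := hfinal p q hp hq hp4 hq4 hne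
  have neA : Nonempty (SS p) := Fintype.card_pos_iff.1 (by omega)
  have neB : Nonempty (SS q) := Fintype.card_pos_iff.1 (by omega)
  refine ⟨max (max LB LA) (q + 1), QQ.image (fun s => s⁻¹), ?_⟩
  intro d
  obtain ⟨g', hg', Hit⟩ := hiter (SS p) (SS q) h neA neB G G' d (min g0B g0A) (lt_min hg0B hg0A)
  obtain ⟨c, hc, Hfin⟩ := hQQ g' hg'
  refine ⟨c / (QQ.card + 1), by positivity, ?_⟩
  intro M hM hML N hN hNf hder _ v hv hv1
  have : NeZero M := ⟨hM.ne'⟩
  have cqM : Nat.Coprime q M := main_coprime hq fun l hl hd => by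
    have := hML l hl hd
    have := le_max_right (max LB LA) (q + 1)
    omega
  have cpM : Nat.Coprime p M := main_coprime hp fun l hl hd => by
    have := hML l hl hd
    have := le_max_right (max LB LA) (q + 1)
    omega
  have hLB : ∀ l : ℕ, l.Prime → l ∣ M → LB ≤ l := fun l hl hd =>
    ((le_max_left LB LA).trans (le_max_left _ _)).trans (hML l hl hd)
  have hLA : ∀ l : ℕ, l.Prime → l ∣ M → LA ≤ l := fun l hl hd =>
    ((le_max_right LB LA).trans (le_max_left _ _)).trans (hML l hl hd)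
  obtain ⟨Q, _, _, r, D, rQ, rM, hD, hDA, hDB, hDd, hrange, hDk, eB, eA, hk⟩ :=
    hlink p q hp hq hp4 hq4 hne h hh M cqM cpM d N hN hNf hder
  have GB0 : r.GB D g0B := by
    refine H0B (SS p) (SS q) h cB Q r D (G1 p q) (unitary ℍ[ZMod M]) rQ rM
      (fun b' b => uM M cqM b' b) hD hrange hDk ?_ ?_
    · intro b' b
      obtain ⟨γ, -, h1, h2⟩ := eB b' b
      exact ⟨γ, h1, h2⟩
    · exact HB M cqM hLB
  have GA0 : r.swap.GB D g0A := by
    refine H0A (SS q) (SS p) h.swap cA Q r.swap D (G1 p q) (unitary ℍ[ZMod M]) rQ rM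
      (fun a' a => uM M cpM a' a) hD ?_ hDk ?_ ?_
    · rw [hrange, inf_comm]; rfl
    · intro a' a
      obtain ⟨γ, -, h1, h2⟩ := eA a' a
      exact ⟨γ, h1, h2⟩
    · exact HA M cpM hLA
  have Hd := (Hit Q r D hD hDA hDB (main_GB_mono r D (min_le_left _ _) GB0)
    (main_GB_mono r.swap D (min_le_right _ _) GA0)).2
  rw [hDd] at Hd
  have fin := Hfin h hh N Q r rQ hrange
    (fun a' a => by obtain ⟨γ, h1, h2, -⟩ := eA a' a; exact ⟨γ, h1, h2⟩) hk Hd v hv
  rw [hv1, mul_one] at fin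
  by_contra hcon
  push Not at hcon
  have hlt : ∀ s ∈ QQ, ∑ x, ‖v ((s : GG p q ⧸ N) * x) - v x‖ ^ 2 ≤ c / (QQ.card + 1) := by
    intro s hs
    have := hcon s⁻¹ (Finset.mem_image_of_mem _ hs)
    rw [inv_inv] at this
    exact this.le
  have := Finset.sum_le_card_nsmul QQ _ _ hlt
  rw [nsmul_eq_mul] at this
  have h3 : (QQ.card : ℝ) * (c / (QQ.card + 1)) < c := by
    rw [mul_div_assoc', div_lt_iff₀ (by positivity)]
    nlinarith
  linarith

end TauQ
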