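import Mathlib
import Pool.Agent.Work.MP_972ac7_al_tau.Interface

/-! Block `nearhom`: near-characters of a finite perfect group are near 1 (helper44). -/

open scoped BigOperators commutatorElement

namespace TauQ

lemma nearhom_mul {V : Type} [NormedAddCommGroup V] [InnerProductSpace ℂ V]
    (e e' : V ≃ₗᵢ[ℂ] V) (F : V) : (e * e') F = e (e' F) := rfl

/-- one commutator -/
lemma nearhom_comm {S : Type} [Group S] {V : Type} [NormedAddCommGroup V]
    [InnerProductSpace ℂ V] (R : S →* (V ≃ₗᵢ[ℂ] V)) (F : V) (δ : ℝ) (hδ : 0 ≤ δ)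
    (h : ∀ s, ∃ ω : ℂ, ‖R s F - ω • F‖ ≤ δ * ‖F‖) (s t : S) :
    ‖R ⁅s, t⁆ F - F‖ ≤ 100 * δ * ‖F‖ := by
  by_cases hF : F = 0
  · subst hF
    simp
  have hF' : 0 < ‖F‖ := norm_pos_iff.2 hF
  by_cases hδ1 : 1 < δ
  · calc ‖R ⁅s, t⁆ F - F‖ ≤ ‖R ⁅s, t⁆ F‖ + ‖F‖ := norm_sub_le _ _
      _ = 2 * ‖F‖ := by rw [LinearIsometryEquiv.norm_map]; ring
      _ ≤ 100 * δ * ‖F‖ := by nlinarith
  push Not at hδ1
  -- choose unimodular approximations
  have hom : ∀ x, ∃ ω : ℂ, ‖ω‖ ≤ 2 ∧ ‖R x F - ω • F‖ ≤ δ * ‖F‖ := by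
    intro x
    obtain ⟨ω, hω⟩ := h x
    refine ⟨ω, ?_, hω⟩
    have h1 : ‖ω • F‖ ≤ ‖R x F‖ + ‖R x F - ω • F‖ := by
      have := norm_sub_le (R x F) (R x F - ω • F)
      simpa using this
    rw [norm_smul, LinearIsometryEquiv.norm_map] at h1
    have h2 : ‖ω‖ * ‖F‖ ≤ 2 * ‖F‖ := by nlinarith
    exact le_of_mul_le_mul_right h2 hF'
  choose om hom1 hom2 using hom
  -- product
  have hprod : ∀ x y, ‖R (x * y) F - (om x * om y) • F‖ ≤ 3 * δ * ‖F‖ := by
    intro x y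
    have e : R (x * y) F - (om x * om y) • F =
        R x (R y F - om y • F) + om y • (R x F - om x • F) := by
      rw [map_mul, nearhom_mul, map_sub, map_smul, smul_sub, smul_smul,
        mul_comm (om y)]
      abel
    rw [e]
    calc ‖R x (R y F - om y • F) + om y • (R x F - om x • F)‖
        ≤ ‖R x (R y F - om y • F)‖ + ‖om y • (R x F - om x • F)‖ := norm_add_le _ _
      _ = ‖R y F - om y • F‖ + ‖om y‖ * ‖R x F - om x • F‖ := by
          rw [LinearIsometryEquiv.norm_map, norm_smul]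
      _ ≤ δ * ‖F‖ + 2 * (δ * ‖F‖) := by
          refine add_le_add (hom2 y) (mul_le_mul (hom1 y) (hom2 x) (norm_nonneg _) (by norm_num))
      _ = 3 * δ * ‖F‖ := by ring
  -- st and ts
  have hst : ‖R (s * t) F - R (t * s) F‖ ≤ 6 * δ * ‖F‖ := by
    have h1 := hprod s t
    have h2 := hprod t s
    rw [mul_comm (om t)] at h2
    calc ‖R (s * t) F - R (t * s) F‖
        = ‖(R (s * t) F - (om s * om t) • F) - (R (t * s) F - (om s * om t) • F)‖ := by
          rw [sub_sub_sub_cancel_right]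
      _ ≤ ‖R (s * t) F - (om s * om t) • F‖ + ‖R (t * s) F - (om s * om t) • F‖ :=
          norm_sub_le _ _
      _ ≤ 3 * δ * ‖F‖ + 3 * δ * ‖F‖ := add_le_add h1 h2
      _ = 6 * δ * ‖F‖ := by ring
  have hg : R (t * s) (R (t * s)⁻¹ F) = F := by
    rw [← nearhom_mul, ← map_mul, mul_inv_cancel, map_one]
    rfl
  have hc : R ⁅s, t⁆ F = R (s * t) (R (t * s)⁻¹ F) := by
    rw [← nearhom_mul, ← map_mul, commutatorElement_def, mul_inv_rev]
    simp only [mul_assoc]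
  set ω := om (t * s)⁻¹ with hω
  have e : R ⁅s, t⁆ F - F = R (s * t) (R (t * s)⁻¹ F - ω • F) +
      ω • (R (s * t) F - R (t * s) F) - R (t * s) (R (t * s)⁻¹ F - ω • F) := by
    rw [map_sub, map_sub, map_smul, map_smul, hg, hc, smul_sub]
    abel
  rw [e]
  have hb := hom2 (t * s)⁻¹
  rw [← hω] at hb
  calc ‖R (s * t) (R (t * s)⁻¹ F - ω • F) + ω • (R (s * t) F - R (t * s) F) -
        R (t * s) (R (t * s)⁻¹ F - ω • F)‖
      ≤ ‖R (s * t) (R (t * s)⁻¹ F - ω • F)‖ + ‖ω • (R (s * t) F - R (t * s) F)‖ +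
        ‖R (t * s) (R (t * s)⁻¹ F - ω • F)‖ :=
        (norm_sub_le _ _).trans (add_le_add (norm_add_le _ _) le_rfl)
    _ = ‖R (t * s)⁻¹ F - ω • F‖ + ‖ω‖ * ‖R (s * t) F - R (t * s) F‖ +
        ‖R (t * s)⁻¹ F - ω • F‖ := by
        rw [LinearIsometryEquiv.norm_map, LinearIsometryEquiv.norm_map, norm_smul]
    _ ≤ δ * ‖F‖ + 2 * (6 * δ * ‖F‖) + δ * ‖F‖ := by
        refine add_le_add (add_le_add hb (mul_le_mul (hom1 _) hst (norm_nonneg _)
          (by norm_num))) hb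
    _ ≤ 100 * δ * ‖F‖ := by nlinarith [mul_nonneg hδ hF'.le]

theorem nearhom_proof : Stmt_nearhom := by
  intro S _ _ hS
  classical
  have : Fintype S := Fintype.ofFinite S
  have key : ∀ s : S, ∃ k : ℝ, 0 < k ∧ ∀ (V : Type) [NormedAddCommGroup V]
      [InnerProductSpace ℂ V] (R : S →* (V ≃ₗᵢ[ℂ] V)) (F : V) (δ : ℝ), 0 ≤ δ →
      (∀ s, ∃ ω : ℂ, ‖R s F - ω • F‖ ≤ δ * ‖F‖) → ‖R s F - F‖ ≤ k * δ * ‖F‖ := by
    intro s
    have hs : s ∈ Subgroup.closure {g : S | ∃ x ∈ (⊤ : Subgroup S), ∃ y ∈ (⊤ : Subgroup S),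
        ⁅x, y⁆ = g} := by
      have : s ∈ commutator S := by rw [hS]; trivial
      rw [commutator_def, Subgroup.commutator_def] at this
      exact this
    induction hs using Subgroup.closure_induction with
    | mem x hx =>
      obtain ⟨a, -, b, -, rfl⟩ := hx
      exact ⟨100, by norm_num, fun V _ _ R F δ hδ h => nearhom_comm R F δ hδ h a b⟩
    | one =>
      refine ⟨1, one_pos, fun V _ _ R F δ hδ h => ?_⟩
      rw [map_one]
      show ‖F - F‖ ≤ _
      rw [sub_self, norm_zero]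
      positivity
    | mul x y _ _ hx hy =>
      obtain ⟨k, hk, h1⟩ := hx
      obtain ⟨l, hl, h2⟩ := hy
      refine ⟨k + l, add_pos hk hl, fun V _ _ R F δ hδ h => ?_⟩
      have e : R (x * y) F - F = R x (R y F - F) + (R x F - F) := by
        rw [map_mul, nearhom_mul, map_sub]
        abel
      rw [e]
      calc ‖R x (R y F - F) + (R x F - F)‖ ≤ ‖R x (R y F - F)‖ + ‖R x F - F‖ := norm_add_le _ _
        _ = ‖R y F - F‖ + ‖R x F - F‖ := by rw [LinearIsometryEquiv.norm_map]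
        _ ≤ l * δ * ‖F‖ + k * δ * ‖F‖ := add_le_add (h2 V R F δ hδ h) (h1 V R F δ hδ h)
        _ = (k + l) * δ * ‖F‖ := by ring
    | inv x _ hx =>
      obtain ⟨k, hk, h1⟩ := hx
      refine ⟨k, hk, fun V _ _ R F δ hδ h => ?_⟩
      have e : R x (R x⁻¹ F - F) = -(R x F - F) := by
        rw [map_sub, ← nearhom_mul, ← map_mul, mul_inv_cancel, map_one]
        show F - R x F = _
        abel
      calc ‖R x⁻¹ F - F‖ = ‖R x (R x⁻¹ F - F)‖ := by rw [LinearIsometryEquiv.norm_map]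
        _ = ‖R x F - F‖ := by rw [e, norm_neg]
        _ ≤ k * δ * ‖F‖ := h1 V R F δ hδ h
  choose k hk hkey using key
  refine ⟨∑ s, k s, Finset.sum_pos (fun s _ => hk s) Finset.univ_nonempty, ?_⟩
  intro V _ _ R F δ hδ h s
  refine (hkey s V R F δ hδ h).trans ?_
  have : k s ≤ ∑ s, k s := Finset.single_le_sum (fun s _ => (hk s).le) (Finset.mem_univ s)
  have h0 : 0 ≤ δ * ‖F‖ := mul_nonneg hδ (norm_nonneg _)
  calc k s * δ * ‖F‖ = k s * (δ * ‖F‖) := by ring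
    _ ≤ (∑ s, k s) * (δ * ‖F‖) := mul_le_mul_of_nonneg_right this h0
    _ = (∑ s, k s) * δ * ‖F‖ := by ring

end TauQ
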