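import Mathlib
import Pool.Agent.Work.MP_972ac7_al_tau.Interface

/-! Block `perf`: `SL2(F_p)` is perfect for `p ≥ 5` (helper44). -/

namespace TauQ

theorem perf_proof : Stmt_perf := by
  intro p hp h5
  have : Fact p.Prime := ⟨hp⟩
  have h2 : ((2 : ℕ) : ZMod p) ≠ 0 := by
    intro h
    rw [ZMod.natCast_eq_zero_iff] at h
    have := Nat.le_of_dvd (by norm_num) h
    omega
  have h3 : ((3 : ℕ) : ZMod p) ≠ 0 := by
    intro h
    rw [ZMod.natCast_eq_zero_iff] at h
    have := Nat.le_of_dvd (by norm_num) h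
    omega
  refine Matrix.SL2.commutator_eq_top (a := (2 : ZMod p)) (by exact_mod_cast h2) ?_
  intro h
  apply h3
  have : (3 : ZMod p) = 2 ^ 2 - 1 := by norm_num
  push_cast
  rw [this, h, sub_self]

end TauQ
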