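import Mathlib
import Pool.Agent.Work.MP_972ac7_al_tau.Interface

/-!
# Block A1 `phase`
-/

open scoped Quaternion BigOperators
open Classical

namespace TauQ

/-- the mean of an invariant function and the deviation from it -/
lemma phase_mean {Z ι D : Type} [Fintype Z] [Fintype ι] (g : ℝ) (τ : ι → Equiv.Perm Z)
    (act : D → Equiv.Perm Z) (S : Set Z)
    (hS : ∀ i z, τ i z ∈ S ↔ z ∈ S) (hA : ∀ d z, act d z ∈ S ↔ z ∈ S)
    (hP : ∀ f : Z → ℂ, (∀ z, z ∉ S → f z = 0) → (∀ d z, f (act d z) = f z) → ∑ z, f z = 0 →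
      2 * g * ∑ z, ‖f z‖ ^ 2 ≤ ∑ i, ∑ z, ‖f (τ i z) - f z‖ ^ 2)
    (s : ℝ) (hs : s = ∑ z, if z ∈ S then (1 : ℝ) else 0) (hs0 : 0 < s)
    (h : Z → ℂ) (h0 : ∀ z, z ∉ S → h z = 0) (h1 : ∀ d z, h (act d z) = h z) :
    ∃ (m : ℂ) (e : Z → ℂ), (∀ z, z ∈ S → h z = m + e z) ∧ (∀ z, z ∉ S → e z = 0) ∧
      2 * g * ∑ z, ‖e z‖ ^ 2 ≤ ∑ i, ∑ z, ‖h (τ i z) - h z‖ ^ 2 ∧
      ∑ z, ‖h z‖ ^ 2 = ‖m‖ ^ 2 * s + ∑ z, ‖e z‖ ^ 2 := by
  have hsC : (s : ℂ) ≠ 0 := by exact_mod_cast hs0.ne'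
  obtain ⟨m, hm⟩ : ∃ m : ℂ, m = (∑ z, h z) / s := ⟨_, rfl⟩
  obtain ⟨e, he⟩ : ∃ e : Z → ℂ, e = fun z => if z ∈ S then h z - m else 0 := ⟨_, rfl⟩
  have eS : ∀ z, z ∈ S → e z = h z - m := fun z hz => by rw [he]; exact if_pos hz
  have eN : ∀ z, z ∉ S → e z = 0 := fun z hz => by rw [he]; exact if_neg hz
  have esum : ∑ z, e z = 0 := by
    have e1 : ∀ z, e z = h z - m * (if z ∈ S then (1 : ℂ) else 0) := by
      intro z
      by_cases hz : z ∈ S
      · rw [eS z hz, if_pos hz, mul_one]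
      · rw [eN z hz, if_neg hz, h0 z hz, mul_zero, sub_zero]
    rw [Finset.sum_congr rfl (fun z _ => e1 z), Finset.sum_sub_distrib, ← Finset.mul_sum]
    have e2 : (∑ z, if z ∈ S then (1 : ℂ) else 0) = (s : ℂ) := by
      rw [hs, Complex.ofReal_sum]
      apply Finset.sum_congr rfl
      intro z _
      by_cases hz : z ∈ S
      · rw [if_pos hz, if_pos hz, Complex.ofReal_one]
      · rw [if_neg hz, if_neg hz, Complex.ofReal_zero]
    rw [e2, hm, div_mul_cancel₀ _ hsC, sub_self]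
  have einv : ∀ d z, e (act d z) = e z := by
    intro d z
    by_cases hz : z ∈ S
    · rw [eS _ ((hA d z).2 hz), eS z hz, h1]
    · rw [eN _ (fun hc => hz ((hA d z).1 hc)), eN z hz]
  have ediff : ∀ i z, e (τ i z) - e z = h (τ i z) - h z := by
    intro i z
    by_cases hz : z ∈ S
    · rw [eS _ ((hS i z).2 hz), eS z hz]
      ring
    · have hz' : τ i z ∉ S := fun hc => hz ((hS i z).1 hc)
      rw [eN _ hz', eN z hz, h0 _ hz', h0 z hz]
  refine ⟨m, e, fun z hz => by rw [eS z hz]; ring, eN, ?_, ?_⟩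
  · have := hP e eN einv esum
    simp only [ediff] at this
    exact this
  · have e3 : ∀ z, ‖h z‖ ^ 2 = ‖m‖ ^ 2 * (if z ∈ S then (1 : ℝ) else 0) + ‖e z‖ ^ 2 +
        2 * (m * (starRingEnd ℂ) (e z)).re := by
      intro z
      by_cases hz : z ∈ S
      · have : h z = m + e z := by rw [eS z hz]; ring
        rw [this, if_pos hz, ← Complex.normSq_eq_norm_sq, ← Complex.normSq_eq_norm_sq,
          ← Complex.normSq_eq_norm_sq, Complex.normSq_add]
        ring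
      · rw [h0 z hz, eN z hz, if_neg hz]
        simp
    rw [Finset.sum_congr rfl (fun z _ => e3 z), Finset.sum_add_distrib, Finset.sum_add_distrib,
      ← Finset.mul_sum, ← hs, ← Finset.mul_sum, ← Complex.re_sum, ← Finset.mul_sum, ← map_sum,
      esum]
    simp

/-- the phase of a complex number -/
noncomputable def phase_U (x : ℂ) : ℂ := x / (‖x‖ : ℂ)

lemma phase_U_norm (x : ℂ) : ‖phase_U x‖ ≤ 1 := by
  unfold phase_U
  rw [norm_div, Complex.norm_real, norm_norm]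
  exact div_self_le_one _

lemma phase_U_mul (x : ℂ) : (‖x‖ : ℂ) * phase_U x = x := by
  unfold phase_U
  by_cases hx : x = 0
  · rw [hx]; simp
  · have : (‖x‖ : ℂ) ≠ 0 := by
      rw [Complex.ofReal_ne_zero]
      exact norm_ne_zero_iff.2 hx
    field_simp

lemma phase_U_smul (a x : ℂ) (ha : ‖a‖ = 1) : phase_U (a * x) = a * phase_U x := by
  unfold phase_U
  rw [norm_mul, ha, one_mul, mul_div_assoc]

lemma phase_U_zero : phase_U 0 = 0 := by simp [phase_U]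

/-- `|F| (1 - |U|^2) = 0` -/
lemma phase_U_one (x : ℂ) : (‖x‖ : ℂ) * (1 - phase_U x * (starRingEnd ℂ) (phase_U x)) = 0 := by
  by_cases hx : x = 0
  · rw [hx]; simp
  · have h1 : (‖x‖ : ℂ) ≠ 0 := by
      rw [Complex.ofReal_ne_zero]
      exact norm_ne_zero_iff.2 hx
    have h2 : phase_U x * (starRingEnd ℂ) (phase_U x) = 1 := by
      rw [Complex.mul_conj, Complex.normSq_eq_norm_sq]
      unfold phase_U
      rw [norm_div, Complex.norm_real, norm_norm, div_self (norm_ne_zero_iff.2 hx)]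
      simp
    rw [h2]
    simp

lemma phase_sq2 (x y : ℝ) : (x + y) ^ 2 ≤ 2 * x ^ 2 + 2 * y ^ 2 := by
  nlinarith [sq_nonneg (x - y)]

lemma phase_sq3 (x y z : ℝ) : (x + y + z) ^ 2 ≤ 3 * (x ^ 2 + y ^ 2 + z ^ 2) := by
  nlinarith [sq_nonneg (x - y), sq_nonneg (y - z), sq_nonneg (x - z)]

theorem phase_proof : Stmt_phase := by
  intro n g hg
  refine ⟨3 * ((66 + 40 * n / g) / g + 8 / g), by positivity, ?_⟩
  intro Z ι D _ _ hn τ act S hS hA hP ε F G ψ hε hεg hF0 hFS hGS hψ hF hG hVF hVG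
  obtain ⟨NF, hNF⟩ : ∃ NF : ℝ, NF = ∑ z, ‖F z‖ ^ 2 := ⟨_, rfl⟩
  obtain ⟨NG, hNG⟩ : ∃ NG : ℝ, NG = ∑ z, ‖G z‖ ^ 2 := ⟨_, rfl⟩
  have hNG0 : 0 ≤ NG := by rw [hNG]; positivity
  have hNF0 : 0 < NF := by
    rw [hNF]
    obtain ⟨z, hz⟩ := Function.ne_iff.1 hF0
    have hz' : 0 < ‖F z‖ := norm_pos_iff.2 hz
    calc (0 : ℝ) < ‖F z‖ ^ 2 := by positivity
      _ ≤ _ := Finset.single_le_sum (f := fun z => ‖F z‖ ^ 2) (fun _ _ => by positivity)
        (Finset.mem_univ z)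
  rw [← hNF] at hVF
  rw [← hNG] at hVG ⊢
  obtain ⟨s, hs⟩ : ∃ s : ℝ, s = ∑ z, if z ∈ S then (1 : ℝ) else 0 := ⟨_, rfl⟩
  have hs0 : 0 < s := by
    obtain ⟨z, hz⟩ := Function.ne_iff.1 hF0
    have hzS : z ∈ S := by
      by_contra hc
      exact hz (hFS z hc)
    rw [hs]
    calc (0 : ℝ) < (if z ∈ S then (1 : ℝ) else 0) := by rw [if_pos hzS]; norm_num
      _ ≤ _ := Finset.single_le_sum (f := fun z => if z ∈ S then (1 : ℝ) else 0)
        (fun _ _ => by split_ifs <;> norm_num) (Finset.mem_univ z)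
  -- variation of the absolute value
  have hvabs : ∀ X : Z → ℂ, ∑ i, ∑ z, ‖((‖X (τ i z)‖ : ℂ)) - (‖X z‖ : ℂ)‖ ^ 2 ≤
      ∑ i, ∑ z, ‖X (τ i z) - X z‖ ^ 2 := by
    intro X
    apply Finset.sum_le_sum
    intro i _
    apply Finset.sum_le_sum
    intro z _
    rw [← Complex.ofReal_sub, Complex.norm_real]
    exact pow_le_pow_left₀ (norm_nonneg _) (abs_norm_sub_norm_le _ _) 2
  have hninv : ∀ X : Z → ℂ, (∀ d z, X (act d z) = ψ d * X z) → ∀ d z,
      ((‖X (act d z)‖ : ℝ) : ℂ) = (‖X z‖ : ℂ) := by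
    intro X hX d z
    rw [hX, norm_mul, hψ, one_mul]
  obtain ⟨m, e, me1, me2, me3, me4⟩ := phase_mean g τ act S hS hA hP s hs hs0
    (fun z => ((‖F z‖ : ℝ) : ℂ)) (fun z hz => by rw [hFS z hz]; simp) (hninv F hF)
  obtain ⟨H, ρ, he1, he2, he3, he4⟩ := phase_mean g τ act S hS hA hP s hs hs0
    (fun z => ((‖G z‖ : ℝ) : ℂ)) (fun z hz => by rw [hGS z hz]; simp) (hninv G hG)
  simp only [Complex.norm_real, norm_norm] at me4 he4
  rw [← hNF] at me4
  rw [← hNG] at he4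
  obtain ⟨Ee, hEe⟩ : ∃ x : ℝ, x = ∑ z, ‖e z‖ ^ 2 := ⟨_, rfl⟩
  obtain ⟨Er, hEr⟩ : ∃ x : ℝ, x = ∑ z, ‖ρ z‖ ^ 2 := ⟨_, rfl⟩
  rw [← hEe] at me3 me4
  rw [← hEr] at he3 he4
  have hEe0 : 0 ≤ Ee := by rw [hEe]; positivity
  have hEr0 : 0 ≤ Er := by rw [hEr]; positivity
  have hEe1 : g * Ee ≤ ε * NF := by
    have := (me3.trans (hvabs F)).trans hVF
    linarith
  have hEr1 : g * Er ≤ ε * NG := by
    have := (he3.trans (hvabs G)).trans hVG
    linarith
  have hEe2 : Ee ≤ NF / 2 := by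
    have h1 : ε * NF ≤ g / 2 * NF := by gcongr
    have h2 : g * Ee ≤ g * (NF / 2) := by linarith
    exact le_of_mul_le_mul_left h2 hg
  have hm2 : NF / 2 ≤ ‖m‖ ^ 2 * s := by linarith
  have hm0 : m ≠ 0 := by
    intro h
    rw [h, norm_zero] at hm2
    norm_num at hm2
    linarith
  have hmn : 0 < ‖m‖ := norm_pos_iff.2 hm0
  have hH2 : ‖H‖ ^ 2 * s ≤ NG := by linarith
  -- the ratio bound: `X s ≤ NG` implies `X / |m|^2 ≤ 2 NG / NF`
  have hratio : ∀ X : ℝ, X * s ≤ NG → X / ‖m‖ ^ 2 ≤ 2 * NG / NF := by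
    intro X hX
    rw [div_le_div_iff₀ (by positivity) hNF0]
    have h1 : X * s * NF ≤ NG * NF := by gcongr
    have h2 : NG * (NF / 2) ≤ NG * (‖m‖ ^ 2 * s) := by gcongr
    have h3 : (X * NF) * s ≤ (2 * NG * ‖m‖ ^ 2) * s := by nlinarith
    exact le_of_mul_le_mul_right h3 hs0
  have hHr := hratio _ hH2
  -- the phase
  obtain ⟨U, hU⟩ : ∃ U : Z → ℂ, U = fun z => phase_U (F z) := ⟨_, rfl⟩
  have hU1 : ∀ z, ‖U z‖ ≤ 1 := fun z => by rw [hU]; exact phase_U_norm _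
  have hUF : ∀ z, (‖F z‖ : ℂ) * U z = F z := fun z => by rw [hU]; exact phase_U_mul _
  have hUdiff : ∀ i z, ‖U (τ i z) - U z‖ ≤ 2 := fun i z => by
    calc _ ≤ ‖U (τ i z)‖ + ‖U z‖ := norm_sub_le _ _
      _ ≤ 2 := by linarith [hU1 (τ i z), hU1 z]
  have hUc : ∀ i z, z ∈ S →
      ‖m‖ * ‖U (τ i z) - U z‖ ≤ 2 * ‖F (τ i z) - F z‖ + 2 * ‖e z‖ := by
    intro i z hz
    have h1 : m = (‖F z‖ : ℂ) - e z := by
      have h0 : (‖F z‖ : ℂ) = m + e z := me1 z hz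
      rw [h0]
      ring
    have h2 : ‖F z‖ * ‖U (τ i z) - U z‖ ≤ 2 * ‖F (τ i z) - F z‖ := by
      have h3 : (‖F z‖ : ℂ) * (U (τ i z) - U z) =
          ((‖F z‖ : ℂ) - (‖F (τ i z)‖ : ℂ)) * U (τ i z) + (F (τ i z) - F z) := by
        have a1 := hUF z
        have a2 := hUF (τ i z)
        linear_combination a2 - a1
      calc ‖F z‖ * ‖U (τ i z) - U z‖ = ‖(‖F z‖ : ℂ) * (U (τ i z) - U z)‖ := by
            rw [norm_mul, Complex.norm_real, norm_norm]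
        _ ≤ ‖((‖F z‖ : ℂ) - (‖F (τ i z)‖ : ℂ)) * U (τ i z)‖ + ‖F (τ i z) - F z‖ := by
            rw [h3]
            exact norm_add_le _ _
        _ ≤ ‖F (τ i z) - F z‖ * 1 + ‖F (τ i z) - F z‖ := by
            gcongr
            rw [norm_mul]
            apply mul_le_mul _ (hU1 _) (norm_nonneg _) (norm_nonneg _)
            rw [← Complex.ofReal_sub, Complex.norm_real, norm_sub_rev (F (τ i z))]
            exact abs_norm_sub_norm_le _ _
        _ = _ := by ring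
    calc ‖m‖ * ‖U (τ i z) - U z‖ ≤ (‖F z‖ + ‖e z‖) * ‖U (τ i z) - U z‖ := by
          gcongr
          calc ‖m‖ = ‖(‖F z‖ : ℂ) - e z‖ := by rw [← h1]
            _ ≤ ‖(‖F z‖ : ℂ)‖ + ‖e z‖ := norm_sub_le _ _
            _ = _ := by rw [Complex.norm_real, norm_norm]
      _ = ‖F z‖ * ‖U (τ i z) - U z‖ + ‖e z‖ * ‖U (τ i z) - U z‖ := by ring
      _ ≤ 2 * ‖F (τ i z) - F z‖ + ‖e z‖ * 2 := by
          gcongr
          exact hUdiff i z
      _ = _ := by ring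
  have hGz : ∀ z, z ∈ S → ‖G z‖ ≤ ‖H‖ + ‖ρ z‖ := by
    intro z hz
    have h0 : (‖G z‖ : ℂ) = H + ρ z := he1 z hz
    calc ‖G z‖ = ‖((‖G z‖ : ℝ) : ℂ)‖ := by rw [Complex.norm_real, norm_norm]
      _ = ‖H + ρ z‖ := by rw [h0]
      _ ≤ _ := norm_add_le _ _
  -- the invariant function `phi`
  obtain ⟨φ, hφ⟩ : ∃ φ : Z → ℂ, φ = fun z => (starRingEnd ℂ) (U z) * G z := ⟨_, rfl⟩
  have hφS : ∀ z, z ∉ S → φ z = 0 := by
    intro z hz
    rw [hφ]
    show (starRingEnd ℂ) (U z) * G z = 0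
    rw [hGS z hz, mul_zero]
  have hφinv : ∀ d z, φ (act d z) = φ z := by
    intro d z
    rw [hφ]
    show (starRingEnd ℂ) (U (act d z)) * G (act d z) = (starRingEnd ℂ) (U z) * G z
    have h1 : U (act d z) = ψ d * U z := by
      rw [hU]
      show phase_U (F (act d z)) = ψ d * phase_U (F z)
      rw [hF, phase_U_smul _ _ (hψ d)]
    have h2 : (starRingEnd ℂ) (ψ d) * ψ d = 1 := by
      rw [mul_comm, Complex.mul_conj, Complex.normSq_eq_norm_sq, hψ]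
      simp
    rw [h1, hG, map_mul]
    linear_combination (starRingEnd ℂ) (U z) * G z * h2
  have hvφ : ∑ i, ∑ z, ‖φ (τ i z) - φ z‖ ^ 2 ≤ (132 + 80 * n / g) * (ε * NG) := by
    have hpt : ∀ i z, ‖φ (τ i z) - φ z‖ ^ 2 ≤ 2 * ‖G (τ i z) - G z‖ ^ 2 +
        (‖H‖ ^ 2 / ‖m‖ ^ 2) * (32 * ‖F (τ i z) - F z‖ ^ 2 + 32 * ‖e z‖ ^ 2) +
        16 * ‖ρ z‖ ^ 2 := by
      intro i z
      by_cases hz : z ∈ S
      · have h1 : φ (τ i z) - φ z = (starRingEnd ℂ) (U (τ i z)) * (G (τ i z) - G z) +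
            (starRingEnd ℂ) (U (τ i z) - U z) * G z := by
          rw [hφ]
          simp only [map_sub]
          ring
        have h2 : ‖φ (τ i z) - φ z‖ ≤ ‖G (τ i z) - G z‖ +
            (‖H‖ / ‖m‖ * (2 * ‖F (τ i z) - F z‖ + 2 * ‖e z‖) + 2 * ‖ρ z‖) := by
          rw [h1]
          refine (norm_add_le _ _).trans ?_
          rw [norm_mul, norm_mul, RCLike.norm_conj, RCLike.norm_conj]
          apply add_le_add
          · calc ‖U (τ i z)‖ * ‖G (τ i z) - G z‖ ≤ 1 * ‖G (τ i z) - G z‖ := by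
                  gcongr
                  exact hU1 _
              _ = _ := one_mul _
          · calc ‖U (τ i z) - U z‖ * ‖G z‖ ≤ ‖U (τ i z) - U z‖ * (‖H‖ + ‖ρ z‖) := by
                  gcongr
                  exact hGz z hz
              _ = ‖H‖ / ‖m‖ * (‖m‖ * ‖U (τ i z) - U z‖) + ‖U (τ i z) - U z‖ * ‖ρ z‖ := by
                  field_simp
              _ ≤ ‖H‖ / ‖m‖ * (2 * ‖F (τ i z) - F z‖ + 2 * ‖e z‖) + 2 * ‖ρ z‖ := by
                  gcongr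
                  · exact hUc i z hz
                  · exact hUdiff i z
        have hsq : ∀ A x a y w r : ℝ, 0 ≤ A → A ≤ x + (a * (2 * y + 2 * w) + 2 * r) →
            A ^ 2 ≤ 2 * x ^ 2 + a ^ 2 * (32 * y ^ 2 + 32 * w ^ 2) + 16 * r ^ 2 := by
          intro A x a y w r hA hle
          have b1 : A ^ 2 ≤ (x + (a * (2 * y + 2 * w) + 2 * r)) ^ 2 :=
            pow_le_pow_left₀ hA hle 2
          have b2 := phase_sq2 x (a * (2 * y + 2 * w) + 2 * r)
          have b3 := phase_sq2 (a * (2 * y + 2 * w)) (2 * r)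
          have b3' : (2 * r) ^ 2 = 4 * r ^ 2 := by ring
          rw [b3'] at b3
          have b4 : (a * (2 * y + 2 * w)) ^ 2 ≤ a ^ 2 * (8 * y ^ 2 + 8 * w ^ 2) := by
            have : (a * (2 * y + 2 * w)) ^ 2 = a ^ 2 * (2 * y + 2 * w) ^ 2 := by ring
            rw [this]
            apply mul_le_mul_of_nonneg_left _ (sq_nonneg a)
            nlinarith [sq_nonneg (y - w)]
          have b5 : a ^ 2 * (32 * y ^ 2 + 32 * w ^ 2) = 4 * (a ^ 2 * (8 * y ^ 2 + 8 * w ^ 2)) := by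
            ring
          rw [b5]
          linarith
        have h4 := hsq _ _ _ _ _ _ (norm_nonneg _) h2
        rw [div_pow] at h4
        exact h4
      · have hz' : τ i z ∉ S := fun hc => hz ((hS i z).1 hc)
        rw [hφS _ hz', hφS _ hz, sub_zero, norm_zero, zero_pow two_ne_zero]
        positivity
    have hsum : ∑ i, ∑ z, ‖φ (τ i z) - φ z‖ ^ 2 ≤
        2 * (∑ i, ∑ z, ‖G (τ i z) - G z‖ ^ 2) +
        (‖H‖ ^ 2 / ‖m‖ ^ 2) * (32 * (∑ i, ∑ z, ‖F (τ i z) - F z‖ ^ 2) + 32 * (n * Ee)) +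
        16 * (n * Er) := by
      calc _ ≤ ∑ i, ∑ z, (2 * ‖G (τ i z) - G z‖ ^ 2 +
            (‖H‖ ^ 2 / ‖m‖ ^ 2) * (32 * ‖F (τ i z) - F z‖ ^ 2 + 32 * ‖e z‖ ^ 2) +
            16 * ‖ρ z‖ ^ 2) :=
            Finset.sum_le_sum fun i _ => Finset.sum_le_sum fun z _ => hpt i z
        _ = _ := by
            simp only [Finset.sum_add_distrib, ← Finset.mul_sum]
            rw [← hEe, ← hEr]
            simp only [Finset.sum_const, Finset.card_univ, hn, nsmul_eq_mul]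
    have hR : (‖H‖ ^ 2 / ‖m‖ ^ 2) * (32 * (∑ i, ∑ z, ‖F (τ i z) - F z‖ ^ 2) + 32 * (n * Ee)) ≤
        (2 * NG / NF) * (32 * (2 * ε * NF) + 32 * (n * (ε * NF / g))) := by
      have hEe3 : Ee ≤ ε * NF / g := by
        rw [le_div_iff₀ hg]
        linarith
      gcongr
    have hEr3 : Er ≤ ε * NG / g := by
      rw [le_div_iff₀ hg]
      linarith
    have hR2 : (2 * NG / NF) * (32 * (2 * ε * NF) + 32 * (n * (ε * NF / g))) =
        128 * (ε * NG) + 64 * n / g * (ε * NG) := by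
      field_simp
      ring
    calc _ ≤ _ := hsum
      _ ≤ 2 * (2 * ε * NG) + (128 * (ε * NG) + 64 * n / g * (ε * NG)) +
          16 * (n * (ε * NG / g)) := by
          rw [← hR2]
          gcongr
      _ = _ := by
          field_simp
          ring
  obtain ⟨c', er, ce1, ce2, ce3, ce4⟩ := phase_mean g τ act S hS hA hP s hs hs0 φ hφS hφinv
  obtain ⟨Ec, hEc⟩ : ∃ x : ℝ, x = ∑ z, ‖er z‖ ^ 2 := ⟨_, rfl⟩
  rw [← hEc] at ce3 ce4
  have hEc0 : 0 ≤ Ec := by rw [hEc]; positivity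
  have hφn : ∑ z, ‖φ z‖ ^ 2 ≤ NG := by
    rw [hNG]
    apply Finset.sum_le_sum
    intro z _
    apply pow_le_pow_left₀ (norm_nonneg _)
    rw [hφ]
    show ‖(starRingEnd ℂ) (U z) * G z‖ ≤ ‖G z‖
    rw [norm_mul, RCLike.norm_conj]
    calc ‖U z‖ * ‖G z‖ ≤ 1 * ‖G z‖ := by
          gcongr
          exact hU1 z
      _ = _ := one_mul _
  have hc2 : ‖c'‖ ^ 2 * s ≤ NG := by linarith
  have hcr := hratio _ hc2
  have hEc1 : Ec ≤ (66 + 40 * n / g) / g * (ε * NG) := by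
    have h1 : 2 * g * Ec ≤ (132 + 80 * n / g) * (ε * NG) := ce3.trans hvφ
    have h2 : (66 + 40 * n / g) / g * (ε * NG) =
        (132 + 80 * n / g) * (ε * NG) / (2 * g) := by
      field_simp
      ring
    rw [h2, le_div_iff₀ (by positivity)]
    linarith
  refine ⟨c' / m, ?_⟩
  -- the final pointwise estimate
  have hpt : ∀ z, ‖G z - c' / m * F z‖ ^ 2 ≤ 3 * (‖er z‖ ^ 2 +
      (2 * (‖H‖ ^ 2 / ‖m‖ ^ 2) * ‖e z‖ ^ 2 + 2 * ‖ρ z‖ ^ 2) +
      ‖c'‖ ^ 2 / ‖m‖ ^ 2 * ‖e z‖ ^ 2) := by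
    intro z
    by_cases hz : z ∈ S
    · have h1 : G z - c' / m * F z = U z * er z +
          (1 - U z * (starRingEnd ℂ) (U z)) * G z - (c' / m) * (e z * U z) := by
        have a1 : (‖F z‖ : ℂ) = m + e z := me1 z hz
        have a2 : F z = (m + e z) * U z := by rw [← a1, hUF]
        have a3 : (starRingEnd ℂ) (U z) * G z = c' + er z := by
          have := ce1 z hz
          rw [hφ] at this
          exact this
        rw [a2]
        field_simp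
        linear_combination (m * U z) * a3
      have hx : ‖1 - U z * (starRingEnd ℂ) (U z)‖ ≤ 1 := by
        rw [Complex.mul_conj, Complex.normSq_eq_norm_sq, ← Complex.ofReal_one,
          ← Complex.ofReal_sub, Complex.norm_real, Real.norm_eq_abs, abs_le]
        have := hU1 z
        have h0 := norm_nonneg (U z)
        constructor <;> nlinarith
      have hx2 : ‖m‖ * ‖1 - U z * (starRingEnd ℂ) (U z)‖ ≤ ‖e z‖ := by
        have a1 : (‖F z‖ : ℂ) = m + e z := me1 z hz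
        have a2 : (‖F z‖ : ℂ) * (1 - U z * (starRingEnd ℂ) (U z)) = 0 := by
          rw [hU]
          exact phase_U_one _
        have a3 : m * (1 - U z * (starRingEnd ℂ) (U z)) =
            - (e z * (1 - U z * (starRingEnd ℂ) (U z))) := by
          rw [a1] at a2
          linear_combination a2
        rw [← norm_mul, a3, norm_neg, norm_mul]
        calc ‖e z‖ * ‖1 - U z * (starRingEnd ℂ) (U z)‖ ≤ ‖e z‖ * 1 := by gcongr
          _ = _ := mul_one _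
      have hx3 : ‖(1 - U z * (starRingEnd ℂ) (U z)) * G z‖ ≤
          ‖H‖ / ‖m‖ * ‖e z‖ + ‖ρ z‖ := by
        rw [norm_mul]
        calc ‖1 - U z * (starRingEnd ℂ) (U z)‖ * ‖G z‖ ≤
            ‖1 - U z * (starRingEnd ℂ) (U z)‖ * (‖H‖ + ‖ρ z‖) := by
              gcongr
              exact hGz z hz
          _ = ‖H‖ / ‖m‖ * (‖m‖ * ‖1 - U z * (starRingEnd ℂ) (U z)‖) +
              ‖1 - U z * (starRingEnd ℂ) (U z)‖ * ‖ρ z‖ := by field_simp
          _ ≤ ‖H‖ / ‖m‖ * ‖e z‖ + 1 * ‖ρ z‖ := by gcongr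
          _ = _ := by ring
      have hx4 : ‖U z * er z‖ ≤ ‖er z‖ := by
        rw [norm_mul]
        calc ‖U z‖ * ‖er z‖ ≤ 1 * ‖er z‖ := by
              gcongr
              exact hU1 z
          _ = _ := one_mul _
      have hx5 : ‖(c' / m) * (e z * U z)‖ ≤ ‖c'‖ / ‖m‖ * ‖e z‖ := by
        rw [norm_mul, norm_div, norm_mul]
        calc ‖c'‖ / ‖m‖ * (‖e z‖ * ‖U z‖) ≤ ‖c'‖ / ‖m‖ * (‖e z‖ * 1) := by
              gcongr
              exact hU1 z
          _ = _ := by rw [mul_one]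
      have hx6 : ‖G z - c' / m * F z‖ ≤ ‖er z‖ + (‖H‖ / ‖m‖ * ‖e z‖ + ‖ρ z‖) +
          ‖c'‖ / ‖m‖ * ‖e z‖ := by
        rw [h1]
        refine (norm_sub_le _ _).trans ?_
        refine add_le_add ((norm_add_le _ _).trans ?_) hx5
        exact add_le_add hx4 hx3
      have hsq : ∀ A x a y r b : ℝ, 0 ≤ A → A ≤ x + (a * y + r) + b * y →
          A ^ 2 ≤ 3 * (x ^ 2 + (2 * a ^ 2 * y ^ 2 + 2 * r ^ 2) + b ^ 2 * y ^ 2) := by
        intro A x a y r b hA hle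
        have b1 : A ^ 2 ≤ (x + (a * y + r) + b * y) ^ 2 := pow_le_pow_left₀ hA hle 2
        have b2 := phase_sq3 x (a * y + r) (b * y)
        have b3 := phase_sq2 (a * y) r
        have b5 : (a * y) ^ 2 = a ^ 2 * y ^ 2 := by ring
        rw [b5] at b3
        have b4 : (b * y) ^ 2 = b ^ 2 * y ^ 2 := by ring
        rw [b4] at b2
        linarith
      have h4 := hsq _ _ _ _ _ _ (norm_nonneg _) hx6
      rw [div_pow, div_pow] at h4
      exact h4
    · rw [hGS z hz, hFS z hz, mul_zero, sub_zero, norm_zero, zero_pow two_ne_zero]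
      positivity
  have hEe3 : Ee ≤ ε * NF / g := by
    rw [le_div_iff₀ hg]
    linarith
  have hEr3 : Er ≤ ε * NG / g := by
    rw [le_div_iff₀ hg]
    linarith
  calc ∑ z, ‖G z - c' / m * F z‖ ^ 2 ≤ ∑ z, 3 * (‖er z‖ ^ 2 +
      (2 * (‖H‖ ^ 2 / ‖m‖ ^ 2) * ‖e z‖ ^ 2 + 2 * ‖ρ z‖ ^ 2) +
      ‖c'‖ ^ 2 / ‖m‖ ^ 2 * ‖e z‖ ^ 2) := Finset.sum_le_sum fun z _ => hpt z
    _ = 3 * (Ec + (2 * (‖H‖ ^ 2 / ‖m‖ ^ 2) * Ee + 2 * Er) + ‖c'‖ ^ 2 / ‖m‖ ^ 2 * Ee) := by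
        simp only [Finset.sum_add_distrib, ← Finset.mul_sum]
        rw [← hEc, ← hEr, ← hEe]
    _ ≤ 3 * ((66 + 40 * n / g) / g * (ε * NG) +
          (2 * (2 * NG / NF) * (ε * NF / g) + 2 * (ε * NG / g)) +
          (2 * NG / NF) * (ε * NF / g)) := by gcongr
    _ = _ := by
        field_simp
        ring

end TauQ
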