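import Mathlib
import Pool.Agent.Work.MP_972ac7_al_tau.Interface

/-! Block r2: the number of representations of `m` as a sum of two squares is `O(m^eps)`. -/

namespace TauQ

open UniqueFactorizationMonoid Classical

lemma r2_lin (δ : ℝ) (hδ : 0 < δ) :
    ∃ C : ℝ, 1 ≤ C ∧ ∀ a : ℕ, ((a : ℝ) + 1) ≤ C * ((2 : ℝ) ^ δ) ^ a := by
  have hl : 0 < Real.log 2 := Real.log_pos (by norm_num)
  have ht : 0 < δ * Real.log 2 := mul_pos hδ hl
  refine ⟨1 + 1 / (δ * Real.log 2), ?_, ?_⟩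
  · have : 0 ≤ 1 / (δ * Real.log 2) := by positivity
    linarith
  · intro a
    have h1 : 1 + δ * Real.log 2 ≤ (2 : ℝ) ^ δ := by
      rw [Real.rpow_def_of_pos (by norm_num : (0 : ℝ) < 2)]
      have := Real.add_one_le_exp (Real.log 2 * δ)
      linarith [mul_comm (Real.log 2) δ]
    have h2 : 1 + (a : ℝ) * (δ * Real.log 2) ≤ ((2 : ℝ) ^ δ) ^ a := by
      have h3 : (1 + δ * Real.log 2) ^ a ≤ ((2 : ℝ) ^ δ) ^ a :=
        pow_le_pow_left₀ (by linarith) h1 a
      have h4 := one_add_mul_le_pow (a := δ * Real.log 2) (by linarith) a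
      linarith
    have h5 : (0 : ℝ) ≤ 1 + 1 / (δ * Real.log 2) := by positivity
    have h6 := mul_le_mul_of_nonneg_left h2 h5
    have h7 : (1 + 1 / (δ * Real.log 2)) * (1 + (a : ℝ) * (δ * Real.log 2))
        = 1 + a + (a : ℝ) * (δ * Real.log 2) + 1 / (δ * Real.log 2) := by
      field_simp
      ring
    have h8 : 0 ≤ (a : ℝ) * (δ * Real.log 2) := by positivity
    have h9 : 0 ≤ 1 / (δ * Real.log 2) := by positivity
    linarith

/-- Gaussian integers of small norm form a finite set -/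
lemma r2_fin (T : ℕ) : {z : GaussianInt | z.norm.natAbs < T}.Finite := by
  have hf : (Set.Icc (-(T : ℤ)) T ×ˢ Set.Icc (-(T : ℤ)) T).Finite :=
    (Set.finite_Icc _ _).prod (Set.finite_Icc _ _)
  refine Set.Finite.of_finite_image (f := fun z : GaussianInt => (z.re, z.im)) (hf.subset ?_) ?_
  · rintro _ ⟨z, hz, rfl⟩
    have hz' : z.norm.natAbs < T := hz
    have h0 : 0 ≤ z.norm := Zsqrtd.norm_nonneg (by norm_num) z
    have h1 : z.norm < (T : ℤ) := by omega
    have h2 : z.norm = z.re * z.re + z.im * z.im := by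
      rw [Zsqrtd.norm_def]; ring
    simp only [Set.mem_prod, Set.mem_Icc]
    refine ⟨⟨?_, ?_⟩, ⟨?_, ?_⟩⟩ <;>
      nlinarith [sq_nonneg (z.re - 1), sq_nonneg (z.re + 1), sq_nonneg (z.im - 1),
        sq_nonneg (z.im + 1), sq_nonneg z.re, sq_nonneg z.im]
  · intro z _ w _ h
    simp only [Prod.mk.injEq] at h
    exact Zsqrtd.ext h.1 h.2

/-- the product of `a+1` -/
lemma r2_prod (δ : ℝ) (hδ : 0 < δ) : ∃ C : ℝ, 1 ≤ C ∧ ∀ (S : Finset GaussianInt)
    (a : GaussianInt → ℕ), (∀ π ∈ S, 2 ≤ π.norm.natAbs) →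
    ((∏ π ∈ S, (a π + 1) : ℕ) : ℝ) ≤
      C * ((∏ π ∈ S, π.norm.natAbs ^ a π : ℕ) : ℝ) ^ δ := by
  obtain ⟨C, hC1, hC⟩ := r2_lin δ hδ
  obtain ⟨T, hT⟩ := exists_nat_ge ((2 : ℝ) ^ (1 / δ))
  set F : Finset GaussianInt := (r2_fin T).toFinset with hF
  refine ⟨C ^ F.card, one_le_pow₀ hC1, ?_⟩
  intro S a hS
  have h1 : ∀ π ∈ S, ((a π + 1 : ℕ) : ℝ) ≤
      (if π ∈ F then C else 1) * (((π.norm.natAbs : ℝ) ^ δ) ^ a π) := by
    intro π hπ
    have hN : (2 : ℝ) ≤ (π.norm.natAbs : ℝ) := by exact_mod_cast hS π hπ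
    by_cases hF' : π ∈ F
    · rw [if_pos hF']
      have h2 : ((2 : ℝ) ^ δ) ^ a π ≤ ((π.norm.natAbs : ℝ) ^ δ) ^ a π := by
        apply pow_le_pow_left₀ (by positivity)
        exact Real.rpow_le_rpow (by norm_num) hN hδ.le
      have h3 := hC (a π)
      push_cast
      calc (a π : ℝ) + 1 ≤ C * ((2 : ℝ) ^ δ) ^ a π := h3
        _ ≤ _ := mul_le_mul_of_nonneg_left h2 (by linarith)
    · rw [if_neg hF', one_mul]
      have h2 : T ≤ π.norm.natAbs := by
        by_contra hlt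
        push Not at hlt
        exact hF' (by rw [hF, Set.Finite.mem_toFinset]; exact hlt)
      have h3 : (2 : ℝ) ^ (1 / δ) ≤ (π.norm.natAbs : ℝ) :=
        hT.trans (by exact_mod_cast h2)
      have h4 : (2 : ℝ) ≤ (π.norm.natAbs : ℝ) ^ δ := by
        have := Real.rpow_le_rpow (by positivity) h3 hδ.le
        rwa [← Real.rpow_mul (by norm_num), one_div, inv_mul_cancel₀ hδ.ne', Real.rpow_one] at this
      have h5 : (2 : ℝ) ^ a π ≤ ((π.norm.natAbs : ℝ) ^ δ) ^ a π :=
        pow_le_pow_left₀ (by norm_num) h4 _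
      have h6 : ((a π + 1 : ℕ) : ℝ) ≤ (2 : ℝ) ^ a π := by
        have : a π + 1 ≤ 2 ^ a π := Nat.lt_two_pow_self
        exact_mod_cast this
      linarith
  have h2 : ((∏ π ∈ S, (a π + 1) : ℕ) : ℝ) ≤
      ∏ π ∈ S, ((if π ∈ F then C else 1) * (((π.norm.natAbs : ℝ) ^ δ) ^ a π)) := by
    rw [Nat.cast_prod]
    exact Finset.prod_le_prod (fun _ _ => by positivity) h1
  refine h2.trans ?_
  rw [Finset.prod_mul_distrib]
  have h3 : (∏ π ∈ S, (if π ∈ F then C else 1)) ≤ C ^ F.card := by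
    rw [Finset.prod_ite, Finset.prod_const, Finset.prod_const_one, mul_one]
    apply pow_le_pow_right₀ hC1
    exact Finset.card_le_card (fun x hx => (Finset.mem_filter.mp hx).2)
  have h4 : (∏ π ∈ S, (((π.norm.natAbs : ℝ) ^ δ) ^ a π)) =
      ((∏ π ∈ S, π.norm.natAbs ^ a π : ℕ) : ℝ) ^ δ := by
    rw [Nat.cast_prod, ← Real.finsetProd_rpow _ _ (fun _ _ => by positivity)]
    apply Finset.prod_congr rfl
    intro π _
    rw [Nat.cast_pow, ← Real.rpow_natCast, ← Real.rpow_natCast, ← Real.rpow_mul (by positivity),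
      ← Real.rpow_mul (by positivity), mul_comm]
  rw [h4]
  exact mul_le_mul_of_nonneg_right h3 (by positivity)

lemma r2_units : Finite GaussianIntˣ := by
  have : Finite {z : GaussianInt | z.norm.natAbs < 2} := (r2_fin 2).to_subtype
  refine Finite.of_injective (β := {z : GaussianInt | z.norm.natAbs < 2})
    (fun u => ⟨(u : GaussianInt), ?_⟩) ?_
  · have := Zsqrtd.norm_eq_one_iff.mpr u.isUnit
    simp only [Set.mem_ofPred_eq]
    omega
  · intro u v h
    simp only [Subtype.mk.injEq] at h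
    exact Units.ext h

lemma r2_bound (m : ℕ) (hm : 0 < m) : ∃ (S : Finset GaussianInt) (a : GaussianInt → ℕ),
    (∀ π ∈ S, 2 ≤ π.norm.natAbs) ∧ (∏ π ∈ S, π.norm.natAbs ^ a π = m ^ 2) ∧
    Nat.card {x : ℤ × ℤ // x.1 ^ 2 + x.2 ^ 2 = (m : ℤ)} ≤
      (∏ π ∈ S, (a π + 1)) * Nat.card GaussianIntˣ := by
  let _ : StrongNormalizationMonoid GaussianInt :=
    UniqueFactorizationMonoid.strongNormalizationMonoid
  have := r2_units
  have hm0 : (m : GaussianInt) ≠ 0 := by exact_mod_cast hm.ne'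
  set s : Multiset GaussianInt := normalizedFactors (m : GaussianInt) with hs
  refine ⟨s.toFinset, fun π => s.count π, ?_, ?_, ?_⟩
  · intro π hπ
    rw [Multiset.mem_toFinset] at hπ
    have hirr := irreducible_of_normalized_factor π hπ
    have h0 : π.norm.natAbs ≠ 0 := by
      intro h
      apply hirr.ne_zero
      have h' : π.norm = 0 := by omega
      exact (Zsqrtd.norm_eq_zero_iff (by norm_num) π).mp h'
    have h1 : π.norm.natAbs ≠ 1 := fun h => hirr.not_isUnit (Zsqrtd.norm_eq_one_iff.mp h)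
    omega
  · have h1 : (s.map fun π => π.norm.natAbs).prod = m ^ 2 := by
      have h2 := prod_normalizedFactors hm0
      obtain ⟨u, hu⟩ := h2
      have h3 : ((s.prod * (u : GaussianInt)).norm).natAbs = m ^ 2 := by
        rw [hs, hu, Zsqrtd.norm_natCast, Int.natAbs_mul, Int.natAbs_natCast, sq]
      rw [Zsqrtd.norm_mul, Int.natAbs_mul, Zsqrtd.norm_eq_one_iff.mpr u.isUnit, mul_one] at h3
      rw [← h3]
      have h4 := map_multiset_prod (Int.natAbsHom.toMonoidHom.comp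
        (Zsqrtd.normMonoidHom (d := -1))) s
      exact h4.symm
    rw [← h1, Finset.prod_multiset_map_count]
  · rw [← Multiset.card_Iic]
    have hex : ∀ x : {x : ℤ × ℤ // x.1 ^ 2 + x.2 ^ 2 = (m : ℤ)},
        ∃ u : GaussianIntˣ, (normalizedFactors (⟨x.1.1, x.1.2⟩ : GaussianInt)).prod * u =
          (⟨x.1.1, x.1.2⟩ : GaussianInt) := by
      intro x
      apply prod_normalizedFactors
      intro h
      have h1 : x.1.1 = 0 := congrArg Zsqrtd.re h
      have h2 : x.1.2 = 0 := congrArg Zsqrtd.im h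
      have := x.2
      rw [h1, h2] at this
      simp at this
      omega
    choose u hu using hex
    have hle : ∀ x : {x : ℤ × ℤ // x.1 ^ 2 + x.2 ^ 2 = (m : ℤ)},
        normalizedFactors (⟨x.1.1, x.1.2⟩ : GaussianInt) ∈ Finset.Iic s := by
      intro x
      rw [Finset.mem_Iic]
      have hne : (⟨x.1.1, x.1.2⟩ : GaussianInt) ≠ 0 := by
        intro h
        have h1 : x.1.1 = 0 := congrArg Zsqrtd.re h
        have h2 : x.1.2 = 0 := congrArg Zsqrtd.im h
        have := x.2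
        rw [h1, h2] at this
        simp at this
        omega
      rw [hs, ← dvd_iff_normalizedFactors_le_normalizedFactors hne hm0]
      refine ⟨star (⟨x.1.1, x.1.2⟩ : GaussianInt), ?_⟩
      rw [← Zsqrtd.norm_eq_mul_conj]
      have : (⟨x.1.1, x.1.2⟩ : GaussianInt).norm = (m : ℤ) := by
        rw [Zsqrtd.norm_def]
        have hx := x.2
        show x.1.1 * x.1.1 - -1 * x.1.2 * x.1.2 = (m : ℤ)
        linarith
      rw [this]
      simp
    have hinj : Function.Injective (fun x : {x : ℤ × ℤ // x.1 ^ 2 + x.2 ^ 2 = (m : ℤ)} =>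
        ((⟨normalizedFactors (⟨x.1.1, x.1.2⟩ : GaussianInt), hle x⟩ :
          {t // t ∈ Finset.Iic s}), u x)) := by
      intro x y hxy
      simp only [Prod.mk.injEq, Subtype.mk.injEq] at hxy
      have h1 := hu x
      have h2 := hu y
      rw [hxy.1, hxy.2, h2] at h1
      apply Subtype.ext
      apply Prod.ext
      · exact (congrArg Zsqrtd.re h1).symm
      · exact (congrArg Zsqrtd.im h1).symm
    have h3 := Nat.card_le_card_of_injective _ hinj
    rw [Nat.card_prod, Nat.card_eq_fintype_card (α := {t // t ∈ Finset.Iic s}),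
      Fintype.card_coe] at h3
    exact h3

theorem r2_proof : Stmt_r2 := by
  intro ε hε
  obtain ⟨C, hC1, hC⟩ := r2_prod (ε / 2) (by positivity)
  have := r2_units
  have hU : 0 < Nat.card GaussianIntˣ := Nat.card_pos
  refine ⟨C * Nat.card GaussianIntˣ, by positivity, ?_⟩
  intro m hm
  obtain ⟨S, a, h1, h2, h3⟩ := r2_bound m hm
  have h4 := hC S a h1
  rw [h2] at h4
  have h5 : (((m ^ 2 : ℕ) : ℝ)) ^ (ε / 2) = (m : ℝ) ^ ε := by
    rw [Nat.cast_pow, ← Real.rpow_natCast, ← Real.rpow_mul (by positivity)]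
    congr 1
    push_cast
    ring
  rw [h5] at h4
  calc (Nat.card {x : ℤ × ℤ // x.1 ^ 2 + x.2 ^ 2 = (m : ℤ)} : ℝ)
      ≤ (((∏ π ∈ S, (a π + 1)) * Nat.card GaussianIntˣ : ℕ) : ℝ) := by exact_mod_cast h3
    _ = ((∏ π ∈ S, (a π + 1) : ℕ) : ℝ) * (Nat.card GaussianIntˣ : ℝ) := by push_cast; rfl
    _ ≤ (C * (m : ℝ) ^ ε) * (Nat.card GaussianIntˣ : ℝ) :=
        mul_le_mul_of_nonneg_right h4 (by positivity)
    _ = C * Nat.card GaussianIntˣ * (m : ℝ) ^ ε := by ring

end TauQ
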