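import Mathlib
import Pool.Agent.Work.MP_972ac7_al_tau.Interface

/-! Block r3: the number of representations of `n` as a sum of three squares is
`O(n^(1/2+eps))`. -/

namespace TauQ

open Classical

lemma r3_abs {n : ℕ} {x : ℤ} (h : x ^ 2 ≤ (n : ℤ)) : -(Nat.sqrt n : ℤ) ≤ x ∧ x ≤ (Nat.sqrt n : ℤ) := by
  have h1 : x.natAbs ^ 2 ≤ n := by
    have : ((x.natAbs : ℤ)) ^ 2 ≤ (n : ℤ) := by rw [Int.natAbs_sq]; exact h
    exact_mod_cast this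
  have h2 : x.natAbs ≤ Nat.sqrt n := by
    rw [Nat.le_sqrt']
    exact h1
  omega

instance r3_finite2 (m : ℤ) : Finite {x : ℤ × ℤ // x.1 ^ 2 + x.2 ^ 2 = m} := by
  have hf : (Set.Icc (-(Nat.sqrt m.toNat : ℤ)) (Nat.sqrt m.toNat) ×ˢ
      Set.Icc (-(Nat.sqrt m.toNat : ℤ)) (Nat.sqrt m.toNat)).Finite :=
    (Set.finite_Icc _ _).prod (Set.finite_Icc _ _)
  have hs : {x : ℤ × ℤ | x.1 ^ 2 + x.2 ^ 2 = m}.Finite := by
    refine hf.subset ?_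
    intro x hx
    have hx' : x.1 ^ 2 + x.2 ^ 2 = m := hx
    have h0 : 0 ≤ m := by rw [← hx']; positivity
    have h1 : x.1 ^ 2 ≤ (m.toNat : ℤ) := by
      rw [Int.toNat_of_nonneg h0]; nlinarith [sq_nonneg x.2]
    have h2 : x.2 ^ 2 ≤ (m.toNat : ℤ) := by
      rw [Int.toNat_of_nonneg h0]; nlinarith [sq_nonneg x.1]
    exact ⟨r3_abs h1, r3_abs h2⟩
  exact hs.to_subtype

theorem r3_proof (h1 : Stmt_r2) : Stmt_r3 := by
  intro ε hε
  obtain ⟨C, hC, hr⟩ := h1 ε hε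
  refine ⟨3 * (C + 1), by positivity, ?_⟩
  intro n hn
  set R : ℤ := (Nat.sqrt n : ℤ) with hR
  -- the sum over the first coordinate
  have hinj : Function.Injective
      (fun x : {x : ℤ × ℤ × ℤ // x.1 ^ 2 + x.2.1 ^ 2 + x.2.2 ^ 2 = (n : ℤ)} =>
        ((⟨⟨x.1.1, by
            rw [Finset.mem_Icc]
            have hx := x.2
            exact r3_abs (by nlinarith [sq_nonneg x.1.2.1, sq_nonneg x.1.2.2])⟩,
          ⟨(x.1.2.1, x.1.2.2), by have hx := x.2; show x.1.2.1 ^ 2 + x.1.2.2 ^ 2 = _; linarith⟩⟩ :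
          Σ a : {a // a ∈ Finset.Icc (-R) R}, {y : ℤ × ℤ // y.1 ^ 2 + y.2 ^ 2 =
            (n : ℤ) - a.1 ^ 2}))) := by
    intro x y hxy
    simp only [Sigma.mk.injEq] at hxy
    obtain ⟨e1, e2⟩ := hxy
    have e1' : x.1.1 = y.1.1 := congrArg Subtype.val e1
    obtain ⟨⟨x1, x2, x3⟩, hx⟩ := x
    obtain ⟨⟨y1, y2, y3⟩, hy⟩ := y
    simp only at e1'
    subst e1'
    simp only [heq_eq_eq, Subtype.mk.injEq, Prod.mk.injEq] at e2
    simp only [Subtype.mk.injEq, Prod.mk.injEq, true_and]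
    exact e2
  have h2 := Nat.card_le_card_of_injective _ hinj
  rw [Nat.card_sigma] at h2
  have hn1 : (1 : ℝ) ≤ (n : ℝ) := by exact_mod_cast hn
  have h3 : ∀ a : {a // a ∈ Finset.Icc (-R) R},
      (Nat.card {y : ℤ × ℤ // y.1 ^ 2 + y.2 ^ 2 = (n : ℤ) - a.1 ^ 2} : ℝ) ≤
        (C + 1) * (n : ℝ) ^ ε := by
    intro a
    have hne : (1 : ℝ) ≤ (n : ℝ) ^ ε := Real.one_le_rpow hn1 hε.le
    rcases lt_trichotomy ((n : ℤ) - a.1 ^ 2) 0 with hlt | heq | hgt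
    · have : IsEmpty {y : ℤ × ℤ // y.1 ^ 2 + y.2 ^ 2 = (n : ℤ) - a.1 ^ 2} := by
        constructor
        rintro ⟨y, hy⟩
        nlinarith [sq_nonneg y.1, sq_nonneg y.2]
      rw [Nat.card_of_isEmpty]
      push_cast
      positivity
    · have : Subsingleton {y : ℤ × ℤ // y.1 ^ 2 + y.2 ^ 2 = (n : ℤ) - a.1 ^ 2} := by
        constructor
        rintro ⟨⟨y1, y2⟩, hy⟩ ⟨⟨z1, z2⟩, hz⟩
        simp only at hy hz
        rw [heq] at hy hz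
        have a1 : y1 = 0 := by nlinarith [sq_nonneg y1, sq_nonneg y2]
        have a2 : y2 = 0 := by nlinarith [sq_nonneg y1, sq_nonneg y2]
        have a3 : z1 = 0 := by nlinarith [sq_nonneg z1, sq_nonneg z2]
        have a4 : z2 = 0 := by nlinarith [sq_nonneg z1, sq_nonneg z2]
        simp only [a1, a2, a3, a4]
      have hle : Nat.card {y : ℤ × ℤ // y.1 ^ 2 + y.2 ^ 2 = (n : ℤ) - a.1 ^ 2} ≤ 1 := by
        rw [Finite.card_le_one_iff_subsingleton]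
        exact this
      calc (Nat.card {y : ℤ × ℤ // y.1 ^ 2 + y.2 ^ 2 = (n : ℤ) - a.1 ^ 2} : ℝ) ≤ 1 := by
            exact_mod_cast hle
        _ ≤ (C + 1) * (n : ℝ) ^ ε := by nlinarith
    · obtain ⟨m, hm⟩ := Int.eq_ofNat_of_zero_le hgt.le
      have hm' : (n : ℤ) - a.1 ^ 2 = (m : ℤ) := hm
      rw [hm'] at hgt ⊢
      have hm0 : 0 < m := by exact_mod_cast hgt
      have hmn : (m : ℝ) ≤ (n : ℝ) := by
        have : (m : ℤ) ≤ (n : ℤ) := by rw [← hm']; nlinarith [sq_nonneg a.1]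
        exact_mod_cast this
      calc (Nat.card {y : ℤ × ℤ // y.1 ^ 2 + y.2 ^ 2 = (m : ℤ)} : ℝ) ≤ C * (m : ℝ) ^ ε := hr m hm0
        _ ≤ C * (n : ℝ) ^ ε := by
            apply mul_le_mul_of_nonneg_left _ hC.le
            exact Real.rpow_le_rpow (by positivity) hmn hε.le
        _ ≤ (C + 1) * (n : ℝ) ^ ε := by nlinarith
  have h4 : (∑ a : {a // a ∈ Finset.Icc (-R) R},
      (Nat.card {y : ℤ × ℤ // y.1 ^ 2 + y.2 ^ 2 = (n : ℤ) - a.1 ^ 2} : ℝ)) ≤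
      (2 * (R : ℝ) + 1) * ((C + 1) * (n : ℝ) ^ ε) := by
    refine (Finset.sum_le_sum fun a _ => h3 a).trans ?_
    rw [Finset.sum_const, Finset.card_univ, Fintype.card_coe, Int.card_Icc, nsmul_eq_mul]
    have hR0 : 0 ≤ R := by rw [hR]; positivity
    have : ((R + 1 - -R).toNat : ℝ) = 2 * (R : ℝ) + 1 := by
      have h5 : ((R + 1 - -R).toNat : ℤ) = 2 * R + 1 := by
        rw [Int.toNat_of_nonneg (by linarith)]; ring
      exact_mod_cast h5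
    rw [this]
  have h5 : (R : ℝ) ≤ (n : ℝ) ^ (1 / 2 : ℝ) := by
    rw [← Real.sqrt_eq_rpow]
    apply Real.le_sqrt_of_sq_le
    have : (Nat.sqrt n) ^ 2 ≤ n := Nat.sqrt_le' n
    rw [hR]
    push_cast
    exact_mod_cast this
  have h6 : (1 : ℝ) ≤ (n : ℝ) ^ (1 / 2 : ℝ) := Real.one_le_rpow hn1 (by norm_num)
  have h7 : (n : ℝ) ^ (1 / 2 + ε) = (n : ℝ) ^ (1 / 2 : ℝ) * (n : ℝ) ^ ε := by
    rw [Real.rpow_add (by linarith)]
  rw [h7]
  have h8 : (Nat.card {x : ℤ × ℤ × ℤ // x.1 ^ 2 + x.2.1 ^ 2 + x.2.2 ^ 2 = (n : ℤ)} : ℝ) ≤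
      ∑ a : {a // a ∈ Finset.Icc (-R) R},
      (Nat.card {y : ℤ × ℤ // y.1 ^ 2 + y.2 ^ 2 = (n : ℤ) - a.1 ^ 2} : ℝ) := by
    exact_mod_cast h2
  refine h8.trans (h4.trans ?_)
  have h9 : 0 ≤ (C + 1) * (n : ℝ) ^ ε := by positivity
  calc (2 * (R : ℝ) + 1) * ((C + 1) * (n : ℝ) ^ ε)
      ≤ (3 * (n : ℝ) ^ (1 / 2 : ℝ)) * ((C + 1) * (n : ℝ) ^ ε) :=
        mul_le_mul_of_nonneg_right (by linarith) h9
    _ = 3 * (C + 1) * ((n : ℝ) ^ (1 / 2 : ℝ) * (n : ℝ) ^ ε) := by ring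

end TauQ
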