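import Mathlib
import Pool.Agent.Work.MP_972ac7_al_tau.Interface

/-!
Block red: reduction modulo `M` on `G1 p q`.
-/

open scoped Quaternion BigOperators

namespace TauQ

lemma red_isUnit (p q M : ℕ) (hp : Nat.Coprime p M) (hq : Nat.Coprime q M) :
    IsUnit ((Int.castRingHom (ZMod M)) ((p * q : ℕ) : ℤ)) := by
  have h : IsUnit (((p * q : ℕ) : ZMod M)) :=
    (ZMod.isUnit_iff_coprime (p * q) M).mpr (Nat.Coprime.mul_left hp hq)
  simpa using h

/-- reduction `Z[1/(pq)] -> Z/M` -/
noncomputable def red_lift (p q M : ℕ) (hp : Nat.Coprime p M) (hq : Nat.Coprime q M) :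
    RR p q →+* ZMod M :=
  IsLocalization.Away.lift ((p * q : ℕ) : ℤ) (red_isUnit p q M hp hq)

lemma red_lift_algebraMap (p q M : ℕ) (hp : Nat.Coprime p M) (hq : Nat.Coprime q M) (a : ℤ) :
    red_lift p q M hp hq (algebraMap ℤ (RR p q) a) = (a : ZMod M) := by
  unfold red_lift
  rw [IsLocalization.Away.lift_eq]
  simp

lemma red_lift_ker (p q M : ℕ) (hp : Nat.Coprime p M) (hq : Nat.Coprime q M) (x : RR p q)
    (hx : red_lift p q M hp hq x = 0) : ∃ y : RR p q, x = (M : RR p q) * y := by
  obtain ⟨n, a, h⟩ := IsLocalization.Away.surj ((p * q : ℕ) : ℤ) x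
  have h1 : (a : ZMod M) = 0 := by
    rw [← red_lift_algebraMap p q M hp hq, ← h, map_mul, hx, zero_mul]
  obtain ⟨a', rfl⟩ := (ZMod.intCast_zmod_eq_zero_iff_dvd a M).mp h1
  have hu : IsUnit (algebraMap ℤ (RR p q) ((p * q : ℕ) : ℤ)) :=
    IsLocalization.Away.algebraMap_isUnit _
  obtain ⟨u, hu⟩ := hu
  refine ⟨algebraMap ℤ (RR p q) a' * ((u⁻¹ : (RR p q)ˣ) : RR p q) ^ n, ?_⟩
  rw [← hu, map_mul] at h
  have h2 : x = x * (u : RR p q) ^ n * ((u⁻¹ : (RR p q)ˣ) : RR p q) ^ n := by
    rw [mul_assoc, ← mul_pow, Units.mul_inv, one_pow, mul_one]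
  rw [h2, h]
  simp only [map_natCast]
  ring

lemma red_nat_mul {R : Type} [CommRing R] (M : ℕ) (y : ℍ[R]) :
    (M : ℍ[R]) * y = mk4 ((M : R) * y.re) ((M : R) * y.imI) ((M : R) * y.imJ)
      ((M : R) * y.imK) := by
  ext <;> simp

theorem red_proof : Stmt_red := by
  intro p q hpp hqp M _ hp hq
  let φ := red_lift p q M hp hq
  let rM : G1 p q →* unitary ℍ[ZMod M] :=
    { toFun := fun γ => ⟨qmap φ ((γ : GG p q) : ℍ[RR p q]), by
        rw [mem_unitary_iff, normSq_qmap, (mem_unitary_iff _).mp (γ : GG p q).2, map_one]⟩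
      map_one' := by
        apply Subtype.ext
        change qmap φ (((1 : G1 p q) : GG p q) : ℍ[RR p q]) = 1
        simp
      map_mul' := by
        intro x y
        apply Subtype.ext
        change qmap φ (((x * y : G1 p q) : GG p q) : ℍ[RR p q]) =
          qmap φ ((x : GG p q) : ℍ[RR p q]) * qmap φ ((y : GG p q) : ℍ[RR p q])
        rw [← map_mul]
        rfl }
  have hval : ∀ γ : G1 p q, ((rM γ : unitary ℍ[ZMod M]) : ℍ[ZMod M]) =
      qmap φ ((γ : GG p q) : ℍ[RR p q]) := fun γ => rfl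
  refine ⟨rM, ?_, ?_⟩
  · intro γ i j α h
    rw [hval]
    have h1 := congrArg (qmap φ) h
    rw [map_mul, map_natCast] at h1
    rw [h1]
    ext
    · exact red_lift_algebraMap p q M hp hq _
    · exact red_lift_algebraMap p q M hp hq _
    · exact red_lift_algebraMap p q M hp hq _
    · exact red_lift_algebraMap p q M hp hq _
  · intro γ
    constructor
    · intro h
      have h1 : qmap φ ((γ : GG p q) : ℍ[RR p q]) = 1 := by
        rw [← hval, h]; rfl
      have hre : φ (((γ : GG p q) : ℍ[RR p q]).re - 1) = 0 := by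
        have := congrArg (fun z : ℍ[ZMod M] => z.re) h1
        simp only [qmap_re, Quaternion.re_one] at this
        rw [map_sub, this, map_one, sub_self]
      have hI : φ (((γ : GG p q) : ℍ[RR p q]).imI) = 0 := by
        have := congrArg (fun z : ℍ[ZMod M] => z.imI) h1
        simpa using this
      have hJ : φ (((γ : GG p q) : ℍ[RR p q]).imJ) = 0 := by
        have := congrArg (fun z : ℍ[ZMod M] => z.imJ) h1
        simpa using this
      have hK : φ (((γ : GG p q) : ℍ[RR p q]).imK) = 0 := by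
        have := congrArg (fun z : ℍ[ZMod M] => z.imK) h1
        simpa using this
      obtain ⟨y0, h0⟩ := red_lift_ker p q M hp hq _ hre
      obtain ⟨y1, h1⟩ := red_lift_ker p q M hp hq _ hI
      obtain ⟨y2, h2⟩ := red_lift_ker p q M hp hq _ hJ
      obtain ⟨y3, h3⟩ := red_lift_ker p q M hp hq _ hK
      refine ⟨mk4 y0 y1 y2 y3, ?_⟩
      rw [red_nat_mul]
      ext
      · simp only [Quaternion.re_add, Quaternion.re_one, mk4_re]
        rw [← h0]; ring
      · simp only [Quaternion.imI_add, Quaternion.imI_one, mk4_imI]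
        rw [h1]; ring
      · simp only [Quaternion.imJ_add, Quaternion.imJ_one, mk4_imJ]
        rw [h2]; ring
      · simp only [Quaternion.imK_add, Quaternion.imK_one, mk4_imK]
        rw [h3]; ring
    · rintro ⟨y, hy⟩
      apply Subtype.ext
      rw [hval, hy, map_add, map_one, map_mul, map_natCast]
      have : (M : ℍ[ZMod M]) = 0 := by
        ext <;> simp
      rw [this, zero_mul, add_zero]
      rfl

end TauQ
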