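import Mathlib
import Pool.Agent.Work.MP_972ac7_al_tau.Interface

/-!
# Block sq (N10c): the number of squares of units modulo an odd number
-/

open scoped Quaternion BigOperators

namespace TauQ

/-- the primes `l` with `u = 1 mod l` -/
noncomputable def sq_set (M : ℕ) (u : (ZMod M)ˣ) : Finset ℕ :=
  M.primeFactors.filter fun l => (l : ℤ) ∣ (((u : ZMod M).val : ℤ) - 1)

lemma sq_dvd (M : ℕ) [NeZero M] (u : (ZMod M)ˣ) (hu : u ^ 2 = 1) :
    (M : ℤ) ∣ (((u : ZMod M).val : ℤ) - 1) * (((u : ZMod M).val : ℤ) + 1) := by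
  rw [← ZMod.intCast_zmod_eq_zero_iff_dvd]
  push_cast
  rw [ZMod.natCast_zmod_val]
  have h : ((u : ZMod M)) ^ 2 = 1 := by
    rw [← Units.val_pow_eq_pow_val, hu, Units.val_one]
  have e : ((u : ZMod M) - 1) * ((u : ZMod M) + 1) = (u : ZMod M) ^ 2 - 1 := by ring
  rw [e, h, sub_self]

lemma sq_inj (M : ℕ) (hM : Odd M) [NeZero M] (u v : (ZMod M)ˣ) (hu : u ^ 2 = 1) (hv : v ^ 2 = 1)
    (h : sq_set M u = sq_set M v) : u = v := by
  have hu' := sq_dvd M u hu
  have hv' := sq_dvd M v hv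
  have hset : ∀ l ∈ M.primeFactors, ((l : ℤ) ∣ (((u : ZMod M).val : ℤ) - 1) ↔
      (l : ℤ) ∣ (((v : ZMod M).val : ℤ) - 1)) := by
    intro l hl
    have := congrArg (fun s => l ∈ s) h
    simp only [sq_set, Finset.mem_filter, hl, true_and, eq_iff_iff] at this
    exact this
  have huv : (((v : ZMod M).val : ℕ) : ZMod M) = (v : ZMod M) := ZMod.natCast_zmod_val _
  have huu : (((u : ZMod M).val : ℕ) : ZMod M) = (u : ZMod M) := ZMod.natCast_zmod_val _
  set a : ℤ := ((u : ZMod M).val : ℤ) with ha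
  set b : ℤ := ((v : ZMod M).val : ℤ) with hb
  have h1 : (M : ℤ) ∣ (a + b) * (a - b) := by
    have : (a + b) * (a - b) = (a - 1) * (a + 1) - (b - 1) * (b + 1) := by ring
    rw [this]
    exact dvd_sub hu' hv'
  have hcop : IsCoprime (M : ℤ) (a + b) := by
    rw [Int.isCoprime_iff_gcd_eq_one]
    by_contra hne
    obtain ⟨l, hl, hd⟩ := Nat.exists_prime_and_dvd hne
    have hlM : (l : ℤ) ∣ (M : ℤ) := (Int.natCast_dvd_natCast.2 hd).trans (Int.gcd_dvd_left _ _)
    have hlab : (l : ℤ) ∣ a + b := (Int.natCast_dvd_natCast.2 hd).trans (Int.gcd_dvd_right _ _)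
    have hlM' : l ∣ M := by exact_mod_cast hlM
    have hlmem : l ∈ M.primeFactors := Nat.mem_primeFactors.2 ⟨hl, hlM', NeZero.ne M⟩
    have hl2 : ¬ (l : ℤ) ∣ 2 := by
      intro h2
      have h3 : l ∣ 2 := by exact_mod_cast h2
      have h4 : l = 2 := (Nat.prime_dvd_prime_iff_eq hl Nat.prime_two).1 h3
      subst h4
      rw [← Nat.not_even_iff_odd] at hM
      exact hM (even_iff_two_dvd.2 hlM')
    have hlp : Prime (l : ℤ) := Nat.prime_iff_prime_int.1 hl
    by_cases hc : (l : ℤ) ∣ a - 1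
    · have hc' := (hset l hlmem).1 hc
      apply hl2
      have : (2 : ℤ) = (a + b) - (a - 1) - (b - 1) := by ring
      rw [this]
      exact dvd_sub (dvd_sub hlab hc) hc'
    · have hc' : ¬ (l : ℤ) ∣ b - 1 := fun hh => hc ((hset l hlmem).2 hh)
      have hA : (l : ℤ) ∣ a + 1 := (hlp.dvd_or_dvd (hlM.trans hu')).resolve_left hc
      have hB : (l : ℤ) ∣ b + 1 := (hlp.dvd_or_dvd (hlM.trans hv')).resolve_left hc'
      apply hl2
      have : (2 : ℤ) = (a + 1) + (b + 1) - (a + b) := by ring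
      rw [this]
      exact dvd_sub (dvd_add hA hB) hlab
  have h2 : (M : ℤ) ∣ a - b := hcop.dvd_of_dvd_mul_left h1
  rw [← ZMod.intCast_zmod_eq_zero_iff_dvd] at h2
  push_cast at h2
  apply Units.ext
  rw [ha, hb] at h2
  simp only [Int.cast_natCast] at h2
  rw [huv, huu] at h2
  exact sub_eq_zero.1 h2

/-- N10c -/
theorem sq_proof : Stmt_sq := by
  intro M hM
  have hM0 : M ≠ 0 := by rintro rfl; simp at hM
  haveI : NeZero M := ⟨hM0⟩
  let φ : (ZMod M)ˣ →* (ZMod M)ˣ := powMonoidHom 2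
  have h1 : Nat.card (ZMod M)ˣ = Nat.card φ.ker * Nat.card φ.range := by
    rw [← Subgroup.card_mul_index φ.ker, Subgroup.index_ker]
  have h2 : Nat.card φ.ker ≤ 2 ^ M.primeFactors.card := by
    rw [← Finset.card_powerset, Nat.card_eq_fintype_card]
    have : Fintype.card φ.ker ≤ Fintype.card M.primeFactors.powerset := by
      refine Fintype.card_le_of_injective
        (fun u => ⟨sq_set M u.1, Finset.mem_powerset.2 (Finset.filter_subset _ _)⟩) ?_
      intro u v huv
      have hu : (u.1) ^ 2 = 1 := u.2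
      have hv : (v.1) ^ 2 = 1 := v.2
      exact Subtype.ext (sq_inj M hM u.1 v.1 hu hv (congrArg Subtype.val huv))
    simpa using this
  have h3 : Nat.card φ.range = Nat.card (Set.range fun u : (ZMod M)ˣ => u ^ 2) := rfl
  rw [← ZMod.card_units_eq_totient, ← Nat.card_eq_fintype_card, h1, ← h3]
  exact Nat.mul_le_mul_right _ h2

end TauQ
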