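import Mathlib
import Pool.Agent.Work.MP_972ac7_al_tau.Interface

/-!
Block A7 `step1` for MP_972ac7_al.
-/

open scoped Quaternion BigOperators

namespace TauQ

/-! ### generic facts -/

/-- the variation of an eigenfunction -/
theorem step1_var {Z ι : Type} [Fintype Z] [Fintype ι] (τ : ι → Equiv.Perm Z) (f : Z → ℂ) (e : ℝ)
    (h : ∀ z, ∑ i, f (τ i z) = ((Fintype.card ι : ℂ) - (e : ℂ)) * f z) :
    ∑ i, ∑ z, ‖f (τ i z) - f z‖ ^ 2 = 2 * e * ∑ z, ‖f z‖ ^ 2 := by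
  have h1 : ∀ i z, ‖f (τ i z) - f z‖ ^ 2 = ‖f (τ i z)‖ ^ 2 + ‖f z‖ ^ 2
      - 2 * (f (τ i z) * (starRingEnd ℂ) (f z)).re := by
    intro i z
    rw [Complex.sq_norm, Complex.sq_norm, Complex.sq_norm, Complex.normSq_sub]
  have h2 : ∀ i, ∑ z, ‖f (τ i z)‖ ^ 2 = ∑ z, ‖f z‖ ^ 2 := fun i =>
    Equiv.sum_comp (τ i) (fun z => ‖f z‖ ^ 2)
  have h3 : ∑ i, ∑ z, (f (τ i z) * (starRingEnd ℂ) (f z)).re =
      ((Fintype.card ι : ℝ) - e) * ∑ z, ‖f z‖ ^ 2 := by
    rw [Finset.sum_comm, Finset.mul_sum]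
    refine Finset.sum_congr rfl fun z _ => ?_
    rw [← Complex.re_sum, ← Finset.sum_mul, h z, mul_assoc, Complex.mul_conj]
    rw [Complex.sq_norm]
    simp
  simp only [h1, Finset.sum_add_distrib, Finset.sum_sub_distrib, h2]
  simp only [← Finset.mul_sum]
  rw [h3]
  simp only [Finset.sum_const, Finset.card_univ, nsmul_eq_mul]
  ring

/-- deviation from the mean -/
theorem step1_mean {Y : Type} [Fintype Y] [Nonempty Y] (f : Y → ℂ) (c : ℂ)
    (hc : c = (Fintype.card Y : ℂ)⁻¹ * ∑ y, f y) :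
    ∑ y, ‖f y - c‖ ^ 2 = ∑ y, ‖f y‖ ^ 2 - (Fintype.card Y : ℝ) * ‖c‖ ^ 2 := by
  have hn : (Fintype.card Y : ℂ) ≠ 0 := by
    exact_mod_cast Fintype.card_ne_zero
  have h0 : ∑ y, f y = (Fintype.card Y : ℂ) * c := by
    rw [hc, ← mul_assoc, mul_inv_cancel₀ hn, one_mul]
  have h1 : ∀ y, ‖f y - c‖ ^ 2 = ‖f y‖ ^ 2 + ‖c‖ ^ 2 - 2 * (f y * (starRingEnd ℂ) c).re := by
    intro y
    rw [Complex.sq_norm, Complex.sq_norm, Complex.sq_norm, Complex.normSq_sub]
  simp only [h1, Finset.sum_add_distrib, Finset.sum_sub_distrib]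
  rw [← Finset.mul_sum, ← Complex.re_sum, ← Finset.sum_mul, h0, mul_assoc, Complex.mul_conj]
  rw [Complex.sq_norm c]
  simp
  ring

/-- averaging over a transitive group -/
theorem step1_trans {A : Type} [Fintype A] (S : Subgroup (Equiv.Perm A)) [Fintype S]
    (ht : ∀ a a' : A, ∃ s : S, (s : Equiv.Perm A) a = a') (a0 : A) (φ : A → ℂ) :
    (Fintype.card A : ℂ) * ∑ y : S, φ ((y : Equiv.Perm A) a0) =
      (Fintype.card S : ℂ) * ∑ a, φ a := by
  have h1 : ∀ a, ∑ y : S, φ ((y : Equiv.Perm A) a) = ∑ y : S, φ ((y : Equiv.Perm A) a0) := by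
    intro a
    obtain ⟨s, hs⟩ := ht a0 a
    rw [← Equiv.sum_comp (Equiv.mulRight s) (fun y : S => φ ((y : Equiv.Perm A) a0))]
    refine Finset.sum_congr rfl fun y _ => ?_
    rw [Equiv.coe_mulRight, Subgroup.coe_mul, Equiv.Perm.mul_apply, hs]
  have h2 : ∑ a, ∑ y : S, φ ((y : Equiv.Perm A) a) = (Fintype.card S : ℂ) * ∑ a, φ a := by
    rw [Finset.sum_comm]
    have : ∀ y : S, ∑ a, φ ((y : Equiv.Perm A) a) = ∑ a, φ a := fun y =>
      Equiv.sum_comp (y : Equiv.Perm A) φ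
    simp only [this, Finset.sum_const, Finset.card_univ, nsmul_eq_mul]
  rw [← h2]
  simp only [h1, Finset.sum_const, Finset.card_univ, nsmul_eq_mul]

/-! ### the functions `F_k` -/

section key

variable {A B : Type} {h : VH A B} {Q : Type} [Group Q]

theorem step1_bij [Finite B] (h : VH A B) (a' : A) :
    Function.Bijective (fun b => (h.vh.symm (b, a')).2) := by
  rw [← Finite.injective_iff_bijective]
  have key : ∀ b, h.invB b = (h.vh (a', h.invB (h.vh.symm (b, a')).2)).1 := by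
    intro b
    have e : h.vh ((h.vh.symm (b, a')).1, (h.vh.symm (b, a')).2) = (b, a') := by
      rw [Prod.mk.eta, Equiv.apply_symm_apply]
    have := h.h2 (h.vh.symm (b, a')).1 (h.vh.symm (b, a')).2
    rw [e] at this
    rw [this]
  intro b1 b2 h12
  simp only at h12
  have e1 : h.invB b1 = h.invB b2 := by rw [key b1, key b2, h12]
  rw [← h.invB_invB b1, e1, h.invB_invB]

theorem step1_key (r : Rep h Q) (b : B) (a' : A) :
    (r.al (h.sigma b a'))⁻¹ * r.be b = r.be (h.vh.symm (b, a')).2 * (r.al a')⁻¹ := by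
  have e : h.vh ((h.vh.symm (b, a')).1, (h.vh.symm (b, a')).2) = (b, a') := by
    rw [Prod.mk.eta, Equiv.apply_symm_apply]
  have := r.comm (h.vh.symm (b, a')).1 (h.vh.symm (b, a')).2
  rw [e] at this
  rw [inv_mul_eq_iff_eq_mul, ← mul_assoc, eq_mul_inv_iff_mul_eq]
  exact this.symm

/-- the function `F_k` attached to `w` -/
def step1_F (r : Rep h Q) (a0 : A) (w : Q → ℂ) (k : ℤˣ) : h.SA × Q → ℂ := fun z =>
  if r.chiA z.2 = k then w ((r.al ((z.1 : Equiv.Perm A) a0))⁻¹ * z.2) else 0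

theorem step1_F_eig [Fintype B] (r : Rep h Q) (a0 : A) (w : Q → ℂ) (k : ℤˣ) (c : ℂ)
    (hw : ∀ x, ∑ b, w (r.be b * x) = c * w x) (z : h.SA × Q) :
    ∑ b, step1_F r a0 w k (r.tau b z) = c * step1_F r a0 w k z := by
  obtain ⟨y, x⟩ := z
  simp only [Rep.tau_apply, step1_F, map_mul, r.chiA_be, one_mul]
  split_ifs with hk
  · have h1 : ∀ b, (r.al (((h.sig b * y : h.SA) : Equiv.Perm A) a0))⁻¹ * (r.be b * x) =
        r.be (h.vh.symm (b, (y : Equiv.Perm A) a0)).2 * ((r.al ((y : Equiv.Perm A) a0))⁻¹ * x) := by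
      intro b
      rw [← mul_assoc, ← mul_assoc, ← step1_key]
      rfl
    simp only [h1]
    rw [← hw]
    exact (step1_bij h ((y : Equiv.Perm A) a0)).sum_comp
      (fun b => w (r.be b * ((r.al ((y : Equiv.Perm A) a0))⁻¹ * x)))
  · simp

theorem step1_F_equi (r : Rep h Q) (a0 : A) (w ψ : Q → ℂ) (k : ℤˣ) (D : Subgroup Q)
    (hD : D ≤ r.chiA.ker) (hw : ∀ d ∈ D, ∀ x, w (x * d) = ψ d * w x) (d : Q) (hd : d ∈ D)
    (z : h.SA × Q) : step1_F r a0 w k (z.1, z.2 * d) = ψ d * step1_F r a0 w k z := by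
  have hk : r.chiA d = 1 := hD hd
  simp only [step1_F, map_mul, hk, mul_one, ← mul_assoc, hw d hd]
  split_ifs <;> simp

theorem step1_F_norm [Finite A] [Fintype Q] (r : Rep h Q) (a0 : A) (w : Q → ℂ) (k : ℤˣ) :
    ∑ z, ‖step1_F r a0 w k z‖ ^ 2 = (Fintype.card h.SA : ℝ) *
      ∑ x, (if r.chiA x = -k then ‖w x‖ ^ 2 else 0) := by
  rw [Fintype.sum_prod_type]
  have h1 : ∀ y : h.SA, ∑ x, ‖step1_F r a0 w k (y, x)‖ ^ 2 =
      ∑ x, (if r.chiA x = -k then ‖w x‖ ^ 2 else 0) := by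
    intro y
    rw [← Equiv.sum_comp (Equiv.mulLeft (r.al ((y : Equiv.Perm A) a0)))
      (fun x => ‖step1_F r a0 w k (y, x)‖ ^ 2)]
    refine Finset.sum_congr rfl fun x _ => ?_
    have e : (r.chiA (r.al ((y : Equiv.Perm A) a0) * x) = k) ↔ r.chiA x = -k := by
      rw [map_mul, r.chiA_al, neg_one_mul, neg_eq_iff_eq_neg]
    simp only [step1_F, Equiv.coe_mulLeft, e, inv_mul_cancel_left]
    split_ifs <;> simp
  simp only [h1, Finset.sum_const, Finset.card_univ, nsmul_eq_mul]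

theorem step1_F_avg [Fintype A] [Nonempty A] (r : Rep h Q)
    (ht : ∀ a a' : A, ∃ s : h.SA, (s : Equiv.Perm A) a = a') (a0 : A) (w : Q → ℂ)
    (k : ℤˣ) (lam : ℝ) (hw : ∀ x, ∑ a, w (r.al a * x) = (lam : ℂ) * w x) (x : Q) :
    (Fintype.card h.SA : ℂ)⁻¹ * ∑ y : h.SA, step1_F r a0 w k (y, x) =
      (if r.chiA x = k then ((lam / Fintype.card A : ℝ) : ℂ) * w x else 0) := by
  simp only [step1_F]
  have hA : (Fintype.card A : ℂ) ≠ 0 := by exact_mod_cast Fintype.card_ne_zero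
  have hS : (Fintype.card h.SA : ℂ) ≠ 0 := by exact_mod_cast Fintype.card_ne_zero
  split_ifs with hk
  · have h1 := step1_trans h.SA ht a0 (fun a => w ((r.al a)⁻¹ * x))
    have h2 : ∑ a, w ((r.al a)⁻¹ * x) = (lam : ℂ) * w x := by
      rw [← hw]
      have : Function.Involutive h.invA := h.invA_invA
      rw [← Equiv.sum_comp this.toPerm (fun a => w (r.al a * x))]
      refine Finset.sum_congr rfl fun a _ => ?_
      rw [Function.Involutive.coe_toPerm, r.al_inv]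
    rw [h2] at h1
    push_cast
    field_simp
    linear_combination h1
  · simp

end key

/-! ### the conclusions -/

theorem step1_split {Q : Type} [Fintype Q] (χ : Q → ℤˣ) (f : Q → ℝ) :
    (∑ x, (if χ x = 1 then f x else 0)) + (∑ x, (if χ x = -1 then f x else 0)) = ∑ x, f x := by
  rw [← Finset.sum_add_distrib]
  refine Finset.sum_congr rfl fun x _ => ?_
  rcases Int.units_eq_one_or (χ x) with e | e
  · have : ¬ ((1 : ℤˣ) = -1) := by decide
    rw [e]; simp [this]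
  · have : ¬ ((-1 : ℤˣ) = 1) := by decide
    rw [e]; simp [this]

/-- the average has large norm -/
theorem step1_lam1 {A B : Type} [Fintype A] [Fintype B] {h : VH A B} [Nonempty A] {Q : Type}
    [Group Q] [Fintype Q] (r : Rep h Q)
    (ht : ∀ a a' : A, ∃ s : h.SA, (s : Equiv.Perm A) a = a') (a0 : A) (w : Q → ℂ)
    (k : ℤˣ) (lam Ce : ℝ) (hw : ∀ x, ∑ a, w (r.al a * x) = (lam : ℂ) * w x)
    (hV : ∑ z, ‖step1_F r a0 w k z - (Fintype.card h.SA : ℂ)⁻¹ *
        ∑ y, step1_F r a0 w k (y, z.2)‖ ^ 2 ≤ Ce * ∑ z, ‖step1_F r a0 w k z‖ ^ 2) :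
    (1 - Ce) * ∑ x, (if r.chiA x = -k then ‖w x‖ ^ 2 else 0) ≤
      (lam / Fintype.card A) ^ 2 * ∑ x, (if r.chiA x = k then ‖w x‖ ^ 2 else 0) := by
  have hS : (0 : ℝ) < Fintype.card h.SA := by exact_mod_cast Fintype.card_pos
  have h1 : ∑ z, ‖step1_F r a0 w k z - (Fintype.card h.SA : ℂ)⁻¹ *
        ∑ y, step1_F r a0 w k (y, z.2)‖ ^ 2 = ∑ z, ‖step1_F r a0 w k z‖ ^ 2 -
      (Fintype.card h.SA : ℝ) * ((lam / Fintype.card A) ^ 2 *
        ∑ x, (if r.chiA x = k then ‖w x‖ ^ 2 else 0)) := by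
    rw [Fintype.sum_prod_type_right, Fintype.sum_prod_type_right]
    simp only
    have e1 : ∀ x, ∑ y, ‖step1_F r a0 w k (y, x) - (Fintype.card h.SA : ℂ)⁻¹ *
        ∑ y, step1_F r a0 w k (y, x)‖ ^ 2 = ∑ y, ‖step1_F r a0 w k (y, x)‖ ^ 2 -
        (Fintype.card h.SA : ℝ) * ((lam / Fintype.card A) ^ 2 *
          (if r.chiA x = k then ‖w x‖ ^ 2 else 0)) := by
      intro x
      rw [step1_mean (fun y => step1_F r a0 w k (y, x)) _ rfl, step1_F_avg r ht a0 w k lam hw x]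
      congr 2
      split_ifs with hk
      · rw [norm_mul, mul_pow, Complex.norm_real, Real.norm_eq_abs, sq_abs]
      · simp
    rw [Finset.sum_congr rfl fun x _ => e1 x, Finset.sum_sub_distrib, ← Finset.mul_sum,
      ← Finset.mul_sum]
  rw [h1, step1_F_norm] at hV
  have h2 : (Fintype.card h.SA : ℝ) * ((1 - Ce) * ∑ x, (if r.chiA x = -k then ‖w x‖ ^ 2 else 0)) ≤
      (Fintype.card h.SA : ℝ) * ((lam / Fintype.card A) ^ 2 *
        ∑ x, (if r.chiA x = k then ‖w x‖ ^ 2 else 0)) := by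
    nlinarith
  exact le_of_mul_le_mul_left h2 hS

/-- a function invariant under the generators, with zero sum, is zero -/
theorem step1_inv {A B : Type} {h : VH A B} {Q : Type} [Group Q] [Fintype Q] (r : Rep h Q)
    (w : Q → ℂ) (ha : ∀ a x, w (r.al a * x) = w x) (hb : ∀ b x, w (r.be b * x) = w x)
    (hs : ∑ x, w x = 0) : w = 0 := by
  have h1 : ∀ g : Q, ∀ x, w (g * x) = w x := by
    intro g
    have hg : g ∈ Subgroup.closure (Set.range r.al ∪ Set.range r.be) := by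
      rw [r.gen]; trivial
    induction hg using Subgroup.closure_induction with
    | mem g hg =>
      rcases hg with ⟨a, rfl⟩ | ⟨b, rfl⟩
      · exact ha a
      · exact hb b
    | one => intro x; rw [one_mul]
    | mul g g' _ _ i1 i2 => intro x; rw [mul_assoc, i1, i2]
    | inv g _ i1 => intro x; rw [← i1 (g⁻¹ * x), mul_inv_cancel_left]
  have h2 : ∀ x, w x = w 1 := fun x => by
    have := h1 x 1
    rwa [mul_one] at this
  have h3 : (Fintype.card Q : ℂ) * w 1 = 0 := by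
    rw [← hs]
    simp only [h2, Finset.sum_const, Finset.card_univ, nsmul_eq_mul]
  have hQ : (Fintype.card Q : ℂ) ≠ 0 := by exact_mod_cast Fintype.card_ne_zero
  have h4 : w 1 = 0 := by
    rcases mul_eq_zero.1 h3 with h | h
    · exact absurd h hQ
    · exact h
  funext x
  rw [h2 x, h4]; rfl

/-- eigenvalue zero means invariance -/
theorem step1_zero {Q ι : Type} [Group Q] [Fintype Q] [Fintype ι] (s : ι → Q) (w : Q → ℂ)
    (hw : ∀ x, ∑ i, w (s i * x) = ((Fintype.card ι : ℂ) - ((0 : ℝ) : ℂ)) * w x) :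
    ∀ i x, w (s i * x) = w x := by
  have h1 := step1_var (fun i => Equiv.mulLeft (s i)) w 0 hw
  rw [mul_zero, zero_mul] at h1
  intro i x
  have h2 := (Finset.sum_eq_zero_iff_of_nonneg
    (fun i _ => Finset.sum_nonneg fun z _ => sq_nonneg _)).1 h1 i (Finset.mem_univ i)
  have h3 := (Finset.sum_eq_zero_iff_of_nonneg (fun z _ => sq_nonneg _)).1 h2 x (Finset.mem_univ x)
  have h4 : ‖w (s i * x) - w x‖ = 0 := by
    have := pow_eq_zero_iff (two_ne_zero) |>.1 h3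
    exact this
  exact sub_eq_zero.1 (norm_eq_zero.1 h4)

/-- the eigenvalue may be taken nonnegative -/
theorem step1_abs {A B : Type} [Fintype A] [Fintype B] {h : VH A B} {Q : Type} [Group Q]
    [Fintype Q] (r : Rep h Q) (D : Subgroup Q) (hD : D ≤ r.chiA.ker) (w ψ : Q → ℂ) (c : ℂ)
    (lam : ℝ) (hw0 : w ≠ 0) (hw : ∀ d ∈ D, ∀ x, w (x * d) = ψ d * w x)
    (hB : ∀ x, ∑ b, w (r.be b * x) = c * w x) (hs : ∑ x, w x = 0)
    (hs' : ∑ x, (((r.chiA x : ℤˣ) : ℤ) : ℂ) * w x = 0)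
    (hA : ∀ x, ∑ a, w (r.al a * x) = (lam : ℂ) * w x) :
    ∃ (w' : Q → ℂ) (lam' : ℝ), w' ≠ 0 ∧ (∀ d ∈ D, ∀ x, w' (x * d) = ψ d * w' x) ∧
      (∀ x, ∑ b, w' (r.be b * x) = c * w' x) ∧ ∑ x, w' x = 0 ∧
      (∀ x, ∑ a, w' (r.al a * x) = (lam' : ℂ) * w' x) ∧ 0 ≤ lam' ∧ lam' ^ 2 = lam ^ 2 := by
  rcases le_or_gt 0 lam with hl | hl
  · exact ⟨w, lam, hw0, hw, hB, hs, hA, hl, rfl⟩
  · refine ⟨fun x => (((r.chiA x : ℤˣ) : ℤ) : ℂ) * w x, -lam, ?_, ?_, ?_, hs', ?_, by linarith,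
      by ring⟩
    · intro h0
      apply hw0
      funext x
      have h1 := congrFun h0 x
      simp only [Pi.zero_apply, mul_eq_zero] at h1 ⊢
      rcases h1 with h1 | h1
      · rcases Int.units_eq_one_or (r.chiA x) with e | e <;> rw [e] at h1 <;> simp at h1
      · exact h1
    · intro d hd x
      have hk : r.chiA d = 1 := hD hd
      simp only [map_mul, hk, mul_one, hw d hd]
      ring
    · intro x
      simp only [map_mul, r.chiA_be, one_mul, ← Finset.mul_sum, hB]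
      ring
    · intro x
      simp only [map_mul, r.chiA_al, Units.val_neg, Int.cast_neg, neg_mul,
        Finset.sum_neg_distrib, ← Finset.mul_sum, hA]
      push_cast
      ring

theorem step1_proof (h1 : Stmt_extract) (h2 : Stmt_V) (h3 : Stmt_X) (h4 : Stmt_joint) :
    Stmt_step1 := by
  classical
  intro A B _ _ h hA hB hG hG' g hg
  obtain ⟨C, hC, HV⟩ := h2 A B h hG.1 g hg
  obtain ⟨δ1, hδ1, HX1⟩ := h3 A B h hA hG.2 g hg
  obtain ⟨δ2, hδ2, HX2⟩ := h3 B A h.swap hB hG'.2 g hg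
  have hm : (0 : ℝ) < Fintype.card A := by exact_mod_cast Fintype.card_pos
  have hn : (0 : ℝ) < Fintype.card B := by exact_mod_cast Fintype.card_pos
  refine ⟨min (min (g / 2) (1 / (8 * C))) (min δ1 ((Fintype.card B : ℝ) / 4)), by positivity, ?_⟩
  intro Q _ _ r D E hD hE hED hDD hkA hkB hgB hgB'
  by_contra hcon
  obtain ⟨κ, F, ε, ψ, hF0, hε0, hε, hFeig, hFequi, hFsupp, hFsum⟩ :=
    h1 A B h Q r D E hD hE hED hDD hkA _ hcon
  rw [lt_min_iff, lt_min_iff, lt_min_iff] at hε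
  obtain ⟨⟨hε1, hε2⟩, hε3, hε4⟩ := hε
  have hCε : C * ε < 1 / 8 := by
    rw [lt_div_iff₀ (by positivity)] at hε2
    nlinarith
  have hSA : (Fintype.card h.SA : ℂ) ≠ 0 := by exact_mod_cast Fintype.card_ne_zero
  -- the average of `F`
  have hvar : r.varB F = 2 * ε * ∑ z, ‖F z‖ ^ 2 := step1_var r.tau F ε hFeig
  have hVF := HV Q r D hD hkA hgB κ F ε ψ hε0 hε1.le hFequi hFsupp hvar.le
  have hFpos : 0 < ∑ z, ‖F z‖ ^ 2 := by
    obtain ⟨z, hz⟩ := Function.ne_iff.1 hF0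
    refine Finset.sum_pos' (fun z _ => sq_nonneg _) ⟨z, Finset.mem_univ z, ?_⟩
    have : 0 < ‖F z‖ := norm_pos_iff.2 hz
    positivity
  set v : Q → ℂ := fun x => (Fintype.card h.SA : ℂ)⁻¹ * ∑ y, F (y, x) with hv
  have hv0 : v ≠ 0 := by
    intro h0
    have e : ∀ z : h.SA × Q, (Fintype.card h.SA : ℂ)⁻¹ * ∑ y, F (y, z.2) = 0 := fun z =>
      congrFun h0 z.2
    simp only [e, sub_zero] at hVF
    nlinarith
  have hvD : ∀ d ∈ D, ∀ x, v (x * d) = ψ d * v x := by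
    intro d hd x
    simp only [hv]
    have : ∀ y, F (y, x * d) = ψ d * F (y, x) := fun y => (hFequi d hd).2 (y, x)
    simp only [this, ← Finset.mul_sum]
    ring
  have hvB : ∀ x, ∑ b, v (r.be b * x) = ((Fintype.card B : ℂ) - (ε : ℂ)) * v x := by
    intro x
    simp only [hv, ← Finset.mul_sum]
    have e : ∀ b, ∑ y, F (y, r.be b * x) = ∑ y, F (r.tau b (y, x)) := by
      intro b
      rw [← Equiv.sum_comp (Equiv.mulLeft (h.sig b))]
      rfl
    simp only [e]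
    rw [Finset.sum_comm]
    simp only [hFeig, ← Finset.mul_sum]
    ring
  have hvs : ∑ x, v x = 0 := by
    simp only [hv, ← Finset.mul_sum]
    rw [← Fintype.sum_prod_type_right (f := F), hFsum, mul_zero]
  have hvs' : ∑ x, (((r.chiA x : ℤˣ) : ℤ) : ℂ) * v x = 0 := by
    have e : ∀ x, (((r.chiA x : ℤˣ) : ℤ) : ℂ) * v x = (((κ : ℤˣ) : ℤ) : ℂ) * v x := by
      intro x
      by_cases hx : r.chiA x = κ
      · rw [hx]
      · have : v x = 0 := by
          simp only [hv]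
          have : ∀ y, F (y, x) = 0 := fun y => hFsupp (y, x) hx
          simp [this]
        rw [this, mul_zero, mul_zero]
    simp only [e, ← Finset.mul_sum, hvs, mul_zero]
  -- joint eigenfunction
  obtain ⟨w0, lam0, hw00, hw0D, hw0B, hw0s, hw0s', hw0A⟩ :=
    h4 A B h Q r D hkA v ψ ε hv0 hvD hvB hvs hvs'
  obtain ⟨w, lam, hw0, hwD, hwB, hws, hwA, hlam, -⟩ :=
    step1_abs r D hkA w0 ψ _ lam0 hw00 hw0D hw0B hw0s hw0s' hw0A
  obtain ⟨a0⟩ := id hA
  have hkey : ∀ k : ℤˣ, (1 - C * ε) * ∑ x, (if r.chiA x = -k then ‖w x‖ ^ 2 else 0) ≤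
      (lam / Fintype.card A) ^ 2 * ∑ x, (if r.chiA x = k then ‖w x‖ ^ 2 else 0) := by
    intro k
    refine step1_lam1 r hG.2 a0 w k lam (C * ε) hwA ?_
    refine HV Q r D hD hkA hgB k (step1_F r a0 w k) ε ψ hε0 hε1.le ?_ ?_ ?_
    · intro d hd
      exact ⟨(hFequi d hd).1, step1_F_equi r a0 w ψ k D hkA hwD d hd⟩
    · intro z hz
      simp [step1_F, hz]
    · exact (step1_var r.tau _ ε (step1_F_eig r a0 w k _ hwB)).le
  have hwpos : 0 < ∑ x, ‖w x‖ ^ 2 := by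
    obtain ⟨z, hz⟩ := Function.ne_iff.1 hw0
    refine Finset.sum_pos' (fun z _ => sq_nonneg _) ⟨z, Finset.mem_univ z, ?_⟩
    have : 0 < ‖w z‖ := norm_pos_iff.2 hz
    positivity
  have hsplit := step1_split r.chiA (fun x => ‖w x‖ ^ 2)
  have k1 := hkey 1
  have k2 := hkey (-1)
  rw [neg_neg] at k2
  have hl1 : 1 - C * ε ≤ (lam / Fintype.card A) ^ 2 := by
    have : (1 - C * ε) * ∑ x, ‖w x‖ ^ 2 ≤ (lam / Fintype.card A) ^ 2 * ∑ x, ‖w x‖ ^ 2 := by
      rw [← hsplit]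
      linarith
    exact le_of_mul_le_mul_right this hwpos
  have hwA' : ∀ x, ∑ a, w (r.al a * x) =
      ((Fintype.card A : ℂ) - (((Fintype.card A : ℝ) - lam : ℝ) : ℂ)) * w x := by
    intro x
    rw [hwA x]
    push_cast
    ring
  have hεA0 : 0 ≤ (Fintype.card A : ℝ) - lam := by
    have e := step1_var (fun a => Equiv.mulLeft (r.al a)) w ((Fintype.card A : ℝ) - lam) hwA'
    have e1 : 0 ≤ 2 * ((Fintype.card A : ℝ) - lam) * ∑ z, ‖w z‖ ^ 2 := by
      rw [← e]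
      exact Finset.sum_nonneg fun _ _ => Finset.sum_nonneg fun _ _ => sq_nonneg _
    by_contra hneg
    push Not at hneg
    nlinarith
  have hεA1 : (Fintype.card A : ℝ) - lam < (Fintype.card A : ℝ) / 4 := by
    by_contra hneg
    push Not at hneg
    have e1 : lam / Fintype.card A ≤ 3 / 4 := by
      rw [div_le_iff₀ hm]; linarith
    have e2 : 0 ≤ lam / Fintype.card A := by positivity
    nlinarith
  have hDw : ∀ d ∈ D, ‖ψ d‖ = 1 ∧ ∀ x, w (x * d) = ψ d * w x := fun d hd =>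
    ⟨(hFequi d hd).1, hwD d hd⟩
  have hεA := HX1 Q r D hD hkA hgB w ψ ((Fintype.card A : ℝ) - lam) ε hw0 hDw hwA' hwB hε0 hε3
    hεA0 hεA1
  rw [hεA] at hwA'
  have hεB := HX2 Q r.swap D hD hkB hgB' w ψ ε 0 hw0 hDw hwB hwA' le_rfl hδ2 hε0 hε4
  rw [hεB] at hwB
  exact hw0 (step1_inv r w (step1_zero r.al w hwA') (step1_zero r.be w hwB) hws)

end TauQ
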