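import Mathlib
import Pool.Agent.Work.MP_972ac7_al_tau.Interface

open scoped Quaternion BigOperators

namespace TauQ

lemma uniqueh_div {r : ℕ} {x : ℍ[ℤ]} (h0 : (r : ℤ) ∣ x.re) (h1 : (r : ℤ) ∣ x.imI)
    (h2 : (r : ℤ) ∣ x.imJ) (h3 : (r : ℤ) ∣ x.imK) : ∃ δ : ℍ[ℤ], x = (r : ℍ[ℤ]) * δ := by
  obtain ⟨a, ha⟩ := h0
  obtain ⟨b, hb⟩ := h1
  obtain ⟨c, hc⟩ := h2
  obtain ⟨d, hd⟩ := h3
  refine ⟨mk4 a b c d, ?_⟩
  ext <;> simp [ha, hb, hc, hd]

lemma uniqueh_one {r : ℕ} (hr : r.Prime) (β β' : SS r)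
    (h : ∃ δ : ℍ[ℤ], star β'.val * β.val = (r : ℍ[ℤ]) * δ) : β = β' := by
  obtain ⟨δ, hδ⟩ := h
  have hr0 : (r : ℤ) ≠ 0 := by exact_mod_cast hr.ne_zero
  have e1 : (r : ℍ[ℤ]) * β.val = (r : ℍ[ℤ]) * (β'.val * δ) := by
    have : β'.val * (star β'.val * β.val) = (r : ℍ[ℤ]) * β.val := by
      rw [← mul_assoc, Quaternion.self_mul_star, β'.norm, Quaternion.coe_natCast]
    rw [← this, hδ, ← mul_assoc, ← mul_assoc, (Nat.cast_commute r β'.val).eq]
  have e2 : β.val = β'.val * δ := by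
    have := congrArg (fun x : ℍ[ℤ] => x) e1
    ext
    · have := congrArg (fun x : ℍ[ℤ] => x.re) e1
      simp at this
      simpa using this.resolve_right (by exact_mod_cast hr.ne_zero)
    · have := congrArg (fun x : ℍ[ℤ] => x.imI) e1
      simp at this
      simpa using this.resolve_right (by exact_mod_cast hr.ne_zero)
    · have := congrArg (fun x : ℍ[ℤ] => x.imJ) e1
      simp at this
      simpa using this.resolve_right (by exact_mod_cast hr.ne_zero)
    · have := congrArg (fun x : ℍ[ℤ] => x.imK) e1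
      simp at this
      simpa using this.resolve_right (by exact_mod_cast hr.ne_zero)
  have n1 : Quaternion.normSq δ = 1 := by
    have := congrArg Quaternion.normSq e2
    rw [map_mul, β.norm, β'.norm] at this
    have h2 : (r : ℤ) * Quaternion.normSq δ = r * 1 := by rw [← this, mul_one]
    exact mul_left_cancel₀ hr0 h2
  obtain ⟨b0, ⟨b1, h1⟩, ⟨b2, h2⟩, ⟨b3, h3⟩⟩ := β'.mem
  obtain ⟨c0, -⟩ := β.mem
  have hre : β.val.re = β'.val.re * δ.re - 2 * (b1 * δ.imI + b2 * δ.imJ + b3 * δ.imK) := by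
    rw [e2]; simp [h1, h2, h3]; ring
  have hodd : δ.re % 2 = 1 := by
    have : (β'.val.re * δ.re) % 2 = 1 := by omega
    rw [Int.mul_emod] at this
    have h4 : β'.val.re % 2 = 1 := by omega
    rw [h4, one_mul] at this
    omega
  rw [Quaternion.normSq_def'] at n1
  have hne : δ.re ^ 2 ≥ 1 := by
    have : δ.re ≠ 0 := by omega
    have := sq_nonneg δ.re
    have h5 : 0 < δ.re ^ 2 := by positivity
    omega
  have i1 : δ.imI = 0 := by
    have := sq_nonneg δ.imJ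
    have := sq_nonneg δ.imK
    have h6 : δ.imI ^ 2 ≤ 0 := by omega
    exact pow_eq_zero_iff (two_ne_zero) |>.1 (le_antisymm h6 (sq_nonneg _))
  have i2 : δ.imJ = 0 := by
    have := sq_nonneg δ.imI
    have := sq_nonneg δ.imK
    have h6 : δ.imJ ^ 2 ≤ 0 := by omega
    exact pow_eq_zero_iff (two_ne_zero) |>.1 (le_antisymm h6 (sq_nonneg _))
  have i3 : δ.imK = 0 := by
    have := sq_nonneg δ.imI
    have := sq_nonneg δ.imJ
    have h6 : δ.imK ^ 2 ≤ 0 := by omega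
    exact pow_eq_zero_iff (two_ne_zero) |>.1 (le_antisymm h6 (sq_nonneg _))
  have i0 : δ.re = 1 ∨ δ.re = -1 := by
    have : δ.re ^ 2 = 1 := by rw [i1, i2, i3] at n1; simpa using n1
    rcases (mul_eq_zero.1 (show (δ.re - 1) * (δ.re + 1) = 0 by linarith)) with h | h
    · left; omega
    · right; omega
  have i4 : δ.re = 1 := by
    rcases i0 with h | h
    · exact h
    · exfalso
      rw [h, i1, i2, i3] at hre
      omega
  have hδ1 : δ = 1 := by
    ext <;> simp [i1, i2, i3, i4]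
  apply SS.ext
  rw [e2, hδ1, mul_one]

lemma uniqueh_two {r : ℕ} (hr : r.Prime) (hr2 : r % 4 = 1) (β β' : SS r) (γ γ' : ℍ[ℤ])
    (hα : ∀ δ : ℍ[ℤ], β.val * γ ≠ (r : ℍ[ℤ]) * δ) (he : β.val * γ = β'.val * γ') : β = β' := by
  apply uniqueh_one hr
  have hrp : Prime (r : ℤ) := Nat.prime_iff_prime_int.1 hr
  set α := β.val * γ with hαdef
  set X := star β'.val * β.val with hX
  -- choose y
  have hy : ∃ y : ℍ[ℤ], ¬ (r : ℤ) ∣ 2 * (y * α).re := by
    by_contra hcon
    push Not at hcon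
    have h2 : ¬ (r : ℤ) ∣ 2 := by
      intro h
      have := Int.le_of_dvd two_pos h
      have := hr.two_le
      omega
    have key : ∀ z : ℤ, (r : ℤ) ∣ 2 * z → (r : ℤ) ∣ z := fun z hz =>
      (hrp.dvd_or_dvd hz).resolve_left h2
    have k0 := key _ (hcon 1)
    have k1 := key _ (hcon (mk4 0 1 0 0))
    have k2 := key _ (hcon (mk4 0 0 1 0))
    have k3 := key _ (hcon (mk4 0 0 0 1))
    simp at k0 k1 k2 k3
    obtain ⟨δ, hδ⟩ := uniqueh_div (r := r) (x := α) k0 k1 k2 k3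
    exact hα δ hδ
  obtain ⟨y, hy⟩ := hy
  set t : ℤ := 2 * (y * α).re with ht
  -- identity
  have hid : β.val * (γ * y) * β.val = (t : ℍ[ℤ]) * β.val - (r : ℍ[ℤ]) * star (γ * y) := by
    have hn : β.val * star β.val = (r : ℍ[ℤ]) := by
      rw [Quaternion.self_mul_star, β.norm, Quaternion.coe_natCast]
    have hsum : (γ * y) * β.val + star ((γ * y) * β.val) = (t : ℍ[ℤ]) := by
      have : ((γ * y) * β.val).re = (y * α).re := by
        rw [hαdef]
        simp
        ring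
      rw [Quaternion.self_add_star, this, ht]
      push_cast
      rfl
    have h1 : β.val * ((γ * y) * β.val + star ((γ * y) * β.val)) = (t : ℍ[ℤ]) * β.val := by
      rw [hsum, (Int.cast_commute t β.val).eq]
    rw [mul_add, star_mul, ← mul_assoc β.val (star β.val), hn] at h1
    rw [mul_assoc, ← h1]
    abel
  have hX2 : (t : ℍ[ℤ]) * X = (r : ℍ[ℤ]) * (γ' * y * β.val + star β'.val * star (γ * y)) := by
    have h1 : star β'.val * (β.val * (γ * y) * β.val) = (r : ℍ[ℤ]) * (γ' * y * β.val) := by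
      have : β.val * (γ * y) * β.val = β'.val * (γ' * y * β.val) := by
        calc β.val * (γ * y) * β.val = (β.val * γ) * y * β.val := by simp only [mul_assoc]
          _ = (β'.val * γ') * y * β.val := by rw [← hαdef, he]
          _ = _ := by simp only [mul_assoc]
      rw [this, ← mul_assoc, Quaternion.star_mul_self, β'.norm, Quaternion.coe_natCast]
    rw [hid, mul_sub] at h1
    have h2 : star β'.val * ((t : ℍ[ℤ]) * β.val) = (t : ℍ[ℤ]) * X := by
      rw [hX, ← mul_assoc, ← (Int.cast_commute t (star β'.val)).eq, mul_assoc]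
    have h3 : star β'.val * ((r : ℍ[ℤ]) * star (γ * y)) = (r : ℍ[ℤ]) * (star β'.val * star (γ * y)) := by
      rw [← mul_assoc, ← (Nat.cast_commute r (star β'.val)).eq, mul_assoc]
    rw [h2, h3] at h1
    rw [mul_add, ← h1]
    abel
  have hdiv : ∀ z w : ℤ, t * z = r * w → (r : ℤ) ∣ z := by
    intro z w hz
    have : (r : ℤ) ∣ t * z := ⟨w, hz⟩
    exact (hrp.dvd_or_dvd this).resolve_left hy
  have g0 := congrArg (fun x : ℍ[ℤ] => x.re) hX2
  have g1 := congrArg (fun x : ℍ[ℤ] => x.imI) hX2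
  have g2 := congrArg (fun x : ℍ[ℤ] => x.imJ) hX2
  have g3 := congrArg (fun x : ℍ[ℤ] => x.imK) hX2
  have c1 : ∀ (n : ℤ) (x : ℍ[ℤ]), ((n : ℍ[ℤ]) * x).re = n * x.re := by intro n x; simp
  have c2 : ∀ (n : ℤ) (x : ℍ[ℤ]), ((n : ℍ[ℤ]) * x).imI = n * x.imI := by intro n x; simp
  have c3 : ∀ (n : ℤ) (x : ℍ[ℤ]), ((n : ℍ[ℤ]) * x).imJ = n * x.imJ := by intro n x; simp
  have c4 : ∀ (n : ℤ) (x : ℍ[ℤ]), ((n : ℍ[ℤ]) * x).imK = n * x.imK := by intro n x; simp
  have e : (r : ℍ[ℤ]) = ((r : ℤ) : ℍ[ℤ]) := by simp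
  simp only [e, c1, c2, c3, c4] at g0 g1 g2 g3
  exact uniqueh_div (hdiv _ _ g0) (hdiv _ _ g1) (hdiv _ _ g2) (hdiv _ _ g3)

theorem unique_proof : Stmt_unique := fun _ hr hr2 =>
  ⟨fun β β' h => uniqueh_one hr β β' h, fun β β' γ γ' h1 h2 => uniqueh_two hr hr2 β β' γ γ' h1 h2⟩

end TauQ
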