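import Mathlib
import Pool.Agent.Work.MP_972ac7_al_tau.Interface

/-!
# MP_972ac7_al: block `x0` (helper22)
-/

set_option autoImplicit false

namespace TauQ

open Finset

/-- integers in `[-Y, Y]` which are pairwise congruent modulo `N` -/
theorem x0_class (Y N : ℕ) (hN : 0 < N) (T : Finset ℤ) (h1 : ∀ x ∈ T, -(Y : ℤ) ≤ x ∧ x ≤ Y)
    (h2 : ∀ x ∈ T, ∀ y ∈ T, (N : ℤ) ∣ x - y) : T.card ≤ 2 * Y / N + 1 := by
  have hN' : (0 : ℤ) < N := by exact_mod_cast hN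
  have hmaps : ∀ x ∈ T, (x + Y) / (N : ℤ) ∈ Finset.Icc (0 : ℤ) ((2 * Y / N : ℕ) : ℤ) := by
    intro x hx
    obtain ⟨a, b⟩ := h1 x hx
    rw [Finset.mem_Icc]
    constructor
    · exact Int.ediv_nonneg (by linarith) hN'.le
    · have h3 : ((2 * Y / N : ℕ) : ℤ) = (2 * Y : ℤ) / N := by push_cast; rfl
      rw [h3]
      exact Int.ediv_le_ediv hN' (by linarith)
  have hinj : Set.InjOn (fun x : ℤ => (x + Y) / (N : ℤ)) (T : Set ℤ) := by
    intro x hx y hy hxy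
    simp only at hxy
    obtain ⟨c, hc⟩ := h2 x hx y hy
    have e1 := Int.emod_add_mul_ediv (x + Y) N
    have e2 := Int.emod_add_mul_ediv (y + Y) N
    have b1 := Int.emod_nonneg (x + Y) hN'.ne'
    have b2 := Int.emod_lt_of_pos (x + Y) hN'
    have b3 := Int.emod_nonneg (y + Y) hN'.ne'
    have b4 := Int.emod_lt_of_pos (y + Y) hN'
    rw [hxy] at e1
    have h5 : x - y = (x + Y) % (N : ℤ) - (y + Y) % (N : ℤ) := by linarith
    have h6 : (N : ℤ) * c < N * 1 := by rw [← hc]; linarith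
    have h7 : (N : ℤ) * (-1) < N * c := by rw [← hc]; linarith
    have h8 : c < 1 := lt_of_mul_lt_mul_left h6 hN'.le
    have h9 : -1 < c := lt_of_mul_lt_mul_left h7 hN'.le
    have h10 : c = 0 := by omega
    rw [h10, mul_zero] at hc
    linarith
  have h := Finset.card_le_card_of_injOn _ hmaps hinj
  rw [Int.card_Icc] at h
  have h3 : ((2 * Y / N : ℕ) : ℤ) + 1 - 0 = ((2 * Y / N + 1 : ℕ) : ℤ) := by push_cast; ring
  rw [h3, Int.toNat_natCast] at h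
  exact h

theorem x0_gcd (Y M : ℕ) (hM : 0 < M) (hc : Nat.Coprime M (2 * Y)) (x : ℤ)
    (h : ((M : ℤ) ^ 2) ∣ (Y : ℤ) ^ 2 - x ^ 2) :
    Nat.Coprime (Nat.gcd (M ^ 2) ((Y : ℤ) - x).natAbs) (Nat.gcd (M ^ 2) ((Y : ℤ) + x).natAbs) ∧
    Nat.gcd (M ^ 2) ((Y : ℤ) - x).natAbs * Nat.gcd (M ^ 2) ((Y : ℤ) + x).natAbs = M ^ 2 := by
  set a := ((Y : ℤ) - x).natAbs with ha
  set b := ((Y : ℤ) + x).natAbs with hb
  have hcop : Nat.Coprime (Nat.gcd (M ^ 2) a) (Nat.gcd (M ^ 2) b) := by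
    rw [Nat.coprime_iff_gcd_eq_one]
    set g := Nat.gcd (Nat.gcd (M ^ 2) a) (Nat.gcd (M ^ 2) b) with hg
    have g1 : g ∣ M ^ 2 := (Nat.gcd_dvd_left _ _).trans (Nat.gcd_dvd_left _ _)
    have g2 : g ∣ a := (Nat.gcd_dvd_left _ _).trans (Nat.gcd_dvd_right _ _)
    have g3 : g ∣ b := (Nat.gcd_dvd_right _ _).trans (Nat.gcd_dvd_right _ _)
    have g4 : (g : ℤ) ∣ (Y : ℤ) - x := by
      rw [← Int.dvd_natAbs]; exact_mod_cast g2
    have g5 : (g : ℤ) ∣ (Y : ℤ) + x := by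
      rw [← Int.dvd_natAbs]; exact_mod_cast g3
    have g6 : (g : ℤ) ∣ ((2 * Y : ℕ) : ℤ) := by
      have := dvd_add g4 g5
      have e : (Y : ℤ) - x + (Y + x) = ((2 * Y : ℕ) : ℤ) := by push_cast; ring
      rwa [e] at this
    have g7 : g ∣ 2 * Y := by exact_mod_cast g6
    have g8 : Nat.Coprime (M ^ 2) (2 * Y) := Nat.Coprime.pow_left 2 hc
    exact Nat.Coprime.eq_one_of_dvd (Nat.Coprime.coprime_dvd_left g1 g8) g7
  refine ⟨hcop, Nat.dvd_antisymm ?_ ?_⟩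
  · exact Nat.Coprime.mul_dvd_of_dvd_of_dvd hcop (Nat.gcd_dvd_left _ _) (Nat.gcd_dvd_left _ _)
  · have h1 : (M ^ 2) ∣ a * b := by
      have e : (Y : ℤ) ^ 2 - x ^ 2 = (Y - x) * (Y + x) := by ring
      rw [e] at h
      have h2 := Int.natAbs_dvd_natAbs.2 h
      rw [Int.natAbs_mul, Int.natAbs_pow, Int.natAbs_natCast] at h2
      exact h2
    exact Nat.dvd_gcd_mul_gcd_iff_dvd_mul.2 h1

theorem x0_proof : Stmt_x0 := by
  classical
  intro Y M hY hM hc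
  have hN : 0 < M ^ 2 := by positivity
  set S : Finset ℤ := (Finset.Icc (-(Y : ℤ)) Y).filter
    (fun x => ((M : ℤ) ^ 2) ∣ (Y : ℤ) ^ 2 - x ^ 2) with hS
  have hcard : Nat.card {x : ℤ // x ^ 2 ≤ (Y : ℤ) ^ 2 ∧ ((M : ℤ) ^ 2) ∣ (Y : ℤ) ^ 2 - x ^ 2}
      = S.card := by
    refine Nat.subtype_card S fun x => ?_
    rw [hS, Finset.mem_filter, Finset.mem_Icc]
    refine and_congr_left fun _ => ?_
    rw [sq_le_sq, abs_of_nonneg (by positivity : (0 : ℤ) ≤ Y), abs_le]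
  rw [hcard]
  have hmaps : ∀ x ∈ S, Nat.gcd (M ^ 2) ((Y : ℤ) - x).natAbs ∈ (M ^ 2).divisors := by
    intro x _
    rw [Nat.mem_divisors]
    exact ⟨Nat.gcd_dvd_left _ _, hN.ne'⟩
  have hfib : ∀ d ∈ (M ^ 2).divisors,
      (S.filter fun x => Nat.gcd (M ^ 2) ((Y : ℤ) - x).natAbs = d).card ≤
        2 * Y / M ^ 2 + 1 := by
    intro d hd
    refine x0_class Y (M ^ 2) hN _ ?_ ?_
    · intro x hx
      rw [Finset.mem_filter, hS, Finset.mem_filter, Finset.mem_Icc] at hx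
      exact hx.1.1
    · intro x hx y hy
      rw [Finset.mem_filter, hS, Finset.mem_filter] at hx hy
      obtain ⟨⟨_, hx1⟩, hx2⟩ := hx
      obtain ⟨⟨_, hy1⟩, hy2⟩ := hy
      obtain ⟨cx, px⟩ := x0_gcd Y M hM hc x hx1
      obtain ⟨_, py⟩ := x0_gcd Y M hM hc y hy1
      rw [hx2] at cx px
      rw [hy2] at py
      have hd0 : 0 < d := Nat.pos_of_mem_divisors hd
      have h2 : Nat.gcd (M ^ 2) ((Y : ℤ) + y).natAbs = Nat.gcd (M ^ 2) ((Y : ℤ) + x).natAbs :=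
        Nat.eq_of_mul_eq_mul_left hd0 (py.trans px.symm)
      set d2 := Nat.gcd (M ^ 2) ((Y : ℤ) + x).natAbs with hd2
      have a1 : (d : ℤ) ∣ (Y : ℤ) - x := by
        rw [← Int.dvd_natAbs, ← hx2]; exact_mod_cast Nat.gcd_dvd_right _ _
      have a2 : (d : ℤ) ∣ (Y : ℤ) - y := by
        rw [← Int.dvd_natAbs, ← hy2]; exact_mod_cast Nat.gcd_dvd_right _ _
      have a3 : (d2 : ℤ) ∣ (Y : ℤ) + x := by
        rw [← Int.dvd_natAbs, hd2]; exact_mod_cast Nat.gcd_dvd_right _ _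
      have a4 : (d2 : ℤ) ∣ (Y : ℤ) + y := by
        rw [← Int.dvd_natAbs, ← h2]; exact_mod_cast Nat.gcd_dvd_right _ _
      have b1 : (d : ℤ) ∣ x - y := by
        have := dvd_sub a2 a1
        have e : (Y : ℤ) - y - (Y - x) = x - y := by ring
        rwa [e] at this
      have b2 : (d2 : ℤ) ∣ x - y := by
        have := dvd_sub a3 a4
        have e : (Y : ℤ) + x - (Y + y) = x - y := by ring
        rwa [e] at this
      have b3 : ((M ^ 2 : ℕ) : ℤ) = (d : ℤ) * d2 := by exact_mod_cast px.symm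
      rw [b3]
      exact IsCoprime.mul_dvd (Nat.isCoprime_iff_coprime.2 cx) b1 b2
  have h1 := Finset.card_le_mul_card_image_of_maps_to hmaps (2 * Y / M ^ 2 + 1) hfib
  have h2 : (S.card : ℝ) ≤ ((2 * Y / M ^ 2 + 1 : ℕ) : ℝ) * ((M ^ 2).divisors.card : ℝ) := by
    exact_mod_cast h1
  refine h2.trans ?_
  rw [mul_comm]
  refine mul_le_mul_of_nonneg_left ?_ (Nat.cast_nonneg _)
  push_cast
  have h3 : ((2 * Y / M ^ 2 : ℕ) : ℝ) ≤ ((2 * Y : ℕ) : ℝ) / ((M ^ 2 : ℕ) : ℝ) := Nat.cast_div_le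
  push_cast at h3
  linarith

end TauQ
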