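import Mathlib
import Pool.Agent.Work.MP_972ac7_al_tau.phase
import Pool.Agent.Work.MP_972ac7_al_tau.nearhom
import Pool.Agent.Work.MP_972ac7_al_tau.extract
import Pool.Agent.Work.MP_972ac7_al_tau.V
import Pool.Agent.Work.MP_972ac7_al_tau.X
import Pool.Agent.Work.MP_972ac7_al_tau.joint
import Pool.Agent.Work.MP_972ac7_al_tau.step1
import Pool.Agent.Work.MP_972ac7_al_tau.iter
import Pool.Agent.Work.MP_972ac7_al_tau.exists
import Pool.Agent.Work.MP_972ac7_al_tau.unique
import Pool.Agent.Work.MP_972ac7_al_tau.card
import Pool.Agent.Work.MP_972ac7_al_tau.vh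
import Pool.Agent.Work.MP_972ac7_al_tau.r2
import Pool.Agent.Work.MP_972ac7_al_tau.div
import Pool.Agent.Work.MP_972ac7_al_tau.r3
import Pool.Agent.Work.MP_972ac7_al_tau.x0
import Pool.Agent.Work.MP_972ac7_al_tau.count
import Pool.Agent.Work.MP_972ac7_al_tau.walk
import Pool.Agent.Work.MP_972ac7_al_tau.WW
import Pool.Agent.Work.MP_972ac7_al_tau.iso
import Pool.Agent.Work.MP_972ac7_al_tau.cardU
import Pool.Agent.Work.MP_972ac7_al_tau.DLa
import Pool.Agent.Work.MP_972ac7_al_tau.sq
import Pool.Agent.Work.MP_972ac7_al_tau.DL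
import Pool.Agent.Work.MP_972ac7_al_tau.TL
import Pool.Agent.Work.MP_972ac7_al_tau.SC
import Pool.Agent.Work.MP_972ac7_al_tau.gapS
import Pool.Agent.Work.MP_972ac7_al_tau.BT
import Pool.Agent.Work.MP_972ac7_al_tau.gen
import Pool.Agent.Work.MP_972ac7_al_tau.perf
import Pool.Agent.Work.MP_972ac7_al_tau.SA
import Pool.Agent.Work.MP_972ac7_al_tau.red
import Pool.Agent.Work.MP_972ac7_al_tau.hat
import Pool.Agent.Work.MP_972ac7_al_tau.link
import Pool.Agent.Work.MP_972ac7_al_tau.base
import Pool.Agent.Work.MP_972ac7_al_tau.final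
import Pool.Agent.Work.MP_972ac7_al_tau.main

namespace TauQ

theorem all_iter : Stmt_iter :=
  iter_proof (step1_proof extract_proof (V_proof phase_proof nearhom_proof) (X_proof phase_proof)
    joint_proof)

theorem all_card : Stmt_card := card_proof exists_proof unique_proof

theorem all_count : Stmt_count := count_proof (r3_proof r2_proof) x0_proof div_proof

theorem all_WW : Stmt_WW := WW_proof (walk_proof unique_proof all_card) all_count

theorem all_SC : Stmt_SC :=
  SC_proof (DL_proof DLa_proof sq_proof) iso_proof TL_proof (cardU_proof iso_proof)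

theorem all_main : Stmt_main :=
  main_proof all_card (vh_proof exists_proof unique_proof)
    (BT_proof all_SC gapS_proof all_WW div_proof all_card)
    (gen_proof all_SC all_WW all_card)
    (SA_proof exists_proof unique_proof iso_proof perf_proof)
    (link_proof (hat_proof exists_proof) red_proof) base_proof all_iter final_proof

end TauQ
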