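import Mathlib
import Pool.Agent.Work.MP_972ac7_al_tau.Interface

/-!
# Block N10 `DL`: dimension of representations of `SL2(Z/M)`
-/

open scoped Quaternion BigOperators
open Classical

namespace TauQ

/-- the group -/
abbrev DL_G (M : ℕ) : Type := Matrix.SpecialLinearGroup (Fin 2) (ZMod M)

/-- reduction -/
def DL_red {M M' : ℕ} (hd : M' ∣ M) : DL_G M →* DL_G M' :=
  Matrix.SpecialLinearGroup.map (ZMod.castHom hd (ZMod M'))

lemma DL_red_apply {M M' : ℕ} (hd : M' ∣ M) (g : DL_G M) (i j : Fin 2) :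
    (DL_red hd g : Matrix (Fin 2) (Fin 2) (ZMod M')) i j =
      ZMod.castHom hd (ZMod M') ((g : Matrix (Fin 2) (Fin 2) (ZMod M)) i j) := rfl

/-- the congruence condition -/
def DL_K (M M' : ℕ) (g : DL_G M) : Prop :=
  ∃ y : Matrix (Fin 2) (Fin 2) (ZMod M), (g : Matrix (Fin 2) (Fin 2) (ZMod M)) =
    1 + (M' : Matrix (Fin 2) (Fin 2) (ZMod M)) * y

lemma DL_cast_zero {M M' : ℕ} (hd : M' ∣ M) [NeZero M] (x : ZMod M)
    (h : ZMod.castHom hd (ZMod M') x = 0) : ∃ y, x = M' * y := by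
  have h1 : x = (x.val : ZMod M) := (ZMod.natCast_zmod_val x).symm
  rw [h1, map_natCast, ZMod.natCast_eq_zero_iff] at h
  obtain ⟨k, hk⟩ := h
  refine ⟨(k : ZMod M), ?_⟩
  rw [h1, hk, Nat.cast_mul]

lemma DL_natCast_mul {M : ℕ} (k : ℕ) (y : Matrix (Fin 2) (Fin 2) (ZMod M)) (i j : Fin 2) :
    ((k : Matrix (Fin 2) (Fin 2) (ZMod M)) * y) i j = (k : ZMod M) * y i j := by
  rw [← nsmul_eq_mul, Matrix.smul_apply, nsmul_eq_mul]

lemma DL_K_iff {M M' : ℕ} (hd : M' ∣ M) [NeZero M] (g : DL_G M) :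
    DL_K M M' g ↔ DL_red hd g = 1 := by
  constructor
  · rintro ⟨y, hy⟩
    apply Subtype.ext
    ext i j
    rw [DL_red_apply, hy, Matrix.add_apply, DL_natCast_mul, map_add, map_mul, map_natCast,
      ZMod.natCast_self, zero_mul, add_zero]
    by_cases hij : i = j
    · rw [hij, Matrix.one_apply_eq, map_one]
      exact (Matrix.one_apply_eq j).symm
    · rw [Matrix.one_apply_ne hij, map_zero]
      exact (Matrix.one_apply_ne hij).symm
  · intro h
    have h1 : ∀ i j, ∃ y : ZMod M,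
        ((g : Matrix (Fin 2) (Fin 2) (ZMod M)) - 1) i j = M' * y := by
      intro i j
      apply DL_cast_zero hd
      rw [Matrix.sub_apply, map_sub, ← DL_red_apply, h]
      by_cases hij : i = j
      · rw [hij, Matrix.one_apply_eq, map_one, Matrix.SpecialLinearGroup.coe_one,
          Matrix.one_apply_eq, sub_self]
      · rw [Matrix.one_apply_ne hij, map_zero, Matrix.SpecialLinearGroup.coe_one,
          Matrix.one_apply_ne hij, sub_self]
    choose y hy using h1
    refine ⟨Matrix.of y, ?_⟩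
    ext i j
    rw [Matrix.add_apply, DL_natCast_mul, Matrix.of_apply, ← hy, Matrix.sub_apply]
    ring

lemma DL_red_UU {M M' : ℕ} (hd : M' ∣ M) (t : ZMod M) :
    DL_red hd (UU t) = UU (ZMod.castHom hd (ZMod M') t) := by
  apply Subtype.ext
  ext i j
  rw [DL_red_apply]
  fin_cases i <;> fin_cases j <;> simp [UU, ZMod.cast_one hd]

lemma DL_red_LL {M M' : ℕ} (hd : M' ∣ M) (t : ZMod M) :
    DL_red hd (LL t) = LL (ZMod.castHom hd (ZMod M') t) := by
  apply Subtype.ext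
  ext i j
  rw [DL_red_apply]
  fin_cases i <;> fin_cases j <;> simp [LL, ZMod.cast_one hd]

lemma DL_UU_mul {M : ℕ} (s t : ZMod M) : UU s * UU t = UU (s + t) := by
  apply Subtype.ext
  simp only [Matrix.SpecialLinearGroup.coe_mul, UU]
  rw [Matrix.mul_fin_two]
  ext i j
  fin_cases i <;> fin_cases j <;> simp [add_comm]

lemma DL_UU_zero {M : ℕ} : UU (0 : ZMod M) = 1 := by
  apply Subtype.ext
  ext i j
  fin_cases i <;> fin_cases j <;> simp [UU]

lemma DL_UU_pow {M : ℕ} (t : ZMod M) (n : ℕ) : UU t ^ n = UU ((n : ZMod M) * t) := by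
  induction n with
  | zero => rw [pow_zero, Nat.cast_zero, zero_mul, DL_UU_zero]
  | succ n ih =>
    rw [pow_succ, ih, DL_UU_mul]
    have h : (n : ZMod M) * t + t = ((n + 1 : ℕ) : ZMod M) * t := by
      push_cast
      ring
    rw [h]

lemma DL_UU_comm {M : ℕ} (s t : ZMod M) : UU s * UU t = UU t * UU s := by
  rw [DL_UU_mul, DL_UU_mul, add_comm]

lemma DL_LL_UU_comm {M : ℕ} (s t : ZMod M) (h : s * t = 0) : LL s * UU t = UU t * LL s := by
  have h' : t * s = 0 := by rw [mul_comm, h]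
  apply Subtype.ext
  simp only [Matrix.SpecialLinearGroup.coe_mul, UU, LL]
  rw [Matrix.mul_fin_two, Matrix.mul_fin_two]
  ext i j
  fin_cases i <;> fin_cases j <;> simp [h, h']

lemma DL_inv_comm {M : ℕ} (a ai t : ZMod M) (h : a * ai = 1) :
    ∃ δ : DL_G M, UU t * δ = δ * UU (ai ^ 2 * t) := by
  refine ⟨⟨!![a, 0; 0, ai], by rw [Matrix.det_fin_two_of]; simpa using h⟩, ?_⟩
  apply Subtype.ext
  simp only [Matrix.SpecialLinearGroup.coe_mul, UU]
  rw [Matrix.mul_fin_two, Matrix.mul_fin_two]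
  ext i j
  fin_cases i <;> fin_cases j <;> simp
  have : a * (ai ^ 2 * t) = (a * ai) * (ai * t) := by ring
  rw [this, h]
  ring

section rep

variable {M M' : ℕ} (hd : M' ∣ M) [Fintype (DL_G M)] {V : Type} [AddCommGroup V] [Module ℂ V]
  (ρ : DL_G M →* (V →ₗ[ℂ] V))

/-- the vectors fixed by the congruence kernel -/
def DL_W : Submodule ℂ V where
  carrier := {v | ∀ g : DL_G M, DL_red hd g = 1 → ρ g v = v}
  add_mem' := by
    intro a b ha hb g hg
    rw [map_add, ha g hg, hb g hg]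
  zero_mem' := by
    intro g _
    rw [map_zero]
  smul_mem' := by
    intro c a ha g hg
    rw [map_smul, ha g hg]

omit [Fintype (DL_G M)] in
lemma DL_mem_W (v : V) : v ∈ DL_W hd ρ ↔ ∀ g : DL_G M, DL_red hd g = 1 → ρ g v = v := Iff.rfl

omit [Fintype (DL_G M)] in
lemma DL_mul (g h : DL_G M) (v : V) : ρ (g * h) v = ρ g (ρ h v) := by
  rw [map_mul]
  rfl

omit [Fintype (DL_G M)] in
lemma DL_one (v : V) : ρ 1 v = v := by
  rw [map_one]
  rfl

omit [Fintype (DL_G M)] in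
lemma DL_W_stable (x : DL_G M) (v : V) (hv : v ∈ DL_W hd ρ) : ρ x v ∈ DL_W hd ρ := by
  intro g hg
  have h1 : DL_red hd (x⁻¹ * g * x) = 1 := by
    rw [map_mul, map_mul, hg, mul_one, ← map_mul, inv_mul_cancel, map_one]
  rw [← DL_mul]
  have h2 : g * x = x * (x⁻¹ * g * x) := by group
  rw [h2, DL_mul, hv _ h1]

/-- the part with zero average -/
def DL_V : Submodule ℂ V where
  carrier := {v | v ∈ DL_W hd ρ ∧ ∑ g, ρ g v = 0}
  add_mem' := by
    intro a b ha hb
    refine ⟨Submodule.add_mem _ ha.1 hb.1, ?_⟩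
    simp only [map_add, Finset.sum_add_distrib, ha.2, hb.2, add_zero]
  zero_mem' := by
    refine ⟨Submodule.zero_mem _, ?_⟩
    simp
  smul_mem' := by
    intro c a ha
    refine ⟨Submodule.smul_mem _ _ ha.1, ?_⟩
    simp only [map_smul, ← Finset.smul_sum, ha.2, smul_zero]

lemma DL_V_stable (x : DL_G M) (v : V) (hv : v ∈ DL_V hd ρ) : ρ x v ∈ DL_V hd ρ := by
  refine ⟨DL_W_stable hd ρ x v hv.1, ?_⟩
  have h1 : ∑ g, ρ g (ρ x v) = ∑ g, ρ g v := by
    have h2 : ∀ g, ρ g (ρ x v) = ρ (g * x) v := fun g => (DL_mul ρ g x v).symm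
    rw [Finset.sum_congr rfl (fun g _ => h2 g)]
    exact Equiv.sum_comp (Equiv.mulRight x) (fun g => ρ g v)
  rw [h1]
  exact hv.2

/-- vectors whose `UU(M'/l)`-averages vanish for `l ∈ T` -/
def DL_T (T : Finset ℕ) : Submodule ℂ V where
  carrier := {v | v ∈ DL_V hd ρ ∧
    ∀ l ∈ T, ∑ i ∈ Finset.range l, ρ (UU (((M' / l : ℕ) : ZMod M)) ^ i) v = 0}
  add_mem' := by
    intro a b ha hb
    refine ⟨Submodule.add_mem _ ha.1 hb.1, ?_⟩
    intro l hl
    simp only [map_add, Finset.sum_add_distrib, ha.2 l hl, hb.2 l hl, add_zero]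
  zero_mem' := by
    refine ⟨Submodule.zero_mem _, ?_⟩
    intro l _
    simp
  smul_mem' := by
    intro c a ha
    refine ⟨Submodule.smul_mem _ _ ha.1, ?_⟩
    intro l hl
    simp only [map_smul, ← Finset.smul_sum, ha.2 l hl, smul_zero]

/-- stability under elements which commute with the `UU(M'/l)` modulo `M'` -/
lemma DL_T_stable (T : Finset ℕ) (x : DL_G M)
    (hx : ∀ l ∈ T, DL_red hd x * DL_red hd (UU (((M' / l : ℕ) : ZMod M))) =
      DL_red hd (UU (((M' / l : ℕ) : ZMod M))) * DL_red hd x)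
    (v : V) (hv : v ∈ DL_T hd ρ T) : ρ x v ∈ DL_T hd ρ T := by
  refine ⟨DL_V_stable hd ρ x v hv.1, ?_⟩
  intro l hl
  have h1 : ∀ i, ρ (UU (((M' / l : ℕ) : ZMod M)) ^ i) (ρ x v) =
      ρ x (ρ (UU (((M' / l : ℕ) : ZMod M)) ^ i) v) := by
    intro i
    rw [← DL_mul, ← DL_mul]
    set u := UU (((M' / l : ℕ) : ZMod M)) ^ i with hu
    have h2 : u * x = (x * u) * ((x * u)⁻¹ * (u * x)) := by group
    have h3 : DL_red hd ((x * u)⁻¹ * (u * x)) = 1 := by
      rw [map_mul, map_inv, map_mul, map_mul, inv_mul_eq_one, hu, map_pow]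
      exact (Commute.pow_right (hx l hl) i).eq
    rw [h2, DL_mul, hv.1.1 _ h3]
  rw [Finset.sum_congr rfl (fun i _ => h1 i), ← map_sum, hv.2 l hl, map_zero]

/-- the step of the induction over the primes -/
lemma DL_step [NeZero M] (hDLa : Stmt_DLa) (hodd : Odd M) (T : Finset ℕ)
    (hT : ∀ l ∈ T, l.Prime ∧ l ∣ M') (l : ℕ) (hl : l.Prime) (hlM : l ∣ M') (hlT : l ∉ T)
    (hmin : ∀ v : V, (∀ g : DL_G M, DL_K M (M' / l) g → ρ g v = v) → ∀ g : DL_G M, ρ g v = v)
    (hne : ∃ v ∈ DL_T hd ρ T, v ≠ 0) : ∃ v ∈ DL_T hd ρ (insert l T), v ≠ 0 := by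
  have hM0 : M ≠ 0 := NeZero.ne M
  have hM'0 : M' ≠ 0 := fun h => hM0 (by rw [h] at hd; exact zero_dvd_iff.1 hd)
  -- `M' = l^k e`
  obtain ⟨k, e, hle, hke⟩ := Nat.exists_eq_pow_mul_and_not_dvd hM'0 l hl.ne_one
  have hcop : Nat.Coprime l e := (Nat.Prime.coprime_iff_not_dvd hl).2 hle
  have hk0 : 0 < k := by
    rcases Nat.eq_zero_or_pos k with hk | hk
    · rw [hk, pow_zero, one_mul] at hke
      exact absurd (hke ▸ hlM) hle
    · exact hk
  by_cases hfix : ∀ v ∈ DL_T hd ρ T, ρ (UU (((M' / l : ℕ) : ZMod M))) v = v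
  · exfalso
    obtain ⟨v, hv, hv0⟩ := hne
    -- elements of `EE M e` preserve `DL_T`
    have hEE : ∀ x ∈ EE M e, ∀ w ∈ DL_T hd ρ T, ρ x w ∈ DL_T hd ρ T := by
      intro x hx w hw
      apply DL_T_stable hd ρ T x _ w hw
      intro l' hl'
      obtain ⟨hp', hd'⟩ := hT l' hl'
      have hll : l ≠ l' := fun h => hlT (h ▸ hl')
      have hzero : (((e * (M' / l') : ℕ)) : ZMod M') = 0 := by
        rw [ZMod.natCast_eq_zero_iff]
        have h1 : l ^ k ∣ M' / l' := by
          have h2 : l ^ k ∣ l' * (M' / l') := by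
            rw [Nat.mul_div_cancel' hd', hke]
            exact dvd_mul_right _ _
          exact (Nat.Coprime.dvd_of_dvd_mul_left
            (Nat.Coprime.pow_left k ((Nat.coprime_primes hl hp').2 hll)) h2)
        have h3 := Nat.mul_dvd_mul_right h1 e
        rw [← hke] at h3
        rw [mul_comm e]
        exact h3
      have hcl : x ∈ Subgroup.comap (DL_red hd)
          (Subgroup.centralizer {DL_red hd (UU (((M' / l' : ℕ) : ZMod M)))}) := by
        refine (Subgroup.closure_le _).2 ?_ hx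
        rintro g ⟨t, rfl | rfl⟩
        · rw [SetLike.mem_coe, Subgroup.mem_comap, Subgroup.mem_centralizer_singleton_iff,
            ← map_mul, ← map_mul, DL_UU_comm]
        · rw [SetLike.mem_coe, Subgroup.mem_comap, Subgroup.mem_centralizer_singleton_iff,
            DL_red_UU, DL_red_LL]
          apply DL_LL_UU_comm
          rw [map_mul, map_natCast, map_natCast]
          have : (e : ZMod M') * ZMod.castHom hd (ZMod M') t * ((M' / l' : ℕ) : ZMod M') =
              (((e * (M' / l') : ℕ)) : ZMod M') * ZMod.castHom hd (ZMod M') t := by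
            push_cast
            ring
          rw [this, hzero, zero_mul]
      rw [Subgroup.mem_comap, Subgroup.mem_centralizer_singleton_iff] at hcl
      exact hcl
    -- the subgroup acting trivially
    obtain ⟨H, hH⟩ : ∃ H : Subgroup (DL_G M), ∀ g, g ∈ H ↔ ∀ w ∈ DL_T hd ρ T, ρ g w = w := by
      refine ⟨{ carrier := {g | ∀ w ∈ DL_T hd ρ T, ρ g w = w}
                mul_mem' := ?_, one_mem' := ?_, inv_mem' := ?_ }, fun g => Iff.rfl⟩
      · intro a b ha hb w hw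
        rw [DL_mul, hb w hw, ha w hw]
      · intro w _
        exact DL_one ρ w
      · intro a ha w hw
        have h1 := ha w hw
        calc ρ a⁻¹ w = ρ a⁻¹ (ρ a w) := by rw [h1]
          _ = w := by rw [← DL_mul, inv_mul_cancel, DL_one]
    have hker : ∀ g, DL_red hd g = 1 → g ∈ H := by
      intro g hg
      rw [hH]
      intro w hw
      exact hw.1.1 g hg
    have hconj : ∀ x ∈ EE M e, x * UU (((M' / l : ℕ) : ZMod M)) * x⁻¹ ∈ H := by
      intro x hx
      rw [hH]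
      intro w hw
      have h1 : ρ x⁻¹ w ∈ DL_T hd ρ T := hEE _ (inv_mem hx) w hw
      rw [DL_mul, DL_mul, hfix _ h1, ← DL_mul, mul_inv_cancel, DL_one]
    have hEEmap : EE M' e ≤ (EE M e).map (DL_red hd) := by
      unfold EE
      rw [Subgroup.closure_le]
      rintro g ⟨t, ht⟩
      obtain ⟨t', rfl⟩ := ZMod.castHom_surjective hd t
      rcases ht with rfl | rfl
      · refine ⟨UU ((e : ZMod M) * t'), Subgroup.subset_closure ⟨t', Or.inl rfl⟩, ?_⟩
        rw [DL_red_UU, map_mul, map_natCast]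
      · refine ⟨LL ((e : ZMod M) * t'), Subgroup.subset_closure ⟨t', Or.inr rfl⟩, ?_⟩
        rw [DL_red_LL, map_mul, map_natCast]
    have hclos : Subgroup.closure
        {z | ∃ x ∈ EE M' e, z = x * UU (((M' / l : ℕ) : ZMod M')) * x⁻¹} ≤
        H.map (DL_red hd) := by
      rw [Subgroup.closure_le]
      rintro z ⟨x, hx, rfl⟩
      obtain ⟨x', hx', rfl⟩ := hEEmap hx
      refine ⟨x' * UU (((M' / l : ℕ) : ZMod M)) * x'⁻¹, hconj x' hx', ?_⟩
      rw [map_mul, map_mul, map_inv, DL_red_UU, map_natCast]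
    have hodd' : Odd M' := by
      rw [Nat.odd_iff] at hodd ⊢
      rcases Nat.even_or_odd M' with h | h
      · exfalso
        have h2 : 2 ∣ M := (even_iff_two_dvd.1 h).trans hd
        omega
      · exact Nat.odd_iff.1 h
    have hall : ∀ g : DL_G M, DL_K M (M' / l) g → g ∈ H := by
      rintro g ⟨y, hy⟩
      have h1 := hDLa M' l k e hodd' hl hk0 hke hcop (DL_red hd g)
        ⟨(ZMod.castHom hd (ZMod M')).mapMatrix y, by
          ext i j
          rw [DL_red_apply, hy, Matrix.add_apply, Matrix.add_apply, DL_natCast_mul,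
            DL_natCast_mul, map_add, map_mul, map_natCast]
          have h3 : ZMod.castHom hd (ZMod M') ((1 : Matrix (Fin 2) (Fin 2) (ZMod M)) i j) =
              (1 : Matrix (Fin 2) (Fin 2) (ZMod M')) i j := by
            by_cases hij : i = j
            · rw [hij, Matrix.one_apply_eq, Matrix.one_apply_eq, map_one]
            · rw [Matrix.one_apply_ne hij, Matrix.one_apply_ne hij, map_zero]
          rw [h3]
          rfl⟩
      obtain ⟨h, hhH, hh⟩ := hclos h1
      have h2 : g = h * (h⁻¹ * g) := by group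
      rw [h2]
      apply mul_mem hhH
      apply hker
      rw [map_mul, map_inv, hh, inv_mul_cancel]
    have hvfix : ∀ g : DL_G M, ρ g v = v := hmin v fun g hg => (hH g).1 (hall g hg) v hv
    apply hv0
    have hsum := hv.1.2
    rw [Finset.sum_congr rfl (fun g _ => hvfix g), Finset.sum_const, Finset.card_univ,
      ← Nat.cast_smul_eq_nsmul ℂ] at hsum
    rcases smul_eq_zero.1 hsum with h | h
    · exfalso
      rw [Nat.cast_eq_zero] at h
      exact Fintype.card_ne_zero h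
    · exact h
  · push Not at hfix
    obtain ⟨v, hv, hv1⟩ := hfix
    have hUst : ρ (UU (((M' / l : ℕ) : ZMod M))) v ∈ DL_T hd ρ T := by
      apply DL_T_stable hd ρ T _ _ v hv
      intro l' _
      rw [← map_mul, ← map_mul, DL_UU_comm]
    refine ⟨ρ (UU (((M' / l : ℕ) : ZMod M))) v - v, ?_, sub_ne_zero.2 hv1⟩
    have hmem := Submodule.sub_mem _ hUst hv
    refine ⟨hmem.1, ?_⟩
    intro l' hl'
    rw [Finset.mem_insert] at hl'
    rcases hl' with rfl | hl'
    · have h1 : ∀ i, ρ (UU (((M' / l' : ℕ) : ZMod M)) ^ i)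
          (ρ (UU (((M' / l' : ℕ) : ZMod M))) v - v) =
          ρ (UU (((M' / l' : ℕ) : ZMod M)) ^ (i + 1)) v -
            ρ (UU (((M' / l' : ℕ) : ZMod M)) ^ i) v := by
        intro i
        rw [map_sub, ← DL_mul, ← pow_succ]
      rw [Finset.sum_congr rfl (fun i _ => h1 i), Finset.sum_range_sub
        (fun i => ρ (UU (((M' / l' : ℕ) : ZMod M)) ^ i) v), pow_zero, DL_one]
      have h2 : DL_red hd (UU (((M' / l' : ℕ) : ZMod M)) ^ l') = 1 := by
        rw [DL_UU_pow, DL_red_UU, map_mul, map_natCast, map_natCast, ← Nat.cast_mul,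
          Nat.mul_div_cancel' hlM, ZMod.natCast_self, DL_UU_zero]
      rw [hv.1.1 _ h2, sub_self]
    · exact hmem.2 l' hl'

end rep

lemma DL_pow_inj {ζ : ℂ} {N : ℕ} (hN : N ≠ 0) (hζ : orderOf ζ = N) (a b : ℕ) :
    ζ ^ a = ζ ^ b ↔ a ≡ b [MOD N] := by
  have h : IsOfFinOrder ζ := orderOf_pos_iff.1 (by rw [hζ]; exact Nat.pos_of_ne_zero hN)
  rw [h.pow_eq_pow_iff_modEq, hζ]

/-- the count of the eigenvalues -/
lemma DL_count {M M' : ℕ} (hd : M' ∣ M) [NeZero M] [Fintype (DL_G M)] {V : Type}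
    [AddCommGroup V] [Module ℂ V] [FiniteDimensional ℂ V] (ρ : DL_G M →* (V →ₗ[ℂ] V))
    (v : V) (hv : v ∈ DL_W hd ρ) (hv0 : v ≠ 0) (ζ : ℂ) (hζ : orderOf ζ = M')
    (he : ρ (UU 1) v = ζ • v) :
    Nat.card (Set.range fun u : (ZMod M')ˣ => u ^ 2) ≤ Module.finrank ℂ (DL_W hd ρ) := by
  have hM'0 : M' ≠ 0 := fun h => NeZero.ne M (by rw [h] at hd; exact zero_dvd_iff.1 hd)
  have : NeZero M' := ⟨hM'0⟩
  -- the action of `UU t` on `v`
  have hUt : ∀ n : ℕ, ρ (UU (n : ZMod M)) v = ζ ^ n • v := by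
    intro n
    induction n with
    | zero => rw [Nat.cast_zero, DL_UU_zero, DL_one, pow_zero, one_smul]
    | succ n ih =>
      rw [Nat.cast_succ, ← DL_UU_mul, DL_mul, he, map_smul, ih, smul_smul, pow_succ, mul_comm]
  obtain ⟨Q, hQ⟩ : ∃ Q : Set ((ZMod M')ˣ), Q = Set.range fun u : (ZMod M')ˣ => u ^ 2 := ⟨_, rfl⟩
  -- for every square an eigenvector
  have hex : ∀ q : Q, ∃ w : DL_W hd ρ, (w : V) ≠ 0 ∧
      ρ (UU 1) (w : V) = ζ ^ ((q : (ZMod M')ˣ) : ZMod M').val • (w : V) := by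
    rintro ⟨q, hq⟩
    rw [hQ] at hq
    obtain ⟨u, hu⟩ := hq
    simp only at hu
    obtain ⟨a, ha⟩ := ZMod.unitsMap_surjective hd u
    have haa : ((a⁻¹ : (ZMod M)ˣ) : ZMod M) * (a : ZMod M) = 1 := by
      rw [← Units.val_mul, inv_mul_cancel, Units.val_one]
    obtain ⟨δ, hδ⟩ := DL_inv_comm ((a⁻¹ : (ZMod M)ˣ) : ZMod M) (a : ZMod M) 1 haa
    rw [mul_one] at hδ
    refine ⟨⟨ρ δ v, DL_W_stable hd ρ δ v hv⟩, ?_, ?_⟩
    · intro h
      apply hv0
      have h1 : ρ δ⁻¹ (ρ δ v) = 0 := by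
        show ρ δ⁻¹ (ρ δ v) = 0
        have h2 : ρ δ v = 0 := h
        rw [h2, map_zero]
      rw [← DL_mul, inv_mul_cancel, DL_one] at h1
      exact h1
    · show ρ (UU 1) (ρ δ v) = ζ ^ ((q : (ZMod M')ˣ) : ZMod M').val • ρ δ v
      rw [← DL_mul, hδ, DL_mul]
      have h1 : (a : ZMod M) ^ 2 = ((((a : ZMod M) ^ 2).val : ℕ) : ZMod M) :=
        (ZMod.natCast_zmod_val _).symm
      rw [h1, hUt, map_smul]
      congr 1
      rw [DL_pow_inj hM'0 hζ, ← ZMod.natCast_eq_natCast_iff, ZMod.natCast_zmod_val]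
      have h2 : ((((a : ZMod M) ^ 2).val : ℕ) : ZMod M') =
          ZMod.castHom hd (ZMod M') ((a : ZMod M) ^ 2) := by
        conv_rhs => rw [h1]
        rw [map_natCast]
      rw [h2, map_pow]
      have h3 : ZMod.castHom hd (ZMod M') (a : ZMod M) = (u : ZMod M') := by
        rw [← ha]
        rfl
      rw [h3, ← Units.val_pow_eq_pow_val, hu]
  choose w hw0 hw1 using hex
  have hinj : Function.Injective
      (fun q : Q => ζ ^ ((q : (ZMod M')ˣ) : ZMod M').val) := by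
    intro q q' h
    simp only at h
    rw [DL_pow_inj hM'0 hζ, ← ZMod.natCast_eq_natCast_iff, ZMod.natCast_zmod_val,
      ZMod.natCast_zmod_val] at h
    exact Subtype.ext (Units.ext h)
  have hlin : LinearIndependent ℂ (fun q : Q => (w q : V)) :=
    Module.End.eigenvectors_linearIndependent' (ρ (UU 1)) _ hinj _
      (fun q => ⟨Module.End.mem_eigenspace_iff.2 (hw1 q), hw0 q⟩)
  have hlin2 : LinearIndependent ℂ w := LinearIndependent.of_comp (DL_W hd ρ).subtype hlin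
  rw [← hQ, Nat.card_eq_fintype_card]
  exact hlin2.fintype_card_le_finrank

theorem DL_proof (hDLa : Stmt_DLa) (hsq : Stmt_sq) : Stmt_DL := by
  intro M hodd V _ _ _ ρ hnt
  have hM0 : M ≠ 0 := fun h => by rw [h] at hodd; exact absurd hodd (by decide)
  have : NeZero M := ⟨hM0⟩
  have : Fintype (DL_G M) := Fintype.ofFinite _
  -- the minimal level
  have hP : ∃ M', M' ∣ M ∧ ∃ v : V, (∀ g : DL_G M, DL_K M M' g → ρ g v = v) ∧
      ∃ g, ρ g v ≠ v := by
    obtain ⟨g, v, hgv⟩ := hnt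
    refine ⟨M, dvd_rfl, v, ?_, g, hgv⟩
    intro h hh
    rw [DL_K_iff dvd_rfl] at hh
    have : h = 1 := by
      apply Subtype.ext
      ext i j
      have h1 := congrArg (fun z : DL_G M => (z : Matrix (Fin 2) (Fin 2) (ZMod M)) i j) hh
      simp only [DL_red_apply] at h1
      have h2 : ZMod.castHom (dvd_refl M) (ZMod M) ((h : Matrix (Fin 2) (Fin 2) (ZMod M)) i j) =
          (h : Matrix (Fin 2) (Fin 2) (ZMod M)) i j := by
        rw [ZMod.castHom_self]
        rfl
      rw [h2] at h1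
      exact h1
    rw [this, DL_one]
  obtain ⟨M', ⟨hd, v0, hv0, x0, hx0⟩, hmin⟩ : ∃ M', (M' ∣ M ∧ ∃ v : V,
      (∀ g : DL_G M, DL_K M M' g → ρ g v = v) ∧ ∃ g, ρ g v ≠ v) ∧
      ∀ M'' < M', ¬ (M'' ∣ M ∧ ∃ v : V, (∀ g : DL_G M, DL_K M M'' g → ρ g v = v) ∧
        ∃ g, ρ g v ≠ v) := ⟨Nat.find hP, Nat.find_spec hP, fun M'' h => Nat.find_min hP h⟩
  have hM'0 : M' ≠ 0 := fun h => hM0 (by rw [h] at hd; exact zero_dvd_iff.1 hd)
  have hM'1 : 1 < M' := by
    rcases Nat.lt_or_ge 1 M' with h | h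
    · exact h
    · exfalso
      have h1 : M' = 1 := by omega
      apply hx0
      apply hv0
      rw [h1]
      refine ⟨(x0 : Matrix (Fin 2) (Fin 2) (ZMod M)) - 1, ?_⟩
      rw [Nat.cast_one, one_mul, add_sub_cancel]
  have hmin' : ∀ l : ℕ, l.Prime → l ∣ M' →
      ∀ v : V, (∀ g : DL_G M, DL_K M (M' / l) g → ρ g v = v) → ∀ g : DL_G M, ρ g v = v := by
    intro l hl hlM v hv g
    by_contra hcon
    exact hmin (M' / l) (Nat.div_lt_self (Nat.pos_of_ne_zero hM'0) hl.one_lt)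
      ⟨(Nat.div_dvd_of_dvd hlM).trans hd, v, hv, g, hcon⟩
  have hv0W : v0 ∈ DL_W hd ρ := fun g hg => hv0 g ((DL_K_iff hd g).2 hg)
  -- induction over the primes of `M'`
  have hind : ∀ T : Finset ℕ, (∀ l ∈ T, l.Prime ∧ l ∣ M') → ∃ v ∈ DL_T hd ρ T, v ≠ 0 := by
    intro T
    induction T using Finset.induction_on with
    | empty =>
      intro _
      refine ⟨ρ x0 v0 - v0, ⟨⟨Submodule.sub_mem _ (DL_W_stable hd ρ x0 v0 hv0W) hv0W, ?_⟩,
        by simp⟩, sub_ne_zero.2 hx0⟩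
      simp only [map_sub, Finset.sum_sub_distrib]
      have h1 : ∑ g, ρ g (ρ x0 v0) = ∑ g, ρ g v0 := by
        have h2 : ∀ g, ρ g (ρ x0 v0) = ρ (g * x0) v0 := fun g => (DL_mul ρ g x0 v0).symm
        rw [Finset.sum_congr rfl (fun g _ => h2 g)]
        exact Equiv.sum_comp (Equiv.mulRight x0) (fun g => ρ g v0)
      rw [h1, sub_self]
    | insert l T hlT ih =>
      intro hT
      have hl := hT l (Finset.mem_insert_self l T)
      have hT' : ∀ l' ∈ T, l'.Prime ∧ l' ∣ M' := fun l' h => hT l' (Finset.mem_insert_of_mem h)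
      exact DL_step hd ρ hDLa hodd T hT' l hl.1 hl.2 hlT (hmin' l hl.1 hl.2) (ih hT')
  obtain ⟨v1, hv1, hv1n⟩ := hind M'.primeFactors
    (fun l hl => ⟨Nat.prime_of_mem_primeFactors hl, Nat.dvd_of_mem_primeFactors hl⟩)
  -- an eigenvector of `UU 1`
  have hst : ∀ v ∈ DL_T hd ρ M'.primeFactors, ρ (UU 1) v ∈ DL_T hd ρ M'.primeFactors := by
    intro v hv
    apply DL_T_stable hd ρ _ _ _ v hv
    intro l _
    rw [← map_mul, ← map_mul, DL_UU_comm]
  obtain ⟨f, hf⟩ : ∃ f : Module.End ℂ (DL_T hd ρ M'.primeFactors),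
      ∀ z, ((f z : DL_T hd ρ M'.primeFactors) : V) = ρ (UU 1) (z : V) :=
    ⟨(ρ (UU 1)).restrict hst, fun z => rfl⟩
  have : Nontrivial (DL_T hd ρ M'.primeFactors) :=
    ⟨⟨v1, hv1⟩, 0, fun h => hv1n (congrArg Subtype.val h)⟩
  obtain ⟨ζ, hζ⟩ := Module.End.exists_eigenvalue f
  obtain ⟨w, hw⟩ := hζ.exists_hasEigenvector
  have hw0 : (w : V) ≠ 0 := fun h => hw.2 (Subtype.ext h)
  have hwe : ρ (UU 1) (w : V) = ζ • (w : V) := by
    rw [← hf, hw.apply_eq_smul]
    rfl
  have hUt : ∀ n : ℕ, ρ (UU (n : ZMod M)) (w : V) = ζ ^ n • (w : V) := by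
    intro n
    induction n with
    | zero => rw [Nat.cast_zero, DL_UU_zero, DL_one, pow_zero, one_smul]
    | succ n ih =>
      rw [Nat.cast_succ, ← DL_UU_mul, DL_mul, hwe, map_smul, ih, smul_smul, pow_succ, mul_comm]
  have hord : orderOf ζ = M' := by
    apply orderOf_eq_of_pow_and_pow_div_prime (Nat.pos_of_ne_zero hM'0)
    · have h1 : DL_red hd (UU ((M' : ℕ) : ZMod M)) = 1 := by
        rw [DL_red_UU, map_natCast, ZMod.natCast_self, DL_UU_zero]
      have h2 := w.2.1.1 _ h1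
      rw [hUt] at h2
      have h3 : (ζ ^ M' - 1) • (w : V) = 0 := by rw [sub_smul, h2, one_smul, sub_self]
      rcases smul_eq_zero.1 h3 with h | h
      · exact sub_eq_zero.1 h
      · exact absurd h hw0
    · intro l hl hlM hcon
      have h1 := w.2.2 l (Nat.mem_primeFactors.2 ⟨hl, hlM, hM'0⟩)
      have h2 : ∀ i ∈ Finset.range l, ρ (UU (((M' / l : ℕ) : ZMod M)) ^ i) (w : V) = (w : V) := by
        intro i _
        rw [DL_UU_pow, ← Nat.cast_mul, hUt, mul_comm, pow_mul, hcon, one_pow, one_smul]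
      rw [Finset.sum_congr rfl h2, Finset.sum_const, Finset.card_range,
        ← Nat.cast_smul_eq_nsmul ℂ] at h1
      rcases smul_eq_zero.1 h1 with h | h
      · rw [Nat.cast_eq_zero] at h
        exact hl.ne_zero h
      · exact hw0 h
  have hcount := DL_count hd ρ (w : V) w.2.1.1 hw0 ζ hord hwe
  have hodd' : Odd M' := by
    rcases Nat.even_or_odd M' with h | h
    · exfalso
      have h2 : 2 ∣ M := (even_iff_two_dvd.1 h).trans hd
      rw [Nat.odd_iff] at hodd
      omega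
    · exact h
  refine ⟨M', hd, hM'1, DL_W hd ρ, ?_, ?_⟩
  · rintro w' hw' g ⟨y, hy⟩
    exact hw' g ((DL_K_iff hd g).1 ⟨y, hy⟩)
  · calc M'.totient ≤ _ := hsq M' hodd'
      _ ≤ _ := Nat.mul_le_mul_left _ hcount

end TauQ
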