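import Mathlib
import Pool.Agent.Work.MP_972ac7_al_tau.All

/-!
# Final form (MP_972ac7_al)
-/

open scoped Quaternion BigOperators

namespace TauQ

/-- Every unit vector `v` of zero sum on the finite group `G ⧸ N` satisfies `‖s v - v‖² ≥ ε` for some
`s` in `QQ`, where `(s v) x = v (s⁻¹ x)`. -/
def MovesUnitVectors {G : Type} [Group G] (QQ : Set G) (N : Subgroup G) [N.Normal] (ε : ℝ) : Prop :=
  ∀ [Fintype (G ⧸ N)] (v : G ⧸ N → ℂ), ∑ x, v x = 0 → ∑ x, ‖v x‖ ^ 2 = 1 →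
    ∃ s ∈ QQ, ε ≤ ∑ x, ‖v ((s⁻¹ : G) * x) - v x‖ ^ 2

/-- The `d`-th derived subgroup of a subgroup `H` of `G`, as a subgroup of `G`. -/
def derivedOf {G : Type} [Group G] (H : Subgroup G) (d : ℕ) : Subgroup G :=
  (derivedSeries H d).map H.subtype

/-- The group of the Hamilton quaternions of norm one over `R`. -/
abbrev H1 (R : Type) [CommRing R] : Type := unitary ℍ[R]

/-- The elements `1 + M y` of the norm one group. -/
def H1congSet (R : Type) [CommRing R] (M : ℕ) : Set (H1 R) :=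
  {x | ∃ y : ℍ[R], (x : ℍ[R]) = 1 + M • y}

lemma H1cong_one {R : Type} [CommRing R] {M : ℕ} : 1 ∈ H1congSet R M := ⟨0, by
  change (1 : ℍ[R]) = _
  simp⟩

lemma H1cong_mul {R : Type} [CommRing R] {M : ℕ} {x x' : H1 R} (h : x ∈ H1congSet R M)
    (h' : x' ∈ H1congSet R M) : x * x' ∈ H1congSet R M := by
  obtain ⟨y, hy⟩ := h
  obtain ⟨y', hy'⟩ := h'
  refine ⟨y + y' + M • (y * y'), ?_⟩
  change x.val * x'.val = _
  rw [hy, hy']
  simp only [nsmul_eq_mul]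
  have hc : y * (M : ℍ[R]) = (M : ℍ[R]) * y := (Nat.cast_commute M y).eq.symm
  calc (1 + (M : ℍ[R]) * y) * (1 + (M : ℍ[R]) * y')
      = 1 + ((M : ℍ[R]) * y + (M : ℍ[R]) * y' + (M : ℍ[R]) * (y * (M : ℍ[R])) * y') := by
        noncomm_ring
    _ = 1 + (M : ℍ[R]) * (y + y' + (M : ℍ[R]) * (y * y')) := by
        rw [hc]; noncomm_ring

lemma H1cong_inv {R : Type} [CommRing R] {M : ℕ} {x : H1 R} (h : x ∈ H1congSet R M) :
    x⁻¹ ∈ H1congSet R M := by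
  obtain ⟨y, hy⟩ := h
  refine ⟨star y, ?_⟩
  change star x.val = _
  rw [hy, star_add, star_one, star_nsmul]

/-- The principal congruence subgroup of level `M`: the elements `1 + M y`. -/
def H1cong (R : Type) [CommRing R] (M : ℕ) : Subgroup (H1 R) where
  carrier := H1congSet R M
  one_mem' := H1cong_one
  mul_mem' := H1cong_mul
  inv_mem' := H1cong_inv

lemma H1cong_eq (p q M : ℕ) : H1cong (RR p q) M = Cong p q M := by
  apply SetLike.ext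
  intro x
  constructor
  · rintro ⟨y, hy⟩
    refine ⟨y, ?_⟩
    rw [← nsmul_eq_mul]
    exact hy
  · rintro ⟨y, hy⟩
    refine ⟨y, ?_⟩
    rw [nsmul_eq_mul]
    exact hy

/-- The group of the Hamilton quaternions of norm one over `ℤ[1/(pq)]`. -/
abbrev Gpq (p q : ℕ) : Type := H1 (Localization.Away ((p * q : ℕ) : ℤ))

/-- Its principal congruence subgroup of level `M`. -/
def Gcong (p q M : ℕ) : Subgroup (Gpq p q) := H1cong (Localization.Away ((p * q : ℕ) : ℤ)) M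

lemma final_aux : ∀ K : ℕ, ∃ P₀ : ℕ, ∀ p q : ℕ, p.Prime → q.Prime → p % 4 = 1 → q % 4 = 1 →
    P₀ ≤ p → p < q → q < p ^ K → IsSquare (q : ZMod p) →
    ∃ (L₀ : ℕ) (QQ : Finset (H1 (RR p q))), ∀ d : ℕ, ∃ ε : ℝ, 0 < ε ∧
    ∀ M : ℕ, 0 < M → (∀ l : ℕ, l.Prime → l ∣ M → L₀ ≤ l) →
    ∀ (N : Subgroup (H1 (RR p q))) [N.Normal] [N.FiniteIndex],
      derivedOf (H1cong (RR p q) M) d ≤ N → MovesUnitVectors (QQ : Set (H1 (RR p q))) N ε := by
  intro K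
  obtain ⟨P₀, h⟩ := all_main K
  refine ⟨P₀, ?_⟩
  intro p q hp hq hp4 hq4 h1 h2 h3 h4
  obtain ⟨L₀, QQ, h⟩ := h p q hp hq hp4 hq4 h1 h2 h3 h4
  refine ⟨L₀, QQ, ?_⟩
  intro d
  obtain ⟨ε, hε, h⟩ := h d
  refine ⟨ε, hε, ?_⟩
  intro M hM hL N i1 i2 hN
  rw [H1cong_eq] at hN
  exact @h M hM hL N i1 i2 hN

theorem final_main : ∀ K : ℕ, ∃ P₀ : ℕ, ∀ p q : ℕ, p.Prime → q.Prime → p % 4 = 1 → q % 4 = 1 →
    P₀ ≤ p → p < q → q < p ^ K → IsSquare (q : ZMod p) →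
    ∃ (L₀ : ℕ) (QQ : Finset (Gpq p q)), ∀ d : ℕ, ∃ ε : ℝ, 0 < ε ∧
    ∀ M : ℕ, 0 < M → (∀ l : ℕ, l.Prime → l ∣ M → L₀ ≤ l) →
    ∀ (N : Subgroup (Gpq p q)) [N.Normal] [N.FiniteIndex],
      derivedOf (Gcong p q M) d ≤ N → MovesUnitVectors (QQ : Set (Gpq p q)) N ε :=
  final_aux

end TauQ
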