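import Mathlib
import Pool.Agent.Work.MP_972ac7_al_tau.Interface

/-!
# Group form of the abelian extension theorem (MP_972ac7_al)
-/

open scoped BigOperators

namespace TauQ

/-- A VH structure on a group: finite symmetric sets `A`, `B` generating the group, such that every
product `a b` is `b' a'` for a unique pair, and two characters with values `±1`, the first one `-1`
on `A` and `1` on `B`, the second one `1` on `A` and `-1` on `B`. -/
structure VHGroup (Γ : Type) [Group Γ] where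
  A : Finset Γ
  B : Finset Γ
  A_inv : ∀ a ∈ A, a⁻¹ ∈ A
  B_inv : ∀ b ∈ B, b⁻¹ ∈ B
  square : ∀ a ∈ A, ∀ b ∈ B, ∃! x : Γ × Γ, x.1 ∈ B ∧ x.2 ∈ A ∧ a * b = x.1 * x.2
  gen : Subgroup.closure ((A : Set Γ) ∪ (B : Set Γ)) = ⊤
  chiA : Γ →* ℤˣ
  chiB : Γ →* ℤˣ
  chiA_A : ∀ a ∈ A, chiA a = -1
  chiA_B : ∀ b ∈ B, chiA b = 1
  chiB_A : ∀ a ∈ A, chiB a = 1
  chiB_B : ∀ b ∈ B, chiB b = -1

namespace VHGroup

variable {Γ : Type} [Group Γ] (V : VHGroup Γ)

noncomputable def fwd (x : V.A × V.B) : V.B × V.A :=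
  ⟨⟨(V.square x.1 x.1.2 x.2 x.2.2).choose.1, (V.square x.1 x.1.2 x.2 x.2.2).choose_spec.1.1⟩,
   ⟨(V.square x.1 x.1.2 x.2 x.2.2).choose.2, (V.square x.1 x.1.2 x.2 x.2.2).choose_spec.1.2.1⟩⟩

lemma fwd_spec (x : V.A × V.B) : (x.1 : Γ) * x.2 = (V.fwd x).1 * (V.fwd x).2 :=
  (V.square x.1 x.1.2 x.2 x.2.2).choose_spec.1.2.2

lemma fwd_unique (x : V.A × V.B) (y : V.B × V.A) (h : (x.1 : Γ) * x.2 = y.1 * y.2) :
    V.fwd x = y := by
  have h1 := (V.square x.1 x.1.2 x.2 x.2.2).choose_spec.2 (y.1, y.2) ⟨y.1.2, y.2.2, h⟩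
  have e1 : (y.1 : Γ) = (V.fwd x).1 := congrArg Prod.fst h1
  have e2 : (y.2 : Γ) = (V.fwd x).2 := congrArg Prod.snd h1
  exact Prod.ext (Subtype.ext e1.symm) (Subtype.ext e2.symm)

def iA (a : V.A) : V.A := ⟨(a : Γ)⁻¹, V.A_inv a a.2⟩
def iB (b : V.B) : V.B := ⟨(b : Γ)⁻¹, V.B_inv b b.2⟩

noncomputable def bwd (y : V.B × V.A) : V.A × V.B :=
  (V.iA (V.fwd (V.iA y.2, V.iB y.1)).2, V.iB (V.fwd (V.iA y.2, V.iB y.1)).1)

lemma bwd_spec (y : V.B × V.A) : (y.1 : Γ) * y.2 = (V.bwd y).1 * (V.bwd y).2 := by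
  have h := V.fwd_spec (V.iA y.2, V.iB y.1)
  simp only [iA, iB] at h
  simp only [bwd, iA, iB]
  rw [← mul_inv_rev, ← h, mul_inv_rev, inv_inv, inv_inv]

/-- the VH datum of a VH structure -/
noncomputable def toVH : VH V.A V.B where
  invA := V.iA
  invB := V.iB
  vh :=
    { toFun := V.fwd
      invFun := V.bwd
      left_inv := by
        intro x
        have h1 := V.fwd_spec x
        have h2 : V.fwd (V.iA (V.fwd x).2, V.iB (V.fwd x).1) = (V.iB x.2, V.iA x.1) := by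
          apply V.fwd_unique
          simp only [iA, iB]
          rw [← mul_inv_rev, ← mul_inv_rev, h1]
        unfold bwd
        rw [h2]
        apply Prod.ext
        · apply Subtype.ext; simp [iA]
        · apply Subtype.ext; simp [iB]
      right_inv := by
        intro y
        exact V.fwd_unique _ _ (V.bwd_spec y).symm }
  invA_invA a := by apply Subtype.ext; simp [iA]
  invB_invB b := by apply Subtype.ext; simp [iB]
  h1 a b := by
    apply V.fwd_unique
    have h := V.fwd_spec (a, b)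
    simp only [iA]
    change ((a : Γ))⁻¹ * ((V.fwd (a, b)).1 : Γ) = (b : Γ) * ((V.fwd (a, b)).2 : Γ)⁻¹
    rw [inv_mul_eq_iff_eq_mul, ← mul_assoc, eq_mul_inv_iff_mul_eq]
    exact h.symm
  h2 a b := by
    apply V.fwd_unique
    have h := V.fwd_spec (a, b)
    simp only [iB]
    change ((V.fwd (a, b)).2 : Γ) * ((b : Γ))⁻¹ = ((V.fwd (a, b)).1 : Γ)⁻¹ * (a : Γ)
    rw [mul_inv_eq_iff_eq_mul, mul_assoc, eq_inv_mul_iff_mul_eq]
    exact h.symm

lemma toVH_spec (a : V.A) (b : V.B) :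
    (a : Γ) * b = (V.toVH.vh (a, b)).1 * (V.toVH.vh (a, b)).2 := V.fwd_spec (a, b)

lemma gen' : Subgroup.closure (Set.range (fun a : V.A => (a : Γ)) ∪
    Set.range (fun b : V.B => (b : Γ))) = ⊤ := by
  have e1 : Set.range (fun a : V.A => (a : Γ)) = (V.A : Set Γ) := by ext x; simp
  have e2 : Set.range (fun b : V.B => (b : Γ)) = (V.B : Set Γ) := by ext x; simp
  rw [e1, e2]
  exact V.gen

/-- the representation in a quotient -/
noncomputable def rep (N : Subgroup Γ) [N.Normal] (hA : N ≤ V.chiA.ker) (hB : N ≤ V.chiB.ker) :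
    Rep V.toVH (Γ ⧸ N) where
  al a := QuotientGroup.mk (a : Γ)
  be b := QuotientGroup.mk (b : Γ)
  al_inv a := rfl
  be_inv b := rfl
  comm a b := congrArg (QuotientGroup.mk : Γ → Γ ⧸ N) (V.toVH_spec a b)
  chiA := QuotientGroup.lift N V.chiA hA
  chiB := QuotientGroup.lift N V.chiB hB
  chiA_al a := V.chiA_A a a.2
  chiA_be b := V.chiA_B b b.2
  chiB_al a := V.chiB_A a a.2
  chiB_be b := V.chiB_B b b.2
  gen := by
    have h := V.gen'
    have h2 := congrArg (Subgroup.map (QuotientGroup.mk' N)) h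
    rw [MonoidHom.map_closure, Set.image_union, ← Set.range_comp, ← Set.range_comp] at h2
    rw [← MonoidHom.range_eq_map, MonoidHom.range_eq_top.2 (QuotientGroup.mk'_surjective N)] at h2
    exact h2

end VHGroup

end TauQ
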