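import Mathlib
import Pool.Agent.Work.MP_972ac7_al_tau.GroupForm

/-!
# Group form of the abelian extension theorem (MP_972ac7_al): proof
-/

open scoped BigOperators

namespace TauQ

/-- sums over a finite group of a function pulled back from a quotient -/
lemma gt_sum_fiber {Q P : Type} [Group Q] [Group P] [Fintype Q] [Fintype P] (π : Q →* P)
    (hπ : Function.Surjective π) {E : Type} [AddCommMonoid E] (f : P → E) :
    ∑ x, f (π x) = (Nat.card π.ker) • ∑ y, f y := by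
  classical
  rw [← Finset.sum_fiberwise (s := Finset.univ) (g := π) (f := fun x => f (π x)), Finset.smul_sum]
  refine Finset.sum_congr rfl fun y _ => ?_
  rw [Finset.sum_congr rfl (g := fun _ => f y) (by
    intro x hx
    rw [(Finset.mem_filter.1 hx).2])]
  rw [Finset.sum_const]
  congr 1
  obtain ⟨x0, rfl⟩ := hπ y
  rw [← Fintype.card_subtype, ← Nat.card_eq_fintype_card]
  refine Nat.card_congr ⟨fun x => ⟨x0⁻¹ * x.1, ?_⟩, fun k => ⟨x0 * k.1, ?_⟩, ?_, ?_⟩
  · rw [MonoidHom.mem_ker, map_mul, x.2, map_inv, inv_mul_cancel]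
  · rw [map_mul, MonoidHom.mem_ker.1 k.2, mul_one]
  · intro x; apply Subtype.ext; simp
  · intro k; apply Subtype.ext; simp

/-- pull back of the gap from a quotient of `Q` to the functions on `Q` invariant under the kernel -/
lemma gt_pull {A B : Type} [Fintype A] [Fintype B] {h : VH A B} {Q P : Type} [Group Q] [Fintype Q]
    [Group P] [Fintype P] (r : Rep h Q) (s : Rep h P) (π : Q →* P) (hπ : Function.Surjective π)
    (hb : ∀ b, π (r.be b) = s.be b) (hc : ∀ x, s.chiA (π x) = r.chiA x) (g : ℝ)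
    (hg : s.GB ⊥ g) : r.GB π.ker g := by
  classical
  intro f hf hsum
  choose σ hσ using hπ
  let f' : h.SA × P → ℂ := fun z => f (z.1, σ z.2)
  have key : ∀ y x, f' (y, π x) = f (y, x) := by
    intro y x
    have := hf (y, x) (x⁻¹ * σ (π x)) (by
      rw [MonoidHom.mem_ker, map_mul, map_inv, hσ, inv_mul_cancel])
    simp only [mul_inv_cancel_left] at this
    exact this
  have hπ' : Function.Surjective π := fun y => ⟨σ y, hσ y⟩
  have tr : ∀ {E : Type} [AddCommMonoid E] (F : h.SA × P → E),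
      ∑ z : h.SA × Q, F (z.1, π z.2) = (Nat.card π.ker) • ∑ z, F z := by
    intro E _ F
    rw [Fintype.sum_prod_type, Fintype.sum_prod_type, Finset.smul_sum]
    refine Finset.sum_congr rfl fun y _ => ?_
    exact gt_sum_fiber π hπ' (fun p => F (y, p))
  have hk : 0 < Nat.card π.ker := Nat.card_pos
  have hkR : (0 : ℝ) < Nat.card π.ker := by exact_mod_cast hk
  have h1 : ∀ κ : ℤˣ, ∑ z, (if s.chiA z.2 = κ then f' z else 0) = 0 := by
    intro κ
    have e := tr (fun z => if s.chiA z.2 = κ then f' z else 0)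
    have e2 : ∑ z : h.SA × Q, (if s.chiA (π z.2) = κ then f' (z.1, π z.2) else 0) = 0 := by
      refine (Finset.sum_congr rfl fun z _ => ?_).trans (hsum κ)
      rw [hc, key]
    rw [e2, nsmul_eq_mul] at e
    rcases mul_eq_zero.1 e.symm with h0 | h0
    · exact absurd h0 (by exact_mod_cast hk.ne')
    · exact h0
  have h2 := hg f' (by
    intro z d hd
    rw [Subgroup.mem_bot.1 hd, mul_one]) h1
  have e1 : ∑ z : h.SA × Q, ‖f z‖ ^ 2 = (Nat.card π.ker : ℝ) * ∑ z, ‖f' z‖ ^ 2 := by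
    have := tr (fun z => ‖f' z‖ ^ 2)
    rw [nsmul_eq_mul] at this
    rw [← this]
    refine Finset.sum_congr rfl fun z _ => ?_
    rw [key]
  have e3 : r.varB f = (Nat.card π.ker : ℝ) * s.varB f' := by
    unfold Rep.varB
    rw [Finset.mul_sum]
    refine Finset.sum_congr rfl fun b _ => ?_
    have := tr (fun z => ‖f' (s.tau b z) - f' z‖ ^ 2)
    rw [nsmul_eq_mul] at this
    rw [← this]
    refine Finset.sum_congr rfl fun z _ => ?_
    rw [key, Rep.tau_apply, Rep.tau_apply]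
    dsimp only
    rw [← hb, ← map_mul, key]
  rw [e1, e3]
  nlinarith

/-- gap on vertex functions -/
lemma gt_vertex {A B : Type} [Fintype A] [Fintype B] [Nonempty A] {h : VH A B} {Q : Type} [Group Q]
    [Fintype Q] (r : Rep h Q) (g : ℝ) (_hg : 0 < g) (hG : r.GB ⊥ g) (v : Q → ℂ)
    (hv : ∑ x, v x = 0) :
    2 * min g 2 * ∑ x, ‖v x‖ ^ 2 ≤
      (∑ a, ∑ x, ‖v (r.al a * x) - v x‖ ^ 2) + ∑ b, ∑ x, ‖v (r.be b * x) - v x‖ ^ 2 := by
  classical
  have hQ : 0 < Fintype.card Q := Fintype.card_pos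
  have hQR : (0 : ℝ) < Fintype.card Q := by exact_mod_cast hQ
  have hQC : (Fintype.card Q : ℂ) ≠ 0 := by exact_mod_cast hQ.ne'
  let χ : Q → ℂ := fun x => ((((r.chiA x : ℤˣ) : ℤ)) : ℂ)
  have hχ1 : ∀ x, χ x * χ x = 1 := by
    intro x
    simp only [χ]
    rcases Int.units_eq_one_or (r.chiA x) with e | e <;> rw [e] <;> simp
  have hχn : ∀ x, ‖χ x‖ = 1 := by
    intro x
    simp only [χ]
    rcases Int.units_eq_one_or (r.chiA x) with e | e <;> rw [e] <;> simp
  have hχc : ∀ x, (starRingEnd ℂ) (χ x) = χ x := by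
    intro x
    simp only [χ]
    rcases Int.units_eq_one_or (r.chiA x) with e | e <;> rw [e] <;> simp
  have hχal : ∀ a x, χ (r.al a * x) = - χ x := by
    intro a x
    simp only [χ]
    rw [map_mul, r.chiA_al]
    simp
  have hχbe : ∀ b x, χ (r.be b * x) = χ x := by
    intro b x
    simp only [χ]
    rw [map_mul, r.chiA_be, one_mul]
  let S : ℂ := ∑ x, χ x * v x
  let α : ℂ := S / Fintype.card Q
  let w : Q → ℂ := fun x => v x - α * χ x
  obtain ⟨a0⟩ := (inferInstance : Nonempty A)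
  have shift : ∀ (c : Q) (F : Q → ℂ), ∑ x, F (c * x) = ∑ x, F x := fun c F =>
    Equiv.sum_comp (Equiv.mulLeft c) F
  have hχ0 : ∑ x, χ x = 0 := by
    have := shift (r.al a0) χ
    rw [Finset.sum_congr rfl (fun x _ => hχal a0 x), Finset.sum_neg_distrib] at this
    have h2 : (2 : ℂ) * ∑ x, χ x = 0 := by linear_combination -this
    rcases mul_eq_zero.1 h2 with h3 | h3
    · norm_num at h3
    · exact h3
  have hw0 : ∑ x, w x = 0 := by
    simp only [w]
    rw [Finset.sum_sub_distrib, ← Finset.mul_sum, hχ0, hv]; ring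
  have hw1 : ∑ x, χ x * w x = 0 := by
    simp only [w]
    have : ∀ x, χ x * (v x - α * χ x) = χ x * v x - α := fun x => by
      linear_combination (-α) * hχ1 x
    rw [Finset.sum_congr rfl (fun x _ => this x), Finset.sum_sub_distrib, Finset.sum_const,
      Finset.card_univ, nsmul_eq_mul]
    change S - (Fintype.card Q : ℂ) * (S / Fintype.card Q) = 0
    field_simp
    ring
  -- norms
  have hnorm : ∑ x, ‖v x‖ ^ 2 = ∑ x, ‖w x‖ ^ 2 + Fintype.card Q * ‖α‖ ^ 2 := by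
    have e : ∀ x, ((‖v x‖ ^ 2 : ℝ) : ℂ) = ((‖w x‖ ^ 2 : ℝ) : ℂ) + ((‖α‖ ^ 2 : ℝ) : ℂ)
        + α * (starRingEnd ℂ) (χ x * w x) + (starRingEnd ℂ) α * (χ x * w x) := by
      intro x
      have hvx : v x = w x + α * χ x := by simp only [w]; ring
      have n1 : ∀ z : ℂ, ((‖z‖ ^ 2 : ℝ) : ℂ) = z * (starRingEnd ℂ) z := fun z => by
        rw [Complex.mul_conj, Complex.normSq_eq_norm_sq]
      rw [n1, n1, n1, hvx, map_add, map_mul, map_mul, hχc]
      linear_combination α * (starRingEnd ℂ) α * hχ1 x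
    have e2 : ((∑ x, ‖v x‖ ^ 2 : ℝ) : ℂ) = ((∑ x, ‖w x‖ ^ 2 + Fintype.card Q * ‖α‖ ^ 2 : ℝ) : ℂ) := by
      push_cast
      push_cast at e
      rw [Finset.sum_congr rfl (fun x _ => e x), Finset.sum_add_distrib, Finset.sum_add_distrib,
        Finset.sum_add_distrib, ← Finset.mul_sum, ← Finset.mul_sum, ← map_sum, hw1]
      simp
    exact_mod_cast e2
  -- B part
  have hB : 2 * g * ∑ x, ‖w x‖ ^ 2 ≤ ∑ b, ∑ x, ‖v (r.be b * x) - v x‖ ^ 2 := by
    have h1 := hG (fun z => w z.2) (by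
      intro z d hd
      rw [Subgroup.mem_bot.1 hd, mul_one]) (by
      intro κ
      rw [Fintype.sum_prod_type]
      refine Finset.sum_eq_zero fun y _ => ?_
      have e : ∑ x, (if r.chiA x = κ then w x else 0) = 0 := by
        have : ∀ x, (if r.chiA x = κ then w x else 0) =
            (1 / 2 : ℂ) * w x + (1 / 2 : ℂ) * (((κ : ℤˣ) : ℤ) : ℂ) * (χ x * w x) := by
          intro x
          simp only [χ]
          rcases Int.units_eq_one_or (r.chiA x) with e | e <;>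
            rcases Int.units_eq_one_or κ with e' | e' <;> rw [e, e'] <;>
            [simp; simp; simp; simp] <;> ring
        rw [Finset.sum_congr rfl (fun x _ => this x), Finset.sum_add_distrib, ← Finset.mul_sum,
          ← Finset.mul_sum, hw0, hw1]
        ring
      exact e)
    unfold Rep.varB at h1
    rw [Fintype.sum_prod_type] at h1
    dsimp only at h1
    rw [Finset.sum_const, Finset.card_univ, nsmul_eq_mul] at h1
    have e : ∀ b, ∑ z : h.SA × Q, ‖w (r.tau b z).2 - w z.2‖ ^ 2 =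
        (Fintype.card h.SA : ℝ) * ∑ x, ‖v (r.be b * x) - v x‖ ^ 2 := by
      intro b
      rw [Fintype.sum_prod_type]
      dsimp only [Rep.tau_apply]
      rw [Finset.sum_const, Finset.card_univ, nsmul_eq_mul]
      congr 1
      refine Finset.sum_congr rfl fun x _ => ?_
      simp only [w]
      rw [hχbe]
      congr 2
      ring
    rw [Finset.sum_congr rfl (fun b _ => e b), ← Finset.mul_sum] at h1
    have hS : (0 : ℝ) < Fintype.card h.SA := by
      exact_mod_cast (Fintype.card_pos : 0 < Fintype.card h.SA)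
    have h2 : (Fintype.card h.SA : ℝ) * (2 * g * ∑ x, ‖w x‖ ^ 2) ≤
        Fintype.card h.SA * ∑ b, ∑ x, ‖v (r.be b * x) - v x‖ ^ 2 := by
      calc _ = 2 * g * (Fintype.card h.SA * ∑ x, ‖w x‖ ^ 2) := by ring
        _ ≤ _ := h1
    exact le_of_mul_le_mul_left h2 hS
  -- A part
  have hA : 4 * (Fintype.card Q * ‖α‖ ^ 2) ≤ ∑ a, ∑ x, ‖v (r.al a * x) - v x‖ ^ 2 := by
    have h1 : 4 * (Fintype.card Q * ‖α‖ ^ 2) ≤ ∑ x, ‖v (r.al a0 * x) - v x‖ ^ 2 := by
      have e : ∑ x, χ x * (v (r.al a0 * x) - v x) = -2 * (Fintype.card Q * α) := by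
        have e1 : ∑ x, χ x * v (r.al a0 * x) = - S := by
          have := shift (r.al a0) (fun x => χ x * v x)
          rw [Finset.sum_congr rfl (fun x _ => by rw [hχal a0 x, neg_mul]),
            Finset.sum_neg_distrib] at this
          linear_combination -this
        simp only [mul_sub]
        rw [Finset.sum_sub_distrib, e1]
        change -S - S = -2 * (Fintype.card Q * (S / Fintype.card Q))
        field_simp
        ring
      have h2 : ‖∑ x, χ x * (v (r.al a0 * x) - v x)‖ ^ 2 ≤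
          Fintype.card Q * ∑ x, ‖v (r.al a0 * x) - v x‖ ^ 2 := by
        have h3 : ‖∑ x, χ x * (v (r.al a0 * x) - v x)‖ ≤ ∑ x, ‖v (r.al a0 * x) - v x‖ := by
          refine (norm_sum_le _ _).trans (le_of_eq ?_)
          refine Finset.sum_congr rfl fun x _ => ?_
          rw [norm_mul, hχn, one_mul]
        have h4 := sq_sum_le_card_mul_sum_sq (s := (Finset.univ : Finset Q))
          (f := fun x => ‖v (r.al a0 * x) - v x‖)
        rw [Finset.card_univ] at h4
        have h5 : (0:ℝ) ≤ ‖∑ x, χ x * (v (r.al a0 * x) - v x)‖ := norm_nonneg _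
        calc _ ≤ (∑ x, ‖v (r.al a0 * x) - v x‖) ^ 2 := by gcongr
          _ ≤ _ := h4
      rw [e] at h2
      have e3 : ‖(-2 : ℂ) * (Fintype.card Q * α)‖ ^ 2 = 4 * (Fintype.card Q * ‖α‖) ^ 2 := by
        rw [norm_mul, norm_mul, norm_neg]
        simp
        ring
      rw [e3] at h2
      have h6 : (Fintype.card Q : ℝ) * (4 * (Fintype.card Q * ‖α‖ ^ 2)) ≤
          Fintype.card Q * ∑ x, ‖v (r.al a0 * x) - v x‖ ^ 2 := by
        calc _ = 4 * (Fintype.card Q * ‖α‖) ^ 2 := by ring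
          _ ≤ _ := h2
      exact le_of_mul_le_mul_left h6 hQR
    refine h1.trans ?_
    exact Finset.single_le_sum (f := fun a => ∑ x, ‖v (r.al a * x) - v x‖ ^ 2)
      (fun a _ => Finset.sum_nonneg fun x _ => by positivity) (Finset.mem_univ a0)
  rw [hnorm]
  have m1 : min g 2 ≤ g := min_le_left _ _
  have m2 : min g 2 ≤ 2 := min_le_right _ _
  have p1 : 0 ≤ ∑ x, ‖w x‖ ^ 2 := Finset.sum_nonneg fun x _ => by positivity
  have p2 : 0 ≤ (Fintype.card Q : ℝ) * ‖α‖ ^ 2 := by positivity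
  nlinarith

lemma gt_dser_map {G Q : Type} [Group G] [Group Q] (φ : G →* Q) (D : Subgroup G) (d : ℕ) :
    Rep.dser (D.map φ) d = (Rep.dser D d).map φ := by
  induction d with
  | zero => rfl
  | succ n ih =>
    change ⁅Rep.dser (D.map φ) n, Rep.dser (D.map φ) n⁆ = _
    rw [ih, ← Subgroup.map_commutator]
    rfl

lemma gt_dser_derived {G : Type} [Group G] (D : Subgroup G) (d : ℕ) :
    (derivedSeries D d).map D.subtype = Rep.dser D d := by
  induction d with
  | zero =>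
    change (⊤ : Subgroup D).map D.subtype = D
    rw [← MonoidHom.range_eq_map, Subgroup.range_subtype]
  | succ n ih =>
    change (⁅derivedSeries D n, derivedSeries D n⁆).map D.subtype = ⁅Rep.dser D n, Rep.dser D n⁆
    rw [Subgroup.map_commutator, ih]

/-- The abelian extension theorem for groups with a VH structure. -/
theorem group_form (hiter : Stmt_iter) (Γ : Type) [Group Γ] (V : VHGroup Γ)
    (neA : V.A.Nonempty) (neB : V.B.Nonempty) (GA : V.toVH.Good) (GB : V.toVH.swap.Good)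
    (d : ℕ) (g : ℝ) (hg : 0 < g) : ∃ ε : ℝ, 0 < ε ∧
    ∀ (Δ : Subgroup Γ) [Δ.Normal] [Fintype (Γ ⧸ Δ)] (hA : Δ ≤ V.chiA.ker) (hB : Δ ≤ V.chiB.ker),
      (V.rep Δ hA hB).GB ⊥ g → (V.rep Δ hA hB).swap.GB ⊥ g →
    ∀ (N : Subgroup Γ) [N.Normal] [Fintype (Γ ⧸ N)], (derivedSeries Δ d).map Δ.subtype ≤ N →
    ∀ v : Γ ⧸ N → ℂ, ∑ x, v x = 0 → ∑ x, ‖v x‖ ^ 2 = 1 →
      ∃ s : Γ, (s ∈ V.A ∨ s ∈ V.B) ∧ ε ≤ ∑ x, ‖v ((s⁻¹ : Γ) * x) - v x‖ ^ 2 := by
  classical
  have nA : Nonempty V.A := ⟨⟨neA.choose, neA.choose_spec⟩⟩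
  have nB : Nonempty V.B := ⟨⟨neB.choose, neB.choose_spec⟩⟩
  obtain ⟨g', hg', H⟩ := hiter V.A V.B V.toVH nA nB GA GB d g hg
  have hm : (0 : ℝ) < min g' 2 := lt_min hg' two_pos
  refine ⟨2 * min g' 2 / (Fintype.card V.A + Fintype.card V.B + 1), by positivity, ?_⟩
  intro Δ _ _ hA hB k1 k2 N _ _ hN v hv hv1
  let N₁ : Subgroup Γ := N ⊓ Δ
  have hN₁A : N₁ ≤ V.chiA.ker := inf_le_right.trans hA
  have hN₁B : N₁ ≤ V.chiB.ker := inf_le_right.trans hB
  have fΔ : Δ.FiniteIndex := Subgroup.finiteIndex_of_finite_quotient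
  have fN : N.FiniteIndex := Subgroup.finiteIndex_of_finite_quotient
  have fN₁ : N₁.FiniteIndex := inferInstanceAs (N ⊓ Δ).FiniteIndex
  have nN₁ : N₁.Normal := inferInstanceAs (N ⊓ Δ).Normal
  have fQ : Finite (Γ ⧸ N₁) := Subgroup.finite_quotient_of_finiteIndex
  let _ : Fintype (Γ ⧸ N₁) := Fintype.ofFinite _
  let Q := Γ ⧸ N₁
  let r := V.rep N₁ hN₁A hN₁B
  let π : (Γ ⧸ N₁) →* (Γ ⧸ Δ) :=
    QuotientGroup.map N₁ Δ (MonoidHom.id Γ) (by
      intro x hx
      exact hx.2)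
  have hπ : Function.Surjective π := by
    intro y
    obtain ⟨x, rfl⟩ := QuotientGroup.mk_surjective y
    exact ⟨QuotientGroup.mk x, rfl⟩
  have hker : π.ker = Δ.map (QuotientGroup.mk' N₁) := by
    ext x
    obtain ⟨x, rfl⟩ := QuotientGroup.mk_surjective x
    rw [MonoidHom.mem_ker, Subgroup.mem_map]
    constructor
    · intro h
      have : x ∈ Δ := (QuotientGroup.eq_one_iff x).1 h
      exact ⟨x, this, rfl⟩
    · rintro ⟨y, hy, hyx⟩
      rw [← hyx]
      exact (QuotientGroup.eq_one_iff y).2 hy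
  have b1 : r.GB π.ker g := gt_pull r (V.rep Δ hA hB) π hπ (fun b => rfl) (by
    intro x
    obtain ⟨x, rfl⟩ := QuotientGroup.mk_surjective x
    rfl) g k1
  have b2 : r.swap.GB π.ker g := gt_pull r.swap (V.rep Δ hA hB).swap π hπ (fun b => rfl) (by
    intro x
    obtain ⟨x, rfl⟩ := QuotientGroup.mk_surjective x
    rfl) g k2
  have cA : π.ker ≤ r.chiA.ker := by
    rw [hker]
    rintro _ ⟨y, hy, rfl⟩
    exact hA hy
  have cB : π.ker ≤ r.chiB.ker := by
    rw [hker]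
    rintro _ ⟨y, hy, rfl⟩
    exact hB hy
  have hd : Rep.dser π.ker d = ⊥ := by
    rw [hker, gt_dser_map, ← gt_dser_derived, eq_bot_iff]
    rintro _ ⟨y, hy, rfl⟩
    rw [Subgroup.mem_bot]
    refine (QuotientGroup.eq_one_iff y).2 ⟨hN hy, ?_⟩
    obtain ⟨z, -, rfl⟩ := hy
    exact z.2
  have HH := (H Q r π.ker (MonoidHom.normal_ker π) cA cB b1 b2).1
  rw [hd] at HH
  -- pull back of v
  let ρ : (Γ ⧸ N₁) →* (Γ ⧸ N) :=
    QuotientGroup.map N₁ N (MonoidHom.id Γ) (by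
      intro x hx
      exact hx.1)
  have hρ : Function.Surjective ρ := by
    intro y
    obtain ⟨x, rfl⟩ := QuotientGroup.mk_surjective y
    exact ⟨QuotientGroup.mk x, rfl⟩
  have hk : 0 < Nat.card ρ.ker := Nat.card_pos
  have hkR : (0 : ℝ) < Nat.card ρ.ker := by exact_mod_cast hk
  have s0 : ∑ x, v (ρ x) = 0 := by rw [gt_sum_fiber ρ hρ, hv, smul_zero]
  have key := gt_vertex r g' hg' HH (fun x => v (ρ x)) s0
  have s1 : ∑ x, ‖v (ρ x)‖ ^ 2 = Nat.card ρ.ker := by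
    rw [gt_sum_fiber ρ hρ (fun y => ‖v y‖ ^ 2), hv1, nsmul_eq_mul, mul_one]
  have s2 : ∀ c : Γ, ∑ x : Γ ⧸ N₁, ‖v (ρ ((c : Γ ⧸ N₁) * x)) - v (ρ x)‖ ^ 2 =
      Nat.card ρ.ker * ∑ x, ‖v ((c : Γ ⧸ N) * x) - v x‖ ^ 2 := by
    intro c
    have := gt_sum_fiber ρ hρ (fun y => ‖v ((c : Γ ⧸ N) * y) - v y‖ ^ 2)
    rw [nsmul_eq_mul] at this
    rw [← this]
    refine Finset.sum_congr rfl fun x _ => ?_
    rw [map_mul]
    rfl
  rw [s1] at key
  have s3 : (∑ a : V.A, ∑ x, ‖v (ρ (r.al a * x)) - v (ρ x)‖ ^ 2) =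
      Nat.card ρ.ker * ∑ a : V.A, ∑ x, ‖v (((a : Γ) : Γ ⧸ N) * x) - v x‖ ^ 2 := by
    rw [Finset.mul_sum]
    exact Finset.sum_congr rfl fun a _ => s2 a
  have s4 : (∑ b : V.B, ∑ x, ‖v (ρ (r.be b * x)) - v (ρ x)‖ ^ 2) =
      Nat.card ρ.ker * ∑ b : V.B, ∑ x, ‖v (((b : Γ) : Γ ⧸ N) * x) - v x‖ ^ 2 := by
    rw [Finset.mul_sum]
    exact Finset.sum_congr rfl fun a _ => s2 a
  rw [s3, s4] at key
  have key2 : 2 * min g' 2 ≤ (∑ a : V.A, ∑ x, ‖v (((a : Γ) : Γ ⧸ N) * x) - v x‖ ^ 2) +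
      ∑ b : V.B, ∑ x, ‖v (((b : Γ) : Γ ⧸ N) * x) - v x‖ ^ 2 := by
    have : (Nat.card ρ.ker : ℝ) * (2 * min g' 2) ≤ Nat.card ρ.ker *
        ((∑ a : V.A, ∑ x, ‖v (((a : Γ) : Γ ⧸ N) * x) - v x‖ ^ 2) +
      ∑ b : V.B, ∑ x, ‖v (((b : Γ) : Γ ⧸ N) * x) - v x‖ ^ 2) := by
      rw [mul_add]
      linarith
    exact le_of_mul_le_mul_left this hkR
  by_contra hcon
  push Not at hcon
  set ε := 2 * min g' 2 / (Fintype.card V.A + Fintype.card V.B + 1) with hε
  have tA : ∀ a ∈ (Finset.univ : Finset V.A),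
      ∑ x, ‖v (((a : Γ) : Γ ⧸ N) * x) - v x‖ ^ 2 ≤ ε := by
    intro a _
    have := hcon ((a : Γ)⁻¹) (Or.inl (V.A_inv a a.2))
    rw [inv_inv] at this
    exact this.le
  have tB : ∀ b ∈ (Finset.univ : Finset V.B),
      ∑ x, ‖v (((b : Γ) : Γ ⧸ N) * x) - v x‖ ^ 2 ≤ ε := by
    intro b _
    have := hcon ((b : Γ)⁻¹) (Or.inr (V.B_inv b b.2))
    rw [inv_inv] at this
    exact this.le
  have uA := Finset.sum_le_card_nsmul _ _ _ tA
  have uB := Finset.sum_le_card_nsmul _ _ _ tB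
  rw [nsmul_eq_mul, Finset.card_univ] at uA uB
  have hε2 : ε * (Fintype.card V.A + Fintype.card V.B + 1) = 2 * min g' 2 := by
    rw [hε]
    field_simp
  have hε0 : 0 < ε := by rw [hε]; positivity
  nlinarith

end TauQ
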