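import Pool.Agent.Work.MP_972ac7_al_tau.Final

/-!
Uniform spectral gap for the (solvable of bounded length)-by-congruence quotients of the norm one
group of the Hamilton quaternions over `ℤ[1/(pq)]`.
-/

namespace Pool.Agent.Results.MP_972ac7_al.TauSolvableCongruence

open TauQ

/-- `Gpq p q` is the group of the quaternions of norm one over `ℤ[1/(pq)]`,
`Gcong p q M` its principal congruence subgroup of level `M`. For `K` there is `P₀` such that
for all primes `P₀ ≤ p < q < p ^ K`, `p, q ≡ 1 (mod 4)`, `q` a square modulo `p`, there are `L₀` and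
a finite set `QQ` such that for every `d` there is `ε > 0` with: for all `M` with all prime factors at
least `L₀` and all normal subgroups `N` of finite index containing the `d`-th derived subgroup of
`Gcong p q M`, every unit vector `v` of zero sum on the quotient by `N` has
`‖s v - v‖² ≥ ε` for some `s` in `QQ`. -/
theorem result : ∀ K : ℕ, ∃ P₀ : ℕ, ∀ p q : ℕ, p.Prime → q.Prime → p % 4 = 1 → q % 4 = 1 →
    P₀ ≤ p → p < q → q < p ^ K → IsSquare (q : ZMod p) →
    ∃ (L₀ : ℕ) (QQ : Finset (Gpq p q)), ∀ d : ℕ, ∃ ε : ℝ, 0 < ε ∧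
    ∀ M : ℕ, 0 < M → (∀ l : ℕ, l.Prime → l ∣ M → L₀ ≤ l) →
    ∀ (N : Subgroup (Gpq p q)) [N.Normal] [N.FiniteIndex],
      derivedOf (Gcong p q M) d ≤ N → MovesUnitVectors (QQ : Set (Gpq p q)) N ε :=
  final_main

end Pool.Agent.Results.MP_972ac7_al.TauSolvableCongruence
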