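import Mathlib
import Pool.Agent.Work.MP_972ac7_al_tau.Final
import Pool.Agent.Work.MP_972ac7_al_tau.GroupThm

/-!
# The abelian extension theorem in a self-contained form (MP_972ac7_al)
-/

open scoped BigOperators

namespace TauQ

/-- `Γ` generated by finite symmetric sets `A`, `B` such that every product `a b` is `b' a'` for a
unique pair; `sA b` is the permutation of `A` with `b a' = (sA b a') b''` for some `b''` in `B`, and
`sB a` the permutation of `B` with `a b' = (sB a b') a''` for some `a''` in `A`; `chiA`, `chiB` are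
the parity characters. -/
structure SquareGroup (Γ : Type) [Group Γ] where
  A : Finset Γ
  B : Finset Γ
  A_nonempty : A.Nonempty
  B_nonempty : B.Nonempty
  A_inv : ∀ a ∈ A, a⁻¹ ∈ A
  B_inv : ∀ b ∈ B, b⁻¹ ∈ B
  square : ∀ a ∈ A, ∀ b ∈ B, ∃! x : Γ × Γ, x.1 ∈ B ∧ x.2 ∈ A ∧ a * b = x.1 * x.2
  gen : Subgroup.closure ((A : Set Γ) ∪ (B : Set Γ)) = ⊤
  sA : B → Equiv.Perm A
  sA_spec : ∀ (b : B) (a : A), ∃ b'' ∈ B, (b : Γ) * a = (sA b a : Γ) * b''
  sB : A → Equiv.Perm B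
  sB_spec : ∀ (a : A) (b : B), ∃ a'' ∈ A, (a : Γ) * b = (sB a b : Γ) * a''
  chiA : Γ →* ℤˣ
  chiB : Γ →* ℤˣ
  chiA_A : ∀ a ∈ A, chiA a = -1
  chiA_B : ∀ b ∈ B, chiA b = 1
  chiB_A : ∀ a ∈ A, chiB a = 1
  chiB_B : ∀ b ∈ B, chiB b = -1

/-- A group `S` of permutations of `X` is perfect and transitive. -/
def PerfectTransitive {X : Type} (S : Subgroup (Equiv.Perm X)) : Prop :=
  ⁅S, S⁆ = S ∧ ∀ x y : X, ∃ s ∈ S, s x = y

/-- Spectral gap `g`: `X` a finite set of generators with permutations `s x` of `Y`, images `c x` in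
the finite group `Q`, `S` the group generated by the `s x`, `χ` a function on `Q`. For every function
`f` on `S × Q` orthogonal to `1` and `χ`:
`2 g ‖f‖² ≤ ∑_x ∑_{y, u} ‖f (s x * y, c x * u) - f (y, u)‖²`. -/
def EdgeGap {X Y Q : Type} [Group Q] [Fintype X] [Fintype Q]
    (s : X → Equiv.Perm Y) [Fintype (Subgroup.closure (Set.range s))] (c : X → Q) (χ : Q → ℂ)
    (g : ℝ) : Prop :=
  ∀ f : Subgroup.closure (Set.range s) × Q → ℂ, ∑ z, f z = 0 → ∑ z, χ z.2 * f z = 0 →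
    2 * g * ∑ z, ‖f z‖ ^ 2 ≤
      ∑ x, ∑ z, ‖f (⟨s x, Subgroup.subset_closure (Set.mem_range_self x)⟩ * z.1, c x * z.2) - f z‖ ^ 2

namespace SquareGroup

variable {Γ : Type} [Group Γ] (V : SquareGroup Γ)

/-- group generated by the permutations `sA b` of `A` -/
def SA : Subgroup (Equiv.Perm V.A) := Subgroup.closure (Set.range V.sA)

/-- group generated by the permutations `sB a` of `B` -/
def SB : Subgroup (Equiv.Perm V.B) := Subgroup.closure (Set.range V.sB)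

open Classical in
/-- `V.Gap Δ g`: the parity characters are trivial on `Δ`, and both edge gaps hold on `Γ ⧸ Δ`. -/
def Gap (Δ : Subgroup Γ) [Δ.Normal] [Fintype (Γ ⧸ Δ)] (g : ℝ) : Prop :=
  Δ ≤ V.chiA.ker ∧ Δ ≤ V.chiB.ker ∧
  (∀ χ : Γ ⧸ Δ → ℂ, (∀ γ : Γ, χ γ = ((V.chiA γ : ℤˣ) : ℤ)) →
    EdgeGap V.sA (fun b => ((b : Γ) : Γ ⧸ Δ)) χ g) ∧
  (∀ χ : Γ ⧸ Δ → ℂ, (∀ γ : Γ, χ γ = ((V.chiB γ : ℤˣ) : ℤ)) →
    EdgeGap V.sB (fun a => ((a : Γ) : Γ ⧸ Δ)) χ g)

/-- forget the permutations -/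
def toVHGroup : VHGroup Γ where
  A := V.A
  B := V.B
  A_inv := V.A_inv
  B_inv := V.B_inv
  square := V.square
  gen := V.gen
  chiA := V.chiA
  chiB := V.chiB
  chiA_A := V.chiA_A
  chiA_B := V.chiA_B
  chiB_A := V.chiB_A
  chiB_B := V.chiB_B

lemma sigma_eq (b : V.B) : V.toVHGroup.toVH.sigma b = V.sA b := by
  ext a
  obtain ⟨b'', hb, he⟩ := V.sA_spec b a
  have h1 : V.toVHGroup.fwd (V.sA b a, ⟨b'', hb⟩) = (b, a) :=
    V.toVHGroup.fwd_unique _ _ he.symm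
  have h2 : V.toVHGroup.toVH.vh.symm (b, a) = (V.sA b a, ⟨b'', hb⟩) := by
    exact (Equiv.symm_apply_eq _).2 h1.symm
  exact congrArg (fun x : V.A × V.B => (x.1 : Γ)) h2

lemma sigma_eq' (a : V.A) : V.toVHGroup.toVH.swap.sigma a = V.sB a := by
  ext b
  obtain ⟨a'', ha, he⟩ := V.sB_spec a b
  have h1 : V.toVHGroup.fwd (a, b) = (V.sB a b, ⟨a'', ha⟩) :=
    V.toVHGroup.fwd_unique _ _ he
  exact congrArg (fun x : V.B × V.A => (x.1 : Γ)) h1

lemma SA_eq : V.toVHGroup.toVH.SA = V.SA := by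
  unfold VH.SA SA
  congr 1
  exact congrArg Set.range (funext V.sigma_eq)

lemma SB_eq : V.toVHGroup.toVH.swap.SA = V.SB := by
  unfold VH.SA SB
  congr 1
  exact congrArg Set.range (funext V.sigma_eq')

end SquareGroup

lemma tg_perfect {X : Type} (S : Subgroup (Equiv.Perm X)) (h : PerfectTransitive S) :
    commutator S = ⊤ ∧ ∀ a a' : X, ∃ s : S, (s : Equiv.Perm X) a = a' := by
  obtain ⟨h1, h2⟩ := h
  constructor
  · have hinj : Function.Injective (Subgroup.map S.subtype) :=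
      Subgroup.map_injective (Subtype.val_injective)
    apply hinj
    rw [commutator_def, Subgroup.map_commutator, ← MonoidHom.range_eq_map, Subgroup.range_subtype]
    exact h1
  · intro a a'
    obtain ⟨s, hs, hs2⟩ := h2 a a'
    exact ⟨⟨s, hs⟩, hs2⟩

/-- the edge gap in the form used in the proof -/
lemma tg_gap {A B : Type} [Fintype A] [Fintype B] {h : VH A B} {Q : Type} [Group Q] [Fintype Q]
    (r : Rep h Q) (s : B → Equiv.Perm A) (hs : h.sigma = s)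
    [inst : Fintype (Subgroup.closure (Set.range s))] (χ : Q → ℂ)
    (hχ : ∀ x, χ x = ((r.chiA x : ℤˣ) : ℤ)) (g : ℝ)
    (hg : EdgeGap s r.be χ g) : r.GB ⊥ g := by
  subst hs
  obtain rfl : inst = VH.instFintypeSA h := Subsingleton.elim _ _
  intro f _ hf
  have h1 := hf 1
  have h2 := hf (-1)
  have e0 : ∀ z : h.SA × Q, f z = (if r.chiA z.2 = 1 then f z else 0) +
      (if r.chiA z.2 = -1 then f z else 0) := by
    intro z
    rcases Int.units_eq_one_or (r.chiA z.2) with e | e <;> rw [e] <;> simp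
  have e1 : ∀ z : h.SA × Q, χ z.2 * f z = (if r.chiA z.2 = 1 then f z else 0) -
      (if r.chiA z.2 = -1 then f z else 0) := by
    intro z
    rw [hχ]
    rcases Int.units_eq_one_or (r.chiA z.2) with e | e <;> rw [e] <;> simp
  have s0 : ∑ z, f z = 0 := by
    rw [Finset.sum_congr rfl (fun z _ => e0 z), Finset.sum_add_distrib, h1, h2, add_zero]
  have s1 : ∑ z : h.SA × Q, χ z.2 * f z = 0 := by
    rw [Finset.sum_congr rfl (fun z _ => e1 z), Finset.sum_sub_distrib, h1, h2, sub_zero]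
  exact hg f s0 s1

theorem final_tree : ∀ (Γ : Type) [Group Γ] (V : SquareGroup Γ),
    PerfectTransitive V.SA → PerfectTransitive V.SB →
    ∀ (d : ℕ) (g : ℝ), 0 < g → ∃ ε : ℝ, 0 < ε ∧
    ∀ (Δ : Subgroup Γ) [Δ.Normal] [Fintype (Γ ⧸ Δ)], V.Gap Δ g →
    ∀ (N : Subgroup Γ) [N.Normal] [N.FiniteIndex], derivedOf Δ d ≤ N →
      MovesUnitVectors ((V.A : Set Γ) ∪ (V.B : Set Γ)) N ε := by
  classical
  intro Γ _ V pA pB d g hg
  have GA : V.toVHGroup.toVH.Good := by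
    unfold VH.Good
    rw [V.SA_eq]
    exact tg_perfect _ pA
  have GB : V.toVHGroup.toVH.swap.Good := by
    unfold VH.Good
    rw [V.SB_eq]
    exact tg_perfect _ pB
  obtain ⟨ε, hε, H⟩ := group_form all_iter Γ V.toVHGroup V.A_nonempty V.B_nonempty GA GB d g hg
  refine ⟨ε, hε, ?_⟩
  rintro Δ _ _ ⟨hA, hB, h1, h2⟩ N _ _ hN _ v hv hv1
  have k1 : (V.toVHGroup.rep Δ hA hB).GB ⊥ g := by
    refine tg_gap (V.toVHGroup.rep Δ hA hB) V.sA (funext V.sigma_eq)
      (fun x => (((V.toVHGroup.rep Δ hA hB).chiA x : ℤˣ) : ℤ)) (fun x => rfl) g ?_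
    exact h1 _ (fun γ => rfl)
  have k2 : (V.toVHGroup.rep Δ hA hB).swap.GB ⊥ g := by
    refine tg_gap (V.toVHGroup.rep Δ hA hB).swap V.sB (funext V.sigma_eq')
      (fun x => (((V.toVHGroup.rep Δ hA hB).chiB x : ℤˣ) : ℤ)) (fun x => rfl) g ?_
    exact h2 _ (fun γ => rfl)
  obtain ⟨s, hs, hs2⟩ := H Δ hA hB k1 k2 N hN v hv hv1
  refine ⟨s, ?_, hs2⟩
  rcases hs with hs | hs
  · exact Or.inl hs
  · exact Or.inr hs

end TauQ
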