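import Mathlib
import Pool.Agent.Work.MP_972ac7_al_tau.Interface

/-!
# Block vh (N4): the VH datum of two primes
-/

open scoped Quaternion BigOperators

namespace TauQ

/-- elements of `OO` of norm `n` -/
def vh_T (n : ℤ) : Type := {α : ℍ[ℤ] // α ∈ OO ∧ Quaternion.normSq α = n}

lemma vh_star_mul {r : ℕ} (β : SS r) : star β.val * β.val = (r : ℍ[ℤ]) := by
  rw [Quaternion.star_mul_self, β.norm]
  exact Quaternion.ext _ _ (by simp) (by simp) (by simp) (by simp)

lemma vh_mul_star {r : ℕ} (β : SS r) : β.val * star β.val = (r : ℍ[ℤ]) := by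
  rw [Quaternion.self_mul_star, β.norm]
  exact Quaternion.ext _ _ (by simp) (by simp) (by simp) (by simp)

lemma vh_normSq_natCast (r : ℕ) : Quaternion.normSq (r : ℍ[ℤ]) = (r : ℤ) ^ 2 := by
  simp [Quaternion.normSq_natCast]

lemma vh_not_dvd {r s : ℕ} (hr : r.Prime) (hs : s.Prime) (hrs : r ≠ s) {α : ℍ[ℤ]}
    (hN : Quaternion.normSq α = (r : ℤ) * s) (γ : ℍ[ℤ]) : α ≠ (r : ℍ[ℤ]) * γ := by
  intro h
  rw [h, map_mul, vh_normSq_natCast] at hN
  have hr0 : (r : ℤ) ≠ 0 := by exact_mod_cast hr.ne_zero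
  have h1 : (r : ℤ) * Quaternion.normSq γ = s := by
    apply mul_left_cancel₀ hr0
    rw [← hN]; ring
  have h2 : (r : ℤ) ∣ (s : ℤ) := ⟨_, h1.symm⟩
  have h3 : r ∣ s := by exact_mod_cast h2
  exact hrs ((Nat.prime_dvd_prime_iff_eq hr hs).1 h3)

lemma vh_mem_of_mul {r : ℕ} (hr : r % 4 = 1) {γ : ℍ[ℤ]} (h : (r : ℍ[ℤ]) * γ ∈ OO) : γ ∈ OO := by
  obtain ⟨h0, h1, h2, h3⟩ := h
  simp only [Quaternion.re_mul, Quaternion.imI_mul, Quaternion.imJ_mul, Quaternion.imK_mul,
    Quaternion.re_natCast, Quaternion.imI_natCast, Quaternion.imJ_natCast,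
    Quaternion.imK_natCast, zero_mul, sub_zero, add_zero] at h0 h1 h2 h3
  have hr' : (r : ℤ) % 4 = 1 := by omega
  have hodd : IsCoprime (2 : ℤ) (r : ℤ) := by
    refine ⟨-((r : ℤ) / 2), 1, ?_⟩
    omega
  refine ⟨?_, ?_, ?_, ?_⟩
  · rw [Int.mul_emod, hr', one_mul, Int.emod_emod] at h0
    exact h0
  · exact hodd.dvd_of_dvd_mul_left h1
  · exact hodd.dvd_of_dvd_mul_left h2
  · exact hodd.dvd_of_dvd_mul_left h3

/-- multiplication -/
def vh_mul (r s : ℕ) (n : ℤ) (hn : n = (r : ℤ) * s) (x : SS r × SS s) : vh_T n :=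
  ⟨x.1.val * x.2.val, OO.mul_mem x.1.mem x.2.mem, by rw [map_mul, x.1.norm, x.2.norm, hn]⟩

lemma vh_bij (h1 : Stmt_exists) (h2 : Stmt_unique) {r s : ℕ} (hr : r.Prime) (hs : s.Prime)
    (hr4 : r % 4 = 1) (hrs : r ≠ s) (n : ℤ) (hn : n = (r : ℤ) * s) :
    Function.Bijective (vh_mul r s n hn) := by
  have hrz : (r : ℤ) ≠ 0 := by exact_mod_cast hr.ne_zero
  constructor
  · rintro ⟨β, γ⟩ ⟨β', γ'⟩ h
    have h' : β.val * γ.val = β'.val * γ'.val := congrArg Subtype.val h
    have hN : Quaternion.normSq (β.val * γ.val) = (r : ℤ) * s := by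
      rw [map_mul, β.norm, γ.norm]
    have e : β = β' := (h2 r hr hr4).2 β β' γ.val γ'.val (vh_not_dvd hr hs hrs hN) h'
    subst e
    have hβ : β.val ≠ 0 := by
      intro h0
      have := β.norm
      rw [h0, map_zero] at this
      exact hrz this.symm
    have e2 : γ = γ' := SS.ext (mul_left_cancel₀ hβ h')
    rw [e2]
  · rintro ⟨α, hα, hN⟩
    have hN' : Quaternion.normSq α = (r : ℤ) * s := by rw [hN, hn]
    obtain ⟨β, γ, hβ⟩ := h1 r hr hr4 α (vh_not_dvd hr hs hrs hN') ⟨s, hN'⟩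
    have hγ : Quaternion.normSq γ = (s : ℤ) := by
      rw [hβ, map_mul, β.norm] at hN'
      exact mul_left_cancel₀ hrz hN'
    have hm : γ ∈ OO := by
      apply vh_mem_of_mul hr4
      have : (r : ℍ[ℤ]) * γ = star β.val * α := by
        rw [hβ, ← mul_assoc, vh_star_mul]
      rw [this]
      exact OO.mul_mem (OO_star β.mem) hα
    exact ⟨(β, ⟨γ, hm, hγ⟩), Subtype.ext hβ.symm⟩

/-- the involution -/
def vh_inv {r : ℕ} (a : SS r) : SS r := ⟨star a.val, OO_star a.mem, by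
  rw [Quaternion.normSq_star]; exact a.norm⟩

lemma vh_inv_val {r : ℕ} (a : SS r) : (vh_inv a).val = star a.val := rfl

lemma vh_inv_inv {r : ℕ} (a : SS r) : vh_inv (vh_inv a) = a := SS.ext (by
  rw [vh_inv_val, vh_inv_val, star_star])

lemma vh_alg1 {r s : ℕ} (hr : r ≠ 0) (a a' : SS r) (b b' : SS s)
    (h : a.val * b.val = b'.val * a'.val) :
    star a.val * b'.val = b.val * star a'.val := by
  have hr0 : (r : ℍ[ℤ]) ≠ 0 := by
    intro h0
    have := congrArg (fun y : ℍ[ℤ] => y.re) h0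
    simp only [Quaternion.re_natCast, Quaternion.re_zero] at this
    exact hr (by exact_mod_cast this)
  apply mul_left_cancel₀ hr0
  calc (r : ℍ[ℤ]) * (star a.val * b'.val) = star a.val * b'.val * (r : ℍ[ℤ]) :=
        (Nat.cast_commute r _).eq
    _ = star a.val * b'.val * (a'.val * star a'.val) := by rw [vh_mul_star]
    _ = star a.val * (b'.val * a'.val) * star a'.val := by simp only [mul_assoc]
    _ = star a.val * (a.val * b.val) * star a'.val := by rw [h]
    _ = (star a.val * a.val) * (b.val * star a'.val) := by simp only [mul_assoc]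
    _ = (r : ℍ[ℤ]) * (b.val * star a'.val) := by rw [vh_star_mul]

/-- N4 -/
theorem vh_proof (h1 : Stmt_exists) (h2 : Stmt_unique) : Stmt_vh := by
  intro p q hp hq hp4 hq4 hpq
  let e1 : SS p × SS q ≃ vh_T ((p : ℤ) * q) :=
    Equiv.ofBijective _ (vh_bij h1 h2 hp hq hp4 hpq ((p : ℤ) * q) rfl)
  let e2 : SS q × SS p ≃ vh_T ((p : ℤ) * q) :=
    Equiv.ofBijective _ (vh_bij h1 h2 hq hp hq4 hpq.symm ((p : ℤ) * q) (mul_comm _ _))
  let f : SS p × SS q ≃ SS q × SS p := e1.trans e2.symm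
  have hf : ∀ x : SS p × SS q, x.1.val * x.2.val = (f x).1.val * (f x).2.val := by
    intro x
    have : e2 (f x) = e1 x := by simp [f]
    exact (congrArg Subtype.val this).symm
  have hf' : ∀ (x : SS p × SS q) (y : SS q × SS p),
      x.1.val * x.2.val = y.1.val * y.2.val → f x = y := by
    intro x y h
    have : e1 x = e2 y := Subtype.ext h
    simp [f, this]
  refine ⟨{ invA := vh_inv, invB := vh_inv, vh := f, invA_invA := vh_inv_inv,
            invB_invB := vh_inv_inv, h1 := ?_, h2 := ?_ }, ?_, ?_, ?_⟩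
  · intro a b
    apply hf'
    exact vh_alg1 hp.ne_zero a _ b _ (hf (a, b))
  · intro a b
    apply hf'
    have h3 : (f (a, b)).1.val * (f (a, b)).2.val = a.val * b.val := (hf (a, b)).symm
    exact (vh_alg1 hq.ne_zero (f (a, b)).1 b (f (a, b)).2 a h3).symm
  · intro a; rfl
  · intro b; rfl
  · intro a b; exact hf (a, b)

end TauQ
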